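import Pool.Agent.X42.FlowH
import Pool.Agent.TH362.TF.Contr

/-!
Six even subgraphs with every edge in exactly four of them.
-/

set_option autoImplicit false
set_option linter.unusedSectionVars false
set_option linter.unusedDecidableInType false
set_option linter.unusedFintypeInType false

namespace Pool.Agent.X42.FewCover

open Finset Pool.Agent.TH362.TF Pool.Agent.TH362.TF.Red
open Pool.Agent.X42.FlowH
open Pool.Agent.TH362.TF.Contr (nb_inj nb_ne padj_nb struct)
open Pool.Agent.TH362.TF.Str (joins_other)

/-- the alternating form -/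
def lam (x : F) : F →+ ZMod 2 where
  toFun y := x.1 * y.2 + x.2 * y.1
  map_zero' := by simp
  map_add' := by revert x; decide

/-- the non-zero values, twice -/
def av : Fin 6 → F := ![(1, 0), (0, 1), (1, 1), (1, 0), (0, 1), (1, 1)]

theorem lam_count : ∀ y : F, y ≠ 0 → (univ.filter (fun i : Fin 6 => lam (av i) y = 1)).card = 4 := by
  decide +kernel

/-- the edges of the six perfect matchings of the Petersen graph -/
def idx : Fin 6 → Fin 10 → Fin 3 := ![
  ![2, 2, 2, 2, 2, 2, 2, 2, 2, 2],
  ![2, 0, 1, 0, 1, 2, 0, 0, 1, 1],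
  ![1, 2, 0, 1, 0, 1, 2, 0, 0, 1],
  ![0, 1, 2, 0, 1, 1, 1, 2, 0, 0],
  ![1, 0, 1, 2, 0, 0, 1, 1, 2, 0],
  ![0, 1, 0, 1, 2, 0, 0, 1, 1, 2]]

/-- the neighbour in the matching -/
def mate (i : Fin 6) (k : Fin 10) : Fin 10 := nb k (idx i k)

theorem mate_mate : ∀ i k, mate i (mate i k) = k := by decide +kernel

theorem idx_count : ∀ (k : Fin 10) (j : Fin 3), (univ.filter (fun i : Fin 6 => idx i k = j)).card =
    2 := by decide +kernel

theorem lam_fact : ∀ (y : Fin 3 → F), (∀ j, y j ≠ 0) → y 0 + y 1 + y 2 = 0 →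
    (∀ a j, lam (y a) (y j) = if a = j then 0 else 1) ∧ ∀ x : F, x ≠ 0 → ∃ m, x = y m := by
  have h : ∀ a b c : F, a ≠ 0 → b ≠ 0 → c ≠ 0 → a + b + c = 0 →
      (∀ i j : Fin 3, lam (![a, b, c] i) (![a, b, c] j) = if i = j then 0 else 1) ∧
      ∀ x : F, x ≠ 0 → ∃ m : Fin 3, x = ![a, b, c] m := by decide +kernel
  intro y hy hs
  have h1 := h (y 0) (y 1) (y 2) (hy 0) (hy 1) (hy 2) hs
  have h2 : ∀ j, ![y 0, y 1, y 2] j = y j := by
    intro j
    fin_cases j <;> rfl
  simpa only [h2] using h1

theorem lam_count2 (k : Fin 10) (y : Fin 3 → F) (hy : ∀ j, y j ≠ 0) (hs : y 0 + y 1 + y 2 = 0)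
    (x : F) (hx : x ≠ 0) : (univ.filter (fun i : Fin 6 => lam (y (idx i k)) x = 1)).card = 4 := by
  obtain ⟨h1, h2⟩ := lam_fact y hy hs
  obtain ⟨m, rfl⟩ := h2 x hx
  have h3 : univ.filter (fun i : Fin 6 => lam (y (idx i k)) (y m) = 1) =
      univ \ univ.filter (fun i : Fin 6 => idx i k = m) := by
    ext i
    simp only [mem_filter, mem_univ, true_and, mem_sdiff]
    rw [h1]
    by_cases h : idx i k = m
    · simp [h]
    · simp [h]
  rw [h3, card_sdiff_of_subset (filter_subset _ _), idx_count, card_univ, Fintype.card_fin]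

variable {V E : Type} [Fintype V] [DecidableEq V] [Fintype E] [DecidableEq E]

/-- the sum of the values of a flow over the three edges at a class -/
theorem class_sum {s t : E → V} {κ : V → Fin 10} (h : IsPQ s t univ κ) (k : Fin 10)
    (e : Fin 3 → E) (he : ∀ j, Joins κ s t k (nb k j) (e j)) {φ : E → F}
    (hφ : ∀ v, κ v = k → Cons s t univ φ v) : φ (e 0) + φ (e 1) + φ (e 2) = 0 := by
  have h1 := flow_cut (s := s) (t := t) (S := univ) (φ := φ) (fun v => decide (κ v = k)) (by
    intro v hv
    exact hφ v (by simpa using hv))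
  rw [Str.cut_pq h k e (fun j => ⟨mem_univ _, he j⟩), Finset.sum_image] at h1
  · rw [Fin.sum_univ_three] at h1
    exact h1
  · intro i _ j _ hij
    have h2 := he i
    rw [hij] at h2
    exact nb_inj k i j (joins_other (nb_ne k i).symm h2 (he j))

theorem cover {s t : E → V} (h1 : N1 s t univ) (h2 : ¬ Bad s t univ) :
    ∃ g : Fin 6 → E → ZMod 2,
      (∀ i v, ∑ e, ((if s e = v then g i e else 0) + (if t e = v then g i e else 0)) = 0) ∧
      ∀ e, (univ.filter (fun i => g i e = 1)).card = 4 := by
  classical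
  have htm : ∀ (c : F) (φ : E → F) (v : V), Cons s t univ φ v →
      ∑ e, ((if s e = v then lam c (φ e) else 0) + (if t e = v then lam c (φ e) else 0)) = 0 := by
    intro c φ v hv
    have h3 : ∑ e, ((if s e = v then lam c (φ e) else 0) + (if t e = v then lam c (φ e) else 0)) =
        lam c (∑ e, ((if s e = v then φ e else 0) + (if t e = v then φ e else 0))) := by
      rw [map_sum]
      refine Finset.sum_congr rfl fun e _ => ?_
      rw [map_add]
      congr 1
      · split_ifs
        · rfl
        · rw [map_zero]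
      · split_ifs
        · rfl
        · rw [map_zero]
    have h4 : ∑ e, ((if s e = v then φ e else 0) + (if t e = v then φ e else 0)) = 0 := hv
    rw [h3, h4, map_zero]
  rcases mainB s t univ h1 h2 with ⟨φ, hφ1, hφ2⟩ | ⟨κ, hκ⟩
  · exact ⟨fun i e => lam (av i) (φ e), fun i v => htm (av i) φ v (hφ2 v),
      fun e => lam_count _ (hφ1 e (mem_univ e))⟩
  · choose φ hφ using fun k => sideInn h1 h2 hκ k
    choose ee he1 he2 using fun k => struct s t κ hκ k
    have hyn : ∀ k j, φ k (ee k j) ≠ 0 := by
      intro k j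
      refine (hφ k).1 _ (mem_univ _) ?_
      rcases he1 k j with ⟨a, _⟩ | ⟨_, b⟩
      · exact Or.inl a
      · exact Or.inr b
    have hys : ∀ k, φ k (ee k 0) + φ k (ee k 1) + φ k (ee k 2) = 0 := fun k =>
      class_sum hκ k (ee k) (he1 k) (hφ k).2
    set g : Fin 6 → E → ZMod 2 := fun i x => if κ (s x) = κ (t x) then
      lam (φ (κ (s x)) (ee (κ (s x)) (idx i (κ (s x))))) (φ (κ (s x)) x) else
      (if mate i (κ (s x)) = κ (t x) then 0 else 1) with hg
    have key : ∀ (i : Fin 6) (k : Fin 10) (x : E), κ (s x) = k ∨ κ (t x) = k →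
        g i x = lam (φ k (ee k (idx i k))) (φ k x) := by
      intro i k x hx
      by_cases hin : κ (s x) = κ (t x)
      · have h3 : κ (s x) = k := by
          rcases hx with hx | hx
          · exact hx
          · rw [hin]; exact hx
        rw [hg]
        simp only [if_pos hin]
        rw [h3]
      · have h3 : ¬ (κ (s x) = k ↔ κ (t x) = k) := by
          intro hh
          rcases hx with hx | hx
          · exact hin (hx.trans (hh.1 hx).symm)
          · exact hin ((hh.2 hx).trans hx.symm)
        obtain ⟨j, rfl⟩ := he2 k x h3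
        obtain ⟨h4, -⟩ := lam_fact (fun j => φ k (ee k j)) (hyn k) (hys k)
        have h5 := h4 (idx i k) j
        rw [h5, hg]
        simp only [if_neg hin]
        have h6 : (mate i (κ (s (ee k j))) = κ (t (ee k j))) ↔ idx i k = j := by
          rcases he1 k j with ⟨a, b⟩ | ⟨a, b⟩
          · rw [a, b]
            unfold mate
            exact ⟨fun hh => nb_inj k _ _ hh, fun hh => by rw [hh]⟩
          · rw [a, b]
            constructor
            · intro hh
              have h7 : mate i (mate i (nb k j)) = mate i k := congrArg _ hh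
              rw [mate_mate] at h7
              exact (nb_inj k _ _ h7).symm
            · intro hh
              have h7 : nb k j = mate i k := by unfold mate; rw [hh]
              rw [h7, mate_mate]
        simp only [h6]
    refine ⟨g, fun i v => ?_, fun x => ?_⟩
    · refine Eq.trans ?_ (htm (φ (κ v) (ee (κ v) (idx i (κ v)))) (φ (κ v)) v ((hφ (κ v)).2 v rfl))
      refine Finset.sum_congr rfl fun e _ => ?_
      congr 1
      · by_cases h3 : s e = v
        · rw [if_pos h3, if_pos h3]
          exact key i (κ v) e (Or.inl (by rw [h3]))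
        · rw [if_neg h3, if_neg h3]
      · by_cases h3 : t e = v
        · rw [if_pos h3, if_pos h3]
          exact key i (κ v) e (Or.inr (by rw [h3]))
        · rw [if_neg h3, if_neg h3]
    · have h3 : univ.filter (fun i => g i x = 1) = univ.filter (fun i : Fin 6 =>
          lam ((fun j => φ (κ (s x)) (ee (κ (s x)) j)) (idx i (κ (s x)))) (φ (κ (s x)) x) = 1) := by
        refine Finset.filter_congr fun i _ => ?_
        rw [key i (κ (s x)) x (Or.inl rfl)]
      rw [h3]
      exact lam_count2 _ _ (hyn _) (hys _) _ ((hφ (κ (s x))).1 x (mem_univ _) (Or.inl rfl))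

end Pool.Agent.X42.FewCover
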