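import Pool.Agent.X42.FlowSplit
import Pool.Agent.Y358.IN.Ind2
import Pool.Agent.Y358.IN.Dirac2
import Pool.Agent.Y335.FL.Main
import Pool.Agent.Y335.FL.Ahl

/-! Nowhere-zero flows modulo 5 in graphs with few vertices of odd degree. -/

set_option autoImplicit false
set_option linter.unusedSectionVars false

namespace Pool.Agent.X42.FlowSplit

open Finset Pool.Agent.H185F Pool.Agent.TH676.Z
open Pool.Agent.H239R2.Cover (ecut mem_ecut)

variable {V E : Type} [Fintype V] [DecidableEq V] [Fintype E] [DecidableEq E]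

/-- few independent vertices of odd degree -/
theorem flow_of_ind {a : ℕ} {S : Finset V} (ha : 2 * a + S.card ≤ 125) (src dst : E → V)
    (hI : Ind a S src dst) (hb : ∀ Y : Finset V, (ecut src dst Y).card ≠ 1) :
    FlowOn src dst ∅ ∅ := by
  rw [flowOn_iff]
  refine reduce (Q := Ind a S) (fun F s d h => ind_flip F s d h)
    (fun s d e f y hef he hf he' hf' hy h => ind_split s d e f y hef he hf he' hf' hy h)
    ?_ _ src dst le_rfl (oddConn_of_bridgeless src dst hb) hI
  intro s d hc hI h0
  rw [← flowOn_iff]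
  refine Pool.Agent.Y358.IN.flow_of_ClJ Pool.Agent.Y335.FL.contract_all s d
    ⟨S, fun I h1 h2 h3 => ?_⟩ (br_of_oddConn hc)
  have := hI I (fun x hx => ⟨h1 x hx, (dg_odd hc h0 x).1 (h2 x hx)⟩) h3
  omega

/-- small weight of the vertices of odd degree -/
theorem flow_of_wsum (src dst : E → V) (hw : wsum src dst < 126)
    (hb : ∀ Y : Finset V, (ecut src dst Y).card ≠ 1) : FlowOn src dst ∅ ∅ := by
  classical
  rw [flowOn_iff]
  refine reduce (Q := fun s d => wsum s d < 126)
    (fun F s d h => by rw [wsum_flip]; exact h)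
    (fun s d e f y hef he hf he' hf' hy h =>
      (wsum_split s d e f y hef he hf he' hf' hy).trans_lt h)
    ?_ _ src dst le_rfl (oddConn_of_bridgeless src dst hb) hw
  intro s d hc hw h0
  rw [← flowOn_iff]
  have hnt : ∀ v, Pool.Agent.Y358.IN.nt s d v = no s d v := by
    intro v
    unfold Pool.Agent.Y358.IN.nt no
    exact filter_congr fun w _ => and_congr Iff.rfl (dg_odd hc h0 w)
  refine Pool.Agent.Y358.IN.flow_of_weight' Pool.Agent.Y335.FL.contract_all
    Pool.Agent.Y335.FL.ahl s d (lt_of_eq_of_lt ?_ hw) (br_of_oddConn hc)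
  unfold wsum
  refine sum_congr (filter_congr fun v _ => dg_odd hc h0 v) fun v _ => ?_
  unfold Pool.Agent.Y358.IN.wu wo
  rw [hnt]

end Pool.Agent.X42.FlowSplit
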