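import Pool.Agent.X42.FlowH

/-!
Definitions for the statements about multigraphs with few pairwise disjoint vertex sets with small
boundaries. A multigraph with vertex set `V` and edge set `E` is given by two maps `s t : E → V`
(the ends of the edges; loops and parallel edges are allowed).
-/

set_option autoImplicit false
set_option linter.unusedSectionVars false
set_option linter.unusedDecidableInType false
set_option linter.unusedFintypeInType false

namespace Pool.Agent.X42.FewCuts

variable {V E : Type}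

/-- The number of edges with exactly one end in `X`. -/
noncomputable def boundary (s t : E → V) (X : Set V) : ℕ :=
  {e | ¬ (s e ∈ X ↔ t e ∈ X)}.ncard

/-- For all pairwise disjoint vertex sets `X 0, ..., X (m - 1)`, where `18 ≤ m`, whose numbers of
boundary edges are odd, the sum of these numbers is larger than `4 m - 6`. -/
def NoLightFamily (s t : E → V) : Prop :=
  ∀ (m : ℕ) (X : Fin m → Set V), 18 ≤ m → (∀ i j, i ≠ j → Disjoint (X i) (X j)) →
    (∀ i, Odd (boundary s t (X i))) → 4 * m < ∑ i, boundary s t (X i) + 6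

/-- There are no seventeen pairwise disjoint vertex sets whose numbers of boundary edges are odd
and at most nine. -/
def NoSeventeen (s t : E → V) : Prop :=
  ¬ ∃ X : Fin 17 → Set V, (∀ i j, i ≠ j → Disjoint (X i) (X j)) ∧
    ∀ i, Odd (boundary s t (X i)) ∧ boundary s t (X i) ≤ 9

/-- For some `d ≥ 10` every vertex has at least `d` different neighbours and the number of the
vertices is less than `17 (d + 1)`. -/
def ManyNeighbours (s t : E → V) : Prop :=
  ∃ d, 10 ≤ d ∧ Nat.card V < 17 * (d + 1) ∧
    ∀ v, d ≤ {w | w ≠ v ∧ ∃ e, (s e = v ∧ t e = w) ∨ (s e = w ∧ t e = v)}.ncard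

/-- One of the three conditions above holds. -/
def FewSmallCuts (s t : E → V) : Prop :=
  NoLightFamily s t ∨ NoSeventeen s t ∨ ManyNeighbours s t

section

open Finset Pool.Agent.TH362.TF Pool.Agent.X42.FlowH

variable [Fintype V] [DecidableEq V] [Fintype E] [DecidableEq E]

theorem bn_eq (s t : E → V) (X : Finset V) : bn s t univ X = boundary s t (X : Set V) := by
  unfold bn boundary cut
  rw [← Set.ncard_coe_finset]
  congr 1
  ext e
  simp only [coe_filter, mem_univ, true_and, Set.mem_ofPred_eq, mem_coe]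
  by_cases h1 : s e ∈ X <;> by_cases h2 : t e ∈ X <;> simp [h1, h2]

theorem big_boundary {s t : E → V} {d : ℕ}
    (hd : ∀ v, d ≤ {w | w ≠ v ∧ ∃ e, (s e = v ∧ t e = w) ∨ (s e = w ∧ t e = v)}.ncard)
    (X : Finset V) (h1 : X.Nonempty) (h2 : X.card ≤ d) : d ≤ bn s t univ X := by
  classical
  set N : V → Finset V := fun v => univ.filter
    (fun w => w ≠ v ∧ ∃ e, (s e = v ∧ t e = w) ∨ (s e = w ∧ t e = v)) with hN
  have hNd : ∀ v, d ≤ (N v).card := by
    intro v
    refine (hd v).trans (le_of_eq ?_)
    rw [← Set.ncard_coe_finset]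
    congr 1
    ext w
    simp only [hN, coe_filter, mem_univ, true_and, Set.mem_ofPred_eq]
  have hout : ∀ v ∈ X, d + 1 - X.card ≤ (N v \ X).card := by
    intro v hv
    have h3 : (N v ∩ X) ⊆ X.erase v := by
      intro w hw
      rw [mem_inter, hN, mem_filter] at hw
      exact mem_erase.2 ⟨hw.1.2.1, hw.2⟩
    have h4 := card_le_card h3
    rw [card_erase_of_mem hv] at h4
    have h5 := card_sdiff_add_card_inter (N v) X
    have h6 := hNd v
    have h7 := Finset.card_pos.2 h1
    omega
  set P : Finset (V × V) := X.biUnion (fun v => (N v \ X).image (fun w => (v, w))) with hP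
  have hPc : P.card = ∑ v ∈ X, (N v \ X).card := by
    rw [hP, card_biUnion]
    · refine Finset.sum_congr rfl fun v _ => ?_
      rw [card_image_of_injective]
      intro a b hab
      exact (Prod.ext_iff.1 hab).2
    · intro a _ b _ hab
      show Disjoint _ _
      rw [Finset.disjoint_left]
      intro p hp hp'
      obtain ⟨w, _, rfl⟩ := mem_image.1 hp
      obtain ⟨w', _, h3⟩ := mem_image.1 hp'
      exact hab (Prod.ext_iff.1 h3).1.symm
  have hPm : ∀ p ∈ P, p.1 ∈ X ∧ p.2 ∉ X ∧
      ∃ e, (s e = p.1 ∧ t e = p.2) ∨ (s e = p.2 ∧ t e = p.1) := by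
    intro p hp
    rw [hP, mem_biUnion] at hp
    obtain ⟨v, hv, hp⟩ := hp
    obtain ⟨w, hw, rfl⟩ := mem_image.1 hp
    rw [mem_sdiff, hN, mem_filter] at hw
    exact ⟨hv, hw.2, hw.1.2.2⟩
  have hle : P.card ≤ bn s t univ X := by
    have hch : ∀ p : {p // p ∈ P}, ∃ e, (s e = p.1.1 ∧ t e = p.1.2) ∨
        (s e = p.1.2 ∧ t e = p.1.1) := fun p => (hPm p.1 p.2).2.2
    choose g hg using hch
    have h3 : (P.attach.image g) ⊆ cut s t univ (fun v => decide (v ∈ X)) := by
      intro e he
      obtain ⟨p, _, rfl⟩ := mem_image.1 he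
      unfold cut
      refine mem_filter.2 ⟨mem_univ _, ?_⟩
      have h4 := (hPm p.1 p.2).1
      have h5 := (hPm p.1 p.2).2.1
      rcases hg p with ⟨h6, h7⟩ | ⟨h6, h7⟩
      · rw [h6, h7]; simp [h4, h5]
      · rw [h6, h7]; simp [h4, h5]
    have h4 := card_le_card h3
    rw [card_image_of_injective, card_attach] at h4
    · exact h4
    · intro p q hpq
      have h5 := hg p
      have h6 := hg q
      rw [hpq] at h5
      have hp1 := (hPm p.1 p.2).1
      have hp2 := (hPm p.1 p.2).2.1
      have hq1 := (hPm q.1 q.2).1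
      have hq2 := (hPm q.1 q.2).2.1
      apply Subtype.ext
      rcases h5 with ⟨a, b⟩ | ⟨a, b⟩ <;> rcases h6 with ⟨c, e⟩ | ⟨c, e⟩
      · exact Prod.ext (a.symm.trans c) (b.symm.trans e)
      · exact absurd ((a.symm.trans c) ▸ hp1) hq2
      · exact absurd ((b.symm.trans e) ▸ hp1) hq2
      · exact Prod.ext (b.symm.trans e) (a.symm.trans c)
  have hsum : ∑ v ∈ X, (d + 1 - X.card) ≤ ∑ v ∈ X, (N v \ X).card :=
    Finset.sum_le_sum fun v hv => hout v hv
  rw [Finset.sum_const, smul_eq_mul] at hsum
  have h7 := Finset.card_pos.2 h1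
  have h8 : d ≤ X.card * (d + 1 - X.card) := by
    obtain ⟨a, ha⟩ : ∃ a, X.card = a + 1 := ⟨X.card - 1, by omega⟩
    obtain ⟨b, hb⟩ : ∃ b, d = a + 1 + b := ⟨d - (a + 1), by omega⟩
    rw [ha, hb]
    have h9 : a + 1 + b + 1 - (a + 1) = b + 1 := by omega
    rw [h9]
    have h10 : (a + 1) * (b + 1) = a * b + (a + 1 + b) := by ring
    rw [h10]
    exact Nat.le_add_left _ _
  omega

theorem not_bad {s t : E → V} (h1 : N1 s t univ) (h : FewSmallCuts s t) : ¬ Bad s t univ := by
  classical
  have h17 : NoSeventeen s t → ¬ Bad s t univ := by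
    intro h2 hb
    obtain ⟨X, hd, hX⟩ := seventeen_of_bad h1 hb
    apply h2
    refine ⟨fun i => (X i : Set V), fun i j hij => ?_, fun i => ?_⟩
    · exact Finset.disjoint_coe.2 (hd i j hij)
    · show Odd (boundary s t (X i : Set V)) ∧ boundary s t (X i : Set V) ≤ 9
      rw [← bn_eq]
      exact hX i
  rcases h with h2 | h2 | h2
  · rintro ⟨m, X, h3, h4, h5, h6⟩
    have h7 := h2 m (fun i => (X i : Set V)) h3 (fun i j hij => Finset.disjoint_coe.2 (h4 i j hij))
      (fun i => by rw [← bn_eq]; exact h5 i)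
    have h8 : ∑ i, boundary s t (X i : Set V) = ∑ i, bn s t univ (X i) :=
      Finset.sum_congr rfl fun i _ => (bn_eq s t (X i)).symm
    rw [h8] at h7
    omega
  · exact h17 h2
  · intro hb
    obtain ⟨X, hd, hX⟩ := seventeen_of_bad h1 hb
    obtain ⟨d, h10, hn, hdeg⟩ := h2
    have h3 : ∀ i, d + 1 ≤ (X i).card := by
      intro i
      by_contra hcon
      have hne : (X i).Nonempty := by
        by_contra hemp
        rw [Finset.not_nonempty_iff_eq_empty] at hemp
        have h4 := (hX i).1
        rw [hemp] at h4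
        unfold bn cut at h4
        simp at h4
      have h5 := big_boundary hdeg (X i) hne (by omega)
      have h6 := (hX i).2
      omega
    have h4 : ∑ i, (X i).card = (univ.biUnion X).card := by
      rw [card_biUnion]
      intro i _ j _ hij
      exact hd i j hij
    have h5 : (univ.biUnion X).card ≤ Fintype.card V := by
      rw [← Finset.card_univ]
      exact card_le_card (subset_univ _)
    have h6 : ∑ i : Fin 17, (d + 1) ≤ ∑ i, (X i).card := Finset.sum_le_sum fun i _ => h3 i
    rw [Finset.sum_const, Finset.card_univ, Fintype.card_fin, smul_eq_mul] at h6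
    rw [Nat.card_eq_fintype_card] at hn
    omega

end

end Pool.Agent.X42.FewCuts
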