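import Pool.Agent.TH362.FF.Fam
import Pool.Agent.Y358.IN.Dirac2

/-!
# Graphs without 126 disjoint vertex sets with three boundary edges

A counterexample to the 5-flow conjecture which is minimal in a class closed under contractions has
girth at least twelve, all degrees at least three and at most `(5 n - 6) / 3` edges.  By the Moore
bound for irregular graphs it has at least 126 vertices of degree three.
-/

set_option autoImplicit false
set_option linter.unusedSectionVars false

namespace Pool.Agent.X42.FlowCuts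

open Finset Pool.Agent.TH676.Z Pool.Agent.Y335.FL Pool.Agent.Y358.IN

variable {V E : Type} [Fintype V] [DecidableEq V] [Fintype E] [DecidableEq E]

/-- a sum over the proper edges -/
theorem bd_nl (src dst : E → V) (φ : E → ZMod 5) (v : V) :
    Pool.Agent.TH362.FF.bd src dst (Crit.nl src dst) φ v = bd src dst φ v := by
  unfold Pool.Agent.TH362.FF.bd bd
  refine sum_subset (subset_univ _) fun e _ he => ?_
  have h : src e = dst e := by
    by_contra hne
    exact he (Crit.mem_nl.2 hne)
  rw [h, sub_self]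

theorem n1_of_br {src dst : E → V} (h : Br src dst ∅ ∅) :
    Pool.Agent.TH362.TF.N1 src dst (Crit.nl src dst) := by
  intro x hx
  have h1 := h (univ.filter (fun v => x v = true)) (disjoint_empty_right _)
  rw [sdiff_empty] at h1
  apply h1
  rw [← hx]
  congr 1
  ext e
  unfold Pool.Agent.TH362.TF.cut
  rw [Crit.mem_crs]
  simp only [mem_filter, mem_univ, true_and, Crit.mem_nl]
  constructor
  · intro h2
    refine ⟨fun h3 => h2 (by rw [h3]), fun h3 => h2 (by rw [h3])⟩
  · rintro ⟨-, h2⟩ h3
    apply h2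
    by_cases h4 : x (src e) = true
    · rw [h4, h3.1 h4]
    · have h5 : ¬ x (dst e) = true := fun h => h4 (h3.2 h)
      rw [Bool.not_eq_true] at h4 h5
      rw [h4, h5]

/-- the boundary in a quotient -/
theorem bd_quot (src dst : E → V) (f : V → V) (φ : E → ZMod 5) (v : V) :
    bd (fun e => f (src e)) (fun e => f (dst e)) φ v =
      ∑ w ∈ univ.filter (fun w => f w = v), bd src dst φ w := by
  unfold bd
  rw [sum_comm]
  refine sum_congr rfl fun e _ => ?_
  rw [sum_sub_distrib, sum_ite_eq, sum_ite_eq]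
  simp only [mem_filter, mem_univ, true_and]

theorem minR_of_minC {src dst : E → V} (hM : MinC src dst) :
    Pool.Agent.TH362.FF.MinR src dst (Crit.nl src dst) := by
  refine ⟨n1_of_br hM.br, ?_, ?_⟩
  · rintro ⟨φ, h1, h2⟩
    apply hM.nf
    refine ⟨fun e => if e ∈ Crit.nl src dst then φ e else 1, fun v => ?_,
      fun e he => absurd he (notMem_empty _), fun e _ _ => ?_⟩
    · rw [← h2 v, bd_nl]
      refine Crit.bd_congr src dst _ _ (fun e he => ?_) v
      rw [if_pos (Crit.mem_nl.2 he)]
    · by_cases he : e ∈ Crit.nl src dst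
      · simp only [if_pos he]
        exact h1 e he
      · simp only [if_neg he]
        decide
  · intro f S' hS hf hlt
    obtain ⟨e0, he0, he0'⟩ : ∃ e0 ∈ Crit.nl src dst, e0 ∉ S' := by
      by_contra hcon
      push Not at hcon
      have := card_le_card (show Crit.nl src dst ⊆ S' from hcon)
      omega
    obtain ⟨g, hg0, _, hg2⟩ := hM.crit (univ \ S') ⟨e0, by simp [he0'], Crit.mem_nl.1 he0⟩
    refine ⟨g, fun e he => hg2 e (notMem_empty _) (by simp [he]), fun v => ?_⟩
    have h5 : Pool.Agent.TH362.FF.bd (fun e => f (src e)) (fun e => f (dst e)) S' g v =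
        bd (fun e => f (src e)) (fun e => f (dst e)) g v := by
      unfold Pool.Agent.TH362.FF.bd bd
      refine sum_subset (subset_univ _) fun e _ he => ?_
      have h : f (src e) = f (dst e) := by
        by_cases hne : e ∈ Crit.nl src dst
        · exact hf e hne he
        · rw [Crit.mem_nl, not_not] at hne
          rw [hne]
      simp only [h, sub_self]
    rw [h5, bd_quot]
    exact sum_eq_zero fun w _ => hg0 w

theorem deg_nl (src dst : E → V) (v : V) :
    Pool.Agent.TH362.TF.deg src dst (Crit.nl src dst) v = dg src dst v := by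
  unfold Pool.Agent.TH362.TF.deg dg
  rw [card_filter, ← sum_subset (subset_univ (Crit.nl src dst))]
  · refine sum_congr rfl fun e he => ?_
    have hne := Crit.mem_nl.1 he
    by_cases h1 : src e = v
    · have h2 : ¬ dst e = v := fun h => hne (h1.trans h.symm)
      simp [h1, h2, Ne.symm h2]
    · by_cases h2 : dst e = v
      · simp [h1, h2]
      · simp [h1, h2]
  · intro e _ he
    rw [Crit.mem_nl, not_not] at he
    rw [if_neg (fun h => h.1 he)]

/-- the class of the graphs without `k` disjoint sets with different boundaries of size three -/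
def ClF (k : ℕ) (src dst : E → V) : Prop := ¬ Pool.Agent.TH362.FF.Fam src dst univ k

theorem ccF (k : ℕ) : CC (ClF (V := V) (E := E) k) := by
  intro src dst e h _ hfam
  exact h (Pool.Agent.TH362.FF.fam_quot (f := ctr (src e) (dst e)) (Subset.refl _)
    (fun e _ he => absurd (mem_univ e) he) hfam)

theorem cut_nl (src dst : E → V) (x : V → Bool) :
    Pool.Agent.TH362.TF.cut src dst (Crit.nl src dst) x =
      Pool.Agent.TH362.TF.cut src dst univ x := by
  ext e
  unfold Pool.Agent.TH362.TF.cut
  rw [mem_filter, mem_filter, Crit.mem_nl]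
  constructor
  · rintro ⟨_, h⟩
    exact ⟨mem_univ _, h⟩
  · rintro ⟨_, h⟩
    exact ⟨fun h' => h (by rw [h']), h⟩

theorem fam_nl {src dst : E → V} {k : ℕ}
    (h : Pool.Agent.TH362.FF.Fam src dst (Crit.nl src dst) k) :
    Pool.Agent.TH362.FF.Fam src dst univ k := by
  obtain ⟨X, h1, h2, h3⟩ := h
  refine ⟨X, h1, fun i j hij => ?_, fun i => ?_⟩
  · rw [← cut_nl, ← cut_nl]
    exact h2 i j hij
  · rw [← cut_nl]
    exact h3 i

variable {src dst : E → V}

/-- the numbers of vertices of degree three and at least four -/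
theorem sparse (hM : MinC src dst) :
    2 * (univ.filter (fun v => 4 ≤ dg src dst v)).card + 12 ≤
      (univ.filter (fun v => dg src dst v = 3)).card := by
  have h := minR_of_minC hM
  have hs := h.sparse5
  have hp : ∀ v ∈ univ.filter (fun v => dg src dst v ≠ 0),
      10 + 2 * (if 4 ≤ dg src dst v then 1 else 0) ≤
        3 * dg src dst v + (if dg src dst v = 3 then 1 else 0) := by
    intro v hv
    simp only [mem_filter, mem_univ, true_and] at hv
    have h3 : 3 ≤ dg src dst v := by
      rcases h.deg_ge v with h0 | h0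
      · rw [deg_nl] at h0
        exact absurd h0 hv
      · rwa [deg_nl] at h0
    split_ifs <;> omega
  have hsum := sum_le_sum hp
  rw [sum_add_distrib, sum_add_distrib, ← mul_sum, ← mul_sum, sum_const, smul_eq_mul] at hsum
  have e1 : ∑ v ∈ univ.filter (fun v => dg src dst v ≠ 0), dg src dst v =
      2 * (Crit.nl src dst).card := by
    rw [← Pool.Agent.TH362.FF.FinN.sum_deg src dst (Crit.nl src dst)]
    simp only [deg_nl]
    exact sum_filter_ne_zero _
  have e2 : ∑ v ∈ univ.filter (fun v => dg src dst v ≠ 0),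
      (if 4 ≤ dg src dst v then 1 else 0) =
      (univ.filter (fun v => 4 ≤ dg src dst v)).card := by
    rw [← card_filter, filter_filter]
    congr 1
    apply filter_congr
    intro v _
    constructor
    · rintro ⟨_, h⟩
      exact h
    · intro h
      refine ⟨?_, h⟩
      omega
  have e3 : ∑ v ∈ univ.filter (fun v => dg src dst v ≠ 0),
      (if dg src dst v = 3 then 1 else 0) = (univ.filter (fun v => dg src dst v = 3)).card := by
    rw [← card_filter, filter_filter]
    congr 1
    apply filter_congr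
    intro v _
    constructor
    · rintro ⟨_, h⟩
      exact h
    · intro h
      exact ⟨by omega, h⟩
  simp only [deg_nl] at hs
  rw [e1, e2, e3] at hsum
  omega

theorem poly3 {x N : ℝ} (hx : 2 ≤ x) (h : 2 * ∑ i ∈ range 6, x ^ i ≤ N) :
    126 + 258 * (x - 2) ≤ N := by
  refine le_trans ?_ h
  rw [sum_range_succ, sum_range_succ, sum_range_succ, sum_range_succ, sum_range_succ,
    sum_range_succ, sum_range_zero]
  obtain ⟨y, hy, rfl⟩ : ∃ y, 0 ≤ y ∧ x = 2 + y := ⟨x - 2, by linarith, by ring⟩
  have h2 : 0 ≤ y ^ 2 := by positivity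
  have h3 : 0 ≤ y ^ 3 := by positivity
  have h4 : 0 ≤ y ^ 4 := by positivity
  have h5 : 0 ≤ y ^ 5 := by positivity
  nlinarith

/-- the Moore bound -/
theorem moore_min (hc : St_contract) (ha : St_ahl) (hM : MinC src dst)
    (hex : ∃ x y, Adj src dst x y) :
    ∃ N n3 n4 : ℝ, 0 < N ∧ N = n3 + n4 ∧ n3 = ((univ.filter (fun v => dg src dst v = 3)).card : ℝ) ∧
      n4 = ((univ.filter (fun v => 4 ≤ dg src dst v)).card : ℝ) ∧
      126 * N + 258 * n4 ≤ N ^ 2 := by
  classical
  have h3 := threeC hc hM
  have hgi := girthC hc hM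
  set B : Finset V := univ.filter (fun v => ∃ y, Adj src dst v y) with hB
  have hmB : ∀ v, v ∈ B ↔ ∃ y, Adj src dst v y := fun v => by simp [hB]
  let G : SimpleGraph B :=
    { Adj := fun a b => Adj src dst a b
      symm := ⟨fun a b h => GiAux.adj_symm h⟩
      loopless := ⟨fun a h => h.1 rfl⟩ }
  have hGA : ∀ a b : B, G.Adj a b ↔ Adj src dst a b := fun a b => Iff.rfl
  obtain ⟨x0, y0, hxy0⟩ := hex
  have : Nonempty B := ⟨⟨x0, (hmB x0).2 ⟨y0, hxy0⟩⟩⟩
  have hdeg : ∀ a : B, dg src dst a ≤ G.degree a := by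
    intro a
    refine (dg_le_nb hc hM a).trans ?_
    rw [← G.card_neighborFinset_eq_degree]
    have h5 : nb src dst a ⊆ (G.neighborFinset a).map (Function.Embedding.subtype _) := by
      intro w hw
      have hw' : Adj src dst a w := (mem_filter.1 hw).2
      have hwB : w ∈ B := (hmB w).2 ⟨a, GiAux.adj_symm hw'⟩
      rw [mem_map]
      exact ⟨⟨w, hwB⟩, by rw [SimpleGraph.mem_neighborFinset, hGA]; exact hw', rfl⟩
    have h6 := card_le_card h5
    rwa [card_map] at h6
  have hdg3 : ∀ a : B, 3 ≤ dg src dst a := by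
    intro a
    obtain ⟨y, hy⟩ := (hmB a).1 a.2
    exact Ord.three_dg h3 hy
  have hdeg3 : ∀ a : B, 3 ≤ G.degree a := fun a => (hdg3 a).trans (hdeg a)
  have hahl := ha B G (fun a => by have := hdeg3 a; omega) (by
    intro k hk v hv h
    exact hgi k hk (fun i => (v i : V)) (fun i j hij => hv (Subtype.ext hij)) h)
  set N : ℝ := (Fintype.card B : ℝ) with hN
  set m : ℝ := (G.edgeFinset.card : ℝ) with hm
  have hN0 : 0 < N := by
    rw [hN]
    exact_mod_cast Fintype.card_pos
  have hsum : ∑ a : B, (G.degree a : ℝ) = 2 * m := by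
    rw [hm]
    exact_mod_cast G.sum_degrees_eq_twice_card_edges
  set n4 : ℝ := ((univ.filter (fun v => 4 ≤ dg src dst v)).card : ℝ) with hn4
  set n3 : ℝ := ((univ.filter (fun v => dg src dst v = 3)).card : ℝ) with hn3
  have hBc : B = univ.filter (fun v => dg src dst v = 3) ∪
      univ.filter (fun v => 4 ≤ dg src dst v) := by
    ext v
    rw [hmB, mem_union, mem_filter, mem_filter]
    constructor
    · rintro ⟨y, hy⟩
      have := Ord.three_dg h3 hy
      rcases this.lt_or_eq with h | h
      · exact Or.inr ⟨mem_univ _, h⟩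
      · exact Or.inl ⟨mem_univ _, h.symm⟩
    · intro h
      have h4 : 0 < (Ord.sg src dst v).card := by
        rw [← Ord.dg_eq]
        rcases h with h | h
        · rw [h.2]; norm_num
        · have := h.2; omega
      obtain ⟨e, he⟩ := card_pos.1 h4
      obtain ⟨hne, h5 | h5⟩ := Ord.mem_sg.1 he
      · exact ⟨dst e, by rw [← h5]; exact hne, e, Or.inl ⟨h5, rfl⟩⟩
      · exact ⟨src e, by rw [← h5]; exact hne.symm, e, Or.inr ⟨rfl, h5⟩⟩
  have hNe : N = n3 + n4 := by
    rw [hN, hn3, hn4, Fintype.card_coe, hBc, card_union_of_disjoint]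
    · push_cast
      ring
    · rw [disjoint_left]
      intro v h1 h2
      have h1' := (mem_filter.1 h1).2
      have h2' := (mem_filter.1 h2).2
      omega
  have h2m : 3 * N + n4 ≤ 2 * m := by
    rw [← hsum]
    have h6 : ∑ a : B, ((3 : ℝ) + (if 4 ≤ dg src dst a then 1 else 0)) ≤
        ∑ a : B, (G.degree a : ℝ) := by
      refine sum_le_sum fun a _ => ?_
      have h7 := hdeg a
      have h8 := hdg3 a
      split_ifs with h9
      · have : (4 : ℝ) ≤ G.degree a := by exact_mod_cast h9.trans h7
        linarith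
      · have : (3 : ℝ) ≤ G.degree a := by exact_mod_cast h8.trans h7
        linarith
    rw [sum_add_distrib, sum_const, card_univ, nsmul_eq_mul] at h6
    have h10 : ∑ a : B, (if 4 ≤ dg src dst (a : V) then (1 : ℝ) else 0) = n4 := by
      rw [sum_coe_sort B (fun a => if 4 ≤ dg src dst a then (1 : ℝ) else 0), hn4, card_filter]
      push_cast
      refine sum_subset (subset_univ _) fun v _ hv => ?_
      rw [if_neg]
      intro h11
      exact hv (by rw [hBc]; exact mem_union_right _ (mem_filter.2 ⟨mem_univ _, h11⟩))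
    rw [h10] at h6
    linarith
  have hn40 : 0 ≤ n4 := by rw [hn4]; exact Nat.cast_nonneg _
  set x : ℝ := 2 * m / N - 1 with hx
  have hx2 : 2 + n4 / N ≤ x := by
    rw [hx]
    have : 3 + n4 / N ≤ 2 * m / N := by
      rw [le_div_iff₀ hN0]
      have : n4 / N * N = n4 := by field_simp
      nlinarith
    linarith
  have hdiv : 0 ≤ n4 / N := div_nonneg hn40 hN0.le
  have hNx := poly3 (by linarith) hahl
  refine ⟨N, n3, n4, hN0, hNe, rfl, rfl, ?_⟩
  have h12 : 126 + 258 * (n4 / N) ≤ N := by linarith
  have h13 : (126 + 258 * (n4 / N)) * N ≤ N * N := mul_le_mul_of_nonneg_right h12 hN0.le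
  have h14 : n4 / N * N = n4 := by field_simp
  nlinarith

theorem many3 (hc : St_contract) (ha : St_ahl) (hM : MinC src dst)
    (hex : ∃ x y, Adj src dst x y) :
    126 ≤ (univ.filter (fun v => dg src dst v = 3)).card := by
  obtain ⟨N, n3, n4, h0, h1, h2, h3, h4⟩ := moore_min hc ha hM hex
  have h5 := sparse hM
  by_contra hlt
  push Not at hlt
  have h6 : n3 ≤ 125 := by
    rw [h2]
    exact_mod_cast Nat.lt_succ_iff.1 hlt
  have h7 : 2 * n4 + 12 ≤ n3 := by
    rw [h2, h3]
    exact_mod_cast h5
  rcases Nat.eq_zero_or_pos (univ.filter (fun v => 4 ≤ dg src dst v)).card with h8 | h8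
  · have h9 : n4 = 0 := by rw [h3, h8]; simp
    nlinarith
  · have h9 : 1 ≤ n4 := by rw [h3]; exact_mod_cast h8
    have h10 : N ≤ 182 := by linarith
    have h11 : N - 126 ≤ n4 - 1 := by linarith
    have h12 : 0 ≤ n4 - 1 := by linarith
    have h13 : N * (N - 126) ≤ N * (n4 - 1) := mul_le_mul_of_nonneg_left h11 h0.le
    have h14 : N * (n4 - 1) ≤ 182 * (n4 - 1) := mul_le_mul_of_nonneg_right h10 h12
    nlinarith

/-- **Main step.** -/
theorem flow_of_fam (hc : St_contract) (ha : St_ahl) (s0 d0 : E → V)
    (hF : ¬ Pool.Agent.TH362.FF.Fam s0 d0 univ 126) (hbr : Br s0 d0 ∅ ∅) :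
    FlowOn s0 d0 ∅ ∅ := by
  classical
  by_contra hn
  obtain ⟨s, d, hcl, hM⟩ := exists_minC (ccF 126) s0 d0 hF hbr hn
  by_cases hl : ∀ e, s e = d e
  · exact hM.nf (flow_of_loops hl)
  push Not at hl
  obtain ⟨e, he⟩ := hl
  have h1 := many3 hc ha hM ⟨s e, d e, he, e, Or.inl ⟨rfl, rfl⟩⟩
  refine hcl (fam_nl (Pool.Agent.TH362.FF.fam_deg (minR_of_minC hM) ?_))
  simp only [deg_nl]
  exact h1

end Pool.Agent.X42.FlowCuts
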