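import Mathlib
import Pool.Agent.H319R2.GMoller
import Pool.Agent.H319R2.Bohr
import Pool.Agent.H374R2.W.QL
import Pool.Agent.H374R2.W.QM

set_option autoImplicit false

/-!
Lengths of the cycles of Möller's maps in short intervals: a lower bound for `|b log U - a log A|`
and the number of the integers of an interval which are close to an integer multiple of a number
with such a lower bound.
-/

namespace Pool.Agent.X42.Lens

open Finset

/-- every positive multiple of `log U` has a positive distance from the multiples of `log A` -/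
theorem dist_pos {A U : ℕ} (hA : 2 ≤ A) (hU : 2 ≤ U) (hc : Nat.Coprime A U) (b : ℕ) (hb : 1 ≤ b) :
    ∃ δ : ℝ, 0 < δ ∧ ∀ a : ℕ, δ ≤ |(b : ℝ) * Real.log U - a * Real.log A| := by
  have hlA : 0 < Real.log A := Real.log_pos (by exact_mod_cast hA)
  have hirr := Pool.Agent.H319R2.G.irr_log hU hA hc
  set θ : ℝ := (b : ℝ) * (Real.log U / Real.log A) with hθ
  have hirr2 : Irrational θ := by
    have h1 := hirr.natCast_mul (m := b) (by omega)
    exact h1
  refine ⟨Real.log A * |θ - round θ|, ?_, ?_⟩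
  · apply mul_pos hlA
    rw [abs_pos, sub_ne_zero]
    intro h
    exact hirr2 ⟨((round θ : ℤ) : ℚ), by push_cast; exact h.symm⟩
  · intro a
    have h1 := round_le θ (a : ℤ)
    have e : (b : ℝ) * Real.log U - a * Real.log A = Real.log A * (θ - ((a : ℤ) : ℝ)) := by
      rw [hθ]; push_cast; field_simp
    rw [e, abs_mul, abs_of_pos hlA]
    exact mul_le_mul_of_nonneg_left h1 hlA.le

/-- uniform version for bounded multiples -/
theorem dist_unif {A U : ℕ} (hA : 2 ≤ A) (hU : 2 ≤ U) (hc : Nat.Coprime A U) (B : ℕ) :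
    ∃ δ : ℝ, 0 < δ ∧ ∀ b : ℕ, 1 ≤ b → b ≤ B → ∀ a : ℕ,
      δ ≤ |(b : ℝ) * Real.log U - a * Real.log A| := by
  induction B with
  | zero => exact ⟨1, one_pos, fun b h1 h2 => by omega⟩
  | succ B ih =>
    obtain ⟨δ, hδ, h⟩ := ih
    obtain ⟨δ', hδ', h'⟩ := dist_pos hA hU hc (B + 1) (by omega)
    refine ⟨min δ δ', lt_min hδ hδ', fun b h1 h2 a => ?_⟩
    rcases Nat.lt_or_ge b (B + 1) with h3 | h3
    · exact (min_le_left _ _).trans (h b h1 (by omega) a)
    · have : b = B + 1 := by omega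
      rw [this]
      exact (min_le_right _ _).trans (h' a)

/-- **A lower bound for `|b log U - a log A|`.** -/
theorem meas {A U : ℕ} (hA : 2 ≤ A) (hU : 2 ≤ U) (hc : Nat.Coprime A U) :
    ∃ C : ℝ, 0 < C ∧ ∀ b a : ℕ, 1 ≤ b →
      Real.exp (-(C * (1 + Real.log b) ^ 2)) ≤ |(b : ℝ) * Real.log U - a * Real.log A| := by
  obtain ⟨hY1, hY2, hY3, -⟩ := Pool.Agent.H374R2.W.QM.ceil_facts hA
  obtain ⟨hZ1, hZ2, hZ3, -⟩ := Pool.Agent.H374R2.W.QM.ceil_facts hU
  set Y := ⌈Real.log A⌉₊ with hYdef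
  set Z := ⌈Real.log U⌉₊ with hZdef
  have hlA : 0 < Real.log A := Real.log_pos (by exact_mod_cast hA)
  have hlU : 0 < Real.log U := Real.log_pos (by exact_mod_cast hU)
  have hYr : (1 : ℝ) ≤ Y := by exact_mod_cast hY1
  have hZr : (1 : ℝ) ≤ Z := by exact_mod_cast hZ1
  -- large `b`
  set K : ℝ := 3625 * Z * Real.log A with hK
  have hK0 : 0 < K := by positivity
  obtain ⟨B, hB1, hB⟩ : ∃ B : ℕ, 2 ≤ B ∧ ∀ b : ℕ, B < b → K * (1 + Real.log b) + 1 ≤ b * Real.log U := by
    have h1 := Real.isLittleO_log_id_atTop.bound (show 0 < Real.log U / (2 * K) by positivity)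
    obtain ⟨x0, hx0⟩ := Filter.eventually_atTop.1 h1
    obtain ⟨B, hB⟩ := exists_nat_ge (max (max x0 2) (2 * (K + 1) / Real.log U))
    refine ⟨B, ?_, ?_⟩
    · have : (2 : ℝ) ≤ B := (le_max_right _ _).trans ((le_max_left _ _).trans hB)
      exact_mod_cast this
    · intro b hb
      have hbB : (B : ℝ) ≤ b := by exact_mod_cast hb.le
      have h2 := hx0 b ((le_max_left _ _).trans ((le_max_left _ _).trans (hB.trans hbB)))
      have h3 : 2 * (K + 1) / Real.log U ≤ b := (le_max_right _ _).trans (hB.trans hbB)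
      rw [div_le_iff₀ hlU] at h3
      have hb2 : (2 : ℝ) ≤ b := (le_max_right _ _).trans ((le_max_left _ _).trans (hB.trans hbB))
      simp only [id, Real.norm_eq_abs] at h2
      rw [abs_of_pos (by linarith : (0:ℝ) < b), abs_of_nonneg (Real.log_nonneg (by linarith))] at h2
      have h4 : K * Real.log b ≤ b * Real.log U / 2 := by
        calc K * Real.log b ≤ K * (Real.log U / (2 * K) * b) := mul_le_mul_of_nonneg_left h2 hK0.le
          _ = b * Real.log U / 2 := by field_simp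
      nlinarith
  obtain ⟨δ, hδ, hδb⟩ := dist_unif hA hU hc B
  set C : ℝ := 13050000 * Y * Z + |Real.log δ| + 1 with hC
  have hC0 : 0 < C := by positivity
  have hC1 : 13050000 * (Y : ℝ) * Z ≤ C := by
    have := abs_nonneg (Real.log δ)
    linarith
  have hC2 : Real.exp (-C) ≤ δ := by
    rw [← Real.le_log_iff_exp_le hδ]
    have := neg_abs_le (Real.log δ)
    have h1 : (0 : ℝ) ≤ 13050000 * Y * Z := by positivity
    linarith
  have hC3 : Real.exp (-C) ≤ 1 := by
    rw [Real.exp_le_one_iff]; linarith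
  refine ⟨C, hC0, ?_⟩
  -- the coprime case
  have key : ∀ b a : ℕ, 1 ≤ b → Nat.Coprime a b →
      Real.exp (-(C * (1 + Real.log b) ^ 2)) ≤ |(b : ℝ) * Real.log U - a * Real.log A| := by
    intro b a hb hab
    have hbr : (1 : ℝ) ≤ b := by exact_mod_cast hb
    have hlb : 0 ≤ Real.log b := Real.log_nonneg hbr
    have hsq : 1 ≤ (1 + Real.log b) ^ 2 := by nlinarith
    have hCC : Real.exp (-(C * (1 + Real.log b) ^ 2)) ≤ Real.exp (-C) := by
      apply Real.exp_le_exp.2
      nlinarith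
    rcases Nat.lt_or_ge B b with hbB | hbB
    · set L := ⌈8 * (3 + Real.log b)⌉₊ with hL
      have hL1 : 8 * (3 + Real.log b) ≤ (L : ℝ) := Nat.le_ceil _
      have hL2 : (L : ℝ) < 8 * (3 + Real.log b) + 1 := Nat.ceil_lt_add_one (by positivity)
      have hL3 : (L : ℝ) ≤ 25 * (1 + Real.log b) := by linarith
      have hL4 : 1 ≤ L := by
        have : (1 : ℝ) ≤ L := by linarith
        exact_mod_cast this
      rcases Nat.lt_or_ge a (145 * Z * L) with ha | ha
      · have ha' : (a : ℝ) ≤ 145 * Z * L := by exact_mod_cast ha.le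
        have h1 : (a : ℝ) * Real.log A ≤ K * (1 + Real.log b) := by
          have h2 : (a : ℝ) ≤ 145 * Z * (25 * (1 + Real.log b)) :=
            ha'.trans (mul_le_mul_of_nonneg_left hL3 (by positivity))
          calc (a : ℝ) * Real.log A ≤ 145 * Z * (25 * (1 + Real.log b)) * Real.log A :=
                mul_le_mul_of_nonneg_right h2 hlA.le
            _ = K * (1 + Real.log b) := by rw [hK]; ring
        have h3 := hB b hbB
        refine (hCC.trans hC3).trans (le_trans ?_ (le_abs_self _))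
        linarith
      · have h1 := Pool.Agent.H374R2.W.QL.lfl (A := A) (U := U) (a := a) (b := b) (Y := Y) (Z := Z)
          (L := L) hA hU (le_trans (Nat.mul_pos (Nat.mul_pos (by norm_num) hZ1) hL4) ha) (by omega)
          hab hY1 hZ1 hL4 hY2 hZ2 hY3 hZ3 ha hL1
        refine le_trans ?_ h1.le
        apply Real.exp_le_exp.2
        rw [neg_le_neg_iff]
        have h2 : (L : ℝ) ^ 2 ≤ (25 * (1 + Real.log b)) ^ 2 := pow_le_pow_left₀ (by positivity) hL3 2
        calc 20880 * (Y : ℝ) * Z * (L : ℝ) ^ 2 ≤ 20880 * (Y : ℝ) * Z * (25 * (1 + Real.log b)) ^ 2 :=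
              mul_le_mul_of_nonneg_left h2 (by positivity)
          _ = (13050000 * (Y : ℝ) * Z) * (1 + Real.log b) ^ 2 := by ring
          _ ≤ C * (1 + Real.log b) ^ 2 := mul_le_mul_of_nonneg_right hC1 (by positivity)
    · exact (hCC.trans hC2).trans (hδb b hb hbB a)
  intro b a hb
  obtain ⟨g, b', a', hg, hcop, rfl, rfl⟩ : ∃ g b' a' : ℕ, 0 < g ∧ Nat.Coprime a' b' ∧ b = b' * g ∧
      a = a' * g := by
    have hg : 0 < Nat.gcd a b := Nat.gcd_pos_of_pos_right _ (by omega)
    obtain ⟨a', b', hcop, h1, h2⟩ := Nat.exists_coprime a b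
    exact ⟨Nat.gcd a b, b', a', hg, hcop, h2, h1⟩
  have hb' : 1 ≤ b' := Nat.pos_of_mul_pos_right hb |> fun h => by
    rcases Nat.eq_zero_or_pos b' with h0 | h0
    · rw [h0] at hb; omega
    · exact h0
  have h1 := key b' a' hb' hcop
  have hgr : (1 : ℝ) ≤ g := by exact_mod_cast hg
  have hb'r : (1 : ℝ) ≤ b' := by exact_mod_cast hb'
  have e : ((b' * g : ℕ) : ℝ) * Real.log U - ((a' * g : ℕ) : ℝ) * Real.log A =
      g * ((b' : ℝ) * Real.log U - a' * Real.log A) := by push_cast; ring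
  rw [e, abs_mul, abs_of_pos (by linarith : (0:ℝ) < g)]
  have h2 : Real.log b' ≤ Real.log ((b' * g : ℕ) : ℝ) := by
    apply Real.log_le_log (by linarith)
    push_cast
    nlinarith
  have h0 : 0 ≤ Real.log b' := Real.log_nonneg hb'r
  have h3 : Real.exp (-(C * (1 + Real.log ((b' * g : ℕ) : ℝ)) ^ 2)) ≤
      Real.exp (-(C * (1 + Real.log b') ^ 2)) := by
    apply Real.exp_le_exp.2
    rw [neg_le_neg_iff]
    apply mul_le_mul_of_nonneg_left _ hC0.le
    apply pow_le_pow_left₀ (by linarith)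
    linarith
  have h4 := abs_nonneg ((b' : ℝ) * Real.log U - a' * Real.log A)
  calc _ ≤ _ := h3
    _ ≤ |(b' : ℝ) * Real.log U - a' * Real.log A| := h1
    _ ≤ g * |(b' : ℝ) * Real.log U - a' * Real.log A| := le_mul_of_one_le_left h4 hgr

/-- counting in an interval with a given coprime approximation -/
theorem interval_count (α : ℝ) (q : ℕ) (h : ℤ) (hq : 0 < q) (hcop : IsCoprime h (q : ℤ))
    (hα : |(q : ℝ) * α - h| ≤ 1 / q) (a H : ℕ) (r : ℝ) (hr : 0 ≤ r) (F : Finset ℕ)
    (hF : ∀ p ∈ F, a ≤ p ∧ p < a + H ∧ ∃ o : ℤ, |(p : ℝ) * α - o| ≤ r) :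
    (F.card : ℝ) ≤ ((H : ℝ) / q + 1) * (2 * r * q + 3) := by
  classical
  have hqr : (0 : ℝ) < q := by exact_mod_cast hq
  have hmaps : ∀ p ∈ F, (p - a) / q ∈ range (H / q + 1) := by
    intro p hp
    rw [mem_range]
    apply Nat.lt_succ_of_le
    apply Nat.div_le_div_right
    have := hF p hp
    omega
  have hc : F.card = ∑ b ∈ range (H / q + 1), (F.filter fun p => (p - a) / q = b).card :=
    card_eq_sum_card_fiberwise hmaps
  have hb : ∀ b ∈ range (H / q + 1),
      (((F.filter fun p => (p - a) / q = b).card : ℕ) : ℝ) ≤ 2 * r * q + 3 := by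
    intro b _
    have himg : (F.filter fun p => (p - a) / q = b).card =
        ((F.filter fun p => (p - a) / q = b).image fun p => (p - a) % q).card := by
      rw [card_image_of_injOn]
      intro p hp p' hp' hpp
      have hp0 := (hF p (mem_filter.1 hp).1).1
      have hp0' := (hF p' (mem_filter.1 hp').1).1
      have hp := (mem_filter.1 hp).2
      have hp' := (mem_filter.1 hp').2
      have h1 := Nat.div_add_mod (p - a) q
      have h2 := Nat.div_add_mod (p' - a) q
      rw [hp] at h1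
      rw [hp'] at h2
      simp only at hpp
      rw [hpp] at h1
      omega
    rw [himg]
    apply Pool.Agent.H319R2.block_count α q h hq hcop hα (a + q * b) r hr
    intro i hi
    rw [mem_image] at hi
    obtain ⟨p, hp, rfl⟩ := hi
    obtain ⟨hp1, hp2⟩ := mem_filter.1 hp
    refine ⟨Nat.mod_lt _ hq, ?_⟩
    obtain ⟨ha, -, o, ho⟩ := hF p hp1
    refine ⟨o, ?_⟩
    have h1 := Nat.div_add_mod (p - a) q
    rw [hp2] at h1
    have h2 : ((a + q * b : ℕ) : ℝ) + (((p - a) % q : ℕ) : ℝ) = (p : ℝ) := by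
      have h3 : a + q * b + (p - a) % q = p := by omega
      have : ((a + q * b + (p - a) % q : ℕ) : ℝ) = (p : ℝ) := by rw [h3]
      push_cast at this ⊢
      exact this
    rw [h2]
    exact ho
  have h3 : (F.card : ℝ) ≤ ∑ b ∈ range (H / q + 1), (2 * r * q + 3) := by
    rw [hc]; push_cast
    exact sum_le_sum hb
  rw [sum_const, card_range, nsmul_eq_mul] at h3
  refine h3.trans (mul_le_mul_of_nonneg_right ?_ (by positivity))
  push_cast
  have : ((H / q : ℕ) : ℝ) ≤ (H : ℝ) / q := Nat.cast_div_le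
  linarith

/-- **Counting in intervals.** -/
theorem count {α : ℝ} (hα : 0 < α) {C : ℝ} (hC : 0 < C)
    (hm : ∀ q : ℕ, 1 ≤ q → ∀ h : ℕ, Real.exp (-(C * (1 + Real.log q) ^ 2)) ≤ |(q : ℝ) * α - h|)
    (a H : ℕ) (hH : 1 ≤ H) (r : ℝ) (hr : 0 ≤ r) (F : Finset ℕ)
    (hF : ∀ p ∈ F, a ≤ p ∧ p < a + H ∧ ∃ o : ℤ, |(p : ℝ) * α - o| ≤ r) :
    (F.card : ℝ) ≤ 4 * r * H + 18 * (H * Real.exp (-√(Real.log H / C))) := by
  have hHr : (1 : ℝ) ≤ H := by exact_mod_cast hH
  obtain ⟨x, hx1, hx2⟩ := Real.exists_rat_abs_sub_le_and_den_le α (n := H) (by omega)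
  set q : ℕ := x.den with hq
  set h : ℤ := x.num with hh
  have hq0 : 0 < q := x.den_pos
  have hqr : (0 : ℝ) < q := by exact_mod_cast hq0
  have hq1 : (1 : ℝ) ≤ q := by exact_mod_cast hq0
  have hqP : (q : ℝ) ≤ H := by exact_mod_cast hx2
  have hxq : (x : ℝ) = (h : ℝ) / q := by
    rw [hh, hq]; exact Rat.cast_def x
  have happ : |(q : ℝ) * α - h| ≤ 1 / ((H : ℝ) + 1) := by
    rw [hxq] at hx1
    have e : (q : ℝ) * α - h = q * (α - h / q) := by field_simp
    rw [e, abs_mul, abs_of_pos hqr]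
    calc (q : ℝ) * |α - h / q| ≤ q * (1 / (((H : ℝ) + 1) * q)) :=
          mul_le_mul_of_nonneg_left hx1 hqr.le
      _ = 1 / ((H : ℝ) + 1) := by field_simp
  have hcop : IsCoprime h (q : ℤ) := by
    rw [Int.isCoprime_iff_gcd_eq_one]
    have := x.reduced
    rw [hh, hq]
    rw [Int.gcd_eq_natAbs]
    simpa using this
  have h1q : |(q : ℝ) * α - h| ≤ 1 / q :=
    happ.trans (one_div_le_one_div_of_le hqr (by linarith))
  have hcnt := interval_count α q h hq0 hcop h1q a H r hr F hF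
  -- `h` is not negative
  have hh0 : 0 ≤ h := by
    by_contra hneg
    have h2 : (h : ℝ) ≤ -1 := by
      have : h ≤ -1 := by omega
      exact_mod_cast this
    have h3 : 1 / ((H : ℝ) + 1) < 1 := by rw [div_lt_one (by linarith)]; linarith
    have h4 : (q : ℝ) * α - h ≤ |(q : ℝ) * α - h| := le_abs_self _
    have h5 : 0 < (q : ℝ) * α := by positivity
    linarith
  have h6 := hm q hq0 h.toNat
  have h7 : ((h.toNat : ℕ) : ℝ) = (h : ℝ) := by
    have : ((h.toNat : ℕ) : ℤ) = h := Int.toNat_of_nonneg hh0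
    exact_mod_cast this
  rw [h7] at h6
  have hlq : 0 ≤ Real.log q := Real.log_nonneg hq1
  have h8 : Real.log H ≤ C * (1 + Real.log q) ^ 2 := by
    have h9 : Real.exp (-(C * (1 + Real.log q) ^ 2)) ≤ 1 / ((H : ℝ) + 1) := h6.trans happ
    have h10 : (H : ℝ) + 1 ≤ Real.exp (C * (1 + Real.log q) ^ 2) := by
      rw [Real.exp_neg, inv_eq_one_div] at h9
      exact (one_div_le_one_div (Real.exp_pos _) (by linarith)).1 h9
    rw [Real.log_le_iff_le_exp (by linarith)]
    linarith
  have h11 : √(Real.log H / C) ≤ 1 + Real.log q := by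
    apply Real.sqrt_le_iff.2
    refine ⟨by linarith, ?_⟩
    rw [div_le_iff₀ hC]; linarith
  have h12 : (H : ℝ) / q ≤ 3 * (H * Real.exp (-√(Real.log H / C))) := by
    rw [div_le_iff₀ hqr]
    have h13 : Real.exp (-√(Real.log H / C)) * q ≥ Real.exp (-1) := by
      have e : (q : ℝ) = Real.exp (Real.log q) := (Real.exp_log hqr).symm
      rw [ge_iff_le]
      conv_rhs => rw [e]
      rw [← Real.exp_add]
      apply Real.exp_le_exp.2
      linarith
    have h14 : (1 : ℝ) / 3 ≤ Real.exp (-1) := by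
      rw [Real.exp_neg, ← one_div]
      apply one_div_le_one_div_of_le (Real.exp_pos 1)
      have := Real.exp_one_lt_d9
      linarith
    have h15 : (1 : ℝ) / 3 ≤ Real.exp (-√(Real.log H / C)) * q := h14.trans h13
    nlinarith
  have h16 : 1 ≤ (H : ℝ) / q := by rw [le_div_iff₀ hqr]; linarith
  have hexp : ((H : ℝ) / q + 1) * (2 * r * q + 3) = 2 * r * H + 2 * r * q + 3 * (H / q) + 3 := by
    field_simp; ring
  rw [hexp] at hcnt
  have hrq : r * q ≤ r * H := mul_le_mul_of_nonneg_left hqP hr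
  nlinarith

/-- comparison of powers with `exp (-c √(log H))` -/
theorem rpow_le {κ c : ℝ} (hκ : 0 < κ) {H : ℝ} (hH : 1 ≤ H) :
    H ^ (-κ) ≤ Real.exp (c ^ 2 / (4 * κ)) * Real.exp (-(c * √(Real.log H))) := by
  have hl : 0 ≤ Real.log H := Real.log_nonneg hH
  rw [← Real.exp_add, Real.rpow_def_of_pos (by linarith)]
  apply Real.exp_le_exp.2
  set y := √(Real.log H) with hy
  have hy2 : y ^ 2 = Real.log H := Real.sq_sqrt hl
  rw [← hy2]
  have h1 : c ^ 2 / (4 * κ) + -(c * y) - y ^ 2 * -κ = κ * (y - c / (2 * κ)) ^ 2 := by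
    field_simp; ring
  have h2 : 0 ≤ κ * (y - c / (2 * κ)) ^ 2 := by positivity
  linarith

end Pool.Agent.X42.Lens
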