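import Mathlib
import Pool.Agent.X42.Lens
import Pool.Agent.H446R2.CycleThree

set_option autoImplicit false

/-!
Lengths of the cycles of a map `T` with `|d T x - β ^ e(x) x| ≤ K`, for coprime `d`, `β ≥ 2`, in
intervals.
-/

namespace Pool.Agent.X42.Lens

open Finset Filter Pool.Agent.H446R2.CS

/-- the measure for the quotient of two logarithms -/
theorem meas_div {A U : ℕ} (hA : 2 ≤ A) (hU : 2 ≤ U) (hAU : Nat.Coprime A U) :
    ∃ C : ℝ, 0 < C ∧ ∀ q : ℕ, 1 ≤ q → ∀ h : ℕ,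
      Real.exp (-(C * (1 + Real.log q) ^ 2)) ≤ |(q : ℝ) * (Real.log U / Real.log A) - h| := by
  obtain ⟨C, hC, h⟩ := meas hA hU hAU
  have hlA : 0 < Real.log A := Real.log_pos (by exact_mod_cast hA)
  refine ⟨C + |Real.log (Real.log A)|, by positivity, fun q hq b => ?_⟩
  have h1 := h q b hq
  have e : (q : ℝ) * (Real.log U / Real.log A) - b =
      (q * Real.log U - b * Real.log A) / Real.log A := by field_simp
  rw [e, abs_div, abs_of_pos hlA, le_div_iff₀ hlA]
  refine le_trans ?_ h1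
  have hq1 : (1 : ℝ) ≤ q := by exact_mod_cast hq
  have hlq : 0 ≤ Real.log q := Real.log_nonneg hq1
  have h3 := le_abs_self (Real.log (Real.log A))
  have h4 := abs_nonneg (Real.log (Real.log A))
  calc Real.exp (-((C + |Real.log (Real.log A)|) * (1 + Real.log q) ^ 2)) * Real.log A
      = Real.exp (-((C + |Real.log (Real.log A)|) * (1 + Real.log q) ^ 2) +
          Real.log (Real.log A)) := by rw [Real.exp_add, Real.exp_log hlA]
    _ ≤ Real.exp (-(C * (1 + Real.log q) ^ 2)) := by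
        apply Real.exp_le_exp.2
        have h5 : 1 ≤ (1 + Real.log q) ^ 2 := by nlinarith
        nlinarith

/-- **Lengths of cycles in intervals.** -/
theorem model_lengths {d β : ℕ} (hd : 2 ≤ d) (hβ : 2 ≤ β) (hc : Nat.Coprime β d) :
    ∃ c : ℝ, 0 < c ∧ ∀ (T : ℤ → ℤ) (e : ℤ → ℕ) (K : ℝ), Model T d β e K →
      ∃ A : ℝ, 0 < A ∧ ∀ u H : ℕ, 1 ≤ H → ∀ F : Finset ℕ,
        (∀ p ∈ F, u ≤ p ∧ p < u + H ∧ ∃ c, IsCycle T c ∧ c.card = p) →
        (F.card : ℝ) ≤ A * (H * Real.exp (-(c * √(Real.log H))) +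
          Real.exp (c * √(Real.log H)) * (1 + Real.log (u + H))) := by
  classical
  obtain ⟨C', hC', hM⟩ := meas_div hβ hd hc
  refine ⟨1 / √C', by positivity, ?_⟩
  intro T e K M
  obtain ⟨C, hC, hcount⟩ := M.count
  have hld : 0 < Real.log d := Real.log_pos (by exact_mod_cast hd)
  have hlβ : 0 < Real.log β := Real.log_pos (by exact_mod_cast hβ)
  set c : ℝ := 1 / √C' with hcdef
  have hc0 : 0 < c := by positivity
  refine ⟨23 + C * (2 + c), by positivity, ?_⟩
  intro u H hH F hF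
  have hHr : (1 : ℝ) ≤ H := by exact_mod_cast hH
  have hu0 : (0 : ℝ) ≤ u := Nat.cast_nonneg u
  set y : ℝ := √(Real.log H) with hy
  have hy0 : 0 ≤ y := Real.sqrt_nonneg _
  have hlH : 0 ≤ Real.log H := Real.log_nonneg hHr
  have hy2 : y ^ 2 = Real.log H := Real.sq_sqrt hlH
  have hluH : Real.log H ≤ Real.log (u + H) := Real.log_le_log (by linarith) (by linarith)
  set ε : ℝ := Real.exp (-(c * y)) with hε
  have hε0 : 0 < ε := Real.exp_pos _
  have hε1 : ε ≤ 1 := by rw [hε, Real.exp_le_one_iff]; nlinarith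
  set α : ℝ := Real.log d / Real.log β with hα
  set F0 := F.filter (fun p => ∃ c, IsCycle T c ∧ (0 : ℤ) ∈ c ∧ c.card = p) with hF0
  set F1 := F.filter (fun p => (∃ c, IsCycle T c ∧ (0 : ℤ) ∉ c ∧ c.card = p) ∧
    ∀ k : ℤ, ε ≤ |(p : ℝ) * α - k|) with hF1
  set F2 := F.filter (fun p : ℕ => ∃ k : ℤ, |(p : ℝ) * α - k| ≤ ε) with hF2
  have hsub : F ⊆ F0 ∪ F1 ∪ F2 := by
    intro p hp
    obtain ⟨-, -, c, hc1, hc2⟩ := hF p hp
    simp only [mem_union, hF0, hF1, hF2, mem_filter]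
    by_cases h0 : (0 : ℤ) ∈ c
    · exact Or.inl (Or.inl ⟨hp, c, hc1, h0, hc2⟩)
    · by_cases h1 : ∃ k : ℤ, |(p : ℝ) * α - k| ≤ ε
      · exact Or.inr ⟨hp, h1⟩
      · push Not at h1
        exact Or.inl (Or.inr ⟨hp, ⟨c, hc1, h0, hc2⟩, fun k => (h1 k).le⟩)
  have hcard0 : F0.card ≤ 1 := by
    rw [Finset.card_le_one]
    intro p hp q hq
    rw [hF0, mem_filter] at hp hq
    obtain ⟨-, c1, h1, h2, h3⟩ := hp
    obtain ⟨-, c2, h4, h5, h6⟩ := hq
    rw [← h3, ← h6, h1.eq_of_mem h4 h2 h5]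
  have hcard1 : (F1.card : ℝ) ≤ C / ε * (1 + Real.log (u + H) + Real.log (1 / ε)) := by
    have hex : ∀ p ∈ F1, ∃ c, IsCycle T c ∧ (0 : ℤ) ∉ c ∧ c.card = p := by
      intro p hp
      rw [hF1, mem_filter] at hp
      exact hp.2.1
    choose! f hf using hex
    have hinj : Set.InjOn f F1 := by
      intro p hp q hq hpq
      rw [← (hf p hp).2.2, ← (hf q hq).2.2, hpq]
    have h := hcount (u + H) ε (by omega) hε0 hε1 (F1.image f) (by
      intro c hc
      obtain ⟨p, hp, rfl⟩ := mem_image.1 hc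
      obtain ⟨h1, h2, h3⟩ := hf p hp
      refine ⟨h1, h2, ?_, ?_⟩
      · rw [h3]
        rw [hF1, mem_filter] at hp
        exact (hF p hp.1).2.1.le
      · rw [h3]
        rw [hF1, mem_filter] at hp
        exact hp.2.2)
    rw [card_image_of_injOn hinj] at h
    push_cast at h
    exact h
  have hcard2 : (F2.card : ℝ) ≤ 4 * ε * H + 18 * (H * ε) := by
    have h := count (α := α) (by positivity) hC' hM u H hH ε hε0.le F2 (by
      intro p hp
      rw [hF2, mem_filter] at hp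
      obtain ⟨h1, h2, -⟩ := hF p hp.1
      exact ⟨h1, h2, hp.2⟩)
    have e1 : Real.exp (-√(Real.log H / C')) = ε := by
      rw [hε, hcdef, hy, one_div_mul_eq_div, ← Real.sqrt_div hlH]
    rw [e1] at h
    exact h
  have hcard : F.card ≤ F0.card + F1.card + F2.card :=
    (card_le_card hsub).trans ((card_union_le _ _).trans
      (Nat.add_le_add_right (card_union_le _ _) _))
  have hcardr : (F.card : ℝ) ≤ F0.card + F1.card + F2.card := by exact_mod_cast hcard
  have h0r : (F0.card : ℝ) ≤ 1 := by exact_mod_cast hcard0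
  set E : ℝ := Real.exp (c * y) with hE
  have hE1 : 1 ≤ E := by rw [hE, Real.one_le_exp_iff]; positivity
  have hEe : 1 / ε = E := by rw [hε, hE, Real.exp_neg, one_div, inv_inv]
  have hlog : Real.log (1 / ε) = c * y := by rw [hEe, hE, Real.log_exp]
  have hdiv : C / ε = C * E := by rw [div_eq_mul_one_div, hEe]
  rw [hlog, hdiv] at hcard1
  set Q : ℝ := 1 + Real.log (u + H) with hQ
  have hQ1 : 1 ≤ Q := by rw [hQ]; linarith
  have hyQ : y ≤ Q := by
    have : y ≤ 1 + y ^ 2 := by nlinarith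
    rw [hQ]; linarith
  have h1 : (F1.card : ℝ) ≤ C * (1 + c) * (E * Q) := by
    refine hcard1.trans ?_
    have h2 : Q + c * y ≤ (1 + c) * Q := by nlinarith
    calc C * E * (Q + c * y) ≤ C * E * ((1 + c) * Q) := by gcongr
      _ = _ := by ring
  have hEQ : 1 ≤ E * Q := by nlinarith
  have hHε : 0 ≤ (H : ℝ) * ε := by positivity
  have h2 : 0 ≤ C * (1 + c) * (H * ε) := by positivity
  have h3 : 0 ≤ C * (E * Q) := by positivity
  have h4 : 0 ≤ C * (H * ε) := by positivity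
  calc (F.card : ℝ) ≤ 1 + C * (1 + c) * (E * Q) + 22 * (H * ε) := by linarith
    _ ≤ (23 + C * (2 + c)) * (H * ε + E * Q) := by nlinarith

end Pool.Agent.X42.Lens
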