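import Mathlib
import Pool.Agent.X42.Lens

set_option autoImplicit false

/-!
Lengths of the cycles of Möller's maps in short intervals: the main theorem.
-/

namespace Pool.Agent.X42.Lens

open Finset Filter Pool.Agent.H319R2.G Pool.Agent.H319R2.Moller

/-- number of integers in an interval close to the multiples, for both kinds of lengths -/
theorem both {d m : ℕ} (hd : 2 ≤ d) (hm : 2 ≤ m) (hc : Nat.Coprime m d) :
    ∃ c K : ℝ, 0 < c ∧ 0 < K ∧ ∀ a H : ℕ, 1 ≤ H → ∀ r : ℝ, 0 ≤ r → ∀ F : Finset ℕ,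
      ((∀ p ∈ F, a ≤ p ∧ p < a + H ∧ ∃ o : ℕ, |(o : ℝ) * Real.log m - p * Real.log d| ≤ r) ∨
        (∀ o ∈ F, a ≤ o ∧ o < a + H ∧ ∃ p : ℕ, |(o : ℝ) * Real.log m - p * Real.log d| ≤ r)) →
      (F.card : ℝ) ≤ K * (r * H) + K * (H * Real.exp (-(c * √(Real.log H)))) := by
  have hld : 0 < Real.log d := Real.log_pos (by exact_mod_cast hd)
  have hlm : 0 < Real.log m := Real.log_pos (by exact_mod_cast hm)
  -- measures
  have hmeas : ∀ {A U : ℕ}, 2 ≤ A → 2 ≤ U → Nat.Coprime A U → ∃ C : ℝ, 0 < C ∧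
      ∀ q : ℕ, 1 ≤ q → ∀ h : ℕ, Real.exp (-(C * (1 + Real.log q) ^ 2)) ≤
        |(q : ℝ) * (Real.log U / Real.log A) - h| := by
    intro A U hA hU hAU
    obtain ⟨C, hC, h⟩ := meas hA hU hAU
    have hlA : 0 < Real.log A := Real.log_pos (by exact_mod_cast hA)
    refine ⟨C + |Real.log (Real.log A)|, by positivity, fun q hq b => ?_⟩
    have h1 := h q b hq
    have e : (q : ℝ) * (Real.log U / Real.log A) - b =
        (q * Real.log U - b * Real.log A) / Real.log A := by field_simp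
    rw [e, abs_div, abs_of_pos hlA, le_div_iff₀ hlA]
    refine le_trans ?_ h1
    have hq1 : (1 : ℝ) ≤ q := by exact_mod_cast hq
    have hlq : 0 ≤ Real.log q := Real.log_nonneg hq1
    have e2 : Real.log A = Real.exp (Real.log (Real.log A)) := (Real.exp_log hlA).symm
    have h3 := le_abs_self (Real.log (Real.log A))
    have h4 := abs_nonneg (Real.log (Real.log A))
    calc Real.exp (-((C + |Real.log (Real.log A)|) * (1 + Real.log q) ^ 2)) * Real.log A
        = Real.exp (-((C + |Real.log (Real.log A)|) * (1 + Real.log q) ^ 2) +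
            Real.log (Real.log A)) := by rw [Real.exp_add, Real.exp_log hlA]
      _ ≤ Real.exp (-(C * (1 + Real.log q) ^ 2)) := by
          apply Real.exp_le_exp.2
          have h5 : 1 ≤ (1 + Real.log q) ^ 2 := by nlinarith
          nlinarith
  obtain ⟨C1, hC1, hM1⟩ := hmeas hm hd hc
  obtain ⟨C2, hC2, hM2⟩ := hmeas hd hm hc.symm
  set C := max C1 C2 with hCdef
  have hC : 0 < C := lt_max_of_lt_left hC1
  refine ⟨1 / √C, 4 / Real.log m + 4 / Real.log d + 18, by positivity, by positivity, ?_⟩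
  intro a H hH r hr F hF
  have hHr : (1 : ℝ) ≤ H := by exact_mod_cast hH
  have hlH : 0 ≤ Real.log H := Real.log_nonneg hHr
  have hE : ∀ C' : ℝ, 0 < C' → C' ≤ C →
      Real.exp (-√(Real.log H / C')) ≤ Real.exp (-(1 / √C * √(Real.log H))) := by
    intro C' h0 h1
    apply Real.exp_le_exp.2
    rw [neg_le_neg_iff, one_div_mul_eq_div, ← Real.sqrt_div hlH]
    apply Real.sqrt_le_sqrt
    exact div_le_div_of_nonneg_left hlH h0 h1
  have hE0 : 0 < Real.exp (-(1 / √C * √(Real.log H))) := Real.exp_pos _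
  have hrH : 0 ≤ r * H := by positivity
  have h4m : 0 < 4 / Real.log m := by positivity
  have h4d : 0 < 4 / Real.log d := by positivity
  rcases hF with hF | hF
  · have h := count (α := Real.log d / Real.log m) (by positivity) hC1 hM1 a H hH
      (r / Real.log m) (by positivity) F (by
        intro p hp
        obtain ⟨h1, h2, o, ho⟩ := hF p hp
        refine ⟨h1, h2, o, ?_⟩
        have e : (p : ℝ) * (Real.log d / Real.log m) - ((o : ℤ) : ℝ) =
            -(((o : ℝ) * Real.log m - p * Real.log d) / Real.log m) := by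
          push_cast; field_simp; ring
        rw [e, abs_neg, abs_div, abs_of_pos hlm]
        exact div_le_div_of_nonneg_right ho hlm.le)
    have h2 := hE C1 hC1 (le_max_left _ _)
    have e : 4 * (r / Real.log m) * H = 4 / Real.log m * (r * H) := by ring
    rw [e] at h
    have h3 : (H : ℝ) * Real.exp (-√(Real.log H / C1)) ≤
        H * Real.exp (-(1 / √C * √(Real.log H))) := mul_le_mul_of_nonneg_left h2 (by linarith)
    have h5 : 0 ≤ (H : ℝ) * Real.exp (-(1 / √C * √(Real.log H))) := by positivity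
    nlinarith [mul_nonneg h4d.le hrH, mul_nonneg h4m.le h5, mul_nonneg h4d.le h5]
  · have h := count (α := Real.log m / Real.log d) (by positivity) hC2 hM2 a H hH
      (r / Real.log d) (by positivity) F (by
        intro o ho
        obtain ⟨h1, h2, p, hp⟩ := hF o ho
        refine ⟨h1, h2, p, ?_⟩
        have e : (o : ℝ) * (Real.log m / Real.log d) - ((p : ℤ) : ℝ) =
            ((o : ℝ) * Real.log m - p * Real.log d) / Real.log d := by
          push_cast; field_simp
        rw [e, abs_div, abs_of_pos hld]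
        exact div_le_div_of_nonneg_right hp hld.le)
    have h2 := hE C2 hC2 (le_max_right _ _)
    have e : 4 * (r / Real.log d) * H = 4 / Real.log d * (r * H) := by ring
    rw [e] at h
    have h3 : (H : ℝ) * Real.exp (-√(Real.log H / C2)) ≤
        H * Real.exp (-(1 / √C * √(Real.log H))) := mul_le_mul_of_nonneg_left h2 (by linarith)
    have h5 : 0 ≤ (H : ℝ) * Real.exp (-(1 / √C * √(Real.log H))) := by positivity
    nlinarith [mul_nonneg h4m.le hrH, mul_nonneg h4m.le h5, mul_nonneg h4d.le h5]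

/-- the numbers of elements along a periodic orbit do not depend on the starting point -/
theorem od_const {d m : ℕ} {r : ℕ → ℤ} (x : ℤ) (p : ℕ) (hp : 0 < p)
    (hx : Function.minimalPeriod (T d m r) x = p) (j : ℕ) :
    od d m r p ((T d m r)^[j] x) = od d m r p x := by
  have hper : (T d m r)^[p] x = x := by rw [← hx]; exact Function.iterate_minimalPeriod
  induction j with
  | zero => rfl
  | succ j ih =>
    rw [← ih, Function.iterate_succ_apply']
    set y := (T d m r)^[j] x with hy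
    have hpery : (T d m r)^[p] y = y := by
      rw [hy, ← Function.iterate_add_apply, add_comm, Function.iterate_add_apply, hper]
    unfold od
    have h1 : ∀ z : ℤ, ((range p).filter fun j => ¬ (d : ℤ) ∣ (T d m r)^[j] z).card =
        ∑ j ∈ range p, if (d : ℤ) ∣ (T d m r)^[j] z then 0 else 1 := by
      intro z
      rw [card_filter]
      apply sum_congr rfl
      intro j _
      by_cases h : (d : ℤ) ∣ (T d m r)^[j] z <;> simp [h]
    rw [h1, h1]
    obtain ⟨q, rfl⟩ : ∃ q, p = q + 1 := ⟨p - 1, by omega⟩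
    rw [sum_range_succ, sum_range_succ']
    have h2 : (T d m r)^[q] (T d m r y) = y := by
      rw [← Function.iterate_succ_apply]; exact hpery
    rw [h2]
    rfl

/-- **Lengths of cycles in intervals.** -/
theorem lengths {d m : ℕ} (hd : 2 ≤ d) (hm : 1 ≤ m) (hc : Nat.Coprime m d)
    (hle : m ^ (d - 1) ≤ d ^ d) :
    ∃ c : ℝ, 0 < c ∧ ∀ r : ℕ → ℤ, (∀ j : ℕ, 1 ≤ j → j < d → (d : ℤ) ∣ m * j - r j) →
      ∃ A : ℝ, 0 < A ∧ ∀ a H : ℕ, 1 ≤ H → ∀ F : Finset ℕ,
      ((∀ p ∈ F, a ≤ p ∧ p < a + H ∧ 0 < p ∧ ∃ x : ℤ, Function.minimalPeriod (T d m r) x = p) ∨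
       (∀ o ∈ F, a ≤ o ∧ o < a + H ∧ ∃ (x : ℤ) (p : ℕ), 0 < p ∧
          Function.minimalPeriod (T d m r) x = p ∧ od d m r p x = o)) →
      (F.card : ℝ) ≤ A * (H * Real.exp (-(c * √(Real.log H)))) := by
  classical
  have hlogd : 0 < Real.log d := Real.log_pos (by exact_mod_cast hd)
  -- the counting statement, with a version for `m = 1`
  obtain ⟨c, K, ρ, hc0, hK, hρ, hcount⟩ : ∃ c K ρ : ℝ, 0 < c ∧ 0 < K ∧ 0 < ρ ∧ ∀ a H : ℕ, 1 ≤ H →
      ∀ r : ℝ, 0 ≤ r → r ≤ ρ → ∀ F : Finset ℕ,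
      ((∀ p ∈ F, a ≤ p ∧ p < a + H ∧ 0 < p ∧ ∃ o : ℕ, |(o : ℝ) * Real.log m - p * Real.log d| ≤ r) ∨
        (∀ o ∈ F, a ≤ o ∧ o < a + H ∧ ∃ p : ℕ, 0 < p ∧ |(o : ℝ) * Real.log m - p * Real.log d| ≤ r)) →
      (F.card : ℝ) ≤ K * (r * H) + K * (H * Real.exp (-(c * √(Real.log H)))) := by
    rcases Nat.lt_or_ge 1 m with hm1 | hm1
    · obtain ⟨c, K, hc0, hK, h⟩ := both hd hm1 hc
      refine ⟨c, K, 1, hc0, hK, one_pos, fun a H hH r hr _ F hF => h a H hH r hr F ?_⟩
      rcases hF with hF | hF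
      · left
        intro p hp
        obtain ⟨h1, h2, -, h3⟩ := hF p hp
        exact ⟨h1, h2, h3⟩
      · right
        intro o ho
        obtain ⟨h1, h2, p, -, h3⟩ := hF o ho
        exact ⟨h1, h2, p, h3⟩
    · have hm1 : m = 1 := by omega
      refine ⟨1, 1, Real.log d / 2, one_pos, one_pos, by positivity, ?_⟩
      intro a H hH r hr hr2 F hF
      have key : ∀ (o p : ℕ), 0 < p → ¬ |(o : ℝ) * Real.log m - p * Real.log d| ≤ r := by
        intro o p hp h
        rw [hm1, Nat.cast_one, Real.log_one, mul_zero, zero_sub, abs_neg,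
          abs_of_nonneg (by positivity)] at h
        have : (1 : ℝ) ≤ p := by exact_mod_cast hp
        nlinarith
      have hF0 : F = ∅ := by
        rw [Finset.eq_empty_iff_forall_notMem]
        intro p hp
        rcases hF with hF | hF
        · obtain ⟨_, _, h2, o, h3⟩ := hF p hp
          exact key o p h2 h3
        · obtain ⟨_, _, q, h2, h3⟩ := hF p hp
          exact key p q h2 h3
      rw [hF0]
      have : (0 : ℝ) ≤ H := Nat.cast_nonneg H
      simp only [card_empty, Nat.cast_zero]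
      positivity
  refine ⟨c, hc0, ?_⟩
  intro r hr
  set g := gc d m r hd hc hr with hg
  have hgT : g.T = T d m r := gc_T hd hc hr
  have hlg : ∀ (k : ℕ) (n : ℤ), g.lg k n = od d m r k n * Real.log m - k * Real.log d :=
    fun k n => gc_lg hd hc hr hm k n
  obtain ⟨s, η, hs, hη, hη1, hφ⟩ := g.exists_exp (gc_contr hd hc hr hm hle)
  obtain ⟨C, hC0, hC⟩ := g.cycle_rigid s η hs hη hη1 hφ
  have hR0 := g.R_nonneg
  -- a size beyond which the defect is at most `ρ`
  have hlim0 : Tendsto (fun N : ℝ => C * N ^ (η - 1)) atTop (nhds 0) := by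
    have h1 : Tendsto (fun N : ℝ => N ^ (-(1 - η))) atTop (nhds 0) :=
      tendsto_rpow_neg_atTop (by linarith)
    have h2 := h1.const_mul C
    rw [mul_zero] at h2
    refine h2.congr fun N => ?_
    congr 2; ring
  obtain ⟨N0, hN0⟩ := eventually_atTop.1 (hlim0.eventually (gt_mem_nhds hρ))
  obtain ⟨M, hM⟩ := exists_nat_ge (max N0 (2 * g.R + 1))
  have hMa : 2 * g.R + 1 ≤ M := (le_max_right _ _).trans hM
  have hMb : ∀ N : ℝ, (M : ℝ) ≤ N → C * N ^ (η - 1) < ρ :=
    fun N hN => hN0 N (((le_max_left _ _).trans hM).trans hN)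
  have hM1 : (1 : ℝ) ≤ M := by linarith
  -- large cycles
  have hbig : ∀ N : ℝ, (M : ℝ) ≤ N → ∀ (x : ℤ) (p : ℕ), 0 < p →
      Function.minimalPeriod (T d m r) x = p →
      (∀ j, N ≤ |(((T d m r)^[j] x : ℤ) : ℝ)|) →
      |(od d m r p x : ℝ) * Real.log m - p * Real.log d| ≤ C * N ^ (η - 1) := by
    intro N hN x p hp hx hmin
    have h := hC x p (by rw [hgT]; exact hx.symm) hp N (hMa.trans hN) (by rw [hgT]; exact hmin)
    rw [hlg] at h
    exact h
  set κ : ℝ := (1 - η) / 2 with hκ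
  have hκ0 : 0 < κ := by rw [hκ]; linarith
  set E1 : ℝ := Real.exp (c ^ 2 / (4 * κ)) with hE1
  set E2 : ℝ := Real.exp (c ^ 2 / (4 * (1 / 2))) with hE2
  have hE1p : 0 < E1 := Real.exp_pos _
  have hE2p : 0 < E2 := Real.exp_pos _
  refine ⟨K * C * E1 + K + (2 * M + 5) * E2, by positivity, ?_⟩
  intro a H hH F hF
  have hHr : (1 : ℝ) ≤ H := by exact_mod_cast hH
  set N : ℝ := max (M : ℝ) (√(H : ℝ)) with hN
  have hsq1 : 1 ≤ √(H : ℝ) := by rw [Real.one_le_sqrt]; exact hHr
  have hN1 : 1 ≤ N := hM1.trans (le_max_left _ _)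
  have hNM : N ≤ M * √(H : ℝ) := by
    apply max_le
    · nlinarith
    · nlinarith
  set D : ℝ := Real.exp (-(c * √(Real.log H))) with hD
  have hDp : 0 < D := Real.exp_pos _
  have hrt : √(H : ℝ) ≤ H * (E2 * D) := by
    have h1 := rpow_le (c := c) (show (0 : ℝ) < 1 / 2 by norm_num) hHr
    have e : √(H : ℝ) = H * (H : ℝ) ^ (-(1 / 2 : ℝ)) := by
      rw [Real.sqrt_eq_rpow, Real.rpow_neg (by linarith)]
      have h2 : (H : ℝ) = (H : ℝ) ^ (1 / 2 : ℝ) * (H : ℝ) ^ (1 / 2 : ℝ) := by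
        rw [← Real.rpow_add (by linarith)]; norm_num
      have h3 : 0 < (H : ℝ) ^ (1 / 2 : ℝ) := Real.rpow_pos_of_pos (by linarith) _
      conv_rhs => rw [h2]
      rw [mul_assoc, ← h2] 
      field_simp
    rw [e]
    exact mul_le_mul_of_nonneg_left h1 (by linarith)
  -- the defect of the large cycles
  set δ : ℝ := C * N ^ (η - 1) with hδ
  have hδ0 : 0 ≤ δ := by positivity
  have hδρ : δ ≤ ρ := (hMb N (le_max_left _ _)).le
  have hδH : δ ≤ C * (E1 * D) := by
    have h1 := rpow_le (c := c) hκ0 hHr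
    have h2 : N ^ (η - 1) ≤ (√(H : ℝ)) ^ (η - 1) :=
      Real.rpow_le_rpow_of_nonpos (by linarith) (le_max_right _ _) (by linarith)
    have e : (√(H : ℝ)) ^ (η - 1) = (H : ℝ) ^ (-κ) := by
      rw [Real.sqrt_eq_rpow, ← Real.rpow_mul (by linarith)]
      congr 1
      rw [hκ]; ring
    rw [e] at h2
    exact mul_le_mul_of_nonneg_left (h2.trans h1) hC0.le
  -- small cycles
  set small : Finset ℤ := Finset.Icc (-⌈N⌉) ⌈N⌉ with hsmall
  have hsc : (small.card : ℝ) ≤ (2 * M + 5) * √(H : ℝ) := by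
    have h1 : 0 ≤ ⌈N⌉ := Int.ceil_nonneg (by linarith)
    have h2 : ((small.card : ℕ) : ℝ) = 2 * (⌈N⌉ : ℝ) + 1 := by
      rw [hsmall, Int.card_Icc]
      have h3 : (((⌈N⌉ + 1 - -⌈N⌉).toNat : ℕ) : ℤ) = ⌈N⌉ + 1 - -⌈N⌉ := Int.toNat_of_nonneg (by omega)
      have h4 : (((⌈N⌉ + 1 - -⌈N⌉).toNat : ℕ) : ℝ) = ((⌈N⌉ + 1 - -⌈N⌉ : ℤ) : ℝ) := by
        exact_mod_cast h3
      rw [h4]; push_cast; ring
    rw [h2]
    have h5 := Int.ceil_lt_add_one N
    nlinarith
  have hmemsmall : ∀ y : ℤ, ¬ N ≤ |(y : ℝ)| → y ∈ small := by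
    intro y hy
    rw [hsmall, mem_Icc]
    have h1 : |(y : ℝ)| < N := not_le.1 hy
    have h2 : |(y : ℝ)| < ⌈N⌉ := h1.trans_le (Int.le_ceil _)
    have h3 : |y| < ⌈N⌉ := by exact_mod_cast h2
    rw [abs_lt] at h3
    constructor <;> linarith
  have hfinal : ∀ F1 F2 : Finset ℕ, F.card = F1.card + F2.card →
      (F1.card : ℝ) ≤ K * (δ * H) + K * (H * D) → (F2.card : ℝ) ≤ (2 * M + 5) * √(H : ℝ) →
      (F.card : ℝ) ≤ (K * C * E1 + K + (2 * M + 5) * E2) * (H * D) := by
    intro F1 F2 h1 h2 h3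
    have h4 : K * (δ * H) ≤ K * (C * (E1 * D) * H) :=
      mul_le_mul_of_nonneg_left (mul_le_mul_of_nonneg_right hδH (by linarith)) hK.le
    have h5 : (2 * (M : ℝ) + 5) * √(H : ℝ) ≤ (2 * M + 5) * (H * (E2 * D)) :=
      mul_le_mul_of_nonneg_left hrt (by positivity)
    rw [h1]; push_cast
    calc (F1.card : ℝ) + F2.card ≤ K * (C * (E1 * D) * H) + K * (H * D) +
          (2 * M + 5) * (H * (E2 * D)) := by linarith
      _ = _ := by ring
  rcases hF with hF | hF
  · set F2 := F ∩ small.image (fun y => Function.minimalPeriod (T d m r) y) with hF2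
    set F1 := F \ small.image (fun y => Function.minimalPeriod (T d m r) y) with hF1
    have h1 : (F1.card : ℝ) ≤ K * (δ * H) + K * (H * D) := by
      apply hcount a H hH δ hδ0 hδρ
      left
      intro p hp
      rw [hF1, Finset.mem_sdiff] at hp
      obtain ⟨a0, a1, a2, x, a3⟩ := hF p hp.1
      refine ⟨a0, a1, a2, od d m r p x, ?_⟩
      apply hbig N (le_max_left _ _) x p a2 a3
      intro j
      by_contra hcon
      apply hp.2
      rw [mem_image]
      exact ⟨(T d m r)^[j] x, hmemsmall _ hcon, by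
        rw [minimalPeriod_iter (by omega), a3]⟩
    have h2 : (F2.card : ℝ) ≤ (2 * M + 5) * √(H : ℝ) := by
      refine le_trans ?_ hsc
      exact_mod_cast (card_le_card inter_subset_right).trans card_image_le
    have h3 : F.card = F1.card + F2.card := by
      rw [hF1, hF2, add_comm, card_inter_add_card_sdiff]
    exact hfinal F1 F2 h3 h1 h2
  · set F2 := F ∩ small.image (fun y => od d m r (Function.minimalPeriod (T d m r) y) y) with hF2
    set F1 := F \ small.image (fun y => od d m r (Function.minimalPeriod (T d m r) y) y) with hF1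
    have h1 : (F1.card : ℝ) ≤ K * (δ * H) + K * (H * D) := by
      apply hcount a H hH δ hδ0 hδρ
      right
      intro o ho
      rw [hF1, Finset.mem_sdiff] at ho
      obtain ⟨a0, a1, x, p, a2, a3, a4⟩ := hF o ho.1
      refine ⟨a0, a1, p, a2, ?_⟩
      rw [← a4]
      apply hbig N (le_max_left _ _) x p a2 a3
      intro j
      by_contra hcon
      apply ho.2
      rw [mem_image]
      refine ⟨(T d m r)^[j] x, hmemsmall _ hcon, ?_⟩
      show od d m r (Function.minimalPeriod (T d m r) ((T d m r)^[j] x)) ((T d m r)^[j] x) = o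
      rw [minimalPeriod_iter (by omega), a3, od_const x p a2 a3, a4]
    have h2 : (F2.card : ℝ) ≤ (2 * M + 5) * √(H : ℝ) := by
      refine le_trans ?_ hsc
      exact_mod_cast (card_le_card inter_subset_right).trans card_image_le
    have h3 : F.card = F1.card + F2.card := by
      rw [hF1, hF2, add_comm, card_inter_add_card_sdiff]
    exact hfinal F1 F2 h3 h1 h2

end Pool.Agent.X42.Lens
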