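import Mathlib

/-!
# Analytic spread of ideals generated by algebraically independent forms of the same degree
-/

set_option autoImplicit false

namespace Pool.Agent.X42.Spread

open MvPolynomial

variable {F : Type*} [Field F] {σ : Type*}

/-- The graded maximal ideal of a polynomial ring. -/
noncomputable def irrel (F : Type*) [Field F] (σ : Type*) : Ideal (MvPolynomial σ F) :=
  Ideal.span (Set.range fun i : σ => (X i : MvPolynomial σ F))

/-- The fibre ring `⊕_t I^t / 𝔪 I^t`, as the quotient of the Rees algebra `⊕_t I^t T^t` by the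
ideal generated by `𝔪`. -/
abbrev fiberRing (I : Ideal (MvPolynomial σ F)) : Type _ :=
  reesAlgebra I ⧸ Ideal.map (algebraMap (MvPolynomial σ F) (reesAlgebra I)) (irrel F σ)

/-- The analytic spread `ℓ(I)`: the Krull dimension of the fibre ring. -/
noncomputable def analyticSpread (I : Ideal (MvPolynomial σ F)) : WithBot ℕ∞ :=
  ringKrullDim (fiberRing I)

/-- The substitution `x ↦ x s`. -/
noncomputable def gam : MvPolynomial σ F →+* Polynomial (MvPolynomial σ F) :=
  eval₂Hom (Polynomial.C.comp C) fun i => Polynomial.C (X i) * Polynomial.X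

theorem gam_monomial (d : σ →₀ ℕ) (c : F) :
    gam (monomial d c) = Polynomial.C (monomial d c) * Polynomial.X ^ d.degree := by
  rw [gam, coe_eval₂Hom, eval₂_monomial, RingHom.comp_apply]
  have h1 : (d.prod fun i e => (Polynomial.C (X i : MvPolynomial σ F) * Polynomial.X) ^ e) =
      Polynomial.C (d.prod fun i e => (X i : MvPolynomial σ F) ^ e) *
        Polynomial.X ^ d.degree := by
    rw [Finsupp.prod, Finsupp.prod, map_prod, Finsupp.degree_apply, ← Finset.prod_pow_eq_pow_sum,
      ← Finset.prod_mul_distrib]
    apply Finset.prod_congr rfl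
    intro i _
    rw [mul_pow, map_pow]
  rw [h1, ← mul_assoc, ← map_mul, ← monomial_eq]

theorem coeff_gam (n : ℕ) (p : MvPolynomial σ F) :
    (gam p).coeff n = homogeneousComponent n p := by
  induction p using MvPolynomial.induction_on' with
  | monomial d c =>
    rw [gam_monomial, Polynomial.coeff_C_mul_X_pow,
      homogeneousComponent_of_mem (isHomogeneous_monomial c rfl)]
  | add p q hp hq => rw [map_add, Polynomial.coeff_add, hp, hq, map_add]

theorem hc_mul (n : ℕ) (p q : MvPolynomial σ F) : homogeneousComponent n (p * q) =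
    ∑ x ∈ Finset.HasAntidiagonal.antidiagonal n, homogeneousComponent x.1 p * homogeneousComponent x.2 q := by
  rw [← coeff_gam, map_mul, Polynomial.coeff_mul]
  exact Finset.sum_congr rfl fun x _ => by rw [coeff_gam, coeff_gam]

/-- Polynomials without components of degree `< p`. -/
def Low (F : Type*) [Field F] (σ : Type*) (p : ℕ) : Ideal (MvPolynomial σ F) where
  carrier := {a | ∀ n < p, homogeneousComponent n a = 0}
  zero_mem' := fun n _ => map_zero _
  add_mem' := fun {a b} ha hb n hn => by rw [map_add, ha n hn, hb n hn, add_zero]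
  smul_mem' := fun c a ha n hn => by
    rw [smul_eq_mul, hc_mul]
    apply Finset.sum_eq_zero
    intro x hx
    rw [ha x.2 (by have := Finset.HasAntidiagonal.mem_antidiagonal.1 hx; omega), mul_zero]

theorem low_mul {p q : ℕ} {a b : MvPolynomial σ F} (ha : a ∈ Low F σ p) (hb : b ∈ Low F σ q) :
    a * b ∈ Low F σ (p + q) ∧
    homogeneousComponent (p + q) (a * b) = homogeneousComponent p a * homogeneousComponent q b := by
  constructor
  · intro n hn
    rw [hc_mul]
    apply Finset.sum_eq_zero
    intro x hx
    have h := Finset.HasAntidiagonal.mem_antidiagonal.1 hx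
    by_cases h1 : x.1 < p
    · rw [ha x.1 h1, zero_mul]
    · rw [hb x.2 (by omega), mul_zero]
  · rw [hc_mul, Finset.sum_eq_single (p, q)]
    · intro x hx hne
      have h := Finset.HasAntidiagonal.mem_antidiagonal.1 hx
      by_cases h1 : x.1 < p
      · rw [ha x.1 h1, zero_mul]
      · rw [hb x.2, mul_zero]
        by_contra h2
        apply hne
        ext
        · change x.1 = p; omega
        · change x.2 = q; omega
    · intro h
      exact (h (by rw [Finset.HasAntidiagonal.mem_antidiagonal])).elim

theorem pow_le_low {I : Ideal (MvPolynomial σ F)} {d : ℕ} (hI : I ≤ Low F σ d) (t : ℕ) :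
    I ^ t ≤ Low F σ (d * t) := by
  induction t with
  | zero => intro a _ n hn; omega
  | succ t ih =>
    rw [pow_succ, Nat.mul_succ, Ideal.mul_le]
    intro a ha b hb
    exact (low_mul (ih ha) (hI hb)).1

/-- The sum of the lowest components. -/
noncomputable def psi (F : Type*) [Field F] (σ : Type*) (d : ℕ) :
    Polynomial (MvPolynomial σ F) →ₗ[F] MvPolynomial σ F :=
  Polynomial.lsum fun t => homogeneousComponent (d * t)

theorem psi_monomial (d t : ℕ) (a : MvPolynomial σ F) :
    psi F σ d (Polynomial.monomial t a) = homogeneousComponent (d * t) a := by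
  rw [psi, Polynomial.lsum_apply, Polynomial.sum_monomial_index]
  exact map_zero _

/-- The induced ring homomorphism on the Rees algebra. -/
noncomputable def psiR {I : Ideal (MvPolynomial σ F)} {d : ℕ} (hI : I ≤ Low F σ d) :
    reesAlgebra I →+* MvPolynomial σ F where
  toFun p := psi F σ d p.1
  map_one' := by
    have : ((1 : reesAlgebra I) : Polynomial (MvPolynomial σ F)) = Polynomial.monomial 0 1 := by
      rw [Polynomial.monomial_zero_one]; rfl
    rw [this, psi_monomial, mul_zero, homogeneousComponent_zero]
    simp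
  map_zero' := map_zero _
  map_add' p q := map_add _ _ _
  map_mul' p q := by
    change psi F σ d (p.1 * q.1) = psi F σ d p.1 * psi F σ d q.1
    have hp : psi F σ d p.1 = ∑ t ∈ p.1.support, homogeneousComponent (d * t) (p.1.coeff t) := by
      conv_lhs => rw [p.1.as_sum_support]
      rw [map_sum]
      exact Finset.sum_congr rfl fun t _ => psi_monomial d t _
    have hq : psi F σ d q.1 = ∑ t ∈ q.1.support, homogeneousComponent (d * t) (q.1.coeff t) := by
      conv_lhs => rw [q.1.as_sum_support]
      rw [map_sum]
      exact Finset.sum_congr rfl fun t _ => psi_monomial d t _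
    rw [hp, hq, Finset.sum_mul_sum]
    conv_lhs => rw [p.1.as_sum_support, q.1.as_sum_support]
    rw [Finset.sum_mul_sum, map_sum]
    apply Finset.sum_congr rfl
    intro t _
    rw [map_sum]
    apply Finset.sum_congr rfl
    intro s _
    rw [Polynomial.monomial_mul_monomial, psi_monomial, mul_add]
    exact (low_mul (pow_le_low hI t (p.2 t)) (pow_le_low hI s (q.2 s))).2

theorem psiR_algebraMap {I : Ideal (MvPolynomial σ F)} {d : ℕ} (hI : I ≤ Low F σ d)
    (a : MvPolynomial σ F) :
    psiR hI (algebraMap (MvPolynomial σ F) (reesAlgebra I) a) = C (coeff 0 a) := by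
  change psi F σ d (Polynomial.C a) = _
  rw [← Polynomial.monomial_zero_left, psi_monomial, mul_zero, homogeneousComponent_zero]

theorem irrel_iff (a : MvPolynomial σ F) (ha : a ∈ irrel F σ) : coeff 0 a = 0 := by
  rw [irrel] at ha
  induction ha using Submodule.span_induction with
  | mem x hx =>
    obtain ⟨i, rfl⟩ := hx
    simp
  | zero => simp
  | add x y _ _ hx hy => rw [coeff_add, hx, hy, add_zero]
  | smul c x _ hx =>
    have h1 : constantCoeff x = 0 := hx
    change constantCoeff (c * x) = 0
    rw [map_mul, h1, mul_zero]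

theorem mem_irrel (a : MvPolynomial σ F) (ha : coeff 0 a = 0) : a ∈ irrel F σ := by
  rw [as_sum a]
  apply Ideal.sum_mem
  intro m hm
  have hm0 : m ≠ 0 := by
    rintro rfl
    exact (mem_support_iff.1 hm) ha
  obtain ⟨i, hi⟩ := Finsupp.ne_iff.1 hm0
  have h1 : (monomial m (coeff m a) : MvPolynomial σ F) =
      monomial (m - Finsupp.single i 1) (coeff m a) * X i := by
    rw [X, monomial_mul, mul_one, tsub_add_cancel_of_le]
    rw [Finsupp.single_le_iff]
    exact Nat.one_le_iff_ne_zero.2 hi
  rw [h1]
  exact Ideal.mul_mem_left _ _ (Ideal.subset_span ⟨i, rfl⟩)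

/-- The induced map on the fibre ring. -/
noncomputable def psiBar {I : Ideal (MvPolynomial σ F)} {d : ℕ} (hI : I ≤ Low F σ d) :
    fiberRing I →+* MvPolynomial σ F :=
  Ideal.Quotient.lift _ (psiR hI) (by
    intro a ha
    have : Ideal.map (algebraMap (MvPolynomial σ F) (reesAlgebra I)) (irrel F σ) ≤
        RingHom.ker (psiR hI) := by
      rw [Ideal.map_le_iff_le_comap]
      intro b hb
      rw [Ideal.mem_comap, RingHom.mem_ker, psiR_algebraMap, irrel_iff b hb, C_0]
    exact this ha)

variable {ι : Type*} [Finite ι]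

theorem analyticSpread_eq (f : ι → MvPolynomial σ F) (d : ℕ) (hf : ∀ k, (f k).IsHomogeneous d)
    (hind : AlgebraicIndependent F f) :
    analyticSpread (Ideal.span (Set.range f)) = Nat.card ι := by
  set I := Ideal.span (Set.range f) with hIdef
  have hfI : ∀ k, f k ∈ I := fun k => Ideal.subset_span ⟨k, rfl⟩
  have hI : I ≤ Low F σ d := by
    rw [hIdef, Ideal.span_le]
    rintro _ ⟨k, rfl⟩ n hn
    rw [homogeneousComponent_of_mem (hf k), if_neg hn.ne]
  have hmem : ∀ a ∈ I, Polynomial.monomial 1 a ∈ reesAlgebra I := fun a ha =>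
    reesAlgebra.monomial_mem.2 (by rwa [pow_one])
  let q : reesAlgebra I →+* fiberRing I := Ideal.Quotient.mk _
  let φ : MvPolynomial ι F →+* fiberRing I :=
    eval₂Hom (q.comp ((algebraMap (MvPolynomial σ F) (reesAlgebra I)).comp C))
      fun k => q ⟨Polynomial.monomial 1 (f k), hmem _ (hfI k)⟩
  have hcomp : (psiBar hI).comp φ = (aeval f : MvPolynomial ι F →ₐ[F] MvPolynomial σ F) := by
    apply MvPolynomial.ringHom_ext
    · intro c
      change psiBar hI (φ (C c)) = aeval f (C c)
      rw [show φ (C c) = q (algebraMap (MvPolynomial σ F) (reesAlgebra I) (C c)) from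
        eval₂_C _ _ _]
      change psiR hI (algebraMap (MvPolynomial σ F) (reesAlgebra I) (C c)) = _
      rw [psiR_algebraMap]
      simp
    · intro k
      change psiBar hI (φ (X k)) = aeval f (X k)
      rw [show φ (X k) = q ⟨Polynomial.monomial 1 (f k), hmem _ (hfI k)⟩ from eval₂_X _ _ _]
      change psi F σ d (Polynomial.monomial 1 (f k)) = _
      rw [psi_monomial, mul_one, homogeneousComponent_eq_self (hf k), aeval_X]
  have hinj : Function.Injective φ := by
    have h1 : Function.Injective (fun x => (psiBar hI) (φ x)) := by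
      intro x y hxy
      have hx : (psiBar hI) (φ x) = aeval f x := congrArg (fun g => g x) hcomp
      have hy : (psiBar hI) (φ y) = aeval f y := congrArg (fun g => g y) hcomp
      apply hind
      rw [← hx, ← hy]
      exact hxy
    exact Function.Injective.of_comp h1
  have hsurj : Function.Surjective φ := by
    -- constants
    have hconst : ∀ a : MvPolynomial σ F,
        q (algebraMap (MvPolynomial σ F) (reesAlgebra I) a) ∈ φ.range := by
      intro a
      refine ⟨C (coeff 0 a), ?_⟩
      rw [show φ (C (coeff 0 a)) = q (algebraMap (MvPolynomial σ F) (reesAlgebra I)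
        (C (coeff 0 a))) from eval₂_C _ _ _]
      rw [Ideal.Quotient.mk_eq_mk_iff_sub_mem, ← map_sub]
      apply Ideal.mem_map_of_mem
      apply mem_irrel
      simp
    have hdeg1 : ∀ a, ∀ ha : a ∈ I, q ⟨Polynomial.monomial 1 a, hmem a ha⟩ ∈ φ.range := by
      intro a ha
      have ha' : a ∈ Submodule.span (MvPolynomial σ F) (Set.range f) := ha
      induction ha' using Submodule.span_induction with
      | mem x hx =>
        obtain ⟨k, rfl⟩ := hx
        exact ⟨X k, eval₂_X _ _ _⟩
      | zero =>
        have : (⟨Polynomial.monomial 1 0, hmem 0 ha⟩ : reesAlgebra I) = 0 := by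
          apply Subtype.ext
          simp
        rw [this, map_zero]
        exact φ.range.zero_mem
      | add x y hx hy ihx ihy =>
        have : (⟨Polynomial.monomial 1 (x + y), hmem _ ha⟩ : reesAlgebra I) =
            ⟨Polynomial.monomial 1 x, hmem x hx⟩ + ⟨Polynomial.monomial 1 y, hmem y hy⟩ := by
          apply Subtype.ext
          simp
        rw [this, map_add]
        exact φ.range.add_mem (ihx hx) (ihy hy)
      | smul c x hx ihx =>
        have : (⟨Polynomial.monomial 1 (c • x), hmem _ ha⟩ : reesAlgebra I) =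
            algebraMap (MvPolynomial σ F) (reesAlgebra I) c *
              ⟨Polynomial.monomial 1 x, hmem x hx⟩ := by
          apply Subtype.ext
          change Polynomial.monomial 1 (c • x) = Polynomial.C c * Polynomial.monomial 1 x
          rw [Polynomial.C_mul_monomial, smul_eq_mul]
        rw [this, map_mul]
        exact φ.range.mul_mem (hconst c) (ihx hx)
    have key' : ∀ p : Polynomial (MvPolynomial σ F),
        p ∈ Algebra.adjoin (MvPolynomial σ F) (Submodule.map (Polynomial.monomial 1 :
          MvPolynomial σ F →ₗ[MvPolynomial σ F] Polynomial (MvPolynomial σ F)) I :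
            Set (Polynomial (MvPolynomial σ F))) →
        ∃ hp : p ∈ reesAlgebra I, q ⟨p, hp⟩ ∈ φ.range := by
      intro p hp'
      induction hp' using Algebra.adjoin_induction with
      | mem x hx =>
        obtain ⟨a, ha, rfl⟩ := hx
        exact ⟨hmem a ha, hdeg1 a ha⟩
      | algebraMap r => exact ⟨(algebraMap _ (reesAlgebra I) r).2, hconst r⟩
      | add x y _ _ ihx ihy =>
        obtain ⟨hx, hx'⟩ := ihx
        obtain ⟨hy, hy'⟩ := ihy
        refine ⟨(reesAlgebra I).add_mem hx hy, ?_⟩
        have : (⟨x + y, (reesAlgebra I).add_mem hx hy⟩ : reesAlgebra I) = ⟨x, hx⟩ + ⟨y, hy⟩ := rfl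
        rw [this, map_add]
        exact φ.range.add_mem hx' hy'
      | mul x y _ _ ihx ihy =>
        obtain ⟨hx, hx'⟩ := ihx
        obtain ⟨hy, hy'⟩ := ihy
        refine ⟨(reesAlgebra I).mul_mem hx hy, ?_⟩
        have : (⟨x * y, (reesAlgebra I).mul_mem hx hy⟩ : reesAlgebra I) = ⟨x, hx⟩ * ⟨y, hy⟩ := rfl
        rw [this, map_mul]
        exact φ.range.mul_mem hx' hy'
    have key : ∀ p : Polynomial (MvPolynomial σ F), ∀ hp : p ∈ reesAlgebra I,
        q ⟨p, hp⟩ ∈ φ.range := by
      intro p hp
      have hp' := hp
      rw [← adjoin_monomial_eq_reesAlgebra] at hp'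
      obtain ⟨_, h2⟩ := key' p hp'
      exact h2
    intro y
    obtain ⟨⟨p, hp⟩, rfl⟩ := Ideal.Quotient.mk_surjective y
    exact key p hp
  have e : MvPolynomial ι F ≃+* fiberRing I := RingEquiv.ofBijective φ ⟨hinj, hsurj⟩
  rw [analyticSpread, ← ringKrullDim_eq_of_ringEquiv e,
    MvPolynomial.ringKrullDim_of_isNoetherianRing, ringKrullDim_eq_zero_of_field, zero_add]

end Pool.Agent.X42.Spread
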