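import Mathlib

/-!
# Confluent epimorphisms from vertex-transitive finite graphs
-/

set_option autoImplicit false

namespace Pool.Agent.X42.Confluent

/-- A graph on the vertex set `V`: a reflexive and symmetric edge relation. -/
structure LGraph (V : Type) where
  E : V → V → Prop
  refl : ∀ a, E a a
  symm : ∀ a b, E a b → E b a

variable {V W : Type}

/-- A set of vertices is connected if it is not the union of two nonempty parts with no edge
between them. -/
def LGraph.Conn (A : LGraph V) (S : Set V) : Prop :=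
  ¬ ∃ P Q : Set V, P.Nonempty ∧ Q.Nonempty ∧ P ∪ Q = S ∧ ∀ p ∈ P, ∀ q ∈ Q, ¬ A.E p q

/-- `C` is a component of `S`: a maximal connected subset of `S`. -/
def LGraph.IsComponent (A : LGraph V) (S C : Set V) : Prop :=
  C ⊆ S ∧ A.Conn C ∧ ∀ D : Set V, D ⊆ S → A.Conn D → C ⊆ D → D = C

/-- Epimorphisms: homomorphisms that are surjective on vertices and on edges. -/
structure IsEpi (A : LGraph V) (B : LGraph W) (f : V → W) : Prop where
  hom : ∀ a b, A.E a b → B.E (f a) (f b)
  surj : Function.Surjective f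
  surj_edge : ∀ u v, B.E u v → ∃ a b, A.E a b ∧ f a = u ∧ f b = v

/-- Confluent epimorphisms. -/
def IsConfluent (A : LGraph V) (B : LGraph W) (f : V → W) : Prop :=
  IsEpi A B f ∧ ∀ Q : Set W, B.Conn Q → ∀ C : Set V, A.IsComponent (f ⁻¹' Q) C → f '' C = Q

/-- Isomorphisms: injective epimorphisms. -/
def IsIso (A : LGraph V) (B : LGraph W) (f : V → W) : Prop := IsEpi A B f ∧ Function.Injective f

/-- Homogeneous graphs: every vertex can be sent to every vertex by an automorphism. -/
def LGraph.Homogeneous (A : LGraph V) : Prop :=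
  ∀ x y : V, ∃ f : V → V, IsIso A A f ∧ f x = y

/-- Adding a neighbour to a connected set. -/
theorem LGraph.Conn.insert {A : LGraph V} {C : Set V} (hC : A.Conn C) {x y : V}
    (hx : x ∈ C) (hxy : A.E x y) : A.Conn (C ∪ {y}) := by
  rintro ⟨P, Q, ⟨p, hp⟩, ⟨q, hq⟩, hPQ, hno⟩
  have hsub : ∀ z, z ∈ P ∨ z ∈ Q → z ∈ C ∨ z = y := by
    intro z hz
    have : z ∈ C ∪ {y} := by rw [← hPQ]; exact hz
    exact this
  have hsup : ∀ z, z ∈ C ∨ z = y → z ∈ P ∨ z ∈ Q := by
    intro z hz
    have : z ∈ P ∪ Q := by rw [hPQ]; exact hz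
    exact this
  apply hC
  by_cases hyC : y ∈ C
  · refine ⟨P, Q, ⟨p, hp⟩, ⟨q, hq⟩, ?_, hno⟩
    rw [hPQ]
    exact Set.union_eq_self_of_subset_right (Set.singleton_subset_iff.2 hyC)
  -- intersect both parts with `C`
  refine ⟨P ∩ C, Q ∩ C, ?_, ?_, ?_, fun p hp q hq => hno p hp.1 q hq.1⟩
  · by_contra hne
    rw [Set.not_nonempty_iff_eq_empty] at hne
    have h1 : ∀ z ∈ P, z = y := by
      intro z hz
      rcases hsub z (Or.inl hz) with h | h
      · exact absurd (show z ∈ P ∩ C from ⟨hz, h⟩) (by rw [hne]; exact Set.notMem_empty z)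
      · exact h
    have hpy := h1 p hp
    rcases hsup x (Or.inl hx) with h | h
    · exact hyC ((h1 x h) ▸ hx)
    · exact hno p hp x h (hpy ▸ A.symm _ _ hxy)
  · by_contra hne
    rw [Set.not_nonempty_iff_eq_empty] at hne
    have h1 : ∀ z ∈ Q, z = y := by
      intro z hz
      rcases hsub z (Or.inr hz) with h | h
      · exact absurd (show z ∈ Q ∩ C from ⟨hz, h⟩) (by rw [hne]; exact Set.notMem_empty z)
      · exact h
    have hqy := h1 q hq
    rcases hsup x (Or.inl hx) with h | h
    · exact hno x h q hq (hqy ▸ hxy)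
    · exact hyC ((h1 x h) ▸ hx)
  · ext z
    constructor
    · rintro (h | h)
      · exact h.2
      · exact h.2
    · intro hz
      rcases hsup z (Or.inl hz) with h | h
      · exact Or.inl ⟨h, hz⟩
      · exact Or.inr ⟨h, hz⟩

/-- The Cayley graph of `Sym(V(H))` with respect to the transpositions of the edges of `H`. -/
def cay [DecidableEq V] (H : LGraph V) : LGraph (Equiv.Perm V) where
  E := fun σ τ => τ = σ ∨ ∃ u v, H.E u v ∧ τ = Equiv.swap u v * σ
  refl := fun σ => Or.inl rfl
  symm := by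
    rintro σ τ (rfl | ⟨u, v, huv, rfl⟩)
    · exact Or.inl rfl
    · exact Or.inr ⟨u, v, huv, by rw [Equiv.swap_mul_self_mul]⟩

theorem cay_homogeneous [DecidableEq V] (H : LGraph V) : (cay H).Homogeneous := by
  intro σ τ
  have key : ∀ ρ : Equiv.Perm V, IsIso (cay H) (cay H) (fun π => (π * ρ : Equiv.Perm V)) := by
    intro ρ
    have hhom : ∀ ρ : Equiv.Perm V, ∀ a b : Equiv.Perm V, (cay H).E a b →
        (cay H).E (a * ρ : Equiv.Perm V) (b * ρ : Equiv.Perm V) := by
      rintro ρ a b (rfl | ⟨u, v, huv, rfl⟩)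
      · exact Or.inl rfl
      · exact Or.inr ⟨u, v, huv, by rw [mul_assoc]⟩
    refine ⟨⟨hhom ρ, fun b => ⟨(b * ρ⁻¹ : Equiv.Perm V), ?_⟩, fun u v huv => ?_⟩, fun a b hab => ?_⟩
    · exact inv_mul_cancel_right b ρ
    · refine ⟨(u * ρ⁻¹ : Equiv.Perm V), (v * ρ⁻¹ : Equiv.Perm V), hhom ρ⁻¹ u v huv, ?_, ?_⟩
      · exact inv_mul_cancel_right u ρ
      · exact inv_mul_cancel_right v ρ
    · exact mul_right_cancel (G := Equiv.Perm V) hab
  exact ⟨_, key (σ⁻¹ * τ : Equiv.Perm V), mul_inv_cancel_left σ τ⟩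

theorem cay_connected [Finite V] [DecidableEq V] (H : LGraph V) (hH : H.Conn Set.univ) :
    (cay H).Conn Set.univ := by
  have : Fintype V := Fintype.ofFinite V
  rintro ⟨P, Q, ⟨σ, hσ⟩, ⟨τ, hτ⟩, hPQ, hno⟩
  -- the submonoid preserving `P`
  let K : Submonoid (Equiv.Perm V) :=
    { carrier := {g | ∀ π : Equiv.Perm V, π ∈ P → (g * π : Equiv.Perm V) ∈ P}
      one_mem' := fun π hπ => by rwa [one_mul]
      mul_mem' := fun {a b} ha hb π hπ => by
        rw [mul_assoc]
        exact ha _ (hb _ hπ) }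
  have hK : ∀ u v, H.E u v → Equiv.swap u v ∈ K := by
    intro u v huv π hπ
    have h1 : (Equiv.swap u v * π : Equiv.Perm V) ∈ P ∪ Q := by rw [hPQ]; exact Set.mem_univ _
    rcases h1 with h1 | h1
    · exact h1
    · exact absurd (Or.inr ⟨u, v, huv, rfl⟩) (hno π hπ _ h1)
  have hswap : ∀ x y : V, Equiv.swap x y ∈ K := by
    intro x y
    by_contra hxy
    apply hH
    refine ⟨{z | Equiv.swap x z ∈ K}, {z | Equiv.swap x z ∉ K}, ⟨x, ?_⟩, ⟨y, hxy⟩, ?_, ?_⟩
    · change Equiv.swap x x ∈ K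
      rw [Equiv.swap_self]
      exact K.one_mem
    · ext z
      simp only [Set.mem_union, Set.mem_univ, iff_true]
      exact em _
    · intro p hp q hq hpq
      exact hq (SubmonoidClass.swap_mem_trans K hp (hK p q hpq))
  have htop : ∀ g : Equiv.Perm V, g ∈ K := by
    intro g
    have h1 : Submonoid.closure {σ : Equiv.Perm V | σ.IsSwap} ≤ K := by
      rw [Submonoid.closure_le]
      rintro _ ⟨x, y, -, rfl⟩
      exact hswap x y
    apply h1
    rw [Equiv.Perm.mclosure_isSwap]
    exact Submonoid.mem_top g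
  have h2 : τ ∈ P := by
    have h3 := htop (τ * σ⁻¹ : Equiv.Perm V) σ hσ
    have h4 : (τ * σ⁻¹ * σ : Equiv.Perm V) = τ := inv_mul_cancel_right τ σ
    rwa [h4] at h3
  exact hno τ h2 τ hτ ((cay H).refl τ)

theorem cay_confluent [DecidableEq V] (H : LGraph V) (v₀ : V) :
    IsConfluent (cay H) H (fun σ : Equiv.Perm V => σ v₀) := by
  refine ⟨⟨?_, ?_, ?_⟩, ?_⟩
  · rintro a b (rfl | ⟨u, v, huv, rfl⟩)
    · exact H.refl _
    · change H.E (a v₀) (Equiv.swap u v (a v₀))
      rcases eq_or_ne (a v₀) u with h | h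
      · rw [h, Equiv.swap_apply_left]; exact huv
      · rcases eq_or_ne (a v₀) v with h' | h'
        · rw [h', Equiv.swap_apply_right]; exact H.symm _ _ huv
        · rw [Equiv.swap_apply_of_ne_of_ne h h']; exact H.refl _
  · intro b
    exact ⟨Equiv.swap v₀ b, Equiv.swap_apply_left v₀ b⟩
  · intro u v huv
    refine ⟨Equiv.swap v₀ u, (Equiv.swap u v * Equiv.swap v₀ u : Equiv.Perm V),
      Or.inr ⟨u, v, huv, rfl⟩, Equiv.swap_apply_left v₀ u, ?_⟩
    change Equiv.swap u v (Equiv.swap v₀ u v₀) = v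
    rw [Equiv.swap_apply_left, Equiv.swap_apply_left]
  · intro Q hQ C hC
    obtain ⟨hCQ, hCc, hmax⟩ := hC
    apply Set.Subset.antisymm
    · rintro _ ⟨σ, hσ, rfl⟩
      exact hCQ hσ
    · -- closed under moving along edges inside `Q`
      have hstep : ∀ q ∈ (fun σ : Equiv.Perm V => σ v₀) '' C, ∀ q' ∈ Q, H.E q q' →
          q' ∈ (fun σ : Equiv.Perm V => σ v₀) '' C := by
        rintro q ⟨σ, hσ, rfl⟩ q' hq' hE
        have h1 : (cay H).Conn (C ∪ {(Equiv.swap (σ v₀) q' * σ : Equiv.Perm V)}) :=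
          hCc.insert hσ (Or.inr ⟨_, _, hE, rfl⟩)
        have h2 : (Equiv.swap (σ v₀) q' * σ : Equiv.Perm V) v₀ = q' :=
          Equiv.swap_apply_left _ _
        have h3 := hmax _ ?_ h1 Set.subset_union_left
        · refine ⟨(Equiv.swap (σ v₀) q' * σ : Equiv.Perm V), ?_, h2⟩
          rw [← h3]
          exact Or.inr rfl
        · rintro π (hπ | hπ)
          · exact hCQ hπ
          · rw [Set.mem_singleton_iff.1 hπ]
            change (Equiv.swap (σ v₀) q' * σ : Equiv.Perm V) v₀ ∈ Q
            rw [h2]; exact hq'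
      by_cases hCne : C.Nonempty
      · obtain ⟨σ, hσ⟩ := hCne
        intro q hq
        by_contra hqC
        apply hQ
        refine ⟨(fun σ : Equiv.Perm V => σ v₀) '' C, Q \ (fun σ : Equiv.Perm V => σ v₀) '' C,
          ⟨_, σ, hσ, rfl⟩, ⟨q, hq, hqC⟩, ?_, ?_⟩
        · rw [Set.union_sdiff_self]
          apply Set.union_eq_self_of_subset_left
          rintro _ ⟨σ, hσ, rfl⟩
          exact hCQ hσ
        · intro p hp q' hq' hE
          exact hq'.2 (hstep p hp q' hq'.1 hE)
      · rw [Set.not_nonempty_iff_eq_empty] at hCne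
        intro q hq
        exfalso
        -- a singleton would be a larger connected set
        have h1 : (cay H).Conn ({Equiv.swap v₀ q} : Set (Equiv.Perm V)) := by
          rintro ⟨P, R, ⟨p, hp⟩, ⟨r, hr⟩, hPR, hno⟩
          have hp' : p ∈ P ∪ R := Or.inl hp
          have hr' : r ∈ P ∪ R := Or.inr hr
          rw [hPR] at hp' hr'
          rw [Set.mem_singleton_iff] at hp' hr'
          apply hno p hp r hr
          rw [hp', hr']
          exact (cay H).refl _
        have h2 := hmax _ ?_ h1 (by rw [hCne]; exact Set.empty_subset _)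
        · rw [hCne] at h2
          exact Set.singleton_ne_empty _ h2
        · rintro π hπ
          rw [Set.mem_singleton_iff] at hπ
          rw [hπ]
          change Equiv.swap v₀ q v₀ ∈ Q
          rw [Equiv.swap_apply_left]
          exact hq

theorem id_confluent (H : LGraph V) : IsConfluent H H id := by
  refine ⟨⟨fun a b h => h, Function.surjective_id, fun u v h => ⟨u, v, h, rfl, rfl⟩⟩, ?_⟩
  intro Q hQ C hC
  rw [Set.image_id]
  rw [Set.preimage_id] at hC
  exact (hC.2.2 Q subset_rfl hQ hC.1).symm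

theorem main [Finite V] (H : LGraph V) (hH : H.Conn Set.univ) :
    ∃ (W : Type) (_ : Finite W) (G : LGraph W) (f : W → V),
      G.Conn Set.univ ∧ G.Homogeneous ∧ IsConfluent G H f := by
  classical
  by_cases h : Nonempty V
  · obtain ⟨v₀⟩ := h
    exact ⟨Equiv.Perm V, inferInstance, cay H, _, cay_connected H hH, cay_homogeneous H,
      cay_confluent H v₀⟩
  · exact ⟨V, inferInstance, H, id, hH, fun x => (h ⟨x⟩).elim, id_confluent H⟩

end Pool.Agent.X42.Confluent
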