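import Pool.Agent.X42.FewOrient
import Pool.Agent.X42.FewCuts
import Pool.Agent.TH505.OCDC.Decomp

/-!
Orientable five cycle double covers of simple graphs with few disjoint small cuts. (The translation
between simple graphs and multigraphs follows `Pool.Agent.TH505.OW.Fin`.)
-/

set_option autoImplicit false
set_option linter.unusedSectionVars false
set_option linter.unusedDecidableInType false
set_option linter.unusedFintypeInType false

namespace Pool.Agent.X42.FewOCDC

open Finset Pool.Agent.TH505.OCDC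
open Pool.Agent.X42.FewCuts Pool.Agent.X42.FewOrient

variable {V : Type}

/-- The number of edges of `G` between `X` and the rest. -/
noncomputable def edgesOut (G : SimpleGraph V) (X : Set V) : ℕ :=
  {p : V × V | G.Adj p.1 p.2 ∧ p.1 ∈ X ∧ p.2 ∉ X}.ncard

/-- One of the following conditions holds. (1) There are no seventeen pairwise disjoint vertex
sets with an odd number, at most nine, of boundary edges. (2) For some `d ≥ 10` every vertex has
at least `d` neighbours and there are fewer than `17 (d + 1)` vertices. (3) For all pairwise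
disjoint vertex sets `X 0, ..., X (m - 1)`, where `18 ≤ m`, whose numbers of boundary edges are
odd, the sum of these numbers is larger than `4 m - 6`. -/
def FewSmallCutsG (G : SimpleGraph V) : Prop :=
  (¬ ∃ X : Fin 17 → Set V, (∀ i j, i ≠ j → Disjoint (X i) (X j)) ∧
    ∀ i, Odd (edgesOut G (X i)) ∧ edgesOut G (X i) ≤ 9) ∨
  (∃ d, 10 ≤ d ∧ Nat.card V < 17 * (d + 1) ∧ ∀ v, d ≤ (G.neighborSet v).ncard) ∨
  ∀ (m : ℕ) (X : Fin m → Set V), 18 ≤ m → (∀ i j, i ≠ j → Disjoint (X i) (X j)) →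
    (∀ i, Odd (edgesOut G (X i))) → 4 * m < ∑ i, edgesOut G (X i) + 6

/-- First end. -/
noncomputable def sE (G : SimpleGraph V) (e : G.edgeSet) : V := (Quot.out e.1).1
/-- Second end. -/
noncomputable def tE (G : SimpleGraph V) (e : G.edgeSet) : V := (Quot.out e.1).2

lemma st_mk (G : SimpleGraph V) (e : G.edgeSet) : s(sE G e, tE G e) = e.1 := by
  unfold sE tE
  exact Quot.out_eq e.1

lemma st_adj (G : SimpleGraph V) (e : G.edgeSet) : G.Adj (sE G e) (tE G e) := by
  have h := e.2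
  rw [← st_mk G e, SimpleGraph.mem_edgeSet] at h
  exact h

lemma st_eq (G : SimpleGraph V) {u v : V} (h : G.Adj u v) (e : G.edgeSet) :
    e = ⟨s(u, v), h⟩ ↔ (sE G e = u ∧ tE G e = v) ∨ (tE G e = u ∧ sE G e = v) := by
  rw [Subtype.ext_iff, ← st_mk G e, Sym2.eq_iff]
  constructor
  · rintro (h | ⟨h1, h2⟩)
    · exact Or.inl h
    · exact Or.inr ⟨h2, h1⟩
  · rintro (h | ⟨h1, h2⟩)
    · exact Or.inl h
    · exact Or.inr ⟨h2, h1⟩

lemma boundary_eq (G : SimpleGraph V) (X : Set V) :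
    boundary (sE G) (tE G) X = edgesOut G X := by
  unfold boundary edgesOut
  symm
  refine Set.ncard_congr (fun p hp => (⟨s(p.1, p.2), hp.1⟩ : G.edgeSet)) ?_ ?_ ?_
  · rintro ⟨u, v⟩ ⟨h1, h2, h3⟩
    show ¬ (_ ↔ _)
    rcases (st_eq G h1 ⟨s(u, v), h1⟩).1 rfl with ⟨h4, h5⟩ | ⟨h4, h5⟩
    · rw [h4, h5]
      exact fun h => h3 (h.1 h2)
    · rw [h4, h5]
      exact fun h => h3 (h.2 h2)
  · rintro ⟨u, v⟩ ⟨u', v'⟩ ⟨h1, h2, h3⟩ ⟨h1', h2', h3'⟩ h
    have h4 : s(u, v) = s(u', v') := congrArg Subtype.val h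
    rw [Sym2.eq_iff] at h4
    rcases h4 with ⟨rfl, rfl⟩ | ⟨rfl, rfl⟩
    · rfl
    · exact absurd h2 h3'
  · rintro e he
    have he' : ¬ (sE G e ∈ X ↔ tE G e ∈ X) := he
    by_cases h1 : sE G e ∈ X
    · exact ⟨(sE G e, tE G e), ⟨st_adj G e, h1, fun h2 => he' ⟨fun _ => h2, fun _ => h1⟩⟩,
        Subtype.ext (st_mk G e)⟩
    · have h2 : tE G e ∈ X := by
        by_contra h2
        exact he' ⟨fun h => absurd h h1, fun h => absurd h h2⟩
      exact ⟨(tE G e, sE G e), ⟨(st_adj G e).symm, h2, h1⟩,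
        Subtype.ext (by rw [← st_mk G e]; exact Sym2.eq_swap)⟩

lemma few (G : SimpleGraph V) (h : FewSmallCutsG G) : FewSmallCuts (sE G) (tE G) := by
  rcases h with h | h | h
  · refine Or.inr (Or.inl ?_)
    rintro ⟨X, h1, h2⟩
    apply h
    refine ⟨X, h1, fun i => ?_⟩
    rw [← boundary_eq]
    exact h2 i
  · refine Or.inr (Or.inr ?_)
    obtain ⟨d, h1, h2, h3⟩ := h
    refine ⟨d, h1, h2, fun v => (h3 v).trans (le_of_eq ?_)⟩
    congr 1
    ext w
    simp only [SimpleGraph.mem_neighborSet, Set.mem_ofPred_eq]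
    constructor
    · intro hw
      refine ⟨hw.ne.symm, ⟨s(v, w), hw⟩, ?_⟩
      rcases (st_eq G hw ⟨s(v, w), hw⟩).1 rfl with h4 | h4
      · exact Or.inl h4
      · exact Or.inr ⟨h4.2, h4.1⟩
    · rintro ⟨_, e, ⟨h4, h5⟩ | ⟨h4, h5⟩⟩
      · rw [← h4, ← h5]; exact st_adj G e
      · rw [← h4, ← h5]; exact (st_adj G e).symm
  · refine Or.inl ?_
    intro m X h1 h2 h3
    have h4 := h m X h1 h2 (fun i => by rw [← boundary_eq]; exact h3 i)
    have h5 : ∑ i, boundary (sE G) (tE G) (X i) = ∑ i, edgesOut G (X i) :=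
      Finset.sum_congr rfl fun i _ => boundary_eq G (X i)
    rw [h5]
    exact h4

lemma cross {G : SimpleGraph V} (Z : Set V) : ∀ {a b : V} (_ : G.Walk a b), a ∈ Z → b ∉ Z →
    ∃ x y, G.Adj x y ∧ x ∈ Z ∧ y ∉ Z := by
  intro a b p
  induction p with
  | nil => intro h1 h2; exact absurd h1 h2
  | @cons a c b h p ih =>
    intro h1 h2
    by_cases hc : c ∈ Z
    · exact ih hc h2
    · exact ⟨a, c, h, h1, hc⟩

lemma n1_of (G : SimpleGraph V) [Fintype V] [DecidableEq V] [Fintype G.edgeSet]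
    [DecidableEq G.edgeSet]
    (h : ∀ u v : V, G.Adj u v → (G.deleteEdges {s(u, v)}).Reachable u v) :
    Pool.Agent.TH362.TF.N1 (sE G) (tE G) univ := by
  classical
  intro x h1
  obtain ⟨e, he⟩ := Finset.card_eq_one.1 h1
  set Z : Set V := {v | x v = true} with hZ
  have hmem : ∀ e', ¬ (sE G e' ∈ Z ↔ tE G e' ∈ Z) ↔ e' = e := by
    intro e'
    have h2 : e' ∈ Pool.Agent.TH362.TF.cut (sE G) (tE G) univ x ↔ e' ∈ ({e} : Finset G.edgeSet) := by
      rw [he]
    rw [mem_singleton] at h2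
    rw [← h2]
    unfold Pool.Agent.TH362.TF.cut
    rw [mem_filter]
    simp only [hZ, Set.mem_ofPred_eq, mem_univ, true_and]
    cases x (sE G e') <;> cases x (tE G e') <;> simp
  have h2 : ¬ (sE G e ∈ Z ↔ tE G e ∈ Z) := (hmem e).2 rfl
  have key : ∀ u v, G.Adj u v → u ∈ Z → v ∉ Z → e.1 = s(u, v) := by
    intro u v huv hu hv
    have h3 : ¬ (sE G ⟨s(u, v), huv⟩ ∈ Z ↔ tE G ⟨s(u, v), huv⟩ ∈ Z) := by
      rcases (st_eq G huv ⟨s(u, v), huv⟩).1 rfl with ⟨h1, h2⟩ | ⟨h1, h2⟩
      · rw [h1, h2]; tauto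
      · rw [h1, h2]; tauto
    rw [hmem] at h3
    rw [← h3]
  obtain ⟨u, v, huv, hu, hv⟩ : ∃ u v, G.Adj u v ∧ u ∈ Z ∧ v ∉ Z := by
    by_cases hs : sE G e ∈ Z
    · exact ⟨_, _, st_adj G e, hs, fun h => h2 ⟨fun _ => h, fun _ => hs⟩⟩
    · have ht : tE G e ∈ Z := by
        by_contra h
        exact h2 ⟨fun h' => absurd h' hs, fun h' => absurd h' h⟩
      exact ⟨_, _, (st_adj G e).symm, ht, hs⟩
  obtain ⟨p⟩ := h u v huv
  obtain ⟨y, z, hxy, hx, hy⟩ := cross Z p hu hv
  rw [SimpleGraph.deleteEdges_adj] at hxy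
  have h4 := key u v huv hu hv
  have h5 := key y z hxy.1 hx hy
  exact hxy.2 (by rw [Set.mem_singleton_iff, ← h4, ← h5])

open Classical in
/-- The flow of the coordinate `i` on the pairs of vertices. -/
noncomputable def gfl (G : SimpleGraph V) [Fintype G.edgeSet] (f : G.edgeSet → Fin 5 × Fin 5)
    (i : Fin 5) (u v : V) : ℤ :=
  ∑ e, rt (f e) i * ((if sE G e = u ∧ tE G e = v then 1 else 0) -
    (if tE G e = u ∧ sE G e = v then 1 else 0))

open scoped Classical in
theorem final [Fintype V] (G : SimpleGraph V)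
    (h : ∀ u v : V, G.Adj u v → (G.deleteEdges {s(u, v)}).Reachable u v)
    (hF : FewSmallCutsG G) :
    ∃ C : Fin 5 → List (Σ v : V, G.Walk v v), (∀ i, ∀ c ∈ C i, c.2.IsCycle) ∧
      (∀ i u v, tot (C i) u v + tot (C i) v u ≤ 1) ∧
      ∀ u v, G.Adj u v → ∑ i, tot (C i) u v = 1 := by
  have hn := n1_of G h
  obtain ⟨f, hf1, hf2⟩ := roots hn (not_bad hn (few G hF))
  have hanti : ∀ i u v, gfl G f i v u = - gfl G f i u v := by
    intro i u v
    unfold gfl
    rw [← Finset.sum_neg_distrib]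
    refine Finset.sum_congr rfl fun e _ => ?_
    simp only [and_comm]
    ring
  have hz : ∀ i u v, ¬ G.Adj u v → gfl G f i u v = 0 := by
    intro i u v h
    unfold gfl
    refine Finset.sum_eq_zero fun e _ => ?_
    rw [if_neg, if_neg]
    · ring
    · rintro ⟨h1, h2⟩
      exact h (h1 ▸ h2 ▸ (st_adj G e).symm)
    · rintro ⟨h1, h2⟩
      exact h (h1 ▸ h2 ▸ (st_adj G e))
  have hval : ∀ u v (h : G.Adj u v), (∀ i, gfl G f i u v = rt (f ⟨s(u, v), h⟩) i) ∨
      ∀ i, gfl G f i u v = - rt (f ⟨s(u, v), h⟩) i := by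
    intro u v h
    have hne := h.ne
    have h0 : ∀ i, gfl G f i u v = rt (f ⟨s(u, v), h⟩) i *
        ((if sE G ⟨s(u, v), h⟩ = u ∧ tE G ⟨s(u, v), h⟩ = v then 1 else 0) -
          (if tE G ⟨s(u, v), h⟩ = u ∧ sE G ⟨s(u, v), h⟩ = v then 1 else 0)) := by
      intro i
      unfold gfl
      refine Finset.sum_eq_single_of_mem (⟨s(u, v), h⟩ : G.edgeSet) (mem_univ _) ?_
      intro e _ hne'
      have h1 := (st_eq G h e).not.1 hne'
      push Not at h1
      rw [if_neg (fun h2 => h1.1 h2.1 h2.2), if_neg (fun h2 => h1.2 h2.1 h2.2)]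
      ring
    rcases (st_eq G h ⟨s(u, v), h⟩).1 rfl with ⟨h1, h2⟩ | ⟨h1, h2⟩
    · left
      intro i
      rw [h0 i, if_pos (And.intro h1 h2), if_neg (fun h3 => hne (h1.symm.trans h3.2))]
      ring
    · right
      intro i
      rw [h0 i, if_neg (fun h3 => hne (h3.1.symm.trans h2)), if_pos (And.intro h1 h2)]
      ring
  have h2 : ∀ i u, ∑ w, gfl G f i u w = 0 := by
    intro i u
    rw [← hf2 u i]
    unfold gfl out
    rw [Finset.sum_comm]
    refine Finset.sum_congr rfl fun e _ => ?_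
    rw [← Finset.mul_sum, Finset.sum_sub_distrib]
    congr 2
    · by_cases h : sE G e = u <;> simp [h]
    · by_cases h : tE G e = u <;> simp [h]
  have h4 : ∀ i u v, gfl G f i u v = 0 ∨ gfl G f i u v = 1 ∨ gfl G f i u v = -1 := by
    intro i u v
    by_cases h : G.Adj u v
    · have h1 : rt (f ⟨s(u, v), h⟩) i = 0 ∨ rt (f ⟨s(u, v), h⟩) i = 1 ∨
          rt (f ⟨s(u, v), h⟩) i = -1 := by
        unfold rt
        split_ifs <;> simp
      rcases hval u v h with h2 | h2
      · rw [h2 i]; exact h1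
      · rw [h2 i]
        rcases h1 with h1 | h1 | h1 <;> rw [h1] <;> simp
    · exact Or.inl (hz i u v h)
  have h6 : ∀ u v, G.Adj u v → ∃ i, gfl G f i u v = 1 ∧ ∀ j, gfl G f j u v = 1 → j = i := by
    intro u v h
    have hne := hf1 ⟨s(u, v), h⟩
    rcases hval u v h with h2 | h2
    · refine ⟨(f ⟨s(u, v), h⟩).1, ?_, ?_⟩
      · rw [h2]
        unfold rt
        rw [if_pos rfl, if_neg (fun h' => hne h'.symm)]
        norm_num
      · intro j hj
        rw [h2] at hj
        unfold rt at hj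
        by_cases h3 : (f ⟨s(u, v), h⟩).1 = j
        · exact h3.symm
        · rw [if_neg h3] at hj
          split_ifs at hj <;> norm_num at hj
    · refine ⟨(f ⟨s(u, v), h⟩).2, ?_, ?_⟩
      · rw [h2]
        unfold rt
        rw [if_neg hne, if_pos rfl]
        norm_num
      · intro j hj
        rw [h2] at hj
        unfold rt at hj
        by_cases h3 : (f ⟨s(u, v), h⟩).2 = j
        · exact h3.symm
        · rw [if_neg h3] at hj
          split_ifs at hj <;> norm_num at hj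
  have key : ∀ i, ∃ C : List (Σ v : V, G.Walk v v), (∀ c ∈ C, c.2.IsCycle) ∧
      ∀ u v, tot C u v = ind (gfl G f i u v = 1) := fun i =>
    flow_decomp (gfl G f i) (hanti i) (h4 i) (fun u v hne => by
      by_contra h'
      exact hne (hz i u v h')) (h2 i)
  choose C hC1 hC2 using key
  refine ⟨C, hC1, ?_, ?_⟩
  · intro i u v
    rw [hC2, hC2, hanti i u v]
    rcases h4 i u v with h7 | h7 | h7
    · rw [h7, ind_neg (by norm_num), ind_neg (by norm_num)]; norm_num
    · rw [h7, ind_pos rfl, ind_neg (by norm_num)]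
    · rw [h7, ind_neg (by norm_num), ind_pos (by norm_num)]
  · intro u v huv
    rw [Finset.sum_congr rfl (fun i _ => hC2 i u v)]
    obtain ⟨i, hi1, hi2⟩ := h6 u v huv
    rw [Finset.sum_eq_single i]
    · exact ind_pos hi1
    · intro k _ hk
      exact ind_neg (fun h' => hk (hi2 k h'))
    · intro h'; exact absurd (mem_univ _) h'

end Pool.Agent.X42.FewOCDC
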