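import Pool.Agent.X42.FlowSp
import Pool.Agent.TH362.TF.Main

/-!
A bridgeless multigraph without a family of pairwise disjoint vertex sets with few boundary edges
has a nowhere-zero flow or a Petersen quotient all of whose classes have flows.
-/

set_option autoImplicit false
set_option linter.unusedSectionVars false
set_option linter.unusedDecidableInType false
set_option linter.unusedFintypeInType false

namespace Pool.Agent.X42.FlowH

open Finset Pool.Agent.TH362.TF Pool.Agent.TH362.TF.Red
open Pool.Agent.TH362.TP (MinQ ins)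
open Pool.Agent.X42.FlowQ Pool.Agent.X42.FlowSp

variable {V E : Type} [Fintype V] [DecidableEq V] [DecidableEq E]

/-- The number of boundary edges of a vertex set. -/
def bn (s t : E → V) (S : Finset E) (X : Finset V) : ℕ :=
  (cut s t S (fun v => decide (v ∈ X))).card

/-- There are at least 18 pairwise disjoint vertex sets with an odd number of boundary edges
whose numbers of boundary edges have a sum of at most `4 m - 6`, where `m` is the number of the
sets. -/
def Bad (s t : E → V) (S : Finset E) : Prop :=
  ∃ (m : ℕ) (X : Fin m → Finset V), 18 ≤ m ∧ (∀ i j, i ≠ j → Disjoint (X i) (X j)) ∧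
    (∀ i, Odd (bn s t S (X i))) ∧ ∑ i, bn s t S (X i) + 6 ≤ 4 * m

theorem bad_of {s t : E → V} {S : Finset E} {ι : Type} [Fintype ι] (X : ι → Finset V)
    (h1 : 18 ≤ Fintype.card ι) (h2 : ∀ i j, i ≠ j → Disjoint (X i) (X j))
    (h3 : ∀ i, Odd (bn s t S (X i)))
    (h4 : ∑ i, bn s t S (X i) + 6 ≤ 4 * Fintype.card ι) : Bad s t S := by
  refine ⟨Fintype.card ι, fun i => X ((Fintype.equivFin ι).symm i), h1, ?_, fun i => h3 _, ?_⟩
  · intro i j hij
    exact h2 _ _ (fun h => hij ((Fintype.equivFin ι).symm.injective h))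
  · have h5 : ∑ i, bn s t S (X ((Fintype.equivFin ι).symm i)) = ∑ i, bn s t S (X i) :=
      Equiv.sum_comp (Fintype.equivFin ι).symm (fun i => bn s t S (X i))
    rw [h5]
    exact h4

theorem bn_quot {s t : E → V} {S S' : Finset E} {f : V → V} (hS : S' ⊆ S)
    (hf : ∀ e ∈ S, e ∉ S' → f (s e) = f (t e)) (X : Finset V) :
    bn (fun e => f (s e)) (fun e => f (t e)) S' X = bn s t S (univ.filter (fun v => f v ∈ X)) := by
  unfold bn
  rw [quot_cut hS hf]
  congr 2
  funext v
  simp only [mem_filter, mem_univ, true_and]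

theorem quot_bad {s t : E → V} {S S' : Finset E} {f : V → V} (hS : S' ⊆ S)
    (hf : ∀ e ∈ S, e ∉ S' → f (s e) = f (t e))
    (h : Bad (fun e => f (s e)) (fun e => f (t e)) S') : Bad s t S := by
  obtain ⟨m, X, h1, h2, h3, h4⟩ := h
  refine ⟨m, fun i => univ.filter (fun v => f v ∈ X i), h1, ?_, ?_, ?_⟩
  · intro i j hij
    rw [Finset.disjoint_left]
    intro v hv hv'
    simp only [mem_filter, mem_univ, true_and] at hv hv'
    exact Finset.disjoint_left.1 (h2 i j hij) hv hv'
  · intro i
    show Odd (bn s t S (univ.filter (fun v => f v ∈ X i)))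
    rw [← bn_quot hS hf]
    exact h3 i
  · refine le_trans (le_of_eq ?_) h4
    congr 1
    refine Finset.sum_congr rfl fun i _ => ?_
    rw [bn_quot hS hf]

theorem bn_single {s t : E → V} {S : Finset E} (h : ∀ e ∈ S, s e ≠ t e) (v : V) :
    bn s t S {v} = deg s t S v := by
  rw [← deg_eq_cut h v]
  unfold bn
  simp only [mem_singleton]

theorem min_bad {s t : E → V} {S : Finset E} (h : MinQ s t S) (ho : 16 < (odd s t S).card) :
    Bad s t S := by
  have hev : (odd s t S).card % 2 = 0 := by
    have h1 := parity s t S (fun _ => true)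
    simp only [filter_true] at h1
    have h2 : cut s t S (fun _ => true) = ∅ := by
      unfold cut
      rw [Finset.filter_eq_empty_iff]
      intro e _ hh
      exact hh rfl
    rw [h2, card_empty] at h1
    simpa using h1
  have h18 : 18 ≤ (odd s t S).card := by omega
  refine bad_of (ι := {v // v ∈ odd s t S}) (fun v => {v.1}) ?_ ?_ ?_ ?_
  · rw [Fintype.card_coe]
    exact h18
  · intro i j hij
    rw [Finset.disjoint_singleton]
    exact fun hh => hij (Subtype.ext hh)
  · intro v
    rw [bn_single (noloop h)]
    exact (mem_filter.1 v.2).2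
  · rw [Fintype.card_coe]
    have h1 : ∑ v : {v // v ∈ odd s t S}, bn s t S {v.1} = ∑ v ∈ odd s t S, deg s t S v := by
      rw [← Finset.sum_coe_sort (odd s t S)]
      exact Finset.sum_congr rfl fun v _ => bn_single (noloop h) v.1
    rw [h1]
    have h2 := sparse_deg h
    have h3 : odd s t S ⊆ univ.filter (fun v => deg s t S v ≠ 0) := by
      intro v hv
      refine mem_filter.2 ⟨mem_univ _, fun h0 => ?_⟩
      have h5 := (mem_filter.1 hv).2
      rw [h0] at h5
      exact absurd h5 (by decide)
    have h4 : ∑ v, deg s t S v = ∑ v ∈ univ.filter (fun v => deg s t S v ≠ 0), deg s t S v := by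
      symm
      apply Finset.sum_subset (Finset.subset_univ _)
      intro v _ hv
      by_contra hne
      exact hv (mem_filter.2 ⟨mem_univ _, hne⟩)
    have h5 := Finset.sum_sdiff (f := fun v => deg s t S v) h3
    have h6 : ∑ v ∈ univ.filter (fun v => deg s t S v ≠ 0) \ odd s t S, 4 ≤
        ∑ v ∈ univ.filter (fun v => deg s t S v ≠ 0) \ odd s t S, deg s t S v := by
      apply Finset.sum_le_sum
      intro v hv
      rw [mem_sdiff, mem_filter] at hv
      have h7 : ¬ Odd (deg s t S v) := fun h8 => hv.2 (mem_filter.2 ⟨mem_univ _, h8⟩)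
      have h8 := deg_ge h v
      have h9 : deg s t S v ≠ 3 := fun h10 => h7 (by rw [h10]; decide)
      have h10 := hv.1.2
      omega
    rw [Finset.sum_const, smul_eq_mul, card_sdiff_of_subset h3] at h6
    have h7 := card_le_card h3
    rw [h4] at h2
    omega

/-- **The core theorem.** -/
theorem mainB (s t : E → V) (S : Finset E) (h1 : N1 s t S) (h2 : ¬ Bad s t S) :
    NZ s t S ∨ PQ s t S := by
  by_contra hcon
  push Not at hcon
  obtain ⟨f, S', hS, hf, hm⟩ := exists_min h1 hcon.1
  have h3 : 16 < (odd (fun e => f (s e)) (fun e => f (t e)) S').card := by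
    by_contra h4
    rcases main16 _ _ _ hm.n1 (not_lt.1 h4) with h5 | h5
    · exact hm.nz h5
    · exact hcon.2 (quot_pq hS hf h5)
  exact h2 (quot_bad hS hf (min_bad hm h3))

/-- In a Petersen quotient of a graph without such a family every class has a flow. -/
theorem sideInn {s t : E → V} {S : Finset E} (h1 : N1 s t S) (h2 : ¬ Bad s t S) {κ : V → Fin 10}
    (hκ : IsPQ s t S κ) (k : Fin 10) : ∃ φ : E → F, Inn s t S κ k φ := by
  classical
  obtain ⟨k', hk'⟩ : ∃ k' : Fin 10, k' ≠ k := exists_ne k
  obtain ⟨w0, hw0⟩ : ∃ w, κ w = k' := by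
    by_contra hcon
    push Not at hcon
    have h3 := hκ.1 k'
    have h4 : cut s t S (fun v => decide (κ v = k')) = ∅ := by
      unfold cut
      rw [Finset.filter_eq_empty_iff]
      intro e _ hh
      exact hh (by simp [hcon])
    rw [h4, card_empty] at h3
    exact absurd h3 (by decide)
  have hw : κ w0 ≠ k := by rw [hw0]; exact hk'
  set f : V → V := fun v => if κ v = k then v else w0 with hf
  have hfk : ∀ v, κ v = k → f v = v := fun v hv => if_pos hv
  have hfn : ∀ v, κ v ≠ k → f v = w0 := fun v hv => if_neg hv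
  set S1 : Finset E := S.filter (fun e => κ (s e) = k ∨ κ (t e) = k) with hS1
  have hsub : S1 ⊆ S := filter_subset _ _
  have hcol : ∀ e ∈ S, e ∉ S1 → f (s e) = f (t e) := by
    intro e he he'
    have : ¬ (κ (s e) = k ∨ κ (t e) = k) := fun hh => he' (mem_filter.2 ⟨he, hh⟩)
    push Not at this
    rw [hfn _ this.1, hfn _ this.2]
  rcases mainB _ _ _ (quot_n1 hsub hcol h1) (fun hb => h2 (quot_bad hsub hcol hb)) with h3 | h3
  · obtain ⟨φ, hφ1, hφ2⟩ := h3
    refine ⟨φ, ?_, ?_⟩
    · intro e he hh
      exact hφ1 e (mem_filter.2 ⟨he, hh⟩)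
    · intro v hv
      have h4 := hφ2 v
      have key : ∀ u : V, (f u = v) ↔ u = v := by
        intro u
        by_cases hu : κ u = k
        · rw [hfk u hu]
        · rw [hfn u hu]
          constructor
          · intro hh
            rw [← hh] at hv
            exact absurd hv hw
          · intro hh
            rw [hh] at hu
            exact absurd hv hu
      rw [cons_iff] at h4 ⊢
      have h5 : ∑ e ∈ S1, tm (fun e => f (s e)) (fun e => f (t e)) φ v e =
          ∑ e ∈ S1, tm s t φ v e := by
        refine sum_congr rfl fun e _ => ?_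
        unfold tm
        simp only [key]
      rw [← h4, h5]
      symm
      apply sum_subset hsub
      intro e he he'
      have h6 : ¬ (κ (s e) = k ∨ κ (t e) = k) := fun hh => he' (mem_filter.2 ⟨he, hh⟩)
      push Not at h6
      unfold tm
      rw [if_neg, if_neg, add_zero]
      · intro hh
        exact h6.2 (by rw [hh]; exact hv)
      · intro hh
        exact h6.1 (by rw [hh]; exact hv)
  · exfalso
    apply h2
    obtain ⟨κ', hκ'⟩ := h3
    have hcl : ∀ m, bn s t S (univ.filter (fun v => κ' (f v) = m)) = 3 := by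
      intro m
      rw [← hκ'.1 m, quot_cut hsub hcol]
      unfold bn
      congr 2
      funext v
      simp only [mem_filter, mem_univ, true_and]
    have hcl2 : ∀ m, bn s t S (univ.filter (fun v => κ v = m)) = 3 := by
      intro m
      rw [← hκ.1 m]
      unfold bn
      congr 2
      funext v
      simp only [mem_filter, mem_univ, true_and]
    have hcard : Fintype.card ({m : Fin 10 // m ≠ κ' w0} ⊕ {m : Fin 10 // m ≠ k}) = 18 := by
      rw [Fintype.card_sum, Fintype.card_subtype_compl, Fintype.card_subtype_compl]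
      simp
    have hthree : ∀ i : {m : Fin 10 // m ≠ κ' w0} ⊕ {m : Fin 10 // m ≠ k},
        bn s t S (Sum.elim (fun m => univ.filter (fun v => κ' (f v) = m.1))
        (fun m => univ.filter (fun v => κ v = m.1)) i) = 3 := by
      rintro (m | m)
      · exact hcl m.1
      · exact hcl2 m.1
    refine bad_of (ι := {m : Fin 10 // m ≠ κ' w0} ⊕ {m : Fin 10 // m ≠ k})
      (Sum.elim (fun m => univ.filter (fun v => κ' (f v) = m.1))
        (fun m => univ.filter (fun v => κ v = m.1))) ?_ ?_ ?_ ?_
    · rw [hcard]
    · rintro (i | i) (j | j) hij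
      · rw [Finset.disjoint_left]
        intro v hv hv'
        simp only [Sum.elim_inl, mem_filter, mem_univ, true_and] at hv hv'
        exact hij (congrArg Sum.inl (Subtype.ext (hv.symm.trans hv')))
      · rw [Finset.disjoint_left]
        intro v hv hv'
        simp only [Sum.elim_inl, Sum.elim_inr, mem_filter, mem_univ, true_and] at hv hv'
        have : κ v ≠ k := by rw [hv']; exact j.2
        rw [hfn v this] at hv
        exact i.2 hv.symm
      · rw [Finset.disjoint_left]
        intro v hv hv'
        simp only [Sum.elim_inl, Sum.elim_inr, mem_filter, mem_univ, true_and] at hv hv'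
        have : κ v ≠ k := by rw [hv]; exact i.2
        rw [hfn v this] at hv'
        exact j.2 hv'.symm
      · rw [Finset.disjoint_left]
        intro v hv hv'
        simp only [Sum.elim_inr, mem_filter, mem_univ, true_and] at hv hv'
        exact hij (congrArg Sum.inr (Subtype.ext (hv.symm.trans hv')))
    · intro i
      rw [hthree i]
      decide
    · rw [Finset.sum_congr rfl (fun i _ => hthree i), Finset.sum_const, Finset.card_univ, hcard]
      norm_num

/-- Seventeen pairwise disjoint vertex sets with 3, 5, 7 or 9 boundary edges. -/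
def Seventeen (s t : E → V) (S : Finset E) : Prop :=
  ∃ X : Fin 17 → Finset V, (∀ i j, i ≠ j → Disjoint (X i) (X j)) ∧
    ∀ i, Odd (bn s t S (X i)) ∧ bn s t S (X i) ≤ 9

theorem seventeen_of_bad {s t : E → V} {S : Finset E} (h1 : N1 s t S) (h : Bad s t S) :
    Seventeen s t S := by
  classical
  obtain ⟨m, X, hm, hd, ho, hs⟩ := h
  set P : Finset (Fin m) := univ.filter (fun i => bn s t S (X i) ≤ 9) with hP
  have h3 : ∀ i, 3 ≤ bn s t S (X i) := by
    intro i
    have h4 := ho i
    have h5 : bn s t S (X i) ≠ 1 := h1 _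
    rcases h4 with ⟨j, hj⟩
    omega
  have h17 : 17 ≤ P.card := by
    by_contra hcon
    have h6 : ∑ i ∈ P, 3 ≤ ∑ i ∈ P, bn s t S (X i) := Finset.sum_le_sum fun i _ => h3 i
    have h7 : ∑ i ∈ univ \ P, 11 ≤ ∑ i ∈ univ \ P, bn s t S (X i) := by
      refine Finset.sum_le_sum fun i hi => ?_
      rw [mem_sdiff, hP, mem_filter] at hi
      have h8 : ¬ bn s t S (X i) ≤ 9 := fun h9 => hi.2 ⟨mem_univ _, h9⟩
      rcases ho i with ⟨j, hj⟩
      omega
    have h8 := Finset.sum_sdiff (f := fun i => bn s t S (X i)) (Finset.subset_univ P)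
    rw [Finset.sum_const, smul_eq_mul] at h6 h7
    rw [card_sdiff_of_subset (Finset.subset_univ P), Finset.card_univ, Fintype.card_fin] at h7
    omega
  obtain ⟨Q, hQ1, hQ2⟩ := Finset.exists_subset_card_eq h17
  let eqv := (Finset.equivFinOfCardEq hQ2).symm
  refine ⟨fun i => X (eqv i).1, ?_, fun i => ⟨ho _, ?_⟩⟩
  · intro i j hij
    apply hd
    intro hh
    exact hij (eqv.injective (Subtype.ext hh))
  · have := hQ1 (eqv i).2
    rw [hP, mem_filter] at this
    exact this.2

end Pool.Agent.X42.FlowH
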