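import Pool.Agent.X42.FlowT2
import Pool.Agent.X42.FlowQ

/-!
Sparsity of the minimal quotients without nowhere-zero flow: a set of vertices spans fewer edges
than two disjoint spanning trees have.
-/

set_option autoImplicit false
set_option linter.unusedSectionVars false
set_option linter.unusedDecidableInType false
set_option linter.unusedFintypeInType false

namespace Pool.Agent.X42.FlowSp

open Finset Pool.Agent.TH362.TF Pool.Agent.TH362.TF.Red
open Pool.Agent.TH362.TP (MinQ ins)
open Pool.Agent.X42.FlowQ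
open Pool.Agent.X42.FlowT2 (Spans two_trees)

variable {V E : Type} [Fintype V] [DecidableEq V] [DecidableEq E]

theorem card_sub (A : Finset E) (P : E → Prop) [DecidablePred P] :
    ((univ : Finset {e // e ∈ A}).filter (fun e => P e.1)).card = (A.filter P).card := by
  have h : A.filter P = ((univ : Finset {e // e ∈ A}).filter (fun e => P e.1)).map
      (Function.Embedding.subtype _) := by
    ext e
    simp only [mem_filter, mem_map, mem_univ, true_and, Function.Embedding.coe_subtype,
      Subtype.exists, exists_and_left, exists_prop]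
    constructor
    · rintro ⟨h1, h2⟩
      exact ⟨e, h2, h1, rfl⟩
    · rintro ⟨e', h2, h1, rfl⟩
      exact ⟨h1, h2⟩
  rw [h, card_map]

/-- from a spanning set `I` of the edges we get a chain with value one off `I` -/
lemma solve {W E' : Type} [Fintype W] [DecidableEq W] [Fintype E'] [DecidableEq E']
    (src dst : E' → W) (I : Finset E') (h : Spans src dst I) (b : W → ZMod 2)
    (hb : ∑ v, b v = 0) :
    ∃ p : E' → ZMod 2, (∀ e, e ∉ I → p e = 1) ∧
      ∀ v, ∑ e, ((if src e = v then p e else 0) + (if dst e = v then p e else 0)) = b v := by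
  classical
  obtain ⟨c, hc⟩ := h (fun v => b v + ∑ e ∈ univ \ I,
    ((if src e = v then 1 else 0) + (if dst e = v then 1 else 0))) (by
      rw [Finset.sum_add_distrib, hb, zero_add, Finset.sum_comm]
      apply Finset.sum_eq_zero
      intro e _
      rw [Finset.sum_add_distrib, Finset.sum_ite_eq, Finset.sum_ite_eq, if_pos (mem_univ _),
        if_pos (mem_univ _)]
      exact CharTwo.add_self_eq_zero _)
  refine ⟨fun e => if e ∈ I then c e else 1, fun e he => if_neg he, fun v => ?_⟩
  rw [← Finset.sum_sdiff (Finset.subset_univ I)]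
  have h1 : ∑ e ∈ I, ((if src e = v then (if e ∈ I then c e else 1) else 0) +
      (if dst e = v then (if e ∈ I then c e else 1) else 0)) =
      ∑ e ∈ I, ((if src e = v then c e else 0) + (if dst e = v then c e else 0)) := by
    refine Finset.sum_congr rfl fun e he => ?_
    rw [if_pos he]
  have h2 : ∑ e ∈ univ \ I, ((if src e = v then (if e ∈ I then c e else 1) else 0) +
      (if dst e = v then (if e ∈ I then c e else 1) else 0)) =
      ∑ e ∈ univ \ I, ((if src e = v then (1 : ZMod 2) else 0) + (if dst e = v then 1 else 0)) := by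
    refine Finset.sum_congr rfl fun e he => ?_
    rw [if_neg (mem_sdiff.1 he).2]
  rw [h1, h2, hc v, add_comm, add_assoc]
  have h3 : ∀ y : ZMod 2, y + y = 0 := fun y => CharTwo.add_self_eq_zero y
  rw [h3, add_zero]

theorem nostrong {s t : E → V} {S : Finset E} (h : MinQ s t S) (X : Finset V)
    (hX : 2 ≤ X.card)
    (hst : ∀ (c : ℕ) (π : V → Fin c), (∀ j, ∃ v ∈ X, π v = j) →
      2 * c ≤ ((ins s t S X).filter (fun e => π (s e) ≠ π (t e))).card + 2) : False := by
  classical
  set A := ins s t S X with hA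
  have hAm : ∀ e, e ∈ A ↔ e ∈ S ∧ s e ∈ X ∧ t e ∈ X := fun e => by
    rw [hA]
    unfold ins
    rw [mem_filter]
  have hAS : A ⊆ S := fun e he => ((hAm e).1 he).1
  obtain ⟨x0, hx0, x1, hx1, hne⟩ := Finset.one_lt_card.1 (by omega : 1 < X.card)
  -- there is an edge
  have h1 := hst 2 (fun v => if v = x0 then 0 else 1) (by
    intro j
    fin_cases j
    · exact ⟨x0, hx0, if_pos rfl⟩
    · exact ⟨x1, hx1, if_neg hne.symm⟩)
  obtain ⟨e0, he0⟩ := Finset.card_pos.1 (by omega :
    0 < (A.filter (fun e => (if s e = x0 then (0 : Fin 2) else 1) ≠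
      (if t e = x0 then (0 : Fin 2) else 1))).card)
  replace he0 := (mem_filter.1 he0).1
  -- the flow of the quotient
  set f : V → V := fun v => if v ∈ X then x0 else v with hf
  have hfX : ∀ v, v ∈ X → f v = x0 := fun v hv => if_pos hv
  have hfN : ∀ v, v ∉ X → f v = v := fun v hv => if_neg hv
  obtain ⟨φ, hφ0, hφ⟩ := h.ih f (S \ A) sdiff_subset (by
    intro e he he'
    have h1 : e ∈ A := by
      by_contra hcon
      exact he' (mem_sdiff.2 ⟨he, hcon⟩)
    rw [hAm] at h1
    rw [hfX _ h1.2.1, hfX _ h1.2.2]) (by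
    apply card_lt_card
    rw [ssubset_iff_of_subset sdiff_subset]
    exact ⟨e0, hAS he0, fun hh => (mem_sdiff.1 hh).2 he0⟩)
  have hout : ∀ v, v ∉ X → ∑ e ∈ S \ A, tm s t φ v e = 0 := by
    intro v hv
    have h3 := hφ v
    rw [cons_iff] at h3
    rw [← h3]
    unfold tm
    have hkey : ∀ u, f u = v ↔ u = v := by
      intro u
      by_cases hu : u ∈ X
      · rw [hfX u hu]
        constructor
        · intro h1
          exact absurd (h1 ▸ hx0) hv
        · intro h1
          exact absurd (h1 ▸ hu) hv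
      · rw [hfN u hu]
    exact sum_congr rfl fun e _ => by simp only [hkey]
  have hin : ∑ v ∈ X, ∑ e ∈ S \ A, tm s t φ v e = 0 := by
    have h3 := hφ x0
    rw [cons_iff] at h3
    rw [← h3]
    unfold tm
    rw [sum_comm]
    apply sum_congr rfl
    intro e _
    rw [sum_add_distrib, sum_ite_eq, sum_ite_eq]
    have hkey : ∀ u, f u = x0 ↔ u ∈ X := by
      intro u
      by_cases hu : u ∈ X
      · rw [hfX u hu]
        exact ⟨fun _ => hu, fun _ => rfl⟩
      · rw [hfN u hu]
        exact ⟨fun h1 => h1 ▸ hx0, fun h1 => absurd h1 hu⟩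
    simp only [hkey]
  -- the subgraph
  let src : {e // e ∈ A} → {v // v ∈ X} := fun e => ⟨s e.1, ((hAm e.1).1 e.2).2.1⟩
  let dst : {e // e ∈ A} → {v // v ∈ X} := fun e => ⟨t e.1, ((hAm e.1).1 e.2).2.2⟩
  have : Nonempty {v // v ∈ X} := ⟨⟨x0, hx0⟩⟩
  obtain ⟨I, J, hd, hI, hJ⟩ := two_trees src dst (by
    intro c π hπ
    have hc : 0 < c := Fin.pos_iff_nonempty.2 ⟨π ⟨x0, hx0⟩⟩
    set π' : V → Fin c := fun v => if hv : v ∈ X then π ⟨v, hv⟩ else ⟨0, hc⟩ with hπ'
    have h1 := hst c π' (by
      intro j
      obtain ⟨v, hv⟩ := hπ j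
      exact ⟨v.1, v.2, by rw [hπ']; simp only [v.2, dif_pos]; exact hv⟩)
    have h2 : (A.filter (fun e => π' (s e) ≠ π' (t e))).card =
        ((univ : Finset {e // e ∈ A}).filter (fun e => π (src e) ≠ π (dst e))).card := by
      rw [← card_sub]
      congr 1
      ext e
      rw [mem_filter, mem_filter]
      have h3 : π' (s e.1) = π (src e) := by
        rw [hπ']
        exact dif_pos ((hAm e.1).1 e.2).2.1
      have h4 : π' (t e.1) = π (dst e) := by
        rw [hπ']
        exact dif_pos ((hAm e.1).1 e.2).2.2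
      rw [h3, h4]
    rw [h2] at h1
    convert h1 using 2)
  obtain ⟨p, hp1, hp2⟩ := solve src dst I hI (fun v => (∑ e ∈ S \ A, tm s t φ v.1 e).1) (by
    have h3 : ∑ v : {v // v ∈ X}, (∑ e ∈ S \ A, tm s t φ v.1 e).1 =
        (∑ v ∈ X, ∑ e ∈ S \ A, tm s t φ v e).1 := by
      rw [Prod.fst_sum]
      exact sum_coe_sort X (fun v => (∑ e ∈ S \ A, tm s t φ v e).1)
    rw [h3, hin]
    rfl)
  obtain ⟨q, hq1, hq2⟩ := solve src dst J hJ (fun v => (∑ e ∈ S \ A, tm s t φ v.1 e).2) (by
    have h3 : ∑ v : {v // v ∈ X}, (∑ e ∈ S \ A, tm s t φ v.1 e).2 =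
        (∑ v ∈ X, ∑ e ∈ S \ A, tm s t φ v e).2 := by
      rw [Prod.snd_sum]
      exact sum_coe_sort X (fun v => (∑ e ∈ S \ A, tm s t φ v e).2)
    rw [h3, hin]
    rfl)
  -- the flow
  apply h.nz
  set Φ : E → F := fun e => if he : e ∈ A then (p ⟨e, he⟩, q ⟨e, he⟩) else φ e with hΦ
  refine ⟨Φ, ?_, ?_⟩
  · intro e he
    by_cases heA : e ∈ A
    · have h1 : Φ e = (p ⟨e, heA⟩, q ⟨e, heA⟩) := dif_pos heA
      rw [h1]
      by_cases hIe : (⟨e, heA⟩ : {e // e ∈ A}) ∈ I
      · have h2 : (⟨e, heA⟩ : {e // e ∈ A}) ∉ J := fun hh => Finset.disjoint_left.1 hd hIe hh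
        intro hh
        have h3 := congrArg Prod.snd hh
        rw [hq1 _ h2] at h3
        exact (one_ne_zero : (1 : ZMod 2) ≠ 0) h3
      · intro hh
        have h3 := congrArg Prod.fst hh
        rw [hp1 _ hIe] at h3
        exact (one_ne_zero : (1 : ZMod 2) ≠ 0) h3
    · have h1 : Φ e = φ e := dif_neg heA
      rw [h1]
      exact hφ0 e (mem_sdiff.2 ⟨he, heA⟩)
  · intro v
    rw [cons_iff, ← Finset.sum_sdiff hAS]
    have h5 : ∑ e ∈ S \ A, tm s t Φ v e = ∑ e ∈ S \ A, tm s t φ v e := by
      refine sum_congr rfl fun e he => ?_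
      have h1 : Φ e = φ e := dif_neg (mem_sdiff.1 he).2
      unfold tm
      rw [h1]
    rw [h5]
    by_cases hv : v ∈ X
    · have h6 : ∑ e ∈ A, tm s t Φ v e = ∑ e ∈ S \ A, tm s t φ v e := by
        rw [← sum_coe_sort A]
        have h3 : ∀ e : {e // e ∈ A}, (src e = ⟨v, hv⟩) ↔ s e.1 = v := fun e => Subtype.ext_iff
        have h4 : ∀ e : {e // e ∈ A}, (dst e = ⟨v, hv⟩) ↔ t e.1 = v := fun e => Subtype.ext_iff
        have h7 : ∀ e : {e // e ∈ A}, Φ e.1 = (p e, q e) := fun e => dif_pos e.2
        refine Prod.ext ?_ ?_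
        · rw [Prod.fst_sum]
          refine Eq.trans ?_ (hp2 ⟨v, hv⟩)
          refine Finset.sum_congr rfl fun e _ => ?_
          unfold tm
          rw [h7 e]
          simp only [h3, h4]
          split_ifs <;> simp
        · rw [Prod.snd_sum]
          refine Eq.trans ?_ (hq2 ⟨v, hv⟩)
          refine Finset.sum_congr rfl fun e _ => ?_
          unfold tm
          rw [h7 e]
          simp only [h3, h4]
          split_ifs <;> simp
      rw [h6]
      exact add_self _
    · rw [hout v hv, zero_add]
      apply sum_eq_zero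
      intro e he
      have h1 := (hAm e).1 he
      have h2 : s e ≠ v := fun hh => hv (hh ▸ h1.2.1)
      have h3 : t e ≠ v := fun hh => hv (hh ▸ h1.2.2)
      unfold tm
      rw [if_neg h2, if_neg h3, add_zero]

private theorem spa_main {s t : E → V} {S : Finset E} (h : MinQ s t S) (N : ℕ) :
    ∀ X : Finset V, X.Nonempty → X.card ≤ N → (ins s t S X).card + 2 ≤ 2 * X.card ∧
      (2 ≤ X.card → (ins s t S X).card + 3 ≤ 2 * X.card) := by
  induction N with
  | zero =>
    intro X hX hN
    have := Finset.card_pos.2 hX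
    omega
  | succ N ih =>
    intro X hX hN
    by_cases h2 : 2 ≤ X.card
    · have key : (ins s t S X).card + 3 ≤ 2 * X.card := by
        by_contra hc
        refine nostrong h X h2 fun c π hπ => ?_
        by_contra hcon
        apply hc
        have hc2 : 2 ≤ c := by omega
        -- the classes
        have hlt : ∀ j : Fin c, (X.filter (fun v => π v = j)).card < X.card := by
          intro j
          have hex : ∃ j' : Fin c, j' ≠ j := by
            by_cases hj : j = ⟨0, by omega⟩
            · exact ⟨⟨1, by omega⟩, by rw [hj]; intro h5; have := Fin.val_eq_of_eq h5; simp at this⟩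
            · exact ⟨⟨0, by omega⟩, Ne.symm hj⟩
          obtain ⟨j', hj'⟩ := hex
          obtain ⟨v, hv, hvj⟩ := hπ j'
          apply Finset.card_lt_card
          rw [Finset.filter_ssubset]
          exact ⟨v, hv, fun h5 => hj' (hvj.symm.trans h5)⟩
        have hne : ∀ j : Fin c, (X.filter (fun v => π v = j)).Nonempty := by
          intro j
          obtain ⟨v, hv, hvj⟩ := hπ j
          exact ⟨v, Finset.mem_filter.2 ⟨hv, hvj⟩⟩
        have hih : ∀ j : Fin c, (ins s t S (X.filter (fun v => π v = j))).card + 2 ≤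
            2 * (X.filter (fun v => π v = j)).card := by
          intro j
          have := hlt j
          exact (ih _ (hne j) (by omega)).1
        have hsum := Finset.sum_le_sum fun (j : Fin c) (_ : j ∈ univ) => hih j
        rw [Finset.sum_add_distrib, ← Finset.mul_sum, Finset.sum_const,
          Finset.card_univ, Fintype.card_fin, smul_eq_mul] at hsum
        have hXsum : X.card = ∑ j : Fin c, (X.filter (fun v => π v = j)).card :=
          Finset.card_eq_sum_card_fiberwise (fun _ _ => Finset.mem_coe.2 (Finset.mem_univ _))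
        have hin : ((ins s t S X).filter (fun e => π (s e) = π (t e))).card =
            ∑ j : Fin c, (ins s t S (X.filter (fun v => π v = j))).card := by
          rw [Finset.card_eq_sum_card_fiberwise (f := fun e => π (s e)) (t := univ)
            (fun _ _ => Finset.mem_coe.2 (Finset.mem_univ _))]
          apply Finset.sum_congr rfl
          intro j _
          congr 1
          ext e
          simp only [ins, Finset.mem_filter]
          constructor
          · rintro ⟨⟨⟨h5, h6, h7⟩, h8⟩, h9⟩
            exact ⟨h5, ⟨h6, h9⟩, ⟨h7, h8 ▸ h9⟩⟩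
          · rintro ⟨h5, ⟨h6, h9⟩, ⟨h7, h8⟩⟩
            exact ⟨⟨⟨h5, h6, h7⟩, h9.trans h8.symm⟩, h9⟩
        have hsplit := Finset.card_filter_add_card_filter_not (s := ins s t S X)
          (fun e => π (s e) = π (t e))
        rw [← hXsum, ← hin] at hsum
        have hcon' : ((ins s t S X).filter (fun e => ¬ π (s e) = π (t e))).card + 2 <
            2 * c := not_le.1 hcon
        omega
      exact ⟨by omega, fun _ => key⟩
    · have h1 : X.card = 1 := by
        have := Finset.card_pos.2 hX
        omega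
      obtain ⟨v, rfl⟩ := Finset.card_eq_one.1 h1
      have h3 : ins s t S {v} = ∅ := by
        rw [Finset.eq_empty_iff_forall_notMem]
        intro e he
        simp only [ins, Finset.mem_filter, Finset.mem_singleton] at he
        exact noloop h e he.1 (he.2.1.trans he.2.2.symm)
      rw [h3]
      refine ⟨by simp, fun h5 => absurd h5 h2⟩

private theorem spa_deg {s t : E → V} {S : Finset E} {e : E} (he : e ∈ S) {v : V}
    (h : s e = v ∨ t e = v) : deg s t S v ≠ 0 := by
  unfold deg
  intro h0
  rw [Finset.sum_eq_zero_iff] at h0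
  have h1 := h0 e he
  rcases h with h | h <;> simp [h] at h1

theorem sparse {s t : E → V} {S : Finset E} (h : MinQ s t S) :
    S.card + 3 ≤ 2 * (univ.filter (fun v => deg s t S v ≠ 0)).card := by
  have hne : S.Nonempty := by
    by_contra hc
    rw [Finset.not_nonempty_iff_eq_empty] at hc
    subst hc
    exact h.nz ⟨fun _ => 0, fun e he => absurd he (Finset.notMem_empty e), fun v => by
      rw [cons_iff, Finset.sum_empty]⟩
  obtain ⟨e, he⟩ := hne
  have hm : ∀ e ∈ S, s e ∈ univ.filter (fun v => deg s t S v ≠ 0) ∧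
      t e ∈ univ.filter (fun v => deg s t S v ≠ 0) := by
    intro e he
    exact ⟨Finset.mem_filter.2 ⟨Finset.mem_univ _, spa_deg he (Or.inl rfl)⟩,
      Finset.mem_filter.2 ⟨Finset.mem_univ _, spa_deg he (Or.inr rfl)⟩⟩
  have hins : ins s t S (univ.filter (fun v => deg s t S v ≠ 0)) = S := by
    unfold ins
    exact Finset.filter_true_of_mem hm
  have h2 : 2 ≤ (univ.filter (fun v => deg s t S v ≠ 0)).card :=
    Finset.one_lt_card.2 ⟨s e, (hm e he).1, t e, (hm e he).2, noloop h e he⟩
  have h3 := (spa_main h _ _ ⟨s e, (hm e he).1⟩ le_rfl).2 h2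
  rw [hins] at h3
  exact h3

theorem sparse_deg {s t : E → V} {S : Finset E} (h : MinQ s t S) :
    ∑ v, deg s t S v + 6 ≤ 4 * (univ.filter (fun v => deg s t S v ≠ 0)).card := by
  have h1 := sparse h
  have h2 : ∑ v, deg s t S v = 2 * S.card := by
    rw [deg_sum]
    simp only [mem_univ, if_true]
    rw [Finset.sum_const, smul_eq_mul]
    ring
  omega

/-- every graph without flow has a minimal quotient without flow -/
theorem exists_min {s t : E → V} {S : Finset E} (h1 : N1 s t S) (h2 : ¬ NZ s t S) :
    ∃ (f : V → V) (S' : Finset E), S' ⊆ S ∧ (∀ e ∈ S, e ∉ S' → f (s e) = f (t e)) ∧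
      MinQ (fun e => f (s e)) (fun e => f (t e)) S' := by
  classical
  have key : ∀ n : ℕ, ∀ (f : V → V) (S' : Finset E), S'.card ≤ n → S' ⊆ S →
      (∀ e ∈ S, e ∉ S' → f (s e) = f (t e)) →
      ¬ NZ (fun e => f (s e)) (fun e => f (t e)) S' →
      ∃ (f : V → V) (S' : Finset E), S' ⊆ S ∧ (∀ e ∈ S, e ∉ S' → f (s e) = f (t e)) ∧
      MinQ (fun e => f (s e)) (fun e => f (t e)) S' := by
    intro n
    induction n with
    | zero =>
      intro f S' hn hS hf hz
      refine ⟨f, S', hS, hf, quot_n1 hS hf h1, hz, ?_⟩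
      intro g S'' _ _ hlt
      omega
    | succ n ih =>
      intro f S' hn hS hf hz
      by_cases hm : ∀ (g : V → V) (S'' : Finset E), S'' ⊆ S' →
          (∀ e ∈ S', e ∉ S'' → g (f (s e)) = g (f (t e))) → S''.card < S'.card →
          NZ (fun e => g (f (s e))) (fun e => g (f (t e))) S''
      · exact ⟨f, S', hS, hf, quot_n1 hS hf h1, hz, hm⟩
      · push Not at hm
        obtain ⟨g, S'', h3, h4, h5, h6⟩ := hm
        refine ih (fun v => g (f v)) S'' (by omega) (h3.trans hS) ?_ h6
        intro e he he'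
        by_cases h7 : e ∈ S'
        · exact h4 e h7 he'
        · show g (f (s e)) = g (f (t e))
          rw [hf e he h7]
  exact key S.card (fun v => v) S le_rfl (Finset.Subset.refl _) (fun e he he' => absurd he he') h2

end Pool.Agent.X42.FlowSp
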