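import Pool.Agent.H185F.Admissible
import Pool.Agent.TH676.Z.Stm
import Pool.Agent.Y335.FL.Stm2

/-! Splitting off all vertices of even degree, for nowhere-zero flows modulo 5. -/

set_option autoImplicit false
set_option linter.unusedSectionVars false

namespace Pool.Agent.X42.FlowSplit

open Finset Pool.Agent.H185F Pool.Agent.TH676.Z
open Pool.Agent.H239R2.Cover (ecut mem_ecut)

variable {V E : Type} [Fintype V] [DecidableEq V] [Fintype E] [DecidableEq E]

/-- a nowhere-zero flow modulo 5 -/
def NZ5 (src dst : E → V) : Prop :=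
  ∃ f : E → ZMod 5, (∀ v, bd src dst f v = 0) ∧ ∀ e, f e ≠ 0

theorem flowOn_iff (src dst : E → V) : FlowOn src dst ∅ ∅ ↔ NZ5 src dst := by
  constructor
  · rintro ⟨f, h1, -, h3⟩
    exact ⟨f, h1, fun e => h3 e (notMem_empty _) (notMem_empty _)⟩
  · rintro ⟨f, h1, h2⟩
    exact ⟨f, h1, fun e he => absurd he (notMem_empty _), fun e _ _ => h2 e⟩

theorem nz5_flip (F : Finset E) (src dst : E → V)
    (h : NZ5 (rsrc F src dst) (rsrc F dst src)) : NZ5 src dst := by
  obtain ⟨s, hs, hz⟩ := h
  refine ⟨fun e => if e ∈ F then - s e else s e, fun v => ?_, fun e => ?_⟩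
  · rw [← hs v]
    unfold bd
    refine Finset.sum_congr rfl fun e _ => ?_
    unfold rsrc
    by_cases he : e ∈ F <;> by_cases h1 : src e = v <;> by_cases h2 : dst e = v <;>
      simp [he, h1, h2]
  · show (if e ∈ F then - s e else s e) ≠ 0
    split_ifs
    · exact neg_ne_zero.2 (hz e)
    · exact hz e

theorem nz5_split (src dst : E → V) (e f : E) (hef : e ≠ f) (y : V)
    (he : dst e = y) (hf : src f = y) (h : NZ5 src (sdst dst e f y)) : NZ5 src dst := by
  obtain ⟨s', h1, h2⟩ := h
  refine ⟨fun g => if g = f then s' e else s' g, fun v => ?_, fun g => ?_⟩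
  · rw [← h1 v, ← sub_eq_zero]
    unfold bd
    rw [← Finset.sum_sub_distrib, ← Finset.sum_subset (Finset.subset_univ {e, f}),
      Finset.sum_pair hef]
    · simp only [if_neg hef, if_true]
      rw [t5_f, t5_e dst e f hef, he, hf]
      ring
    · intro g _ hg
      rw [Finset.mem_insert, Finset.mem_singleton, not_or] at hg
      simp only [if_neg hg.2]
      rw [t5_g dst e f y g hg.1 hg.2, sub_self]
  · show (if g = f then s' e else s' g) ≠ 0
    split_ifs
    · exact h2 e
    · exact h2 g

/-- the parity of the degrees does not change -/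
theorem parity_split (src dst : E → V) (e f : E) (hef : e ≠ f) (y : V)
    (he : dst e = y) (hf : src f = y) (he' : src e ≠ y) (hf' : dst f ≠ y) (x : V) :
    Odd (ecut src (sdst dst e f y) {x}).card ↔ Odd (ecut src dst {x}).card := by
  by_cases hxy : x = y
  · subst hxy
    have h1 : (ecut src dst {x}).card = (ecut src (sdst dst e f x) {x}).card + 2 := by
      have e1 : (ecut src dst {x}) = (ecut src (sdst dst e f x) {x}) ∪ {e, f} := by
        ext g
        rw [mem_union, mem_ecut, mem_ecut, mem_insert, mem_singleton, mem_singleton,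
          mem_singleton, mem_singleton]
        by_cases h1 : g = f
        · subst h1
          rw [t5_f]
          simp only [hf, or_true, iff_true]
          intro h
          exact hf' (h.1 trivial)
        · by_cases h2 : g = e
          · subst h2
            simp only [he, true_or, or_true, iff_true]
            intro h
            exact he' h
          · rw [t5_g dst e f x g h2 h1]
            simp [h1, h2]
      rw [e1, card_union_of_disjoint, card_pair hef]
      rw [disjoint_right]
      intro g hg
      rw [mem_insert, mem_singleton] at hg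
      rw [mem_ecut, mem_singleton, mem_singleton, not_not]
      rcases hg with rfl | rfl
      · rw [t5_e dst g f hef]
        exact ⟨fun h => absurd h he', fun h => absurd h hf'⟩
      · rw [t5_f, hf]
    rw [h1, Nat.odd_iff, Nat.odd_iff]
    omega
  · have hy : y ∉ ({x} : Finset V) := by
      rw [mem_singleton]
      exact fun h => hxy h.symm
    rcases ecut_split_le src dst e f hef y he hf {x} hy with ⟨-, h⟩ | ⟨-, h⟩
    · rw [Nat.odd_iff, Nat.odd_iff]
      omega
    · rw [h]

/-- adjacent vertices different from `y` stay adjacent -/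
theorem adj_split (src dst : E → V) (e f : E) (y : V)
    (he : dst e = y) (hf : src f = y) {x z : V} (hx : x ≠ y) (hz : z ≠ y)
    (h : Adj src dst x z) : Adj src (sdst dst e f y) x z := by
  obtain ⟨h1, g, hg⟩ := h
  have hge : g ≠ e := by
    rintro rfl
    rcases hg with ⟨-, h2⟩ | ⟨-, h2⟩
    · exact hz (h2.symm.trans he)
    · exact hx (h2.symm.trans he)
  have hgf : g ≠ f := by
    rintro rfl
    rcases hg with ⟨h2, -⟩ | ⟨h2, -⟩
    · exact hx (h2.symm.trans hf)
    · exact hz (h2.symm.trans hf)
  exact ⟨h1, g, by rw [t5_g dst e f y g hge hgf]; exact hg⟩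

theorem adj_flip (F : Finset E) (src dst : E → V) {x z : V} :
    Adj (rsrc F src dst) (rsrc F dst src) x z ↔ Adj src dst x z := by
  unfold Adj rsrc
  refine and_congr Iff.rfl (exists_congr fun g => ?_)
  by_cases hg : g ∈ F
  · simp only [hg, if_true]
    tauto
  · simp only [hg, if_false]

/-- **Splitting off the vertices of even degree.** -/
theorem reduce {Q : (E → V) → (E → V) → Prop}
    (hflip : ∀ (F : Finset E) (s d : E → V), Q s d → Q (rsrc F s d) (rsrc F d s))
    (hsplit : ∀ (s d : E → V) (e f : E) (y : V), e ≠ f → d e = y → s f = y → s e ≠ y → d f ≠ y →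
      Even (ecut s d {y}).card → Q s d → Q s (sdst d e f y))
    (hbase : ∀ s d : E → V, OddConn 3 s d → Q s d →
      (∀ y, Even (ecut s d {y}).card → ecut s d {y} = ∅) → NZ5 s d) :
    ∀ (m : ℕ) (src dst : E → V), nl src dst ≤ m → OddConn 3 src dst → Q src dst →
      NZ5 src dst := by
  classical
  intro m
  induction m using Nat.strong_induction_on with
  | _ m ih =>
  intro src dst hm hcon hI
  by_cases hev : ∃ y, Even (ecut src dst {y}).card ∧ (ecut src dst {y}).Nonempty
  · obtain ⟨y, hy, e, he⟩ := hev
    rw [mem_ecut] at he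
    simp only [Finset.mem_singleton] at he
    obtain ⟨F0, h1, h2⟩ : ∃ F0 : Finset E, rsrc F0 dst src e = y ∧ rsrc F0 src dst e ≠ y := by
      by_cases hd : dst e = y
      · refine ⟨∅, by simpa [rsrc] using hd, ?_⟩
        have : src e ≠ y := fun h => he ⟨fun _ => hd, fun _ => h⟩
        simpa [rsrc] using this
      · have hs : src e = y := by
          by_contra hs
          exact he ⟨fun h => absurd h hs, fun h => absurd h hd⟩
        exact ⟨{e}, by simpa [rsrc] using hs, by simpa [rsrc] using hd⟩
    have hcon1 : OddConn 3 (rsrc F0 src dst) (rsrc F0 dst src) := by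
      intro X hX
      rw [ecut_flip] at hX ⊢
      exact hcon X hX
    have hI1 := hflip F0 _ _ hI
    have hy1 : Even (ecut (rsrc F0 src dst) (rsrc F0 dst src) {y}).card := by
      rw [ecut_flip]; exact hy
    obtain ⟨f, F, hfe, heF, hf1, hf2, he1, hcon2⟩ :=
      exists_admissible 3 (by decide) _ _ hcon1 y hy1 e h1 h2
    have hI2 := hflip F _ _ hI1
    have hy2 : Even (ecut (rsrc F (rsrc F0 src dst) (rsrc F0 dst src))
        (rsrc F (rsrc F0 dst src) (rsrc F0 src dst)) {y}).card := by
      rw [ecut_flip]; exact hy1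
    have hnl1 : nl (rsrc F (rsrc F0 src dst) (rsrc F0 dst src))
        (rsrc F (rsrc F0 dst src) (rsrc F0 src dst)) = nl src dst := by
      rw [nl_flip, nl_flip]
    have hse : rsrc F (rsrc F0 src dst) (rsrc F0 dst src) e ≠ y := by
      simp only [rsrc, if_neg heF] at h2 ⊢
      exact h2
    have hlt := nl_split _ _ e f hfe.symm y he1 hf1 hse hf2
    rw [hnl1] at hlt
    have hI3 := hsplit _ _ e f y hfe.symm he1 hf1 hse hf2 hy2 hI2
    have hgood := ih _ (lt_of_lt_of_le hlt hm) _ _ le_rfl hcon2 hI3
    have hg2 := nz5_split _ _ e f hfe.symm y he1 hf1 hgood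
    exact nz5_flip F0 _ _ (nz5_flip F _ _ hg2)
  · push Not at hev
    exact hbase src dst hcon hI fun y hy => by
      have := hev y hy
      simpa using this

theorem oddConn_of_bridgeless (src dst : E → V) (h : ∀ Y : Finset V, (ecut src dst Y).card ≠ 1) :
    OddConn 3 src dst := by
  intro X hX
  have := h X
  rw [Nat.odd_iff] at hX
  omega

theorem br_of_oddConn {src dst : E → V} (h : OddConn 3 src dst) : Br src dst ∅ ∅ := by
  intro Y _
  rw [sdiff_empty]
  intro h1
  have h2 : (ecut src dst Y).card = 1 := h1
  have h3 := h Y (by rw [h2]; decide)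
  omega

theorem dg_eq (src dst : E → V) (x : V) :
    Pool.Agent.Y335.FL.dg src dst x = (ecut src dst {x}).card := by
  unfold Pool.Agent.Y335.FL.dg ecut
  congr 1
  refine filter_congr fun e _ => ?_
  rw [mem_singleton, mem_singleton]
  constructor
  · rintro ⟨h1, h2 | h2⟩ h3
    · exact h1 (h2.trans (h3.1 h2).symm)
    · exact h1 ((h3.2 h2).trans h2.symm)
  · intro h
    refine ⟨fun h1 => h (by rw [h1]), ?_⟩
    by_contra h2
    push Not at h2
    exact h ⟨fun h3 => absurd h3 h2.1, fun h3 => absurd h3 h2.2⟩

/-- in a graph with odd degrees the vertices of degree at least three are those of odd degree -/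
theorem dg_odd {src dst : E → V} (hc : OddConn 3 src dst)
    (h0 : ∀ y, Even (ecut src dst {y}).card → ecut src dst {y} = ∅) (x : V) :
    3 ≤ Pool.Agent.Y335.FL.dg src dst x ↔ Odd (ecut src dst {x}).card := by
  rw [dg_eq]
  constructor
  · intro h
    by_contra h1
    rw [h0 x (Nat.not_odd_iff_even.1 h1), card_empty] at h
    omega
  · exact hc {x}

/-! ### Independent sets of vertices of odd degree -/

/-- every independent set of vertices of odd degree outside `S` has at most `a` elements -/
def Ind (a : ℕ) (S : Finset V) (src dst : E → V) : Prop :=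
  ∀ I : Finset V, (∀ x ∈ I, x ∉ S ∧ Odd (ecut src dst {x}).card) →
    (∀ x ∈ I, ∀ z ∈ I, ¬ Adj src dst x z) → I.card ≤ a

theorem ind_flip {a : ℕ} {S : Finset V} (F : Finset E) (src dst : E → V) (h : Ind a S src dst) :
    Ind a S (rsrc F src dst) (rsrc F dst src) := by
  intro I h1 h2
  refine h I (fun x hx => ?_) (fun x hx z hz => ?_)
  · have := h1 x hx
    rwa [ecut_flip] at this
  · have := h2 x hx z hz
    rwa [adj_flip] at this

theorem ind_split {a : ℕ} {S : Finset V} (src dst : E → V) (e f : E) (y : V) (hef : e ≠ f)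
    (he : dst e = y) (hf : src f = y) (he' : src e ≠ y) (hf' : dst f ≠ y)
    (hy : Even (ecut src dst {y}).card) (h : Ind a S src dst) :
    Ind a S src (sdst dst e f y) := by
  intro I h1 h2
  have hodd : ∀ x ∈ I, Odd (ecut src dst {x}).card := fun x hx =>
    (parity_split src dst e f hef y he hf he' hf' x).1 (h1 x hx).2
  have hne : ∀ x ∈ I, x ≠ y := by
    rintro x hx rfl
    exact (Nat.not_even_iff_odd.2 (hodd x hx)) hy
  refine h I (fun x hx => ⟨(h1 x hx).1, hodd x hx⟩) (fun x hx z hz hadj => ?_)
  exact h2 x hx z hz (adj_split src dst e f y he hf (hne x hx) (hne z hz) hadj)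

/-! ### Weights -/

open Classical in
/-- the neighbours of odd degree -/
noncomputable def no (src dst : E → V) (v : V) : Finset V :=
  univ.filter (fun w => Adj src dst v w ∧ Odd (ecut src dst {w}).card)

/-- the weight -/
noncomputable def wo (src dst : E → V) (v : V) : ℝ :=
  1 / (((max (no src dst v).card 3 : ℕ) : ℝ) - 2)

open Classical in
/-- the sum of the weights of the vertices of odd degree -/
noncomputable def wsum (src dst : E → V) : ℝ :=
  ∑ v ∈ univ.filter (fun v => Odd (ecut src dst {v}).card), wo src dst v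

theorem no_flip (F : Finset E) (src dst : E → V) (v : V) :
    no (rsrc F src dst) (rsrc F dst src) v = no src dst v := by
  classical
  unfold no
  refine filter_congr fun w _ => ?_
  rw [adj_flip, ecut_flip]

theorem wsum_flip (F : Finset E) (src dst : E → V) :
    wsum (rsrc F src dst) (rsrc F dst src) = wsum src dst := by
  classical
  unfold wsum
  refine sum_congr (filter_congr fun w _ => ?_) fun v _ => ?_
  · rw [ecut_flip]
  · unfold wo
    rw [no_flip]

theorem wo_anti {src dst src' dst' : E → V} {v : V} (h : no src dst v ⊆ no src' dst' v) :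
    wo src' dst' v ≤ wo src dst v := by
  unfold wo
  have h1 : ((max (no src dst v).card 3 : ℕ) : ℝ) ≤ ((max (no src' dst' v).card 3 : ℕ) : ℝ) := by
    exact_mod_cast max_le_max (card_le_card h) le_rfl
  have h2 : (3 : ℝ) ≤ ((max (no src dst v).card 3 : ℕ) : ℝ) := by
    exact_mod_cast le_max_right _ _
  apply one_div_le_one_div_of_le
  · linarith
  · linarith

theorem wsum_split (src dst : E → V) (e f : E) (y : V) (hef : e ≠ f)
    (he : dst e = y) (hf : src f = y) (he' : src e ≠ y) (hf' : dst f ≠ y)
    (hy : Even (ecut src dst {y}).card) :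
    wsum src (sdst dst e f y) ≤ wsum src dst := by
  classical
  have hpar := parity_split src dst e f hef y he hf he' hf'
  unfold wsum
  have e1 : univ.filter (fun v => Odd (ecut src (sdst dst e f y) {v}).card) =
      univ.filter (fun v => Odd (ecut src dst {v}).card) :=
    filter_congr fun v _ => hpar v
  rw [e1]
  refine sum_le_sum fun v hv => wo_anti ?_
  have hne : ∀ x, Odd (ecut src dst {x}).card → x ≠ y := by
    rintro x hx rfl
    exact (Nat.not_even_iff_odd.2 hx) hy
  intro w hw
  unfold no at hw ⊢
  rw [mem_filter] at hv hw ⊢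
  refine ⟨mem_univ _, ?_, (hpar w).2 hw.2.2⟩
  exact adj_split src dst e f y he hf (hne v hv.2) (hne w hw.2.2) hw.2.1

end Pool.Agent.X42.FlowSplit
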