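import Pool.Agent.Helper879.ECD.Packing
import Mathlib.Data.ZMod.Basic
import Mathlib.Algebra.Field.ZMod
import Mathlib.LinearAlgebra.Dimension.Constructions
import Mathlib.LinearAlgebra.FiniteDimensional.Lemmas
import Mathlib.LinearAlgebra.Finsupp.LinearCombination

/-!
Two disjoint sets of edges, each of which spans all boundaries, in a multigraph whose quotients all
have enough edges.
-/

set_option autoImplicit false
set_option linter.unusedSectionVars false
set_option linter.unusedDecidableInType false
set_option linter.unusedFintypeInType false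

namespace Pool.Agent.X42.FlowT2

open Finset
open Pool.Agent.Helper879.ECD (sp sp_mono mem_sp exists_coeff pack)

variable {W E : Type} [Fintype W] [DecidableEq W] [Fintype E] [DecidableEq E]

/-- the boundary of an edge -/
def vec (src dst : E → W) (e : E) : W → ZMod 2 := Pi.single (src e) 1 + Pi.single (dst e) 1

lemma single_add_self (u : W) : (Pi.single u 1 + Pi.single u 1 : W → ZMod 2) = 0 := by
  funext v
  rw [Pi.add_apply, Pi.zero_apply]
  exact CharTwo.add_self_eq_zero _

lemma add_self (b : W → ZMod 2) : b + b = 0 := by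
  funext v
  rw [Pi.add_apply, Pi.zero_apply]
  exact CharTwo.add_self_eq_zero _

/-- the relation: the boundary of the pair lies in the space -/
def rel (P : Submodule (ZMod 2) (W → ZMod 2)) : Setoid W where
  r u v := (Pi.single u 1 + Pi.single v 1 : W → ZMod 2) ∈ P
  iseqv := {
    refl := fun u => by
      rw [single_add_self]
      exact P.zero_mem
    symm := fun {u v} h => by
      rw [add_comm]
      exact h
    trans := fun {u v w} h1 h2 => by
      have h3 := P.add_mem h1 h2
      have h4 : (Pi.single u 1 + Pi.single v 1 : W → ZMod 2) + (Pi.single v 1 + Pi.single w 1) =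
          Pi.single u 1 + Pi.single w 1 := by
        rw [add_assoc, ← add_assoc (Pi.single v 1), single_add_self, zero_add]
      rwa [h4] at h3 }

open Classical in
theorem classes (P : Submodule (ZMod 2) (W → ZMod 2)) :
    ∃ (c : ℕ) (π : W → Fin c), Function.Surjective π ∧
      (∀ u v, π u = π v ↔ (Pi.single u 1 + Pi.single v 1 : W → ZMod 2) ∈ P) ∧
      Fintype.card W ≤ Module.finrank (ZMod 2) P + c := by
  set eqv := Fintype.equivFin (Quotient (rel P)) with heqv
  refine ⟨Fintype.card (Quotient (rel P)), fun u => eqv (Quotient.mk _ u), ?_, ?_, ?_⟩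
  · intro j
    obtain ⟨u, hu⟩ := Quotient.exists_rep (eqv.symm j)
    exact ⟨u, by show eqv _ = j; rw [hu, Equiv.apply_symm_apply]⟩
  · intro u v
    rw [eqv.apply_eq_iff_eq, Quotient.eq]
    rfl
  · set g : Quotient (rel P) → (W → ZMod 2) := fun q => Pi.single q.out 1 with hg
    have htop : P ⊔ Submodule.span (ZMod 2) (Set.range g) = ⊤ := by
      rw [eq_top_iff]
      intro b _
      have h1 : b = ∑ u, b u • (Pi.single u 1 : W → ZMod 2) := by
        funext v
        rw [Finset.sum_apply]
        simp only [Pi.smul_apply, smul_eq_mul, Pi.single_apply, mul_ite, mul_one, mul_zero]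
        rw [Finset.sum_ite_eq univ v, if_pos (Finset.mem_univ v)]
      rw [h1]
      refine Submodule.sum_mem _ fun u _ => Submodule.smul_mem _ _ ?_
      have h2 : (Pi.single u 1 : W → ZMod 2) =
          (Pi.single u 1 + Pi.single (Quotient.mk (rel P) u).out 1) +
            g (Quotient.mk (rel P) u) := by
        rw [hg, add_assoc, single_add_self, add_zero]
      rw [h2]
      refine Submodule.add_mem _ (Submodule.mem_sup_left ?_) (Submodule.mem_sup_right
        (Submodule.subset_span ⟨_, rfl⟩))
      have h3 : (rel P).r u (Quotient.mk (rel P) u).out := by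
        apply Quotient.exact
        exact (Quotient.out_eq _).symm
      exact h3
    have h1 := Submodule.finrank_add_le_finrank_add_finrank P
      (Submodule.span (ZMod 2) (Set.range g))
    rw [htop, finrank_top, Module.finrank_fintype_fun_eq_card] at h1
    have h2 := finrank_range_le_card (R := ZMod 2) g
    unfold Set.finrank at h2
    omega

/-- the sum of the coordinates -/
def tot : (W → ZMod 2) →ₗ[ZMod 2] ZMod 2 := ∑ v, LinearMap.proj v

lemma tot_apply (b : W → ZMod 2) : tot b = ∑ v, b v := by
  unfold tot
  rw [LinearMap.sum_apply]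
  rfl

lemma rank_univ [Nonempty W] (src dst : E → W) :
    Module.finrank (ZMod 2) (sp (ZMod 2) (vec src dst) univ) + 1 ≤ Fintype.card W := by
  have hle : sp (ZMod 2) (vec src dst) univ ≤ LinearMap.ker (tot : (W → ZMod 2) →ₗ[ZMod 2] ZMod 2)
      := by
    unfold sp
    rw [Submodule.span_le]
    rintro _ ⟨e, -, rfl⟩
    rw [SetLike.mem_coe, LinearMap.mem_ker, tot_apply]
    unfold vec
    simp only [Pi.add_apply, Finset.sum_add_distrib, Finset.sum_pi_single', Finset.mem_univ,
      if_true]
    exact CharTwo.add_self_eq_zero _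
  have hlt : sp (ZMod 2) (vec src dst) univ < ⊤ := by
    refine lt_of_le_of_lt hle ?_
    rw [lt_top_iff_ne_top]
    intro hcon
    obtain ⟨w⟩ := ‹Nonempty W›
    have h1 : (Pi.single w 1 : W → ZMod 2) ∈
        LinearMap.ker (tot : (W → ZMod 2) →ₗ[ZMod 2] ZMod 2) := by rw [hcon]; trivial
    rw [LinearMap.mem_ker, tot_apply, Finset.sum_pi_single'] at h1
    simp at h1
  have h1 := Submodule.finrank_lt hlt.ne
  rw [Module.finrank_fintype_fun_eq_card] at h1
  omega

/-- the edge set spans all boundaries -/
def Spans (src dst : E → W) (I : Finset E) : Prop :=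
  ∀ b : W → ZMod 2, ∑ v, b v = 0 → ∃ c : E → ZMod 2,
    ∀ v, ∑ e ∈ I, ((if src e = v then c e else 0) + (if dst e = v then c e else 0)) = b v

theorem two_trees [Nonempty W] (src dst : E → W)
    (h : ∀ (c : ℕ) (π : W → Fin c), Function.Surjective π →
      2 * c ≤ ((univ : Finset E).filter (fun e => π (src e) ≠ π (dst e))).card + 2) :
    ∃ I J : Finset E, Disjoint I J ∧ Spans src dst I ∧ Spans src dst J := by
  classical
  have hall : ∀ b : W → ZMod 2, ∑ v, b v = 0 → b ∈ sp (ZMod 2) (vec src dst) univ := by
    obtain ⟨c, π, hπ, hπ2, -⟩ := classes (sp (ZMod 2) (vec src dst) univ)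
    have h1 := h c π hπ
    have h2 : (univ : Finset E).filter (fun e => π (src e) ≠ π (dst e)) = ∅ := by
      rw [Finset.filter_eq_empty_iff]
      intro e _ hne
      exact hne ((hπ2 _ _).2 (mem_sp (Finset.mem_univ e)))
    rw [h2, Finset.card_empty] at h1
    have hc : c ≤ 1 := by omega
    intro b hb
    obtain ⟨x0⟩ := ‹Nonempty W›
    have h3 : b = ∑ u, b u • (Pi.single u 1 + Pi.single x0 1 : W → ZMod 2) := by
      funext v
      rw [Finset.sum_apply]
      have h4 : ∀ u, (b u • (Pi.single u 1 + Pi.single x0 1 : W → ZMod 2)) v =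
          (if v = u then b u else 0) + b u * (Pi.single x0 1 : W → ZMod 2) v := by
        intro u
        rw [Pi.smul_apply, Pi.add_apply, smul_eq_mul, mul_add, Pi.single_apply]
        congr 1
        by_cases h : v = u
        · rw [if_pos h, if_pos h, mul_one]
        · rw [if_neg h, if_neg h, mul_zero]
      simp only [h4]
      rw [Finset.sum_add_distrib, ← Finset.sum_mul, hb, zero_mul, add_zero,
        Finset.sum_ite_eq univ v, if_pos (Finset.mem_univ v)]
    rw [h3]
    refine Submodule.sum_mem _ fun u _ => Submodule.smul_mem _ _ ?_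
    rw [← hπ2]
    apply Fin.ext
    have := (π u).2
    have := (π x0).2
    omega
  obtain ⟨I, J, hd, hI, hJ⟩ := pack (F := ZMod 2) (x := vec src dst) (by
    intro R
    obtain ⟨c, π, hπ, hπ2, hr⟩ := classes (sp (ZMod 2) (vec src dst) R)
    have h1 := h c π hπ
    have h2 : ((univ : Finset E).filter (fun e => π (src e) ≠ π (dst e))) =
        univ.filter (fun e => ¬ vec src dst e ∈ sp (ZMod 2) (vec src dst) R) := by
      apply Finset.filter_congr
      intro e _
      rw [ne_eq, hπ2]
      rfl
    have h3 := rank_univ src dst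
    rw [h2] at h1
    have h4 : ((univ : Finset E).filter
        (fun e => ¬ vec src dst e ∈ sp (ZMod 2) (vec src dst) R)).card =
        ((univ : Finset E).filter
        (fun e => ¬ vec src dst e ∈ sp (ZMod 2) (vec src dst) R)).card := rfl
    convert (by omega : 2 * Module.finrank (ZMod 2) (sp (ZMod 2) (vec src dst) univ) ≤
      2 * Module.finrank (ZMod 2) (sp (ZMod 2) (vec src dst) R) +
      ((univ : Finset E).filter
        (fun e => ¬ vec src dst e ∈ sp (ZMod 2) (vec src dst) R)).card) using 1)
  have key : ∀ I : Finset E, sp (ZMod 2) (vec src dst) I = sp (ZMod 2) (vec src dst) univ →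
      Spans src dst I := by
    intro I hI b hb
    have h1 := hall b hb
    rw [← hI] at h1
    obtain ⟨c, hc⟩ := exists_coeff h1
    refine ⟨c, fun v => ?_⟩
    have h2 := congrFun hc v
    rw [Finset.sum_apply] at h2
    rw [← h2]
    refine Finset.sum_congr rfl fun e _ => ?_
    unfold vec
    rw [Pi.smul_apply, Pi.add_apply, smul_eq_mul, mul_add, Pi.single_apply, Pi.single_apply]
    simp only [mul_ite, mul_one, mul_zero, eq_comm]
  exact ⟨I, J, hd, key I hI, key J hJ⟩

end Pool.Agent.X42.FlowT2
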