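import Mathlib

/-!
# Counting labelled graded orders with a given number of grade levels
-/

set_option autoImplicit false

namespace Pool.Agent.X42.Graded

open Finset

/-- `q` covers `p` in the partial order `P`. -/
def Covers {n : ℕ} (P : PartialOrder (Fin n)) (p q : Fin n) : Prop :=
  P.lt p q ∧ ∀ r, ¬ (P.lt p r ∧ P.lt r q)

/-- The comparability graph of `P`. -/
def compGraph {n : ℕ} (P : PartialOrder (Fin n)) : SimpleGraph (Fin n) :=
  SimpleGraph.fromRel fun p q => P.le p q

/-- `g` is the normalised grading of `P`: it is order-preserving with values `≥ 1`, increases by one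
along covers, and takes the value `1` on every component of the comparability graph. -/
structure IsGrading {n : ℕ} (P : PartialOrder (Fin n)) (g : Fin n → ℕ) : Prop where
  mono : ∀ p q, P.le p q → g p ≤ g q
  cover : ∀ p q, Covers P p q → g q = g p + 1
  pos : ∀ p, 1 ≤ g p
  normal : ∀ p, ∃ b, (compGraph P).Reachable p b ∧ g b = 1

/-- The number `a_k(n)` of partial orders on an `n`-element set that are graded with exactly `k`
grade levels. -/
noncomputable def a (k n : ℕ) : ℕ :=
  Nat.card {P : PartialOrder (Fin n) // ∃ g : Fin n → ℕ, IsGrading P g ∧ (Set.range g).ncard = k}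

variable {n : ℕ}

/-- The allowed sets of lower neighbours. -/
def allowed (l : Fin n → ℕ) (v : Fin n) : Finset (Finset (Fin n)) :=
  if l v = 0 then {∅} else ((univ.filter fun u => l u + 1 = l v).powerset).erase ∅

theorem level_of_mem {l : Fin n → ℕ} {N : Fin n → Finset (Fin n)}
    (h : N ∈ Fintype.piFinset (allowed l)) {u v : Fin n} (huv : u ∈ N v) : l v = l u + 1 := by
  have h1 := Fintype.mem_piFinset.1 h v
  rw [allowed] at h1
  split_ifs at h1 with h2
  · rw [Finset.mem_singleton] at h1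
    rw [h1] at huv
    exact absurd huv (Finset.notMem_empty _)
  · rw [Finset.mem_erase, Finset.mem_powerset] at h1
    exact ((Finset.mem_filter.1 (h1.2 huv)).2).symm

theorem exists_lower {l : Fin n → ℕ} {N : Fin n → Finset (Fin n)}
    (h : N ∈ Fintype.piFinset (allowed l)) {v : Fin n} (hv : l v ≠ 0) : ∃ u, u ∈ N v := by
  have h1 := Fintype.mem_piFinset.1 h v
  rw [allowed, if_neg hv, Finset.mem_erase] at h1
  exact Finset.nonempty_iff_ne_empty.2 h1.1

theorem lower_empty {l : Fin n → ℕ} {N : Fin n → Finset (Fin n)}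
    (h : N ∈ Fintype.piFinset (allowed l)) {v : Fin n} (hv : l v = 0) : N v = ∅ := by
  have h1 := Fintype.mem_piFinset.1 h v
  rwa [allowed, if_pos hv, Finset.mem_singleton] at h1

/-- The generated relation. -/
def rel (N : Fin n → Finset (Fin n)) : Fin n → Fin n → Prop :=
  Relation.ReflTransGen fun a b => a ∈ N b

theorem level_le {l : Fin n → ℕ} {N : Fin n → Finset (Fin n)}
    (h : N ∈ Fintype.piFinset (allowed l)) {u v : Fin n} (huv : rel N u v) :
    u = v ∨ l u < l v := by
  induction huv with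
  | refl => exact Or.inl rfl
  | tail _ h2 ih =>
    have := level_of_mem h h2
    rcases ih with rfl | ih
    · right; omega
    · right; omega

set_option warn.classDefReducibility false in
/-- The partial order generated by the lower neighbour sets. -/
def order {l : Fin n → ℕ} {N : Fin n → Finset (Fin n)}
    (h : N ∈ Fintype.piFinset (allowed l)) : PartialOrder (Fin n) where
  le := rel N
  lt := fun u v => rel N u v ∧ ¬ rel N v u
  le_refl := fun _ => Relation.ReflTransGen.refl
  le_trans := fun _ _ _ h1 h2 => h1.trans h2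
  lt_iff_le_not_ge := fun _ _ => Iff.rfl
  le_antisymm := fun u v h1 h2 => by
    rcases level_le h h1 with h3 | h3
    · exact h3
    · rcases level_le h h2 with h4 | h4
      · exact h4.symm
      · omega

theorem order_lt {l : Fin n → ℕ} {N : Fin n → Finset (Fin n)}
    (h : N ∈ Fintype.piFinset (allowed l)) {u v : Fin n} :
    (order h).lt u v ↔ rel N u v ∧ u ≠ v := by
  constructor
  · rintro ⟨h1, h2⟩
    refine ⟨h1, ?_⟩
    rintro rfl
    exact h2 Relation.ReflTransGen.refl
  · rintro ⟨h1, h2⟩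
    refine ⟨h1, fun h3 => h2 ((order h).le_antisymm u v h1 h3)⟩

theorem order_lt_level {l : Fin n → ℕ} {N : Fin n → Finset (Fin n)}
    (h : N ∈ Fintype.piFinset (allowed l)) {u v : Fin n} (huv : (order h).lt u v) : l u < l v := by
  rw [order_lt] at huv
  exact (level_le h huv.1).resolve_left huv.2

theorem covers_iff {l : Fin n → ℕ} {N : Fin n → Finset (Fin n)}
    (h : N ∈ Fintype.piFinset (allowed l)) {u v : Fin n} :
    Covers (order h) u v ↔ u ∈ N v := by
  constructor
  · rintro ⟨h1, h2⟩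
    rw [order_lt] at h1
    obtain ⟨h1, h1'⟩ := h1
    rcases Relation.ReflTransGen.cases_tail h1 with h3 | ⟨w, hw, hwv⟩
    · exact absurd h3.symm h1'
    · by_cases huw : u = w
      · rwa [huw]
      · exfalso
        apply h2 w
        rw [order_lt, order_lt]
        refine ⟨⟨hw, huw⟩, Relation.ReflTransGen.single hwv, ?_⟩
        rintro rfl
        have := level_of_mem h hwv
        omega
  · intro huv
    have h1 := level_of_mem h huv
    refine ⟨?_, fun w hw => ?_⟩
    · rw [order_lt]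
      refine ⟨Relation.ReflTransGen.single huv, ?_⟩
      rintro rfl
      omega
    · have h2 := order_lt_level h hw.1
      have h3 := order_lt_level h hw.2
      omega

theorem isGrading {l : Fin n → ℕ} {N : Fin n → Finset (Fin n)}
    (h : N ∈ Fintype.piFinset (allowed l)) : IsGrading (order h) fun v => l v + 1 where
  mono := by
    intro u v huv
    rcases level_le h huv with rfl | h1
    · exact le_rfl
    · omega
  cover := by
    intro u v huv
    rw [covers_iff] at huv
    have := level_of_mem h huv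
    omega
  pos := fun v => by omega
  normal := by
    have key : ∀ m : ℕ, ∀ p, l p = m → ∃ b, (compGraph (order h)).Reachable p b ∧ l b + 1 = 1 := by
      intro m
      induction m with
      | zero =>
        intro p hp
        exact ⟨p, SimpleGraph.Reachable.refl p, by omega⟩
      | succ m ih =>
        intro p hp
        obtain ⟨u, hu⟩ := exists_lower h (v := p) (by omega)
        have h1 := level_of_mem h hu
        obtain ⟨b, hb, hb'⟩ := ih u (by omega)
        refine ⟨b, SimpleGraph.Reachable.trans (SimpleGraph.Adj.reachable ?_) hb, hb'⟩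
        rw [compGraph, SimpleGraph.fromRel_adj]
        refine ⟨?_, Or.inr (Relation.ReflTransGen.single hu)⟩
        rintro rfl
        omega
    intro p
    exact key _ p rfl

theorem level_unique {l l' : Fin n → ℕ} {N : Fin n → Finset (Fin n)}
    (h : N ∈ Fintype.piFinset (allowed l)) (h' : N ∈ Fintype.piFinset (allowed l')) : l = l' := by
  have key : ∀ m : ℕ, ∀ v, l v = m → l v = l' v := by
    intro m
    induction m with
    | zero =>
      intro v hv
      by_contra hc
      obtain ⟨u, hu⟩ := exists_lower h' (v := v) (by omega)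
      rw [lower_empty h hv] at hu
      exact absurd hu (Finset.notMem_empty _)
    | succ m ih =>
      intro v hv
      obtain ⟨u, hu⟩ := exists_lower h (v := v) (by omega)
      have h1 := level_of_mem h hu
      have h2 := level_of_mem h' hu
      have h3 := ih u (by omega)
      omega
  funext v
  exact key _ v rfl

/-- The basic lower bound. -/
theorem sum_le_a (k : ℕ) (Ls : Finset (Fin n → ℕ))
    (hL : ∀ l ∈ Ls, (Set.range l).ncard = k) :
    ∑ l ∈ Ls, ∏ v, (allowed l v).card ≤ a k n := by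
  classical
  have h1 : ∑ l ∈ Ls, ∏ v, (allowed l v).card =
      (Ls.sigma fun l => Fintype.piFinset (allowed l)).card := by
    rw [Finset.card_sigma]
    exact Finset.sum_congr rfl fun l _ => (Fintype.card_piFinset _).symm
  rw [h1, ← Fintype.card_coe, ← Nat.card_eq_fintype_card, a]
  have hfin : Finite (PartialOrder (Fin n)) := by
    apply Finite.of_injective (fun P : PartialOrder (Fin n) => P.le)
    intro P Q hPQ
    apply PartialOrder.ext
    intro x y
    exact iff_of_eq (congrFun (congrFun hPQ x) y)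
  let F : {x // x ∈ (Ls.sigma fun l => Fintype.piFinset (allowed l))} →
      {P : PartialOrder (Fin n) // ∃ g : Fin n → ℕ, IsGrading P g ∧ (Set.range g).ncard = k} :=
    fun x => ⟨order (Finset.mem_sigma.1 x.2).2, fun v => x.1.1 v + 1,
      isGrading (Finset.mem_sigma.1 x.2).2, by
        have h2 := hL _ (Finset.mem_sigma.1 x.2).1
        have h3 : (Set.range fun v => x.1.1 v + 1) = (· + 1) '' Set.range x.1.1 := by
          rw [← Set.range_comp]; rfl
        rw [h3, Set.ncard_image_of_injective _ (add_left_injective 1), h2]⟩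
  apply Nat.card_le_card_of_injective F
  rintro ⟨⟨l, N⟩, hx⟩ ⟨⟨l', N'⟩, hx'⟩ hF
  have h2 : order (Finset.mem_sigma.1 hx).2 = order (Finset.mem_sigma.1 hx').2 :=
    congrArg Subtype.val hF
  have hN : N = N' := by
    funext v
    ext u
    rw [← covers_iff (Finset.mem_sigma.1 hx).2, ← covers_iff (Finset.mem_sigma.1 hx').2, h2]
  subst hN
  have hl : l = l' := level_unique (Finset.mem_sigma.1 hx).2 (Finset.mem_sigma.1 hx').2
  subst hl
  rfl

/-! ### The level functions -/

/-- The level function of a pair `(B, L)`. -/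
def lev (B L : Finset (Fin n)) (v : Fin n) : ℕ :=
  if v ∈ L then 0 else if v ∉ B then 2 else if B.max = (v : WithBot (Fin n)) then 3 else 1

theorem lev_inj {B L B' L' : Finset (Fin n)} (hL : Disjoint L B) (hL' : Disjoint L' B')
    (h : lev B L = lev B' L') : B = B' ∧ L = L' := by
  have h0 : ∀ B L : Finset (Fin n), Disjoint L B → ∀ v, (v ∈ L ↔ lev B L v = 0) ∧
      (v ∈ B ↔ lev B L v = 1 ∨ lev B L v = 3) := by
    intro B L hBL v
    rw [Finset.disjoint_left] at hBL
    unfold lev
    by_cases h1 : v ∈ L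
    · simp [h1, hBL h1]
    · by_cases h2 : v ∈ B
      · by_cases h3 : B.max = (v : WithBot (Fin n))
        · simp [h1, h2, h3]
        · simp [h1, h2, h3]
      · simp [h1, h2]
  constructor
  · ext v
    rw [(h0 B L hL v).2, (h0 B' L' hL' v).2, h]
  · ext v
    rw [(h0 B L hL v).1, (h0 B' L' hL' v).1, h]

theorem card_lev {m : ℕ} (hm : 1 ≤ m) {B L : Finset (Fin (12 * m))} (hB : B.card = 6 * m)
    (hLc : L.card = 2 * m) (hL : Disjoint L B) :
    (univ.filter fun v => lev B L v = 0).card = 2 * m ∧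
    (univ.filter fun v => lev B L v = 1).card = 6 * m - 1 ∧
    (univ.filter fun v => lev B L v = 2).card = 4 * m ∧
    (univ.filter fun v => lev B L v = 3).card = 1 := by
  have hBne : B.Nonempty := Finset.card_pos.1 (by omega)
  obtain ⟨b, hb⟩ := Finset.max_of_nonempty hBne
  have hbB : b ∈ B := Finset.mem_of_max hb
  rw [Finset.disjoint_left] at hL
  have hbL : b ∉ L := fun h => hL h hbB
  have hcase : ∀ v, (v ∈ L ∧ v ∉ B ∧ v ≠ b ∧ lev B L v = 0) ∨
      (v ∉ L ∧ v ∉ B ∧ v ≠ b ∧ lev B L v = 2) ∨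
      (v ∉ L ∧ v ∈ B ∧ v = b ∧ lev B L v = 3) ∨
      (v ∉ L ∧ v ∈ B ∧ v ≠ b ∧ lev B L v = 1) := by
    intro v
    by_cases h1 : v ∈ L
    · left
      refine ⟨h1, hL h1, ?_, by rw [lev, if_pos h1]⟩
      rintro rfl
      exact hbL h1
    · right
      by_cases h2 : v ∈ B
      · right
        by_cases h3 : v = b
        · left
          refine ⟨h1, h2, h3, ?_⟩
          rw [lev, if_neg h1, if_neg (not_not.2 h2), if_pos]
          rw [hb, h3]
        · right
          refine ⟨h1, h2, h3, ?_⟩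
          rw [lev, if_neg h1, if_neg (not_not.2 h2), if_neg]
          rw [hb]
          intro h4
          exact h3 (WithBot.coe_injective h4).symm
      · left
        refine ⟨h1, h2, ?_, by rw [lev, if_neg h1, if_pos h2]⟩
        rintro rfl
        exact h2 hbB
  have e0 : (univ.filter fun v => lev B L v = 0) = L := by
    ext v
    rw [Finset.mem_filter]
    rcases hcase v with h | h | h | h
    · simp [h]
    · simp [h]
    · rw [h.2.2.2]; simp [h.1]
    · simp [h]
  have e3 : (univ.filter fun v => lev B L v = 3) = {b} := by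
    ext v
    rw [Finset.mem_filter, Finset.mem_singleton]
    rcases hcase v with h | h | h | h
    · simp [h]
    · simp [h]
    · rw [h.2.2.2]; simp [h.2.2.1]
    · simp [h]
  have e1 : (univ.filter fun v => lev B L v = 1) = B.erase b := by
    ext v
    rw [Finset.mem_filter, Finset.mem_erase]
    rcases hcase v with h | h | h | h
    · simp [h]
    · simp [h]
    · rw [h.2.2.2]; simp [h.2.2.1]
    · simp [h]
  have e2 : (univ.filter fun v => lev B L v = 2) = (B ∪ L)ᶜ := by
    ext v
    rw [Finset.mem_filter, Finset.mem_compl, Finset.mem_union]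
    rcases hcase v with h | h | h | h
    · simp [h]
    · simp [h]
    · rw [h.2.2.2]; simp [h.1, h.2.1]
    · simp [h]
  rw [e0, e1, e2, e3]
  refine ⟨hLc, ?_, ?_, Finset.card_singleton b⟩
  · rw [Finset.card_erase_of_mem hbB, hB]
  · rw [Finset.card_compl, Finset.card_union_of_disjoint, hB, hLc, Fintype.card_fin]
    · omega
    · rw [Finset.disjoint_right]; exact fun v hv => hL hv

theorem lev_lt (B L : Finset (Fin n)) (v : Fin n) : lev B L v ∈ Finset.range 4 := by
  rw [Finset.mem_range, lev]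
  split_ifs <;> omega

theorem range_lev {m : ℕ} (hm : 1 ≤ m) {B L : Finset (Fin (12 * m))} (hB : B.card = 6 * m)
    (hLc : L.card = 2 * m) (hL : Disjoint L B) : (Set.range (lev B L)).ncard = 4 := by
  obtain ⟨h0, h1, h2, h3⟩ := card_lev hm hB hLc hL
  have : Set.range (lev B L) = ((Finset.range 4 : Finset ℕ) : Set ℕ) := by
    ext k
    constructor
    · rintro ⟨v, rfl⟩
      exact lev_lt B L v
    · intro hk
      have hk4 : k < 4 := by simpa using hk
      have key : ∀ j : ℕ, 0 < (univ.filter fun v => lev B L v = j).card →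
          j ∈ Set.range (lev B L) := by
        intro j hj
        obtain ⟨v, hv⟩ := Finset.card_pos.1 hj
        exact ⟨v, (Finset.mem_filter.1 hv).2⟩
      interval_cases k
      · exact key 0 (by omega)
      · exact key 1 (by omega)
      · exact key 2 (by omega)
      · exact key 3 (by omega)
  rw [this, Set.ncard_coe_finset, Finset.card_range]

theorem prod_allowed {m : ℕ} (hm : 1 ≤ m) {B L : Finset (Fin (12 * m))} (hB : B.card = 6 * m)
    (hLc : L.card = 2 * m) (hL : Disjoint L B) :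
    ∏ v, (allowed (lev B L) v).card =
      (2 ^ (2 * m) - 1) ^ (6 * m - 1) * (2 ^ (6 * m - 1) - 1) ^ (4 * m) * (2 ^ (4 * m) - 1) := by
  obtain ⟨h0, h1, h2, h3⟩ := card_lev hm hB hLc hL
  have hc : ∀ v, (allowed (lev B L) v).card = (fun j : ℕ => if j = 0 then 1 else
      2 ^ (univ.filter fun u => lev B L u + 1 = j).card - 1) (lev B L v) := by
    intro v
    unfold allowed
    dsimp only
    split_ifs with h
    · simp
    · rw [Finset.card_erase_of_mem (Finset.empty_mem_powerset _), Finset.card_powerset]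
  rw [Finset.prod_congr rfl fun v _ => hc v]
  rw [← Finset.prod_fiberwise_of_maps_to (g := lev B L) (t := Finset.range 4)
    (fun v _ => lev_lt B L v)]
  have hc2 : ∀ j ∈ Finset.range 4, (∏ v ∈ univ.filter (fun v => lev B L v = j),
      (fun j : ℕ => if j = 0 then 1 else
      2 ^ (univ.filter fun u => lev B L u + 1 = j).card - 1) (lev B L v)) =
      (if j = 0 then 1 else 2 ^ (univ.filter fun u => lev B L u + 1 = j).card - 1) ^
        (univ.filter fun v => lev B L v = j).card := by
    intro j _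
    rw [← Finset.prod_const]
    apply Finset.prod_congr rfl
    intro v hv
    rw [(Finset.mem_filter.1 hv).2]
  rw [Finset.prod_congr rfl hc2]
  have e1 : (univ.filter fun u => lev B L u + 1 = 1) = univ.filter fun u => lev B L u = 0 := by
    ext u; simp
  have e2 : (univ.filter fun u => lev B L u + 1 = 2) = univ.filter fun u => lev B L u = 1 := by
    ext u; simp
  have e3 : (univ.filter fun u => lev B L u + 1 = 3) = univ.filter fun u => lev B L u = 2 := by
    ext u; simp
  simp only [Finset.prod_range_succ, Finset.prod_range_zero, one_mul, e1, e2, e3, h0, h1, h2, h3,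
    if_true, one_pow, pow_one, one_ne_zero, if_false, OfNat.ofNat_ne_zero]

/-- The pairs `(B, L)`. -/
def pairs (m : ℕ) : Finset ((_ : Finset (Fin (12 * m))) × Finset (Fin (12 * m))) :=
  (Finset.powersetCard (6 * m) univ).sigma fun B => Finset.powersetCard (2 * m) Bᶜ

theorem mem_pairs {m : ℕ} {x : (_ : Finset (Fin (12 * m))) × Finset (Fin (12 * m))}
    (hx : x ∈ pairs m) : x.1.card = 6 * m ∧ x.2.card = 2 * m ∧ Disjoint x.2 x.1 := by
  obtain ⟨h1, h2⟩ := Finset.mem_sigma.1 hx
  obtain ⟨-, h3⟩ := Finset.mem_powersetCard.1 h1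
  obtain ⟨h4, h5⟩ := Finset.mem_powersetCard.1 h2
  refine ⟨h3, h5, ?_⟩
  rw [Finset.disjoint_left]
  intro v hv
  exact Finset.mem_compl.1 (h4 hv)

theorem card_pairs (m : ℕ) :
    (pairs m).card = (12 * m).choose (6 * m) * (6 * m).choose (2 * m) := by
  rw [pairs, Finset.card_sigma]
  have : ∀ B ∈ Finset.powersetCard (6 * m) (univ : Finset (Fin (12 * m))),
      (Finset.powersetCard (2 * m) Bᶜ).card = (6 * m).choose (2 * m) := by
    intro B hB
    rw [Finset.card_powersetCard, Finset.card_compl, (Finset.mem_powersetCard.1 hB).2,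
      Fintype.card_fin]
    congr 1
    omega
  rw [Finset.sum_congr rfl this, Finset.sum_const, Finset.card_powersetCard, Finset.card_univ,
    Fintype.card_fin, smul_eq_mul]

theorem lower_bound {m : ℕ} (hm : 1 ≤ m) :
    (12 * m).choose (6 * m) * (6 * m).choose (2 * m) *
      ((2 ^ (2 * m) - 1) ^ (6 * m - 1) * (2 ^ (6 * m - 1) - 1) ^ (4 * m) * (2 ^ (4 * m) - 1)) ≤
    a 4 (12 * m) := by
  classical
  have h1 := sum_le_a 4 ((pairs m).image fun x => lev x.1 x.2) (by
    intro l hl
    obtain ⟨x, hx, rfl⟩ := Finset.mem_image.1 hl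
    obtain ⟨h2, h3, h4⟩ := mem_pairs hx
    exact range_lev hm h2 h3 h4)
  rw [Finset.sum_image] at h1
  · refine le_trans (le_of_eq ?_) h1
    rw [← card_pairs, ← smul_eq_mul, ← Finset.sum_const]
    apply Finset.sum_congr rfl
    intro x hx
    obtain ⟨h2, h3, h4⟩ := mem_pairs hx
    exact (prod_allowed hm h2 h3 h4).symm
  · rintro ⟨B, L⟩ hx ⟨B', L'⟩ hx' hxx
    obtain ⟨rfl, rfl⟩ := lev_inj (mem_pairs hx).2.2 (mem_pairs hx').2.2 hxx
    rfl

/-! ### Estimates -/

theorem half_pow_le {x : ℝ} {k : ℕ} (hx : 2 * (k : ℝ) ≤ x) (hx0 : 1 ≤ x) :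
    x ^ k / 2 ≤ (x - 1) ^ k := by
  have hxpos : 0 < x := by linarith
  have h1 : 1 + (k : ℝ) * (-(1 / x)) ≤ (1 + -(1 / x)) ^ k := by
    apply one_add_mul_le_pow
    have : 1 / x ≤ 1 := by rw [div_le_one hxpos]; exact hx0
    linarith
  have h2 : (1 / 2 : ℝ) ≤ 1 + (k : ℝ) * (-(1 / x)) := by
    have : (k : ℝ) * (1 / x) ≤ 1 / 2 := by
      rw [mul_one_div, div_le_iff₀ hxpos]
      linarith
    linarith
  have h3 : (x - 1) ^ k = x ^ k * (1 + -(1 / x)) ^ k := by
    rw [← mul_pow]
    congr 1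
    field_simp
    ring
  rw [h3]
  have h4 : (1 / 2 : ℝ) ≤ (1 + -(1 / x)) ^ k := h2.trans h1
  have h5 : 0 < x ^ k := pow_pos hxpos k
  nlinarith

theorem choose_three (j : ℕ) :
    (27 / 4 : ℝ) ^ j ≤ (3 * j + 1) * ((3 * j).choose j : ℝ) := by
  induction j with
  | zero => simp
  | succ j ih =>
    -- `C(3j+3, j+1) (j+1)(2j+2)(2j+1) = C(3j, j) (3j+3)(3j+2)(3j+1)`
    have h1 : ((3 * (j + 1)).choose (j + 1)) * ((j + 1) * ((2 * j + 2) * (2 * j + 1))) =
        ((3 * j).choose j) * ((3 * j + 3) * ((3 * j + 2) * (3 * j + 1))) := by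
      have e1 := Nat.choose_mul_factorial_mul_factorial (n := 3 * (j + 1)) (k := j + 1) (by omega)
      have e2 := Nat.choose_mul_factorial_mul_factorial (n := 3 * j) (k := j) (by omega)
      have e3 : 3 * (j + 1) - (j + 1) = 2 * j + 2 := by omega
      have e4 : 3 * j - j = 2 * j := by omega
      rw [e3] at e1
      rw [e4] at e2
      have e5 : (3 * (j + 1)).factorial = (3 * j + 3) * ((3 * j + 2) * ((3 * j + 1) *
          (3 * j).factorial)) := by
        rw [show 3 * (j + 1) = 3 * j + 3 by ring]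
        rfl
      have e6 : (2 * j + 2).factorial = (2 * j + 2) * ((2 * j + 1) * (2 * j).factorial) := rfl
      have e7 : (j + 1).factorial = (j + 1) * j.factorial := rfl
      rw [e5, ← e2, e6, e7] at e1
      have hpos : 0 < j.factorial * (2 * j).factorial :=
        Nat.mul_pos (Nat.factorial_pos _) (Nat.factorial_pos _)
      apply Nat.eq_of_mul_eq_mul_right hpos
      linarith
    have h1' : ((3 * (j + 1)).choose (j + 1) : ℝ) * (((j : ℝ) + 1) * ((2 * j + 2) * (2 * j + 1))) =
        ((3 * j).choose j : ℝ) * ((3 * j + 3) * ((3 * j + 2) * (3 * j + 1))) := by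
      exact_mod_cast h1
    have hc : (0 : ℝ) ≤ ((3 * j).choose j : ℝ) := Nat.cast_nonneg _
    have hj : (0 : ℝ) ≤ (j : ℝ) := Nat.cast_nonneg _
    push_cast
    set c := ((3 * j).choose j : ℝ)
    set c' := ((3 * (j + 1)).choose (j + 1) : ℝ)
    have hq : (0 : ℝ) < (j + 1) * ((2 * j + 2) * (2 * j + 1)) := by positivity
    have h2 : c' = c * ((3 * j + 3) * ((3 * j + 2) * (3 * j + 1))) /
        ((j + 1) * ((2 * j + 2) * (2 * j + 1))) := by
      rw [eq_div_iff hq.ne']
      exact h1'
    rw [h2, pow_succ]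
    have h3 : (27 / 4 : ℝ) ^ j * (27 / 4) ≤ (3 * j + 1) * c * (27 / 4) := by
      apply mul_le_mul_of_nonneg_right ih (by norm_num)
    refine h3.trans ?_
    have h5 : (3 * ((j : ℝ) + 1) + 1) * (c * ((3 * j + 3) * ((3 * j + 2) * (3 * j + 1))) /
        ((j + 1) * ((2 * j + 2) * (2 * j + 1)))) =
        ((3 * ((j : ℝ) + 1) + 1) * (c * ((3 * j + 3) * ((3 * j + 2) * (3 * j + 1))))) /
        ((j + 1) * ((2 * j + 2) * (2 * j + 1))) := (mul_div_assoc _ _ _).symm
    rw [h5, le_div_iff₀ hq]
    have h4 : 0 ≤ c * ((3 * j + 1) * (j + 1)) := by positivity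
    nlinarith [mul_nonneg h4 hj, mul_nonneg h4 (mul_nonneg hj hj), h4]

theorem four_pow_ge {m : ℕ} (hm : 3 ≤ m) : 12 * m ≤ 4 ^ m := by
  induction m, hm using Nat.le_induction with
  | base => norm_num
  | succ m _ ih => rw [pow_succ]; omega

theorem main_lower {m : ℕ} (hm : 3 ≤ m) :
    (2 : ℝ) ^ (36 * m ^ 2) * 46656 ^ m ≤ (a 4 (12 * m) : ℝ) * (96 * m * (6 * m + 1)) := by
  have h1 := lower_bound (m := m) (by omega)
  have h1' : ((12 * m).choose (6 * m) : ℝ) * ((6 * m).choose (2 * m) : ℝ) *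
      (((2 : ℝ) ^ (2 * m) - 1) ^ (6 * m - 1) * ((2 : ℝ) ^ (6 * m - 1) - 1) ^ (4 * m) *
        ((2 : ℝ) ^ (4 * m) - 1)) ≤ (a 4 (12 * m) : ℝ) := by
    have h2 : ((((12 * m).choose (6 * m) * (6 * m).choose (2 * m) *
      ((2 ^ (2 * m) - 1) ^ (6 * m - 1) * (2 ^ (6 * m - 1) - 1) ^ (4 * m) * (2 ^ (4 * m) - 1)) :
        ℕ)) : ℝ) ≤ (a 4 (12 * m) : ℝ) := by exact_mod_cast h1
    have hp : ∀ k : ℕ, (((2 ^ k - 1 : ℕ)) : ℝ) = (2 : ℝ) ^ k - 1 := by
      intro k
      rw [Nat.cast_sub Nat.one_le_two_pow]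
      push_cast
      ring
    simp only [Nat.cast_mul, Nat.cast_pow, hp] at h2
    exact h2
  have h4m := four_pow_ge hm
  have e2m : (2 : ℝ) ^ (2 * m) = 4 ^ m := by rw [pow_mul]; norm_num
  have h4mR : (12 * m : ℝ) ≤ 4 ^ m := by exact_mod_cast h4m
  have hA : ((2 : ℝ) ^ (2 * m)) ^ (6 * m - 1) / 2 ≤ ((2 : ℝ) ^ (2 * m) - 1) ^ (6 * m - 1) := by
    apply half_pow_le
    · rw [e2m, Nat.cast_sub (by omega)]
      push_cast
      linarith
    · exact one_le_pow₀ (by norm_num)
  have hB : ((2 : ℝ) ^ (6 * m - 1)) ^ (4 * m) / 2 ≤ ((2 : ℝ) ^ (6 * m - 1) - 1) ^ (4 * m) := by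
    apply half_pow_le
    · have : (2 : ℝ) ^ (2 * m) ≤ 2 ^ (6 * m - 1) := pow_le_pow_right₀ (by norm_num) (by omega)
      rw [e2m] at this
      push_cast
      linarith
    · exact one_le_pow₀ (by norm_num)
  have hC : ((2 : ℝ) ^ (4 * m)) / 2 ≤ (2 : ℝ) ^ (4 * m) - 1 := by
    have : (2 : ℝ) ^ 1 ≤ 2 ^ (4 * m) := pow_le_pow_right₀ (by norm_num) (by omega)
    linarith
  have hD : (4 : ℝ) ^ (6 * m) ≤ 12 * m * ((12 * m).choose (6 * m) : ℝ) := by
    have := Nat.four_pow_le_two_mul_self_mul_centralBinom (6 * m) (by omega)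
    rw [Nat.centralBinom_eq_two_mul_choose, show 2 * (6 * m) = 12 * m by ring] at this
    exact_mod_cast this
  have hE : (27 / 4 : ℝ) ^ (2 * m) ≤ (6 * m + 1) * ((6 * m).choose (2 * m) : ℝ) := by
    have := choose_three (2 * m)
    rw [show 3 * (2 * m) = 6 * m by ring] at this
    push_cast at this
    have e : (3 * (2 * (m : ℝ)) + 1) = 6 * m + 1 := by ring
    rwa [e] at this
  set c1 := ((12 * m).choose (6 * m) : ℝ)
  set c2 := ((6 * m).choose (2 * m) : ℝ)
  have hc1 : 0 ≤ c1 := Nat.cast_nonneg _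
  have hc2 : 0 ≤ c2 := Nat.cast_nonneg _
  have hprod : ((2 : ℝ) ^ (2 * m)) ^ (6 * m - 1) / 2 * (((2 : ℝ) ^ (6 * m - 1)) ^ (4 * m) / 2) *
      ((2 : ℝ) ^ (4 * m) / 2) ≤ ((2 : ℝ) ^ (2 * m) - 1) ^ (6 * m - 1) *
        ((2 : ℝ) ^ (6 * m - 1) - 1) ^ (4 * m) * ((2 : ℝ) ^ (4 * m) - 1) := by
    have p1 : 0 ≤ ((2 : ℝ) ^ (2 * m)) ^ (6 * m - 1) / 2 := by positivity
    have p2 : 0 ≤ ((2 : ℝ) ^ (6 * m - 1)) ^ (4 * m) / 2 := by positivity
    have p3 : 0 ≤ ((2 : ℝ) ^ (4 * m)) / 2 := by positivity
    exact mul_le_mul (mul_le_mul hA hB p2 (p1.trans hA)) hC p3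
      (mul_nonneg (p1.trans hA) (p2.trans hB))
  have hexp : ((2 : ℝ) ^ (2 * m)) ^ (6 * m - 1) * ((2 : ℝ) ^ (6 * m - 1)) ^ (4 * m) *
      (2 : ℝ) ^ (4 * m) * 4 ^ m = 2 ^ (36 * m ^ 2) := by
    rw [← pow_mul, ← pow_mul, ← e2m, ← pow_add, ← pow_add, ← pow_add]
    congr 1
    obtain ⟨k, rfl⟩ : ∃ k, m = k + 1 := ⟨m - 1, by omega⟩
    rw [show 6 * (k + 1) - 1 = 6 * k + 5 by omega]
    ring
  have hbig : (46656 : ℝ) ^ m * 4 ^ m = 4 ^ (6 * m) * (27 / 4) ^ (2 * m) := by
    rw [pow_mul, pow_mul, ← mul_pow, ← mul_pow]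
    norm_num
  set X := ((2 : ℝ) ^ (2 * m)) ^ (6 * m - 1) * ((2 : ℝ) ^ (6 * m - 1)) ^ (4 * m) *
      (2 : ℝ) ^ (4 * m) with hX
  have hXpos : 0 < X := by positivity
  have hXa : c1 * c2 * (X / 8) ≤ (a 4 (12 * m) : ℝ) := by
    refine le_trans ?_ h1'
    apply mul_le_mul_of_nonneg_left _ (mul_nonneg hc1 hc2)
    refine le_trans (le_of_eq ?_) hprod
    rw [hX]; ring
  have hmul : (4 : ℝ) ^ (6 * m) * (27 / 4) ^ (2 * m) ≤
      (12 * m * c1) * ((6 * m + 1) * c2) :=
    mul_le_mul hD hE (by positivity) (by positivity)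
  have h4pos : (0 : ℝ) < 4 ^ m := by positivity
  -- conclude
  calc (2 : ℝ) ^ (36 * m ^ 2) * 46656 ^ m = X * (46656 ^ m * 4 ^ m) := by rw [← hexp]; ring
    _ = X * (4 ^ (6 * m) * (27 / 4) ^ (2 * m)) := by rw [hbig]
    _ ≤ X * ((12 * m * c1) * ((6 * m + 1) * c2)) := by gcongr
    _ = (c1 * c2 * (X / 8)) * (96 * m * (6 * m + 1)) := by ring
    _ ≤ (a 4 (12 * m) : ℝ) * (96 * m * (6 * m + 1)) := by gcongr

/-- `log₂ a_4(n) - n²/4 - 5n/4` exceeds `n/24 - 2 log₂ n - 3` for `n = 12 m`, `m ≥ 3`. -/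
theorem log_lower {m : ℕ} (hm : 3 ≤ m) :
    ((12 * m : ℕ) : ℝ) / 24 - 2 * Real.logb 2 ((12 * m : ℕ) : ℝ) - 3 ≤
      Real.logb 2 (a 4 (12 * m)) - ((12 * m : ℕ) : ℝ) ^ 2 / 4 - 5 / 4 * ((12 * m : ℕ) : ℝ) := by
  have h := main_lower hm
  have hmR : (3 : ℝ) ≤ m := by exact_mod_cast hm
  have hpos : (0 : ℝ) < 96 * m * (6 * m + 1) := by positivity
  have hle : (96 * m * (6 * m + 1) : ℝ) ≤ 8 * (12 * m) ^ 2 := by nlinarith
  have hapos : (0 : ℝ) < a 4 (12 * m) := by
    have h1 : (0 : ℝ) < 2 ^ (36 * m ^ 2) * 46656 ^ m := by positivity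
    by_contra hc
    have : (a 4 (12 * m) : ℝ) = 0 := le_antisymm (not_lt.1 hc) (Nat.cast_nonneg _)
    rw [this, zero_mul] at h
    linarith
  have h2 : (2 : ℝ) ^ (36 * m ^ 2) * 46656 ^ m ≤ (a 4 (12 * m) : ℝ) * (8 * (12 * m) ^ 2) :=
    h.trans (by gcongr)
  have h3 := Real.logb_le_logb_of_le (b := 2) (by norm_num) (by positivity) h2
  rw [Real.logb_mul (by positivity) (by positivity), Real.logb_mul (by positivity) (by positivity),
    Real.logb_mul (by positivity) (by positivity), Real.logb_pow, Real.logb_pow, Real.logb_pow,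
    Real.logb_self_eq_one (by norm_num)] at h3
  have h8 : Real.logb 2 8 = 3 := by
    rw [show (8 : ℝ) = 2 ^ (3 : ℕ) by norm_num, Real.logb_pow, Real.logb_self_eq_one (by norm_num)]
    norm_num
  have h46 : (31 / 2 : ℝ) ≤ Real.logb 2 46656 := by
    have h5 : Real.logb 2 (2 ^ (31 : ℕ)) ≤ Real.logb 2 (46656 ^ (2 : ℕ)) :=
      Real.logb_le_logb_of_le (by norm_num) (by norm_num) (by norm_num)
    rw [Real.logb_pow, Real.logb_pow, Real.logb_self_eq_one (by norm_num)] at h5
    push_cast at h5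
    linarith
  rw [h8] at h3
  push_cast at h3 ⊢
  have h9 : (m : ℝ) * (31 / 2) ≤ m * Real.logb 2 46656 := by gcongr
  nlinarith

/-- The negation of Q1. -/
theorem disproof (C : ℝ) (N : ℕ) : ∃ n ≥ N,
    C * Real.log n < |Real.logb 2 (a 4 n) - (n : ℝ) ^ 2 / 4 - 5 / 4 * n| := by
  set K : ℝ := |C| + 2 / Real.log 2 with hK
  have hlog2 : 0 < Real.log 2 := Real.log_pos (by norm_num)
  have hKpos : 0 < K := by positivity
  have hb := Real.isLittleO_log_id_atTop.bound (c := 1 / (48 * K)) (by positivity)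
  have hb' := tendsto_natCast_atTop_atTop (R := ℝ) |>.eventually hb
  obtain ⟨n₀, hn₀⟩ := Filter.eventually_atTop.1 hb'
  set m := N + n₀ + 100 with hm
  have h1 := log_lower (m := m) (by omega)
  have h2 := hn₀ (12 * m) (by omega)
  refine ⟨12 * m, by omega, lt_of_lt_of_le ?_ (h1.trans (le_abs_self _))⟩
  set x : ℝ := ((12 * m : ℕ) : ℝ) with hx
  have hx1 : (1200 : ℝ) ≤ x := by
    have : 1200 ≤ 12 * m := by omega
    rw [hx]
    exact_mod_cast this
  have hlogx : 0 ≤ Real.log x := Real.log_nonneg (by linarith)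
  simp only [id] at h2
  rw [Real.norm_of_nonneg hlogx, Real.norm_of_nonneg (by linarith)] at h2
  have h3 : K * Real.log x ≤ x / 48 := by
    calc K * Real.log x ≤ K * (1 / (48 * K) * x) := by gcongr
      _ = x / 48 := by field_simp
  have h4 : Real.logb 2 x = Real.log x / Real.log 2 := rfl
  have h5 : C * Real.log x ≤ |C| * Real.log x := by
    gcongr
    exact le_abs_self C
  have h6 : K * Real.log x = |C| * Real.log x + 2 * (Real.log x / Real.log 2) := by
    rw [hK]; ring
  rw [h4]
  linarith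

end Pool.Agent.X42.Graded
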