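import Pool.Agent.H884R2.HFP.Cor
import Pool.Agent.H179R3.HF.MinusVertex

/-! `1/2`-flow-pairs whose 2-flow has a given even support, in graphs with arbitrary degrees. -/

set_option autoImplicit false
set_option linter.unusedSectionVars false

namespace Pool.Agent.X42.HalfPair

open Finset Pool.Agent.H160R2.HF Pool.Agent.H160R2.HF.OrGraph Pool.Agent.H884R2.HFP

universe u v

variable {V : Type u} {E : Type v} [Fintype V] [Fintype E] [DecidableEq V] [DecidableEq E]
  (G : OrGraph V E)

/-- In every component of `(V, F)` the number of the vertices `v` such that exactly one of the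
two statements (the degree of `v` is odd; `v ∈ U`) holds is even. -/
def Par (F : Finset E) (U : Finset V) : Prop :=
  ∀ c : (G.sub F).ConnectedComponent,
    Even (Set.ncard {v | v ∈ c.supp ∧ (Odd (G.deg univ v) ↔ v ∉ U)})

open Pool.Agent.H179R3.HF in
theorem exists_tjoin (F : Finset E) (T : V → ZMod 2)
    (hT : ∀ r : V, Quot.out ((G.sub F).connectedComponentMk r) = r →
      ∑ w, T w * (if Quot.out ((G.sub F).connectedComponentMk w) = r then 1 else 0) = 0) :
    ∃ j : E → ZMod 2, (∀ g, g ∉ F → j g = 0) ∧ ∀ w, bd G j w = T w := by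
  have hreach : ∀ w, (G.sub F).Reachable w (Quot.out ((G.sub F).connectedComponentMk w)) := by
    intro w
    rw [← SimpleGraph.ConnectedComponent.eq]
    exact (Quot.out_eq ((G.sub F).connectedComponentMk w)).symm
  choose jw hj1 hj2 using fun w => path_join G F (hreach w)
  refine ⟨fun g => ∑ w, T w * jw w g, fun g hg => ?_, fun x => ?_⟩
  · exact Finset.sum_eq_zero fun w _ => by rw [hj1 w g hg, mul_zero]
  · rw [bd_sum G univ (fun w g => T w * jw w g) x]
    have h1 : ∀ w, bd G (fun g => T w * jw w g) x =
        T w * (if w = x then 1 else 0) +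
          T w * (if Quot.out ((G.sub F).connectedComponentMk w) = x then 1 else 0) := by
      intro w
      rw [bd_mul, hj2, mul_add]
    rw [Finset.sum_congr rfl fun w _ => h1 w, Finset.sum_add_distrib]
    have h2 : ∑ w, T w * (if w = x then (1 : ZMod 2) else 0) = T x := by
      simp
    rw [h2]
    by_cases hx : Quot.out ((G.sub F).connectedComponentMk x) = x
    · rw [hT x hx, add_zero]
    · rw [Finset.sum_eq_zero, add_zero]
      intro w _
      rw [if_neg, mul_zero]
      intro h
      apply hx
      have h3 : (G.sub F).connectedComponentMk x = (G.sub F).connectedComponentMk w := by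
        rw [← h]
        exact Quot.out_eq _
      rw [h3, h]

theorem deg_split (F : Finset E) (v : V) : G.deg F v + G.deg Fᶜ v = G.deg univ v := by
  unfold deg
  have h2 : ∀ k : E → V, (F.filter (fun e => k e = v)).card +
      (Fᶜ.filter (fun e => k e = v)).card = (univ.filter (fun e => k e = v)).card := by
    intro k
    rw [← Finset.card_union_of_disjoint, ← Finset.filter_union, Finset.union_compl]
    exact Finset.disjoint_filter_filter disjoint_compl_right
  have h3 := h2 G.t
  have h4 := h2 G.h
  omega

theorem z2_cases (x : ZMod 2) : x = 0 ∨ x = 1 := by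
  revert x
  decide

/-- the join -/
theorem exists_B (F : Finset E) (hF : ∀ v, Even (G.deg F v)) (U : Finset V) (hU : Par G F U) :
    ∃ B ⊆ F, ∀ v, Even (G.deg Fᶜ v + G.deg B v + (if v ∈ U then 1 else 0)) := by
  classical
  obtain ⟨j, hj, hb⟩ := exists_tjoin G F
    (fun v => if (Odd (G.deg univ v) ↔ v ∉ U) then 1 else 0) (by
      intro r hr
      have h1 : ∀ w, (if (Odd (G.deg univ w) ↔ w ∉ U) then (1 : ZMod 2) else 0) *
          (if Quot.out ((G.sub F).connectedComponentMk w) = r then 1 else 0) =
          if w ∈ ((G.sub F).connectedComponentMk r).supp ∧ (Odd (G.deg univ w) ↔ w ∉ U)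
            then 1 else 0 := by
        intro w
        have h2 : Quot.out ((G.sub F).connectedComponentMk w) = r ↔
            w ∈ ((G.sub F).connectedComponentMk r).supp := by
          rw [SimpleGraph.ConnectedComponent.mem_supp_iff]
          constructor
          · intro h
            rw [← h]
            exact (Quot.out_eq ((G.sub F).connectedComponentMk w)).symm
          · intro h
            rw [h, hr]
        by_cases h3 : w ∈ ((G.sub F).connectedComponentMk r).supp
        · rw [if_pos (h2.2 h3), mul_one]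
          by_cases h4 : (Odd (G.deg univ w) ↔ w ∉ U)
          · rw [if_pos h4, if_pos ⟨h3, h4⟩]
          · rw [if_neg h4, if_neg fun h => h4 h.2]
        · rw [if_neg (fun h => h3 (h2.1 h)), mul_zero, if_neg fun h => h3 h.1]
      rw [Finset.sum_congr rfl fun w _ => h1 w, Finset.sum_boole]
      have h5 := hU ((G.sub F).connectedComponentMk r)
      rw [ZMod.natCast_eq_zero_iff_even]
      rw [← Set.ncard_coe_finset] at *
      convert h5 using 2
      ext w
      simp)
  refine ⟨univ.filter (fun g => j g = 1), fun g hg => ?_, fun v => ?_⟩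
  · by_contra h
    rw [mem_filter, hj g h] at hg
    exact zero_ne_one hg.2
  · have h1 : (fun g => if g ∈ univ.filter (fun g => j g = 1) then (1 : ZMod 2) else 0) = j := by
      funext g
      have hg : g ∈ univ.filter (fun g => j g = 1) ↔ j g = 1 := by simp
      by_cases h : j g = 1
      · rw [if_pos (hg.2 h), h]
      · rw [if_neg (fun hh => h (hg.1 hh))]
        rcases z2_cases (j g) with h0 | h0
        · exact h0.symm
        · exact absurd h0 h
    have h2 := Pool.Agent.H179R3.HF.bd_indicator G (univ.filter (fun g => j g = 1)) v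
    rw [h1, hb v] at h2
    rw [← ZMod.natCast_eq_zero_iff_even]
    push_cast
    rw [← h2]
    have h3 := deg_split G F v
    have h4 : (G.deg Fᶜ v : ZMod 2) = (G.deg univ v : ZMod 2) := by
      rw [← h3]
      push_cast
      rw [(ZMod.natCast_eq_zero_iff_even).2 (hF v), zero_add]
    rw [h4]
    by_cases h5 : Odd (G.deg univ v) <;> by_cases h6 : v ∈ U
    · rw [(ZMod.natCast_eq_one_iff_odd).2 h5]
      simp only [h5, h6, not_true, iff_false, if_true, if_false]
      decide
    · rw [(ZMod.natCast_eq_one_iff_odd).2 h5]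
      simp only [h5, h6, not_false_iff, if_true, if_false]
      decide
    · rw [(ZMod.natCast_eq_zero_iff_even).2 (Nat.not_odd_iff_even.1 h5)]
      simp only [h5, h6, not_true, if_true]
      decide
    · rw [(ZMod.natCast_eq_zero_iff_even).2 (Nat.not_odd_iff_even.1 h5)]
      simp only [h5, h6, not_false_iff, iff_true, if_false]
      decide

/-- The orientation of `M` obtained from a join `B` and a pairing of `U`. -/
theorem exists_orientation (M B : Finset E) (hMB : Disjoint M B) (U : Finset V)
    (hB : ∀ v, Even (G.deg M v + G.deg B v + (if v ∈ U then 1 else 0)))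
    (τ : V → V) (hτ : ∀ u ∈ U, τ u ∈ U ∧ τ (τ u) = u ∧ τ u ≠ u) :
    ∃ ψ : E → ℤ, (∀ e, (e ∈ M → ψ e = 1 ∨ ψ e = -1) ∧ (e ∉ M → ψ e = 0)) ∧
      ∀ X : Finset V, |∑ v ∈ X, net G.t G.h ψ v| ≤ (G.cut X ∩ B).card + sep U τ X := by
  classical
  obtain ⟨S, hSU, hS⟩ := exists_half U τ hτ
  have hdegMB : ∀ v, G.deg (M ∪ B) v = G.deg M v + G.deg B v := by
    intro v
    unfold deg
    rw [Finset.filter_union, Finset.filter_union, Finset.card_union_of_disjoint,
      Finset.card_union_of_disjoint]
    · ring
    · exact Finset.disjoint_filter_filter hMB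
    · exact Finset.disjoint_filter_filter hMB
  let t' : E ⊕ V → V := Sum.elim G.t id
  let h' : E ⊕ V → V := Sum.elim G.h τ
  let F' : Finset (E ⊕ V) := (M ∪ B).disjSum S
  have hfil : ∀ (k : E → V) (l : V → V) (v : V),
      (F'.filter (fun o => Sum.elim k l o = v)).card =
        ((M ∪ B).filter (fun e => k e = v)).card + (S.filter (fun u => l u = v)).card := by
    intro k l v
    rw [Finset.card_filter, Finset.card_filter, Finset.card_filter]
    simp only [F']
    rw [Finset.sum_disjSum]
    rfl
  have hSone : ∀ v, (S.filter (fun u => id u = v)).card + (S.filter (fun u => τ u = v)).card =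
      if v ∈ U then 1 else 0 := by
    intro v
    by_cases hv : v ∈ U
    · rw [if_pos hv]
      obtain ⟨h1, h2, h3⟩ := hτ v hv
      have e1 : S.filter (fun u => id u = v) = if v ∈ S then {v} else ∅ := by
        ext w
        by_cases hvS : v ∈ S
        · rw [if_pos hvS, Finset.mem_filter, Finset.mem_singleton]
          exact ⟨fun h => h.2, fun h => ⟨by rw [h]; exact hvS, h⟩⟩
        · rw [if_neg hvS, Finset.mem_filter]
          simp only [id, Finset.notMem_empty, iff_false]
          rintro ⟨h4, h5⟩
          exact hvS (h5 ▸ h4)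
      have e2 : S.filter (fun u => τ u = v) = if τ v ∈ S then {τ v} else ∅ := by
        ext w
        by_cases hvS : τ v ∈ S
        · rw [if_pos hvS, Finset.mem_filter, Finset.mem_singleton]
          constructor
          · rintro ⟨h4, h5⟩
            rw [← h5, (hτ w (hSU h4)).2.1]
          · intro h
            rw [h]; exact ⟨hvS, h2⟩
        · rw [if_neg hvS, Finset.mem_filter]
          simp only [Finset.notMem_empty, iff_false]
          rintro ⟨h4, h5⟩
          apply hvS
          rw [← h5, (hτ w (hSU h4)).2.1]; exact h4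
      rw [e1, e2]
      have h6 := hS v hv
      by_cases hvS : v ∈ S
      · rw [if_pos hvS, if_neg (h6.1 hvS)]; simp
      · have h7 : τ v ∈ S := by
          by_contra h7
          exact hvS (h6.2 h7)
        rw [if_neg hvS, if_pos h7]; simp
    · rw [if_neg hv]
      have e1 : S.filter (fun u => id u = v) = ∅ := by
        ext w
        rw [Finset.mem_filter]
        simp only [id, Finset.notMem_empty, iff_false]
        rintro ⟨h4, h5⟩
        exact hv (h5 ▸ hSU h4)
      have e2 : S.filter (fun u => τ u = v) = ∅ := by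
        ext w
        rw [Finset.mem_filter]
        simp only [Finset.notMem_empty, iff_false]
        rintro ⟨h4, h5⟩
        exact hv (h5 ▸ (hτ w (hSU h4)).1)
      rw [e1, e2]; simp
  obtain ⟨χ, hχ1, hχ2⟩ := eulerian t' h' F' (fun v => by
    simp only [t', h']
    rw [hfil, hfil]
    have h1 := hdegMB v
    have h2 := hSone v
    obtain ⟨k, hk⟩ := hB v
    unfold deg at h1 hk
    exact ⟨k, by omega⟩)
  refine ⟨fun e => if e ∈ M then χ (Sum.inl e) else 0, ?_, ?_⟩
  · intro e
    constructor
    · intro he
      simp only [he, if_true]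
      exact (hχ1 (Sum.inl e)).1 (by simp [F', he])
    · intro he
      simp [he]
  · intro X
    have h0 : ∑ v ∈ X, net t' h' χ v = 0 := by
      rw [Finset.sum_congr rfl (fun v _ => hχ2 v)]; simp
    rw [net_sum, Fintype.sum_sum_type] at h0
    have hsplit : ∀ e, ((if t' (Sum.inl e) ∈ X then χ (Sum.inl e) else 0) -
        (if h' (Sum.inl e) ∈ X then χ (Sum.inl e) else 0)) =
        ((if G.t e ∈ X then (if e ∈ M then χ (Sum.inl e) else 0) else 0) -
          (if G.h e ∈ X then (if e ∈ M then χ (Sum.inl e) else 0) else 0)) +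
        ((if G.t e ∈ X then (if e ∈ B then χ (Sum.inl e) else 0) else 0) -
          (if G.h e ∈ X then (if e ∈ B then χ (Sum.inl e) else 0) else 0)) := by
      intro e
      change ((if G.t e ∈ X then χ (Sum.inl e) else 0) -
        (if G.h e ∈ X then χ (Sum.inl e) else 0)) = _
      by_cases a : e ∈ M
      · have : e ∉ B := Finset.disjoint_left.1 hMB a
        simp [a, this]
      · by_cases b : e ∈ B
        · simp [a, b]
        · have := (hχ1 (Sum.inl e)).2 (by simp [F', a, b])
          simp [a, b, this]
    rw [Finset.sum_congr rfl (fun e _ => hsplit e), Finset.sum_add_distrib, ← net_sum,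
      ← net_sum] at h0
    have hbd := G.abs_net_le (fun e => if e ∈ B then χ (Sum.inl e) else 0) B (by
      intro e he
      simp only [he, if_true]
      rcases (hχ1 (Sum.inl e)).1 (by simp [F', he]) with h | h <;> rw [h] <;> simp) (by
      intro e he
      simp [he]) X
    have hN : |∑ u, ((if t' (Sum.inr u) ∈ X then χ (Sum.inr u) else 0) -
        (if h' (Sum.inr u) ∈ X then χ (Sum.inr u) else 0))| ≤ sep U τ X := by
      rw [← sum_half U τ hτ S hSU hS X]
      have h2 : (((S.filter (fun u => ¬ (u ∈ X ↔ τ u ∈ X))).card : ℕ) : ℤ) =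
          ∑ u, if u ∈ S ∧ ¬ (u ∈ X ↔ τ u ∈ X) then 1 else 0 := by
        simp only [Finset.sum_boole]
        congr 2
        ext e; simp
      rw [h2]
      refine (Finset.abs_sum_le_sum_abs _ _).trans (Finset.sum_le_sum fun u _ => ?_)
      change |(if u ∈ X then χ (Sum.inr u) else 0) -
        (if τ u ∈ X then χ (Sum.inr u) else 0)| ≤ _
      by_cases hu : u ∈ S
      · have := (hχ1 (Sum.inr u)).1 (by simp [F', hu])
        rcases this with h | h <;> by_cases a : u ∈ X <;> by_cases b : τ u ∈ X <;>
          simp [a, b, hu, h]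
      · have := (hχ1 (Sum.inr u)).2 (by simp [F', hu])
        simp [hu, this]
    rw [abs_le] at hbd hN ⊢
    constructor <;> linarith [hbd.1, hbd.2, hN.1, hN.2]

/-- **Main theorem.** -/
theorem exists_pair (F : Finset E) (hF : ∀ v, Even (G.deg F v)) (U : Finset V) (hU : Par G F U)
    (τ : V → V) (hτ : ∀ u ∈ U, τ u ∈ U ∧ τ (τ u) = u ∧ τ u ≠ u)
    (hq : ∀ X : Finset V, (G.cut X ∩ F).card < 2 * sep U τ X →
      5 * sep U τ X ≤ (G.cut X).card + 1) :
    ∃ φ₂ φ₄ : E → ℤ, G.IsHalfFlowPair φ₂ φ₄ ∧ ∀ e, φ₂ e ≠ 0 ↔ e ∈ F := by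
  classical
  obtain ⟨B, hBF, hB⟩ := exists_B G F hF U hU
  obtain ⟨ψ, hψ1, hψ2⟩ := exists_orientation G Fᶜ B
    (Finset.disjoint_of_subset_right hBF disjoint_compl_left) U hB τ hτ
  obtain ⟨φ₂, h21, h22⟩ := eulerian G.t G.h F (fun v => hF v)
  obtain ⟨φ₄, h41, h42⟩ := hoffman G.t G.h
    (fun e => if e ∈ F then -3 else if ψ e = 1 then 2 else -3)
    (fun e => if e ∈ F then 3 else if ψ e = 1 then 3 else -2)
    (fun _ => 0) (fun e => by split_ifs <;> simp) (by simp) (by
      intro X
      -- twice the Hoffman function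
      have hff : 2 * ff G.t G.h (fun e => if e ∈ F then -3 else if ψ e = 1 then 2 else -3)
          (fun e => if e ∈ F then 3 else if ψ e = 1 then 3 else -2) (fun _ => 0) X =
          6 * (G.cut X ∩ F).card + (G.cut X ∩ Fᶜ).card -
            5 * ∑ v ∈ X, net G.t G.h ψ v := by
        unfold ff
        rw [net_sum]
        have e1 : ((G.cut X ∩ F).card : ℤ) = ∑ e, if e ∈ G.cut X ∩ F then 1 else 0 := by
          simp only [Finset.sum_boole]
          congr 2
          ext e; simp
        have e2 : ((G.cut X ∩ Fᶜ).card : ℤ) = ∑ e, if e ∈ G.cut X ∩ Fᶜ then 1 else 0 := by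
          simp only [Finset.sum_boole]
          congr 2
          ext e; simp
        rw [e1, e2, Finset.mul_sum, Finset.mul_sum, ← Finset.sum_add_distrib,
          ← Finset.sum_sub_distrib]
        rw [Finset.sum_const_zero, zero_add, Finset.mul_sum]
        refine Finset.sum_congr rfl fun e _ => ?_
        unfold ce
        by_cases he : e ∈ F
        · have h0 : ψ e = 0 := (hψ1 e).2 (by simpa using he)
          by_cases a : G.t e ∈ X <;> by_cases b : G.h e ∈ X <;> simp [a, b, he, cut, h0]
        · rcases (hψ1 e).1 (by simpa using he) with h | h <;>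
          by_cases a : G.t e ∈ X <;> by_cases b : G.h e ∈ X <;> simp [a, b, he, cut, h]
      have hm := G.abs_net_le ψ Fᶜ (fun e he => by
        rcases (hψ1 e).1 he with h | h <;> rw [h] <;> simp) (fun e he => (hψ1 e).2 he) X
      have hpar := net_parity G ψ Fᶜ (fun e he => (hψ1 e).1 he) (fun e he => (hψ1 e).2 he) X
      have hb' := hψ2 X
      have hbf : (G.cut X ∩ B).card ≤ (G.cut X ∩ F).card :=
        Finset.card_le_card (Finset.inter_subset_inter_left hBF)
      have hhs := G.handshake F X
      obtain ⟨k, hk⟩ : Even (∑ v ∈ X, G.deg F v) := Finset.even_sum _ fun v _ => hF v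
      rw [hk] at hhs
      have hcard := cut_card G F X
      have hqX := hq X
      rw [abs_le] at hm hb'
      by_cases hcase : (G.cut X ∩ F).card < 2 * sep U τ X
      · have := hqX hcase
        omega
      · omega)
  refine ⟨φ₂, φ₄, ⟨⟨fun e => ?_, G.isFlow_of_net h22⟩, ⟨fun e => ?_, G.isFlow_of_net h42⟩,
    fun e he => ?_⟩, fun e => ?_⟩
  · by_cases he : e ∈ F
    · rcases (h21 e).1 he with h | h <;> rw [h] <;> simp
    · rw [(h21 e).2 he]; simp
  · have h1 := h41 e
    rw [abs_le]
    push_cast
    split_ifs at h1 <;> constructor <;> omega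
  · have he' : e ∉ F := by
      intro heF
      rcases (h21 e).1 heF with h | h <;> rw [h] at he <;> simp at he
    have h1 := h41 e
    rw [if_neg he', if_neg he'] at h1
    rw [le_abs]
    split_ifs at h1
    · left; exact h1.1
    · right; omega
  · constructor
    · intro h
      by_contra he
      exact h ((h21 e).2 he)
    · intro he
      rcases (h21 e).1 he with h | h <;> rw [h] <;> simp

/-- the parity of the number of the vertices of odd degree in a union of components -/
theorem par_cut (F : Finset E) (hF : ∀ v, Even (G.deg F v)) (U : Finset V) (hU : Par G F U)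
    (X : Finset V) (hX : G.cut X ∩ F = ∅) : Even ((G.cut X).card + (U.filter (· ∈ X)).card) := by
  classical
  obtain ⟨B, hBF, hB⟩ := exists_B G F hF U hU
  have h1 : Even (∑ v ∈ X, (G.deg Fᶜ v + G.deg B v + (if v ∈ U then 1 else 0))) :=
    Finset.even_sum _ fun v _ => hB v
  rw [Finset.sum_add_distrib, Finset.sum_add_distrib, G.handshake, G.handshake] at h1
  have h2 : G.cut X ∩ B = ∅ := by
    rw [← Finset.subset_empty, ← hX]
    exact Finset.inter_subset_inter_left hBF
  have h3 : G.cut X ∩ Fᶜ = G.cut X := by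
    rw [Finset.inter_eq_left]
    intro e he
    rw [Finset.mem_compl]
    intro h
    have : e ∈ G.cut X ∩ F := Finset.mem_inter.2 ⟨he, h⟩
    rw [hX] at this
    exact Finset.notMem_empty _ this
  have h4 : ∑ v ∈ X, (if v ∈ U then 1 else 0) = (U.filter (· ∈ X)).card := by
    rw [Finset.sum_boole]
    simp only [Nat.cast_id]
    congr 1
    ext v
    simp [and_comm]
  rw [h2, h3, h4, Finset.card_empty] at h1
  obtain ⟨k, hk⟩ := h1
  rw [Nat.even_iff]
  omega

/-- The number of the components of `(V, F)` which contain an odd number of vertices of odd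
degree. -/
noncomputable def oddParts (F : Finset E) : ℕ :=
  Set.ncard {c : (G.sub F).ConnectedComponent |
    Odd (Set.ncard {v | v ∈ c.supp ∧ Odd (G.deg univ v)})}

theorem par_empty (F : Finset E) (h : ∀ c : (G.sub F).ConnectedComponent,
    ¬ Odd (Set.ncard {v | v ∈ c.supp ∧ Odd (G.deg univ v)})) : Par G F ∅ := by
  intro c
  have h1 := h c
  rw [Nat.not_odd_iff_even] at h1
  convert h1 using 5
  simp

/-- two parts -/
theorem two_parts (hb : ∀ X : Finset V, (G.cut X).card ≠ 1) (F : Finset E)
    (hF : ∀ v, Even (G.deg F v)) (h2 : oddParts G F ≤ 2)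
    (h3 : ∀ X : Finset V, (G.cut X).card = 3 → (G.cut X ∩ F).Nonempty) :
    ∃ φ₂ φ₄ : E → ℤ, G.IsHalfFlowPair φ₂ φ₄ ∧ ∀ e, φ₂ e ≠ 0 ↔ e ∈ F := by
  classical
  by_cases h0 : ∀ c : (G.sub F).ConnectedComponent,
      ¬ Odd (Set.ncard {v | v ∈ c.supp ∧ Odd (G.deg univ v)})
  · refine exists_pair G F hF ∅ (par_empty G F h0) id (by simp) fun X hX => ?_
    simp [sep] at hX
  push Not at h0
  obtain ⟨c1, hc1⟩ := h0
  have hne : ∀ c : (G.sub F).ConnectedComponent,
      Odd (Set.ncard {v | v ∈ c.supp ∧ Odd (G.deg univ v)}) → ∃ u, u ∈ c.supp := by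
    intro c hc
    by_contra hcon
    push Not at hcon
    have h4 : {v | v ∈ c.supp ∧ Odd (G.deg univ v)} = ∅ := by
      ext v
      simp only [Set.mem_ofPred_eq, Set.mem_empty_iff_false, iff_false]
      exact fun h => hcon v h.1
    rw [h4, Set.ncard_empty] at hc
    exact (by decide : ¬ Odd 0) hc
  obtain ⟨u1, hu1⟩ := hne c1 hc1
  -- adding or removing one vertex
  have hflip : ∀ (c : (G.sub F).ConnectedComponent) (U : Finset V) (u : V), u ∈ c.supp →
      (∀ w ∈ U, w ∈ c.supp → w = u) → u ∈ U →
      Odd (Set.ncard {v | v ∈ c.supp ∧ Odd (G.deg univ v)}) →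
      Even (Set.ncard {v | v ∈ c.supp ∧ (Odd (G.deg univ v) ↔ v ∉ U)}) := by
    intro c U u huc hU huU hc
    set A : Finset V := univ.filter (fun v => v ∈ c.supp ∧ Odd (G.deg univ v)) with hA
    have e1 : {v | v ∈ c.supp ∧ Odd (G.deg univ v)} = (A : Set V) := by
      ext v; simp [hA]
    rw [e1, Set.ncard_coe_finset] at hc
    by_cases huo : Odd (G.deg univ u)
    · have e2 : {v | v ∈ c.supp ∧ (Odd (G.deg univ v) ↔ v ∉ U)} = ((A.erase u : Finset V) : Set V) := by
        ext v
        simp only [Set.mem_ofPred_eq, Finset.coe_erase, Set.mem_sdiff, Set.mem_singleton_iff, hA,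
          Finset.coe_filter, Finset.mem_univ, true_and]
        constructor
        · rintro ⟨h4, h5⟩
          have h6 : v ≠ u := by
            rintro rfl
            exact (h5.1 huo) huU
          exact ⟨⟨h4, h5.2 fun h7 => h6 (hU v h7 h4)⟩, h6⟩
        · rintro ⟨⟨h4, h5⟩, h6⟩
          exact ⟨h4, fun _ h7 => h6 (hU v h7 h4), fun _ => h5⟩
      rw [e2, Set.ncard_coe_finset, Finset.card_erase_of_mem (by
        rw [hA, Finset.mem_filter]
        exact ⟨mem_univ _, huc, huo⟩)]
      obtain ⟨k, hk⟩ := hc
      exact ⟨k, by omega⟩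
    · have e2 : {v | v ∈ c.supp ∧ (Odd (G.deg univ v) ↔ v ∉ U)} = ((insert u A : Finset V) : Set V) := by
        ext v
        simp only [Set.mem_ofPred_eq, Finset.coe_insert, Set.mem_insert_iff, hA,
          Finset.coe_filter, Finset.mem_univ, true_and]
        constructor
        · rintro ⟨h4, h5⟩
          by_cases h6 : v = u
          · exact Or.inl h6
          · exact Or.inr ⟨h4, h5.2 fun h7 => h6 (hU v h7 h4)⟩
        · rintro (rfl | ⟨h4, h5⟩)
          · exact ⟨huc, fun h => absurd h huo, fun h => absurd huU h⟩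
          · refine ⟨h4, fun _ h7 => ?_, fun _ => h5⟩
            have := hU v h7 h4
            rw [this] at h5
            exact huo h5
      rw [e2, Set.ncard_coe_finset, Finset.card_insert_of_notMem (by simp [hA, huo])]
      obtain ⟨k, hk⟩ := hc
      exact ⟨k + 1, by omega⟩
  have hstay : ∀ (c : (G.sub F).ConnectedComponent) (U : Finset V),
      (∀ w ∈ U, w ∉ c.supp) → ¬ Odd (Set.ncard {v | v ∈ c.supp ∧ Odd (G.deg univ v)}) →
      Even (Set.ncard {v | v ∈ c.supp ∧ (Odd (G.deg univ v) ↔ v ∉ U)}) := by
    intro c U hU hc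
    rw [Nat.not_odd_iff_even] at hc
    convert hc using 2
    ext v
    simp only [Set.mem_ofPred_eq]
    refine and_congr_right fun h4 => ?_
    have : v ∉ U := fun h5 => hU v h5 h4
    simp [this]
  by_cases hc2 : ∃ c2, c2 ≠ c1 ∧ Odd (Set.ncard {v | v ∈ c2.supp ∧ Odd (G.deg univ v)})
  swap
  · -- a single odd component is impossible
    exfalso
    push Not at hc2
    have hU : Par G F {u1} := by
      intro c
      by_cases hc : c = c1
      · subst hc
        exact hflip c {u1} u1 hu1 (fun w hw _ => Finset.mem_singleton.1 hw)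
          (Finset.mem_singleton_self _) hc1
      · refine hstay c {u1} (fun w hw hwc => ?_) (hc2 c hc)
        rw [Finset.mem_singleton] at hw
        subst hw
        rw [SimpleGraph.ConnectedComponent.mem_supp_iff] at hwc hu1
        exact hc (hwc.symm.trans hu1)
    have h5 := par_cut G F hF {u1} hU univ (by
      have : G.cut univ = ∅ := by simp [cut]
      rw [this, Finset.empty_inter])
    have h6 : G.cut univ = ∅ := by simp [cut]
    rw [h6] at h5
    simp at h5
  obtain ⟨c2, hc21, hc2⟩ := hc2
  obtain ⟨u2, hu2⟩ := hne c2 hc2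
  have hu12 : u1 ≠ u2 := by
    rintro rfl
    rw [SimpleGraph.ConnectedComponent.mem_supp_iff] at hu1 hu2
    exact hc21 (hu2.symm.trans hu1)
  have hother : ∀ c : (G.sub F).ConnectedComponent, c ≠ c1 → c ≠ c2 →
      ¬ Odd (Set.ncard {v | v ∈ c.supp ∧ Odd (G.deg univ v)}) := by
    intro c h4 h5 h6
    have h7 : ({c1, c2, c} : Finset (G.sub F).ConnectedComponent).card = 3 := by
      rw [Finset.card_eq_three]
      exact ⟨c1, c2, c, hc21.symm, h4.symm, h5.symm, rfl⟩
    have h8 : (({c1, c2, c} : Finset (G.sub F).ConnectedComponent) :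
        Set (G.sub F).ConnectedComponent).ncard ≤
        oddParts G F := by
      unfold oddParts
      apply Set.ncard_le_ncard _ (Set.toFinite _)
      intro d hd
      simp only [Finset.coe_insert, Finset.coe_singleton, Set.mem_insert_iff,
        Set.mem_singleton_iff] at hd
      rcases hd with rfl | rfl | rfl
      · exact hc1
      · exact hc2
      · exact h6
    rw [Set.ncard_coe_finset, h7] at h8
    omega
  have hU : Par G F {u1, u2} := by
    intro c
    by_cases h4 : c = c1
    · subst h4
      refine hflip c {u1, u2} u1 hu1 (fun w hw hwc => ?_) (by simp) hc1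
      rw [Finset.mem_insert, Finset.mem_singleton] at hw
      rcases hw with rfl | rfl
      · rfl
      · rw [SimpleGraph.ConnectedComponent.mem_supp_iff] at hwc hu2
        exact absurd (hu2.symm.trans hwc) hc21
    · by_cases h5 : c = c2
      · subst h5
        refine hflip c {u1, u2} u2 hu2 (fun w hw hwc => ?_) (by simp) hc2
        rw [Finset.mem_insert, Finset.mem_singleton] at hw
        rcases hw with rfl | rfl
        · rw [SimpleGraph.ConnectedComponent.mem_supp_iff] at hwc hu1
          exact absurd (hwc.symm.trans hu1) hc21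
        · rfl
      · refine hstay c {u1, u2} (fun w hw hwc => ?_) (hother c h4 h5)
        rw [Finset.mem_insert, Finset.mem_singleton] at hw
        rcases hw with rfl | rfl
        · rw [SimpleGraph.ConnectedComponent.mem_supp_iff] at hwc hu1
          exact h4 (hwc.symm.trans hu1)
        · rw [SimpleGraph.ConnectedComponent.mem_supp_iff] at hwc hu2
          exact h5 (hwc.symm.trans hu2)
  let τ : V → V := fun v => if v = u1 then u2 else u1
  have t1 : τ u1 = u2 := if_pos rfl
  have t2 : τ u2 = u1 := if_neg hu12.symm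
  refine exists_pair G F hF {u1, u2} hU τ (fun u hu => ?_) fun X hX => ?_
  · rw [Finset.mem_insert, Finset.mem_singleton] at hu
    rcases hu with rfl | rfl
    · rw [t1, t2]
      exact ⟨by simp, rfl, hu12.symm⟩
    · rw [t2, t1]
      exact ⟨by simp, rfl, hu12⟩
  · -- the cut condition
    have hsep : sep {u1, u2} τ X = if (u1 ∈ X ↔ u2 ∈ X) then 0 else 1 := by
      unfold sep
      rw [Finset.filter_insert, Finset.filter_singleton, t1, t2]
      by_cases a : u1 ∈ X <;> by_cases b : u2 ∈ X <;> simp [a, b]
    rw [hsep] at hX ⊢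
    split_ifs at hX ⊢ with h4
    · omega
    have hev : Even (G.cut X ∩ F).card := by
      have hhs := G.handshake F X
      obtain ⟨k, hk⟩ : Even (∑ v ∈ X, G.deg F v) := Finset.even_sum _ fun v _ => hF v
      rw [hk] at hhs
      rw [Nat.even_iff]
      omega
    have h5 : G.cut X ∩ F = ∅ := by
      rw [← Finset.card_eq_zero]
      obtain ⟨k, hk⟩ := hev
      omega
    have h6 := par_cut G F hF {u1, u2} hU X h5
    have h7 : (({u1, u2} : Finset V).filter (· ∈ X)).card = 1 := by
      rw [Finset.filter_insert, Finset.filter_singleton]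
      by_cases a : u1 ∈ X <;> by_cases b : u2 ∈ X <;> simp [a, b] at h4 ⊢
    rw [h7] at h6
    have h8 := hb X
    have h9 : (G.cut X).card ≠ 3 := by
      intro h9
      have := h3 X h9
      rw [h5] at this
      exact Finset.not_nonempty_empty this
    obtain ⟨k, hk⟩ := h6
    omega

/-- the condition on the cuts with three edges is necessary -/
theorem meets_of_pair {F : Finset E} {φ₂ φ₄ : E → ℤ} (hp : G.IsHalfFlowPair φ₂ φ₄)
    (hs : ∀ e, φ₂ e ≠ 0 ↔ e ∈ F) (X : Finset V) (hX : (G.cut X).card = 3) :
    (G.cut X ∩ F).Nonempty := by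
  by_contra hcon
  rw [Finset.not_nonempty_iff_eq_empty] at hcon
  have h0 : ∀ e ∈ G.cut X, φ₂ e = 0 := by
    intro e he
    by_contra h
    have : e ∈ G.cut X ∩ F := Finset.mem_inter.2 ⟨he, (hs e).1 h⟩
    rw [hcon] at this
    exact Finset.notMem_empty _ this
  have h1 : ∑ v ∈ X, net G.t G.h φ₄ v = 0 := by
    refine Finset.sum_eq_zero fun v _ => ?_
    unfold net
    rw [hp.2.1.2 v, sub_self]
  rw [net_sum] at h1
  have h2 : ∑ e, ((if G.t e ∈ X then φ₄ e else 0) - (if G.h e ∈ X then φ₄ e else 0)) =
      ∑ e ∈ G.cut X, (if G.t e ∈ X then φ₄ e else - φ₄ e) := by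
    unfold cut
    rw [Finset.sum_filter]
    refine Finset.sum_congr rfl fun e _ => ?_
    by_cases a : G.t e ∈ X <;> by_cases b : G.h e ∈ X <;> simp [a, b]
  rw [h2] at h1
  obtain ⟨a, b, c, hab, hac, hbc, habc⟩ := Finset.card_eq_three.1 hX
  rw [habc, Finset.sum_insert (by simp [hab, hac]), Finset.sum_pair hbc] at h1
  have key : ∀ e ∈ G.cut X, (if G.t e ∈ X then φ₄ e else - φ₄ e) = 2 ∨
      (if G.t e ∈ X then φ₄ e else - φ₄ e) = 3 ∨
      (if G.t e ∈ X then φ₄ e else - φ₄ e) = -2 ∨
      (if G.t e ∈ X then φ₄ e else - φ₄ e) = -3 := by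
    intro e he
    have h5 := hp.2.2 e (h0 e he)
    have h6 := hp.2.1.1 e
    push_cast at h6
    rcases abs_cases (φ₄ e) with ⟨h7, _⟩ | ⟨h7, _⟩ <;> split_ifs <;> omega
  have ka := key a (by rw [habc]; simp)
  have kb := key b (by rw [habc]; simp)
  have kc := key c (by rw [habc]; simp)
  omega

end Pool.Agent.X42.HalfPair
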