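import Pool.Agent.TH499.NF.Main
import Pool.Agent.TH362.TF.Main
import Pool.Agent.TH362.TF.Contr

/-! `1/2`-flow-pairs of graphs with at most sixteen vertices of odd degree. -/

set_option autoImplicit false
set_option linter.unusedSectionVars false

namespace Pool.Agent.X42.HalfPet

open Finset Pool.Agent.H160R2.HF Pool.Agent.H179R3.HF Pool.Agent.TH499.NF
open Pool.Agent.TH362.TF (NZ N1 PQ IsPQ padj nb Joins)

variable {V E : Type} [Fintype V] [DecidableEq V] [Fintype E] [DecidableEq E]

/-- Undoing the contraction of classes with three boundary edges which have a nowhere-zero 4-flow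
when their complement is contracted. -/
theorem lift (G : OrGraph V E) (ρ : V → V) (hρ : ∀ x, ρ (ρ x) = ρ x)
    (hfib : ∀ y, (∀ x, ρ x = y → x = y) ∨
      ((G.cut (univ.filter (fun x => ρ x = y))).card = 3 ∧ Col G (univ.filter (fun x => ρ x = y))))
    (h : ∃ φ₂ φ₄ : E → ℤ, (mp G ρ).IsHalfFlowPair φ₂ φ₄) :
    ∃ φ₂ φ₄ : E → ℤ, G.IsHalfFlowPair φ₂ φ₄ := by
  classical
  have key : ∀ K : Finset V, ∃ φ₂ φ₄ : E → ℤ,
      (mp G (fun x => if ρ x ∈ K then x else ρ x)).IsHalfFlowPair φ₂ φ₄ := by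
    intro K
    induction K using Finset.induction_on with
    | empty => simpa using h
    | insert y K' hy ih =>
      by_cases htriv : ∀ x, ρ x = y → x = y
      · have e1 : (fun x => if ρ x ∈ insert y K' then x else ρ x) =
            fun x => if ρ x ∈ K' then x else ρ x := by
          funext x
          by_cases h1 : ρ x = y
          · have h2 := htriv x h1
            rw [if_pos (Finset.mem_insert.2 (Or.inl h1)), if_neg (by rw [h1]; exact hy), h1, h2]
          · have h3 : ρ x ∈ insert y K' ↔ ρ x ∈ K' := by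
              rw [Finset.mem_insert]
              exact ⟨fun h => h.resolve_left h1, Or.inr⟩
            simp only [h3]
        rw [e1]
        exact ih
      · obtain ⟨hc3, hcol⟩ := (hfib y).resolve_left htriv
        set Y : Finset V := univ.filter (fun x => ρ x = y) with hY
        set f : V → V := fun x => if ρ x ∈ insert y K' then x else ρ x with hf
        set X : Finset V := Yᶜ with hX
        have hρf : ∀ x, ρ (f x) = ρ x := by
          intro x
          rw [hf]
          show ρ (if ρ x ∈ insert y K' then x else ρ x) = ρ x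
          split_ifs
          · rfl
          · exact hρ x
        have hmemY : ∀ x, x ∈ Y ↔ ρ x = y := fun x => by rw [hY]; simp
        have hpre : univ.filter (fun x => f x ∈ Y) = Y := by
          ext x
          rw [mem_filter, hmemY, hmemY, hρf]
          simp
        have hpreX : univ.filter (fun x => f x ∈ X) = X := by
          ext x
          rw [mem_filter, hX, mem_compl, mem_compl, hmemY, hmemY, hρf]
          simp
        have hcutX : ((mp G f).cut X).card = 3 := by
          rw [cut_mp, hpreX, hX, compl_cut]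
          exact hc3
        obtain ⟨e, he⟩ : (G.cut Y).Nonempty := Finset.card_pos.1 (by omega)
        rw [OrGraph.cut, mem_filter] at he
        obtain ⟨p, hp, q, hq⟩ : ∃ p, p ∈ Y ∧ ∃ q, q ∉ Y := by
          by_cases h1 : G.t e ∈ Y
          · exact ⟨_, h1, G.h e, fun h2 => he.2 ⟨fun _ => h2, fun _ => h1⟩⟩
          · have h2 : G.h e ∈ Y := by
              by_contra h2
              exact he.2 ⟨fun c => absurd c h1, fun c => absurd c h2⟩
            exact ⟨_, h2, _, h1⟩
        have hyY : y ∈ Y := by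
          rw [hmemY] at hp ⊢
          rw [← hp]
          exact hρ p
        have e2 : mp (mp G f) (fun x => if x ∈ X then x else y) =
            mp G (fun x => if ρ x ∈ K' then x else ρ x) := by
          have e3 : (fun x => if f x ∈ X then f x else y) =
              fun x => if ρ x ∈ K' then x else ρ x := by
            funext x
            have h1 : f x ∈ X ↔ ¬ ρ x = y := by
              rw [hX, mem_compl, hmemY, hρf]
            by_cases h2 : ρ x = y
            · rw [if_neg (fun h => (h1.1 h) h2), if_neg (by rw [h2]; exact hy), h2]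
            · rw [if_pos (h1.2 h2)]
              have h3 : ρ x ∈ insert y K' ↔ ρ x ∈ K' := by
                rw [Finset.mem_insert]
                exact ⟨fun h => h.resolve_left h2, Or.inr⟩
              show (if ρ x ∈ insert y K' then x else ρ x) = _
              simp only [h3]
          unfold mp
          congr 1
          · funext e
            exact congrFun e3 (G.t e)
          · funext e
            exact congrFun e3 (G.h e)
        obtain ⟨ψ₂, ψ₄, hψ⟩ := ih
        refine glue (G := mp G f) (X := X) (a := y) (b := q) hcutX (by rw [hX, mem_compl]; simpa using hyY)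
          (by rw [hX, mem_compl]; exact hq) ?_ (φ₂' := ψ₂) (φ₄' := ψ₄) (by rw [e2]; exact hψ)
        apply Col.mp
        have e4 : univ.filter (fun x => f x ∈ Xᶜ) = Y := by
          rw [hX, compl_compl]
          exact hpre
        rw [e4]
        exact hcol
  obtain ⟨φ₂, φ₄, h1⟩ := key univ
  refine ⟨φ₂, φ₄, ?_⟩
  have e5 : mp G (fun x => if ρ x ∈ (univ : Finset V) then x else ρ x) = G := by
    simp [mp]
  rw [e5] at h1
  exact h1

theorem exists_flow {G : OrGraph V E} (h : NZ G.t G.h univ) :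
    ∃ f : E → K4, (∀ e, f e ≠ 0) ∧ ∀ x, Pool.Agent.TH499.NF.bd G f x = 0 := by
  obtain ⟨φ, h1, h2⟩ := h
  exact ⟨φ, fun e => h1 e (mem_univ e), fun x => by rw [bd_eq]; exact h2 x⟩

theorem n1_of {G : OrGraph V E} (hb : ∀ X : Finset V, (G.cut X).card ≠ 1) : N1 G.t G.h univ := by
  intro x
  have h1 : Pool.Agent.TH362.TF.cut G.t G.h univ x = G.cut (univ.filter (fun v => x v = true)) := by
    unfold Pool.Agent.TH362.TF.cut OrGraph.cut
    refine filter_congr fun e _ => ?_
    simp only [mem_filter, mem_univ, true_and]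
    cases x (G.t e) <;> cases x (G.h e) <;> simp
  rw [h1]
  exact hb _

theorem odd_eq (G : OrGraph V E) :
    Pool.Agent.TH362.TF.odd G.t G.h univ = univ.filter (fun v => Odd (G.deg univ v)) := by
  unfold Pool.Agent.TH362.TF.odd
  refine filter_congr fun v _ => ?_
  have : Pool.Agent.TH362.TF.deg G.t G.h univ v = G.deg univ v := by
    unfold Pool.Agent.TH362.TF.deg OrGraph.deg
    rw [Finset.sum_add_distrib, Finset.card_filter, Finset.card_filter]
  rw [this]

/-- few vertices of odd degree in a set with three boundary edges -/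
theorem col_class {G : OrGraph V E} (hb : ∀ X : Finset V, (G.cut X).card ≠ 1) (Y : Finset V)
    (hY : (G.cut Y).card = 3)
    (hodd : ((Pool.Agent.TH362.TF.odd G.t G.h univ).filter (fun v => v ∈ Y)).card ≤ 8) :
    Col G Y := by
  classical
  obtain ⟨e, he⟩ : (G.cut Y).Nonempty := Finset.card_pos.1 (by omega)
  rw [OrGraph.cut, mem_filter] at he
  obtain ⟨a, ha⟩ : ∃ a, a ∉ Y := by
    by_cases h1 : G.t e ∈ Y
    · exact ⟨G.h e, fun h2 => he.2 ⟨fun _ => h2, fun _ => h1⟩⟩
    · exact ⟨_, h1⟩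
  set f : V → V := fun x => if x ∈ Y then x else a with hf
  have hfib : ∀ y ∈ Y, univ.filter (fun x => f x = y) = {y} := by
    intro y hy
    ext x
    simp only [hf, mem_filter, mem_univ, true_and, mem_singleton]
    constructor
    · intro h
      split_ifs at h with h1
      · exact h
      · exact absurd (h ▸ hy) ha
    · rintro rfl
      rw [if_pos hy]
  have h1 : N1 (mp G f).t (mp G f).h univ := n1_of fun X => by rw [cut_mp]; exact hb _
  have h2 : Pool.Agent.TH362.TF.odd (mp G f).t (mp G f).h univ ⊆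
      (Pool.Agent.TH362.TF.odd G.t G.h univ).image f :=
    Pool.Agent.TH362.TF.quot_odd (s := G.t) (t := G.h) (S := univ) (S' := univ) (f := f)
      (Finset.Subset.refl _) (fun e _ h => absurd (mem_univ e) h)
  have h3 : (Pool.Agent.TH362.TF.odd (mp G f).t (mp G f).h univ).card ≤ 9 := by
    refine (card_le_card h2).trans ?_
    have h4 : (Pool.Agent.TH362.TF.odd G.t G.h univ).image f ⊆
        insert a ((Pool.Agent.TH362.TF.odd G.t G.h univ).filter (fun v => v ∈ Y)) := by
      intro x hx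
      obtain ⟨z, hz, rfl⟩ := mem_image.1 hx
      by_cases hzY : z ∈ Y
      · have : f z = z := if_pos hzY
        rw [this]
        exact mem_insert_of_mem (mem_filter.2 ⟨hz, hzY⟩)
      · have : f z = a := if_neg hzY
        rw [this]
        exact mem_insert_self _ _
    exact (card_le_card h4).trans ((card_insert_le _ _).trans (by omega))
  rcases Pool.Agent.TH362.TF.main16 _ _ _ h1 (by omega) with h5 | h5
  · obtain ⟨g, hg1, hg2⟩ := exists_flow h5
    refine ⟨g, fun x hx => ?_, fun e _ => hg1 e⟩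
    have h6 := hg2 x
    rw [bd_mp, hfib x hx, sum_singleton] at h6
    exact h6
  · have := Pool.Agent.TH362.TF.pq_card h5
    omega

/-- a nowhere-zero flow gives a pair -/
theorem pair_of_nz {G : OrGraph V E} (hb : ∀ X : Finset V, (G.cut X).card ≠ 1)
    (h : NZ G.t G.h univ) : ∃ φ₂ φ₄ : E → ℤ, G.IsHalfFlowPair φ₂ φ₄ := by
  obtain ⟨f, hf1, hf2⟩ := exists_flow h
  rcases isEmpty_or_nonempty V with hV | ⟨⟨u⟩⟩
  · have hE : IsEmpty E := ⟨fun e => hV.elim (G.t e)⟩
    exact ⟨fun _ => 0, fun _ => 0, ⟨fun e => hE.elim e, fun v => hV.elim v⟩,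
      ⟨fun e => hE.elim e, fun v => hV.elim v⟩, fun e => hE.elim e⟩
  · have hc : ((1, 1) : K4) ≠ 0 := by decide
    have hN : Nr G f u u (1, 1) := ⟨hf1, hc, fun x => by
      rw [hf2 x]
      split_ifs
      · decide
      · decide⟩
    exact pair_of hb hN fun X hX => ne_of_zero hc hX (Finset.sum_eq_zero fun x _ => hf2 x)

/-! ### The Petersen graph -/

/-- the values of a 2-flow -/
def p2 : Fin 10 → Fin 10 → ℤ := ![![0, 1, 0, 0, -1, 0, 0, 0, 0, 0], ![-1, 0, 1, 0, 0, 0, 0, 0, 0, 0],
  ![0, -1, 0, 1, 0, 0, 0, 0, 0, 0], ![0, 0, -1, 0, 1, 0, 0, 0, 0, 0],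
  ![1, 0, 0, -1, 0, 0, 0, 0, 0, 0], ![0, 0, 0, 0, 0, 0, 0, 1, -1, 0],
  ![0, 0, 0, 0, 0, 0, 0, 0, 1, -1], ![0, 0, 0, 0, 0, -1, 0, 0, 0, 1],
  ![0, 0, 0, 0, 0, 1, -1, 0, 0, 0], ![0, 0, 0, 0, 0, 0, 1, -1, 0, 0]]

/-- the values of a 4-flow -/
def p4 : Fin 10 → Fin 10 → ℤ := ![![0, 1, 0, 0, -3, 2, 0, 0, 0, 0], ![-1, 0, -1, 0, 0, 0, 2, 0, 0, 0],
  ![0, 1, 0, -3, 0, 0, 0, 2, 0, 0], ![0, 0, 3, 0, 0, 0, 0, 0, -3, 0],
  ![3, 0, 0, 0, 0, 0, 0, 0, 0, -3], ![-2, 0, 0, 0, 0, 0, 0, -1, 3, 0],
  ![0, -2, 0, 0, 0, 0, 0, 0, 0, 2], ![0, 0, -2, 0, 0, 1, 0, 0, 0, 1],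
  ![0, 0, 0, 3, 0, -3, 0, 0, 0, 0], ![0, 0, 0, 0, 3, 0, -2, -1, 0, 0]]

theorem p2_anti : ∀ k l, p2 k l = - p2 l k := by decide +kernel
theorem p4_anti : ∀ k l, p4 k l = - p4 l k := by decide +kernel
theorem p2_sum : ∀ k, p2 k (nb k 0) + p2 k (nb k 1) + p2 k (nb k 2) = 0 := by decide +kernel
theorem p4_sum : ∀ k, p4 k (nb k 0) + p4 k (nb k 1) + p4 k (nb k 2) = 0 := by decide +kernel
theorem p2_le : ∀ k l, -1 ≤ p2 k l ∧ p2 k l ≤ 1 := by decide +kernel
theorem p4_le : ∀ k l, -3 ≤ p4 k l ∧ p4 k l ≤ 3 := by decide +kernel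
theorem p_ok : ∀ k l, padj k l = true → p2 k l = 0 → 2 ≤ p4 k l ∨ p4 k l ≤ -2 := by
  decide +kernel

/-- the net outflow of a class -/
theorem class_sum (G : OrGraph V E) (κ : V → Fin 10) (h : IsPQ G.t G.h univ κ)
    (p : Fin 10 → Fin 10 → ℤ) (hp : ∀ k l, p k l = - p l k) (c : ℤ) (k : Fin 10) :
    ∑ e, ((if κ (G.t e) = k then
        (if κ (G.t e) = κ (G.h e) then c else p (κ (G.t e)) (κ (G.h e))) else 0) -
      (if κ (G.h e) = k then
        (if κ (G.t e) = κ (G.h e) then c else p (κ (G.t e)) (κ (G.h e))) else 0)) =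
      p k (nb k 0) + p k (nb k 1) + p k (nb k 2) := by
  classical
  obtain ⟨e, he, hall⟩ := Pool.Agent.TH362.TF.Contr.struct G.t G.h κ h k
  have hinj : Function.Injective e := by
    intro i j hij
    have h1 := he i
    have h2 := he j
    rw [hij] at h1
    have h3 := Pool.Agent.TH362.TF.Contr.nb_ne k i
    have h4 := Pool.Agent.TH362.TF.Contr.nb_ne k j
    apply Pool.Agent.TH362.TF.Contr.nb_inj k
    rcases h1 with ⟨a, b⟩ | ⟨a, b⟩ <;> rcases h2 with ⟨c, d⟩ | ⟨c, d⟩
    · exact b.symm.trans d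
    · exact absurd (c.symm.trans a) h4
    · exact absurd (a.symm.trans c) h3
    · exact a.symm.trans c
  have h1 : ∀ x, x ∉ univ.image e → (if κ (G.t x) = k then
        (if κ (G.t x) = κ (G.h x) then c else p (κ (G.t x)) (κ (G.h x))) else 0) -
      (if κ (G.h x) = k then
        (if κ (G.t x) = κ (G.h x) then c else p (κ (G.t x)) (κ (G.h x))) else 0) = 0 := by
    intro x hx
    have h2 : (κ (G.t x) = k ↔ κ (G.h x) = k) := by
      by_contra h3
      obtain ⟨j, rfl⟩ := hall x h3
      exact hx (mem_image_of_mem _ (mem_univ _))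
    by_cases h4 : κ (G.t x) = k
    · rw [if_pos h4, if_pos (h2.1 h4), sub_self]
    · rw [if_neg h4, if_neg (fun h5 => h4 (h2.2 h5)), sub_self]
  rw [← Finset.sum_subset (Finset.subset_univ (univ.image e)) (fun x _ hx => h1 x hx),
    Finset.sum_image (fun i _ j _ h => hinj h), Fin.sum_univ_three]
  have h2 : ∀ j, (if κ (G.t (e j)) = k then
        (if κ (G.t (e j)) = κ (G.h (e j)) then c else p (κ (G.t (e j))) (κ (G.h (e j)))) else 0) -
      (if κ (G.h (e j)) = k then
        (if κ (G.t (e j)) = κ (G.h (e j)) then c else p (κ (G.t (e j))) (κ (G.h (e j)))) else 0) =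
      p k (nb k j) := by
    intro j
    have h3 := Pool.Agent.TH362.TF.Contr.nb_ne k j
    rcases he j with ⟨a, b⟩ | ⟨a, b⟩
    · rw [a, b, if_pos rfl, if_neg h3, if_neg h3.symm, sub_zero]
    · rw [a, b, if_neg h3, if_pos rfl, if_neg h3, zero_sub, hp k (nb k j)]
  rw [h2, h2, h2]

/-- a pair of a Petersen quotient -/
theorem pet_pair (G : OrGraph V E) (κ : V → Fin 10) (h : IsPQ G.t G.h univ κ) (a : Fin 10 → V)
    (ha : ∀ k, κ (a k) = k) :
    ∃ φ₂ φ₄ : E → ℤ, (mp G (fun x => a (κ x))).IsHalfFlowPair φ₂ φ₄ := by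
  classical
  have hflow : ∀ (p : Fin 10 → Fin 10 → ℤ) (c : ℤ), (∀ k l, p k l = - p l k) →
      (∀ k, p k (nb k 0) + p k (nb k 1) + p k (nb k 2) = 0) →
      (mp G (fun x => a (κ x))).IsFlow
        (fun e => if κ (G.t e) = κ (G.h e) then c else p (κ (G.t e)) (κ (G.h e))) := by
    intro p c hp1 hp2
    apply OrGraph.isFlow_of_net
    intro y
    rw [net_mp, net_sum]
    by_cases hy : ∃ k, a k = y
    · obtain ⟨k, rfl⟩ := hy
      have h1 : ∀ x, (x ∈ univ.filter (fun x => a (κ x) = a k)) ↔ κ x = k := by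
        intro x
        rw [mem_filter]
        constructor
        · intro h2
          rw [← ha (κ x), h2.2, ha]
        · intro h2
          exact ⟨mem_univ _, by rw [h2]⟩
      have h2 := class_sum G κ h p hp1 c k
      rw [hp2 k] at h2
      refine Eq.trans (Finset.sum_congr rfl fun e _ => ?_) h2
      simp only [h1]
    · have h2 : univ.filter (fun x => a (κ x) = y) = ∅ := by
        rw [Finset.filter_eq_empty_iff]
        intro x _ h3
        exact hy ⟨_, h3⟩
      rw [h2]
      simp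
  refine ⟨fun e => if κ (G.t e) = κ (G.h e) then 1 else p2 (κ (G.t e)) (κ (G.h e)),
    fun e => if κ (G.t e) = κ (G.h e) then 0 else p4 (κ (G.t e)) (κ (G.h e)),
    ⟨fun e => ?_, hflow p2 1 p2_anti p2_sum⟩, ⟨fun e => ?_, hflow p4 0 p4_anti p4_sum⟩,
    fun e he => ?_⟩
  · have h1 := p2_le (κ (G.t e)) (κ (G.h e))
    show |if κ (G.t e) = κ (G.h e) then (1 : ℤ) else p2 (κ (G.t e)) (κ (G.h e))| ≤ _
    rw [abs_le]
    push_cast
    split_ifs <;> constructor <;> omega
  · have h1 := p4_le (κ (G.t e)) (κ (G.h e))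
    show |if κ (G.t e) = κ (G.h e) then (0 : ℤ) else p4 (κ (G.t e)) (κ (G.h e))| ≤ _
    rw [abs_le]
    push_cast
    split_ifs <;> constructor <;> omega
  · have he' : (if κ (G.t e) = κ (G.h e) then (1 : ℤ) else p2 (κ (G.t e)) (κ (G.h e))) = 0 := he
    show 2 ≤ |if κ (G.t e) = κ (G.h e) then (0 : ℤ) else p4 (κ (G.t e)) (κ (G.h e))|
    split_ifs at he' ⊢ with h1
    · exact absurd he' one_ne_zero
    · have h2 := Pool.Agent.TH362.TF.Contr.padj_of_ne G.t G.h κ h e _ _ h1 (Or.inl ⟨rfl, rfl⟩)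
      rw [le_abs]
      rcases p_ok _ _ h2 he' with h3 | h3
      · left; exact h3
      · right; omega

/-- **At most sixteen vertices of odd degree.** -/
theorem main (G : OrGraph V E) (hb : ∀ X : Finset V, (G.cut X).card ≠ 1)
    (ho : (univ.filter (fun v => Odd (G.deg univ v))).card ≤ 16) :
    ∃ φ₂ φ₄ : E → ℤ, G.IsHalfFlowPair φ₂ φ₄ := by
  classical
  rcases Pool.Agent.TH362.TF.main16 G.t G.h univ (n1_of hb) (by rw [odd_eq]; exact ho) with h | h
  · exact pair_of_nz hb h
  obtain ⟨κ, hκ⟩ := h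
  have hne : ∀ k, ∃ v, κ v = k := by
    intro k
    have h1 := Pool.Agent.TH362.TF.pq_odd_pos hκ k
    obtain ⟨v, hv⟩ := Finset.card_pos.1 (by omega :
      0 < ((Pool.Agent.TH362.TF.odd G.t G.h univ).filter (fun v => κ v = k)).card)
    exact ⟨v, (mem_filter.1 hv).2⟩
  choose a ha using hne
  refine lift G (fun x => a (κ x)) (fun x => by simp only [ha]) (fun y => ?_)
    (pet_pair G κ hκ a ha)
  by_cases hy : ∃ k, a k = y
  · right
    obtain ⟨k, rfl⟩ := hy
    have h1 : univ.filter (fun x => a (κ x) = a k) = univ.filter (fun x => κ x = k) := by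
      refine filter_congr fun x _ => ?_
      constructor
      · intro h2
        rw [← ha (κ x), h2, ha]
      · intro h2
        rw [h2]
    rw [h1]
    have h3 : (G.cut (univ.filter (fun x => κ x = k))).card = 3 := by
      rw [← hκ.1 k]
      congr 1
      unfold Pool.Agent.TH362.TF.cut OrGraph.cut
      refine filter_congr fun e _ => ?_
      simp only [mem_filter, mem_univ, true_and]
      by_cases h4 : κ (G.t e) = k <;> by_cases h5 : κ (G.h e) = k <;> simp [h4, h5]
    refine ⟨h3, col_class hb _ h3 ?_⟩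
    have h6 := Pool.Agent.TH362.TF.card_classes (Pool.Agent.TH362.TF.odd G.t G.h univ) κ
    rw [← Finset.add_sum_erase univ _ (mem_univ k)] at h6
    have h7 : 9 ≤ ∑ l ∈ univ.erase k,
        ((Pool.Agent.TH362.TF.odd G.t G.h univ).filter (fun v => κ v = l)).card := by
      calc 9 = ∑ l ∈ (univ : Finset (Fin 10)).erase k, 1 := by
            rw [Finset.sum_const, card_erase_of_mem (mem_univ k), card_univ, Fintype.card_fin]
            rfl
        _ ≤ _ := Finset.sum_le_sum fun l _ => Pool.Agent.TH362.TF.pq_odd_pos hκ l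
    rw [← odd_eq] at ho
    have h8 : ((Pool.Agent.TH362.TF.odd G.t G.h univ).filter
        (fun v => v ∈ univ.filter (fun x => κ x = k))) =
        (Pool.Agent.TH362.TF.odd G.t G.h univ).filter (fun v => κ v = k) := by
      refine filter_congr fun v _ => ?_
      simp
    rw [h8]
    omega
  · left
    intro x hx
    exact absurd ⟨_, hx⟩ hy

/-- the final form -/
theorem final (G : OrGraph V E) (hb : ∀ X : Finset V, (G.cut X).card ≠ 1) (ρ : V → V)
    (hρ : ∀ x, ρ (ρ x) = ρ x)
    (hfib : ∀ y, (∀ x, ρ x = y → x = y) ∨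
      ((G.cut (univ.filter (fun x => ρ x = y))).card = 3 ∧
        NZ4 (contr G (univ.filter (fun x => ρ x ≠ y)))))
    (ho : (univ.filter (fun v => Odd ((mp G ρ).deg univ v))).card ≤ 16) :
    ∃ φ₂ φ₄ : E → ℤ, G.IsHalfFlowPair φ₂ φ₄ := by
  refine lift G ρ hρ (fun y => ?_) (main (mp G ρ) (fun X => by rw [cut_mp]; exact hb _) ho)
  rcases hfib y with h | ⟨h1, h2⟩
  · exact Or.inl h
  · refine Or.inr ⟨h1, ?_⟩
    have h3 := col_of h2
    convert h3 using 1
    ext x
    simp

end Pool.Agent.X42.HalfPet
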