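import Mathlib

/-!
# Pólya frequency functions and Hankel determinants of derivatives

If all minors `det [f (z + (i + j) ε)]` of order `n` are nonnegative for `ε > 0`, then so is the
Hankel determinant `det [f^{(i+j)}(z)]`.
-/

set_option autoImplicit false

namespace Pool.Agent.X42.HankelPF

open Filter Topology
open scoped ContDiff

/-- the derivative of an iterated difference -/
theorem hasDerivAt_iter (ε : ℝ) (m : ℕ) : ∀ (f f' : ℝ → ℝ), (∀ x, HasDerivAt f (f' x) x) →
    ∀ x, HasDerivAt ((fwdDiff ε)^[m] f) ((fwdDiff ε)^[m] f' x) x := by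
  induction m with
  | zero => intro f f' h x; exact h x
  | succ m ih =>
    intro f f' h x
    rw [Function.iterate_succ_apply, Function.iterate_succ_apply]
    refine ih _ _ ?_ x
    intro y
    have h1 : HasDerivAt (fun y => f (y + ε)) (f' (y + ε)) y := (h (y + ε)).comp_add_const y ε
    exact h1.sub (h y)

/-- mean value theorem for iterated differences -/
theorem exists_fwdDiff (ε : ℝ) (hε : 0 < ε) (m : ℕ) : ∀ (f : ℝ → ℝ), ContDiff ℝ ∞ f →
    ∀ z, ∃ ξ ∈ Set.Icc z (z + m * ε), (fwdDiff ε)^[m] f z = ε ^ m * iteratedDeriv m f ξ := by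
  induction m with
  | zero =>
    intro f _ z
    exact ⟨z, by simp, by simp⟩
  | succ m ih =>
    intro f hf z
    have hd : ∀ x, HasDerivAt f (deriv f x) x := fun x =>
      (hf.differentiable (by simp) x).hasDerivAt
    have hf' : ContDiff ℝ ∞ (deriv f) := by
      have := (contDiff_succ_iff_deriv (n := ∞) (f := f) (𝕜 := ℝ)).1 (by simpa using hf)
      exact this.2.2
    have h1 := hasDerivAt_iter ε m f (deriv f) hd
    obtain ⟨ξ₁, hξ₁, h2⟩ := exists_hasDerivAt_eq_slope ((fwdDiff ε)^[m] f) ((fwdDiff ε)^[m] (deriv f))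
      (by linarith : z < z + ε)
      (fun x _ => (h1 x).continuousAt.continuousWithinAt) (fun x _ => h1 x)
    obtain ⟨ξ, hξ, h3⟩ := ih (deriv f) hf' ξ₁
    refine ⟨ξ, ⟨hξ₁.1.le.trans hξ.1, ?_⟩, ?_⟩
    · have := hξ.2
      have := hξ₁.2
      push_cast
      nlinarith
    · rw [Function.iterate_succ_apply', iteratedDeriv_succ', pow_succ]
      have h4 : fwdDiff ε ((fwdDiff ε)^[m] f) z = ((fwdDiff ε)^[m] f) (z + ε) - ((fwdDiff ε)^[m] f) z := rfl
      rw [h4]
      rw [h3] at h2
      have h5 : z + ε - z = ε := by ring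
      rw [h5] at h2
      field_simp at h2
      linarith

theorem tendsto_fwdDiff (f : ℝ → ℝ) (hf : ContDiff ℝ ∞ f) (m : ℕ) (z : ℝ) :
    Tendsto (fun ε : ℝ => (fwdDiff ε)^[m] f z / ε ^ m) (𝓝[>] 0) (𝓝 (iteratedDeriv m f z)) := by
  have hex : ∀ ε : ℝ, ∃ ξ : ℝ, 0 < ε → ξ ∈ Set.Icc z (z + m * ε) ∧
      (fwdDiff ε)^[m] f z = ε ^ m * iteratedDeriv m f ξ := by
    intro ε
    by_cases h : 0 < ε
    · obtain ⟨ξ, h1, h2⟩ := exists_fwdDiff ε h m f hf z
      exact ⟨ξ, fun _ => ⟨h1, h2⟩⟩
    · exact ⟨0, fun h' => absurd h' h⟩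
  choose ξ hξ using hex
  have hlim : Tendsto ξ (𝓝[>] 0) (𝓝 z) := by
    refine tendsto_of_tendsto_of_tendsto_of_le_of_le' (g := fun _ => z)
      (h := fun ε : ℝ => z + m * ε) tendsto_const_nhds ?_ ?_ ?_
    · have : Tendsto (fun ε : ℝ => z + m * ε) (𝓝 0) (𝓝 (z + m * 0)) :=
        (continuous_const.add (continuous_const.mul continuous_id)).tendsto 0
      rw [mul_zero, add_zero] at this
      exact this.mono_left nhdsWithin_le_nhds
    · filter_upwards [self_mem_nhdsWithin] with ε hε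
      exact (hξ ε hε).1.1
    · filter_upwards [self_mem_nhdsWithin] with ε hε
      exact (hξ ε hε).1.2
  have hc : Continuous (iteratedDeriv m f) :=
    hf.continuous_iteratedDeriv m (by exact_mod_cast le_top)
  have h1 : Tendsto (fun ε => iteratedDeriv m f (ξ ε)) (𝓝[>] 0) (𝓝 (iteratedDeriv m f z)) :=
    (hc.tendsto z).comp hlim
  refine h1.congr' ?_
  filter_upwards [self_mem_nhdsWithin] with ε hε
  rw [(hξ ε hε).2]
  have : (ε : ℝ) ^ m ≠ 0 := pow_ne_zero _ (ne_of_gt hε)
  field_simp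

/-- the matrix of the iterated difference operators -/
noncomputable def B (n : ℕ) (ε : ℝ) : Matrix (Fin n) (Fin n) ℝ :=
  Matrix.of fun i a => (if a.val ≤ i.val then (-1 : ℝ) ^ (i.val - a.val) * (i.val.choose a.val) else 0)
    / ε ^ i.val

theorem sum_B (n : ℕ) (ε : ℝ) (f : ℝ → ℝ) (y : ℝ) (i : Fin n) :
    ∑ a : Fin n, B n ε i a * f (y + a.val * ε) = (fwdDiff ε)^[i.val] f y / ε ^ i.val := by
  simp only [B, Matrix.of_apply]
  rw [fwdDiff_iter_eq_sum_shift, Fin.sum_univ_eq_sum_range
    (fun a => (if a ≤ i.val then (-1 : ℝ) ^ (i.val - a) * (i.val.choose a) else 0)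
    / ε ^ i.val * f (y + a * ε)) n, Finset.sum_div]
  symm
  have hsub : Finset.range (i.val + 1) ⊆ Finset.range n := by
    intro x hx
    have := i.isLt
    simp only [Finset.mem_range] at hx ⊢
    omega
  rw [← Finset.sum_subset hsub]
  · refine Finset.sum_congr rfl fun a ha => ?_
    have ha' : a ≤ i.val := by simpa [Nat.lt_succ_iff] using ha
    rw [if_pos ha', nsmul_eq_mul, zsmul_eq_mul]
    push_cast
    ring
  · intro a _ ha
    have ha' : ¬ a ≤ i.val := by simpa [Nat.lt_succ_iff] using ha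
    rw [if_neg ha']
    ring

theorem hankel_nonneg (n : ℕ) (f : ℝ → ℝ) (hf : ContDiff ℝ ∞ f) (z : ℝ)
    (h : ∀ ε : ℝ, 0 < ε →
      0 ≤ (Matrix.of fun i j : Fin n => f (z + (i.val + j.val) * ε)).det) :
    0 ≤ (Matrix.of fun i j : Fin n => iteratedDeriv (i.val + j.val) f z).det := by
  have h1 : ∀ ε : ℝ, 0 < ε →
      0 ≤ (Matrix.of fun i j : Fin n => (fwdDiff ε)^[i.val + j.val] f z / ε ^ (i.val + j.val)).det := by
    intro ε hε
    have h2 : (Matrix.of fun i j : Fin n => (fwdDiff ε)^[i.val + j.val] f z / ε ^ (i.val + j.val)) =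
        B n ε * (Matrix.of fun i j : Fin n => f (z + (i.val + j.val) * ε)) * (B n ε).transpose := by
      ext i j
      rw [Matrix.mul_apply]
      simp only [Matrix.mul_apply, Matrix.transpose_apply, Matrix.of_apply]
      have h3 : ∀ b : Fin n, (∑ a : Fin n, B n ε i a * f (z + (a.val + b.val) * ε)) =
          (fwdDiff ε)^[i.val] f (z + b.val * ε) / ε ^ i.val := by
        intro b
        rw [← sum_B n ε f (z + b.val * ε) i]
        refine Finset.sum_congr rfl fun a _ => ?_
        congr 2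
        ring
      simp only [h3]
      have h4 := sum_B n ε ((fwdDiff ε)^[i.val] f) z j
      have h5 : (fwdDiff ε)^[j.val] ((fwdDiff ε)^[i.val] f) = (fwdDiff ε)^[i.val + j.val] f := by
        rw [← Function.iterate_add_apply, add_comm]
      rw [h5] at h4
      rw [pow_add, mul_comm (ε ^ i.val), ← div_div, ← h4, Finset.sum_div]
      refine Finset.sum_congr rfl fun b _ => ?_
      ring
    rw [h2, Matrix.det_mul, Matrix.det_mul, Matrix.det_transpose]
    have := h ε hε
    have h5 := mul_self_nonneg (B n ε).det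
    nlinarith [mul_nonneg this h5]
  have hlim : Tendsto (fun ε : ℝ => (Matrix.of fun i j : Fin n =>
      (fwdDiff ε)^[i.val + j.val] f z / ε ^ (i.val + j.val)).det) (𝓝[>] 0)
      (𝓝 (Matrix.of fun i j : Fin n => iteratedDeriv (i.val + j.val) f z).det) := by
    have hc : Continuous (fun M : Matrix (Fin n) (Fin n) ℝ => M.det) :=
      continuous_id.matrix_det
    refine (hc.tendsto _).comp ?_
    refine tendsto_pi_nhds.2 fun i => tendsto_pi_nhds.2 fun j => ?_
    exact tendsto_fwdDiff f hf _ z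
  refine ge_of_tendsto hlim ?_
  filter_upwards [self_mem_nhdsWithin] with ε hε
  exact h1 ε hε

end Pool.Agent.X42.HankelPF
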