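import Mathlib

/-!
# Maximal-shattering sequences of set systems
-/

set_option autoImplicit false

namespace Pool.Agent.X42.Shatter

open Set

variable {X X' : Type*}

/-- `S` shatters `Y`: every `Z ⊆ Y` equals `A ∩ Y` for some `A ∈ S`. -/
def Shatters (S : Set (Set X)) (Y : Set X) : Prop := ∀ Z ⊆ Y, ∃ A ∈ S, A ∩ Y = Z

/-- The `k`-fold union family `{A₁ ∪ ... ∪ A_k : A_i ∈ S}`. -/
def kUnion (S : Set (Set X)) (k : ℕ) : Set (Set X) :=
  {U | ∃ f : Fin k → Set X, (∀ i, f i ∈ S) ∧ U = ⋃ i, f i}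

/-- The VC-dimension: the supremum of the sizes of the finite shattered sets. -/
noncomputable def vcDim (S : Set (Set X)) : ℕ∞ :=
  sSup {n | ∃ Y : Set X, Y.Finite ∧ Shatters S Y ∧ Y.encard = n}

/-- The trace family of `S` on `Y`. -/
def traceOn (S : Set (Set X)) (Y : Set X) : Set (Set X) := {T | ∃ A ∈ S, A ∩ Y = T}

/-- `Y` and `Y'` are shatter-isomorphic: some bijection `f : Y → Y'` satisfies
`{f[T] : T ∈ S|_Y} = S|_{Y'}`. -/
def ShatterIso (S : Set (Set X)) (Y Y' : Set X) : Prop :=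
  ∃ f : X → X, Set.BijOn f Y Y' ∧ (fun T => f '' T) '' traceOn S Y = traceOn S Y'

/-- The sets `Y` of size `d_k = VC(S^{∪k})` that are shattered by `S^{∪k}`. -/
def maxShattered (S : Set (Set X)) (k : ℕ) : Set (Set X) :=
  {Y | Y.Finite ∧ Y.encard = vcDim (kUnion S k) ∧ Shatters (kUnion S k) Y}

/-- The number `s_k` of shatter-isomorphism classes of the sets of size `d_k` shattered by
`S^{∪k}`. -/
noncomputable def shatterSeq (S : Set (Set X)) (k : ℕ) : ℕ∞ :=
  Set.encard {C : Set (Set X) | ∃ Y ∈ maxShattered S k,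
    C = {Y' | Y' ∈ maxShattered S k ∧ ShatterIso S Y Y'}}

/-! ### General facts -/

theorem vcDim_eq {S : Set (Set X)} {d : ℕ∞} (Y : Set X) (hY : Y.Finite) (hs : Shatters S Y)
    (hd : Y.encard = d) (hle : ∀ Z : Set X, Z.Finite → Shatters S Z → Z.encard ≤ d) :
    vcDim S = d := by
  apply le_antisymm
  · apply sSup_le
    rintro n ⟨Z, hZ, hs', rfl⟩
    exact hle Z hZ hs'
  · exact le_sSup ⟨Y, hY, hs, hd⟩

theorem encard_le_vcDim {S : Set (Set X)} {Y : Set X} (hY : Y.Finite) (hs : Shatters S Y) :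
    Y.encard ≤ vcDim S := le_sSup ⟨Y, hY, hs, rfl⟩

theorem ShatterIso.refl (S : Set (Set X)) (Y : Set X) : ShatterIso S Y Y :=
  ⟨id, Set.bijOn_id Y, by simp⟩

/-! ### Products -/

/-- The set in `X ⊕ X'` with the two given parts. -/
def pr (P : Set X) (Q : Set X') : Set (X ⊕ X') := {z | Sum.elim (· ∈ P) (· ∈ Q) z}

@[simp] theorem inl_mem_pr {P : Set X} {Q : Set X'} {x : X} :
    (Sum.inl x : X ⊕ X') ∈ pr P Q ↔ x ∈ P := Iff.rfl
@[simp] theorem inr_mem_pr {P : Set X} {Q : Set X'} {x : X'} :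
    (Sum.inr x : X ⊕ X') ∈ pr P Q ↔ x ∈ Q := Iff.rfl

theorem exists_pr (A : Set (X ⊕ X')) : A = pr (Sum.inl ⁻¹' A) (Sum.inr ⁻¹' A) := by
  ext (x | x) <;> rfl

theorem pr_inj {P P' : Set X} {Q Q' : Set X'} : pr P Q = pr P' Q' ↔ P = P' ∧ Q = Q' := by
  constructor
  · intro h
    constructor
    · ext x; exact Set.ext_iff.1 h (Sum.inl x)
    · ext x; exact Set.ext_iff.1 h (Sum.inr x)
  · rintro ⟨rfl, rfl⟩; rfl

theorem pr_inter (P P' : Set X) (Q Q' : Set X') : pr P Q ∩ pr P' Q' = pr (P ∩ P') (Q ∩ Q') := by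
  ext (x | x) <;> rfl

theorem pr_subset {P P' : Set X} {Q Q' : Set X'} : pr P Q ⊆ pr P' Q' ↔ P ⊆ P' ∧ Q ⊆ Q' := by
  constructor
  · intro h
    exact ⟨fun x hx => @h (Sum.inl x) hx, fun x hx => @h (Sum.inr x) hx⟩
  · rintro ⟨h1, h2⟩ (x | x) hx
    · exact h1 hx
    · exact h2 hx

theorem pr_iUnion {ι : Type*} (f : ι → Set X) (g : ι → Set X') :
    ⋃ i, pr (f i) (g i) = pr (⋃ i, f i) (⋃ i, g i) := by
  ext (x | x) <;> simp

theorem pr_eq_union (P : Set X) (Q : Set X') : pr P Q = Sum.inl '' P ∪ Sum.inr '' Q := by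
  ext (x | x) <;> simp

theorem pr_finite {P : Set X} {Q : Set X'} : (pr P Q).Finite ↔ P.Finite ∧ Q.Finite := by
  rw [pr_eq_union, Set.finite_union]
  rw [Set.finite_image_iff Sum.inl_injective.injOn, Set.finite_image_iff Sum.inr_injective.injOn]

theorem pr_encard (P : Set X) (Q : Set X') : (pr P Q).encard = P.encard + Q.encard := by
  rw [pr_eq_union, Set.encard_union_eq, Sum.inl_injective.encard_image,
    Sum.inr_injective.encard_image]
  rw [Set.disjoint_left]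
  rintro _ ⟨x, _, rfl⟩ ⟨y, _, hy⟩
  exact Sum.inr_ne_inl hy

/-- The product system. -/
def prodSys (S : Set (Set X)) (T : Set (Set X')) : Set (Set (X ⊕ X')) :=
  {A | ∃ P ∈ S, ∃ Q ∈ T, A = pr P Q}

theorem pr_mem_prodSys {S : Set (Set X)} {T : Set (Set X')} {P : Set X} {Q : Set X'} :
    pr P Q ∈ prodSys S T ↔ P ∈ S ∧ Q ∈ T := by
  constructor
  · rintro ⟨P', hP', Q', hQ', h⟩
    obtain ⟨rfl, rfl⟩ := pr_inj.1 h
    exact ⟨hP', hQ'⟩
  · rintro ⟨h1, h2⟩
    exact ⟨P, h1, Q, h2, rfl⟩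

theorem pr_mem_kUnion {S : Set (Set X)} {T : Set (Set X')} {P : Set X} {Q : Set X'} {k : ℕ} :
    pr P Q ∈ kUnion (prodSys S T) k ↔ P ∈ kUnion S k ∧ Q ∈ kUnion T k := by
  constructor
  · rintro ⟨f, hf, h⟩
    choose p hp q hq hpq using hf
    have : ⋃ i, f i = pr (⋃ i, p i) (⋃ i, q i) := by
      rw [← pr_iUnion]
      exact Set.iUnion_congr hpq
    rw [this, pr_inj] at h
    exact ⟨⟨p, hp, h.1⟩, ⟨q, hq, h.2⟩⟩
  · rintro ⟨⟨p, hp, rfl⟩, ⟨q, hq, rfl⟩⟩
    exact ⟨fun i => pr (p i) (q i), fun i => ⟨_, hp i, _, hq i, rfl⟩, (pr_iUnion _ _).symm⟩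

theorem kUnion_prodSys (S : Set (Set X)) (T : Set (Set X')) (k : ℕ) :
    kUnion (prodSys S T) k = prodSys (kUnion S k) (kUnion T k) := by
  ext A
  rw [exists_pr A, pr_mem_kUnion, pr_mem_prodSys]

theorem shatters_prodSys {S : Set (Set X)} {T : Set (Set X')} {P : Set X} {Q : Set X'} :
    Shatters (prodSys S T) (pr P Q) ↔ Shatters S P ∧ Shatters T Q := by
  constructor
  · intro h
    constructor
    · intro Z hZ
      obtain ⟨A, ⟨B, hB, C, hC, rfl⟩, hA⟩ := h (pr Z ∅) (pr_subset.2 ⟨hZ, Set.empty_subset _⟩)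
      rw [pr_inter, pr_inj] at hA
      exact ⟨B, hB, hA.1⟩
    · intro Z hZ
      obtain ⟨A, ⟨B, hB, C, hC, rfl⟩, hA⟩ := h (pr ∅ Z) (pr_subset.2 ⟨Set.empty_subset _, hZ⟩)
      rw [pr_inter, pr_inj] at hA
      exact ⟨C, hC, hA.2⟩
  · rintro ⟨h1, h2⟩ Z hZ
    rw [exists_pr Z, pr_subset] at hZ
    obtain ⟨B, hB, hB'⟩ := h1 _ hZ.1
    obtain ⟨C, hC, hC'⟩ := h2 _ hZ.2
    refine ⟨pr B C, ⟨B, hB, C, hC, rfl⟩, ?_⟩
    rw [pr_inter, exists_pr Z, pr_inj]
    exact ⟨hB', hC'⟩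

/-- If `d` and `e` are the VC-dimensions of `S` and `T`, attained, then `d + e` is that of the
product. -/
theorem vcDim_prodSys {S : Set (Set X)} {T : Set (Set X')} {d e : ℕ∞}
    (P : Set X) (hP : P.Finite) (hPs : Shatters S P) (hPd : P.encard = d)
    (hS : ∀ Z : Set X, Z.Finite → Shatters S Z → Z.encard ≤ d)
    (Q : Set X') (hQ : Q.Finite) (hQs : Shatters T Q) (hQe : Q.encard = e)
    (hT : ∀ Z : Set X', Z.Finite → Shatters T Z → Z.encard ≤ e) :
    vcDim (prodSys S T) = d + e := by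
  apply vcDim_eq (pr P Q) (pr_finite.2 ⟨hP, hQ⟩) (shatters_prodSys.2 ⟨hPs, hQs⟩)
  · rw [pr_encard, hPd, hQe]
  · intro Z hZ hZs
    rw [exists_pr Z] at hZ hZs
    rw [pr_finite] at hZ
    rw [shatters_prodSys] at hZs
    rw [exists_pr Z, pr_encard]
    exact add_le_add (hS _ hZ.1 hZs.1) (hT _ hZ.2 hZs.2)

/-! ### The system of the subsingletons of `ℕ` -/

/-- The subsets of `ℕ` with at most one element. -/
def pts : Set (Set ℕ) := {B | B.Subsingleton}

theorem mem_kUnion_pts {B : Set ℕ} {k : ℕ} : B ∈ kUnion pts k ↔ B.encard ≤ k := by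
  constructor
  · rintro ⟨f, hf, rfl⟩
    calc (⋃ i, f i).encard ≤ ∑ i : Fin k, (f i).encard := by
          exact Set.encard_iUnion_le_of_fintype f
      _ ≤ ∑ i : Fin k, 1 := Finset.sum_le_sum fun i _ => Set.encard_le_one_iff_subsingleton.2 (hf i)
      _ = k := by simp
  · intro h
    have hfin : B.Finite := Set.finite_of_encard_le_coe h
    obtain ⟨s, rfl⟩ := hfin.exists_finset_coe
    rw [Set.encard_coe_eq_coe_finsetCard] at h
    have h' : s.card ≤ k := by exact_mod_cast h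
    refine ⟨fun i => {x | ∃ j : Fin s.card, (j : ℕ) = i ∧ x = s.orderEmbOfFin rfl j}, ?_, ?_⟩
    · intro i x hx y hy
      obtain ⟨j, hj, rfl⟩ := hx
      obtain ⟨j', hj', rfl⟩ := hy
      have : j = j' := Fin.ext (hj.trans hj'.symm)
      rw [this]
    · ext x
      simp only [Finset.mem_coe, Set.mem_iUnion]
      constructor
      · intro hx
        have : x ∈ Set.range (s.orderEmbOfFin rfl) := by
          rw [Finset.range_orderEmbOfFin]; exact hx
        obtain ⟨j, rfl⟩ := this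
        exact ⟨⟨j, j.2.trans_le h'⟩, j, rfl, rfl⟩
      · rintro ⟨i, j, -, rfl⟩
        exact Finset.orderEmbOfFin_mem _ _ _

theorem shatters_pts {B : Set ℕ} {k : ℕ} : Shatters (kUnion pts k) B ↔ B.encard ≤ k := by
  constructor
  · intro h
    obtain ⟨A, hA, hAB⟩ := h B subset_rfl
    rw [mem_kUnion_pts] at hA
    rw [← hAB]
    exact (Set.encard_le_encard Set.inter_subset_left).trans hA
  · intro h Z hZ
    exact ⟨Z, mem_kUnion_pts.2 ((Set.encard_le_encard hZ).trans h),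
      Set.inter_eq_self_of_subset_left hZ⟩

/-! ### The small system on four points -/

/-- The seven sets `∅, {0}, {1}, {2}, {3}, {0,1}, {0,1,2}`. -/
def small : Finset (Finset (Fin 4)) := {∅, {0}, {1}, {2}, {3}, {0, 1}, {0, 1, 2}}

/-- The same as a set of sets. -/
def smallSys : Set (Set (Fin 4)) := {A | ∃ P ∈ small, A = (P : Set (Fin 4))}

theorem exists_small {k : ℕ} {A : Set (Fin 4)} (hA : A ∈ kUnion smallSys k) :
    ∃ p : Fin k → Finset (Fin 4), (∀ i, p i ∈ small) ∧ A = ⋃ i, (p i : Set (Fin 4)) := by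
  obtain ⟨f, hf, rfl⟩ := hA
  choose p hp hfp using hf
  exact ⟨p, hp, Set.iUnion_congr hfp⟩

theorem mem_kUnion_small {k : ℕ} (p : Fin k → Finset (Fin 4)) (hp : ∀ i, p i ∈ small) :
    (⋃ i, (p i : Set (Fin 4))) ∈ kUnion smallSys k :=
  ⟨fun i => (p i : Set (Fin 4)), fun i => ⟨p i, hp i, rfl⟩, rfl⟩

theorem kUnion_small_mono {k : ℕ} {A : Set (Fin 4)} (hA : A ∈ kUnion smallSys k) :
    A ∈ kUnion smallSys (k + 1) := by
  obtain ⟨f, hf, rfl⟩ := hA
  refine ⟨Fin.snoc f ∅, fun i => ?_, ?_⟩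
  · refine Fin.lastCases ?_ (fun j => ?_) i
    · rw [Fin.snoc_last]
      exact ⟨∅, by decide, by simp⟩
    · rw [Fin.snoc_castSucc]
      exact hf j
  · ext x
    simp only [Set.mem_iUnion]
    constructor
    · rintro ⟨j, hj⟩
      refine ⟨j.castSucc, ?_⟩
      rwa [Fin.snoc_castSucc]
    · rintro ⟨i, hi⟩
      revert hi
      refine Fin.lastCases ?_ (fun j => ?_) i
      · rw [Fin.snoc_last]
        intro h
        exact h.elim
      · rw [Fin.snoc_castSucc]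
        intro h
        exact ⟨j, h⟩

theorem shatters_small_two {P : Finset (Fin 4)}
    (h : ∀ F ⊆ P, ∃ A ∈ small, ∃ B ∈ small, (A ∪ B) ∩ P = F) :
    Shatters (kUnion smallSys 2) (P : Set (Fin 4)) := by
  classical
  intro Z hZ
  obtain ⟨F, rfl⟩ := (Set.toFinite Z).exists_finset_coe
  obtain ⟨A, hA, B, hB, hAB⟩ := h F (by exact_mod_cast hZ)
  refine ⟨_, mem_kUnion_small ![A, B] ?_, ?_⟩
  · intro i
    fin_cases i
    · exact hA
    · exact hB
  · rw [← hAB]
    ext x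
    simp [Fin.exists_fin_two]

theorem shatters_small_three : Shatters (kUnion smallSys 3) (Set.univ : Set (Fin 4)) := by
  classical
  intro Z _
  obtain ⟨F, rfl⟩ := (Set.toFinite Z).exists_finset_coe
  have key : ∀ F : Finset (Fin 4), ∃ A ∈ small, ∃ B ∈ small, ∃ C ∈ small, A ∪ B ∪ C = F := by
    decide
  obtain ⟨A, hA, B, hB, C, hC, hABC⟩ := key F
  refine ⟨_, mem_kUnion_small ![A, B, C] ?_, ?_⟩
  · intro i
    fin_cases i
    · exact hA
    · exact hB
    · exact hC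
  · rw [← hABC]
    ext x
    simp [Fin.exists_fin_succ]

theorem not_shatters_small_two : ¬ Shatters (kUnion smallSys 2) (Set.univ : Set (Fin 4)) := by
  classical
  intro h
  obtain ⟨A, hA, hA'⟩ := h (({0, 2, 3} : Finset (Fin 4)) : Set (Fin 4)) (Set.subset_univ _)
  obtain ⟨p, hp, rfl⟩ := exists_small hA
  have key : ∀ A ∈ small, ∀ B ∈ small, A ∪ B ≠ {0, 2, 3} := by decide
  apply key (p 0) (hp 0) (p 1) (hp 1)
  rw [Set.inter_univ] at hA'
  ext x
  have := Set.ext_iff.1 hA' x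
  rw [Finset.mem_coe, Set.mem_iUnion, Fin.exists_fin_two] at this
  simpa using this

theorem encard_le_four (Z : Set (Fin 4)) : Z.encard ≤ 4 := by
  have := Set.encard_le_encard (Set.subset_univ Z)
  simpa using this

theorem eq_univ_of_four {Z : Set (Fin 4)} (h : ¬ Z.encard ≤ 3) : Z = Set.univ := by
  classical
  obtain ⟨F, rfl⟩ := (Set.toFinite Z).exists_finset_coe
  rw [Set.encard_coe_eq_coe_finsetCard] at h
  have h' : ¬ F.card ≤ 3 := by exact_mod_cast h
  have h4 : F.card = Fintype.card (Fin 4) := by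
    have := F.card_le_univ
    simp only [Fintype.card_fin] at this ⊢
    omega
  rw [Finset.card_eq_iff_eq_univ] at h4
  rw [h4, Finset.coe_univ]

theorem shatters_small_two_le {Z : Set (Fin 4)} (h : Shatters (kUnion smallSys 2) Z) :
    Z.encard ≤ 3 := by
  by_contra hc
  rw [eq_univ_of_four hc] at h
  exact not_shatters_small_two h

/-! ### The example -/

/-- The example: the sets `P ⊔ Q` in `{0, 1, 2, 3} ⊔ ℕ` with `P` one of the seven sets above and
`Q` a subset of `ℕ` with at most one element. -/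
def sys : Set (Set (Fin 4 ⊕ ℕ)) := prodSys smallSys pts

theorem exists_pts (k : ℕ) : ((Finset.range k : Finset ℕ) : Set ℕ).encard = k := by
  rw [Set.encard_coe_eq_coe_finsetCard, Finset.card_range]

theorem exists_maxSmall (k : ℕ) : ∃ P : Set (Fin 4), Shatters (kUnion smallSys k) P ∧
    ∀ Z, Shatters (kUnion smallSys k) Z → Z.encard ≤ P.encard := by
  obtain ⟨P, hP, hmax⟩ := Set.exists_max_image {Z : Set (Fin 4) | Shatters (kUnion smallSys k) Z}
    Set.encard (Set.toFinite _) ⟨∅, fun Z hZ => by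
      refine ⟨_, mem_kUnion_small (fun _ => ∅) (fun _ => by decide), ?_⟩
      rw [Set.inter_empty]
      exact (Set.subset_empty_iff.1 hZ).symm⟩
  exact ⟨P, hP, hmax⟩

theorem vcDim_sys {k : ℕ} {P : Set (Fin 4)} (hP : Shatters (kUnion smallSys k) P)
    (hmax : ∀ Z, Shatters (kUnion smallSys k) Z → Z.encard ≤ P.encard) :
    vcDim (kUnion sys k) = P.encard + k := by
  rw [sys, kUnion_prodSys]
  exact vcDim_prodSys P (Set.toFinite _) hP rfl (fun Z _ hZ => hmax Z hZ)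
    ((Finset.range k : Finset ℕ) : Set ℕ) (Finset.finite_toSet _)
    (shatters_pts.2 (exists_pts k).le) (exists_pts k) (fun Z _ hZ => shatters_pts.1 hZ)

theorem vcDim_sys_lt (k : ℕ) : vcDim (kUnion sys k) < vcDim (kUnion sys (k + 1)) := by
  obtain ⟨P, hP, hPm⟩ := exists_maxSmall k
  obtain ⟨Q, hQ, hQm⟩ := exists_maxSmall (k + 1)
  rw [vcDim_sys hP hPm, vcDim_sys hQ hQm]
  have h1 : P.encard ≤ Q.encard := hQm P fun Z hZ => by
    obtain ⟨A, hA, hAZ⟩ := hP Z hZ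
    exact ⟨A, kUnion_small_mono hA, hAZ⟩
  have hPf : P.encard ≠ ⊤ := (Set.encard_lt_top_iff.2 (Set.toFinite P)).ne
  calc P.encard + k < P.encard + (k + 1 : ℕ) := by
        rw [ENat.add_lt_add_iff_left hPf]
        exact_mod_cast Nat.lt_succ_self k
    _ ≤ Q.encard + (k + 1 : ℕ) := by gcongr

theorem kUnion_one {X : Type*} (S : Set (Set X)) : kUnion S 1 = S := by
  ext A
  constructor
  · rintro ⟨f, hf, rfl⟩
    have : ⋃ i, f i = f 0 := by
      ext x; simp
    rw [this]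
    exact hf 0
  · intro hA
    exact ⟨fun _ => A, fun _ => hA, (Set.iUnion_const A).symm⟩

theorem vcDim_sys_one : vcDim sys < ⊤ := by
  obtain ⟨P, hP, hPm⟩ := exists_maxSmall 1
  have h := vcDim_sys hP hPm
  rw [kUnion_one] at h
  rw [h]
  exact WithTop.add_lt_top.2 ⟨Set.encard_lt_top_iff.2 (Set.toFinite P), ENat.natCast_lt_top _⟩

theorem vcDim_two : vcDim (kUnion sys 2) = 5 := by
  rw [vcDim_sys (P := (({0, 1, 2} : Finset (Fin 4)) : Set (Fin 4)))
    (shatters_small_two (by decide))]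
  · rw [Set.encard_coe_eq_coe_finsetCard]; norm_num
    rfl
  · intro Z hZ
    rw [Set.encard_coe_eq_coe_finsetCard]
    exact shatters_small_two_le hZ

theorem vcDim_three : vcDim (kUnion sys 3) = 7 := by
  rw [vcDim_sys (P := Set.univ) shatters_small_three]
  · simp; norm_num
  · intro Z hZ
    exact Set.encard_le_encard (Set.subset_univ _)

/-- The set `F ⊔ {0, 1}`. -/
def big2 (F : Finset (Fin 4)) : Set (Fin 4 ⊕ ℕ) :=
  pr (F : Set (Fin 4)) ((Finset.range 2 : Finset ℕ) : Set ℕ)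

theorem big2_mem (F : Finset (Fin 4)) (hF : F.card = 3)
    (h : ∀ G ⊆ F, ∃ A ∈ small, ∃ B ∈ small, (A ∪ B) ∩ F = G) :
    big2 F ∈ maxShattered sys 2 := by
  refine ⟨pr_finite.2 ⟨Set.toFinite _, Finset.finite_toSet _⟩, ?_, ?_⟩
  · rw [vcDim_two, big2, pr_encard, exists_pts, Set.encard_coe_eq_coe_finsetCard, hF]
    rfl
  · rw [sys, kUnion_prodSys, big2, shatters_prodSys]
    exact ⟨shatters_small_two h, shatters_pts.2 (exists_pts 2).le⟩

theorem not_iso : ¬ ShatterIso sys (big2 {0, 1, 3}) (big2 {0, 1, 2}) := by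
  rintro ⟨f, -, hf⟩
  have h1 : pr (({0, 1, 2} : Finset (Fin 4)) : Set (Fin 4)) ({0} : Set ℕ) ∈
      traceOn sys (big2 {0, 1, 2}) := by
    refine ⟨pr (({0, 1, 2} : Finset (Fin 4)) : Set (Fin 4)) ({0} : Set ℕ), ?_, ?_⟩
    · rw [sys, pr_mem_prodSys]
      exact ⟨⟨_, by decide, rfl⟩, Set.subsingleton_singleton⟩
    · rw [big2, pr_inter, Set.inter_self]
      congr 1
      ext x
      simp
  rw [← hf] at h1
  obtain ⟨T, ⟨A, ⟨P, ⟨P', hP', rfl⟩, Q, hQ, rfl⟩, rfl⟩, hT⟩ := h1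
  have h2 : (pr (({0, 1, 2} : Finset (Fin 4)) : Set (Fin 4)) ({0} : Set ℕ)).encard = 4 := by
    rw [pr_encard, Set.encard_coe_eq_coe_finsetCard, Set.encard_singleton]
    norm_num
    rfl
  rw [← hT] at h2
  have h3 : (pr (P' : Set (Fin 4)) Q ∩ big2 {0, 1, 3}).encard ≤ 3 := by
    rw [big2, pr_inter, pr_encard, ← Finset.coe_inter, Set.encard_coe_eq_coe_finsetCard]
    have key : ∀ P ∈ small, (P ∩ {0, 1, 3}).card ≤ 2 := by decide
    have h4 : (((P' ∩ {0, 1, 3} : Finset (Fin 4)).card : ℕ) : ℕ∞) ≤ 2 := by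
      exact_mod_cast key P' hP'
    have h5 : (Q ∩ ((Finset.range 2 : Finset ℕ) : Set ℕ)).encard ≤ 1 :=
      (Set.encard_le_encard Set.inter_subset_left).trans
        (Set.encard_le_one_iff_subsingleton.2 hQ)
    calc _ ≤ (2 : ℕ∞) + 1 := add_le_add h4 h5
      _ = 3 := by norm_num
  have h6 := (Set.encard_image_le f (pr (P' : Set (Fin 4)) Q ∩ big2 {0, 1, 3})).trans h3
  dsimp only at h2
  rw [h2] at h6
  exact absurd h6 (by decide)

theorem iso_three {Y Y' : Set (Fin 4 ⊕ ℕ)} (hY : Y ∈ maxShattered sys 3)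
    (hY' : Y' ∈ maxShattered sys 3) : ShatterIso sys Y Y' := by
  have key : ∀ Y ∈ maxShattered sys 3, ∃ Q : Set ℕ, Y = pr Set.univ Q ∧ Q.encard = 3 := by
    rintro Y ⟨-, h2, h3⟩
    rw [exists_pr Y] at h2 h3
    rw [sys, kUnion_prodSys, shatters_prodSys] at h3
    rw [vcDim_three, pr_encard] at h2
    have h4 := shatters_pts.1 h3.2
    have h5 := encard_le_four (Sum.inl ⁻¹' Y)
    have hf1 : (Sum.inl ⁻¹' Y).Finite := Set.toFinite _
    have hf2 : (Sum.inr ⁻¹' Y).Finite := Set.finite_of_encard_le_coe h4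
    obtain ⟨a, ha⟩ := ENat.ne_top_iff_exists.1 (Set.encard_lt_top_iff.2 hf1).ne
    obtain ⟨b, hb⟩ := ENat.ne_top_iff_exists.1 (Set.encard_lt_top_iff.2 hf2).ne
    rw [← ha, ← hb] at h2
    rw [← hb] at h4
    rw [← ha] at h5
    have h2' : a + b = 7 := by exact_mod_cast h2
    have h4' : b ≤ 3 := by exact_mod_cast h4
    have h5' : a ≤ 4 := by exact_mod_cast h5
    have ha4 : a = 4 := by omega
    have hb3 : b = 3 := by omega
    refine ⟨Sum.inr ⁻¹' Y, ?_, ?_⟩
    · have : Sum.inl ⁻¹' Y = (Set.univ : Set (Fin 4)) := by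
        apply eq_univ_of_four
        rw [← ha, ha4]
        decide
      rw [← this]
      exact exists_pr Y
    · rw [← hb, hb3]
      rfl
  obtain ⟨Q, rfl, hQ⟩ := key Y hY
  obtain ⟨Q', rfl, hQ'⟩ := key Y' hY'
  have hQf : Q.Finite := by
    apply Set.encard_lt_top_iff.1
    rw [hQ]
    decide
  obtain ⟨g, hg⟩ := hQf.exists_bijOn_of_encard_eq (hQ.trans hQ'.symm)
  have himg : ∀ (P : Set (Fin 4)) (B : Set ℕ), Sum.map id g '' pr P B = pr P (g '' B) := by
    intro P B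
    ext (x | x)
    · constructor
      · rintro ⟨y | y, hy, hyx⟩
        · simp only [Sum.map_inl, id_eq, Sum.inl.injEq] at hyx
          rw [← hyx]
          exact hy
        · simp at hyx
      · intro hx
        exact ⟨Sum.inl x, hx, rfl⟩
    · constructor
      · rintro ⟨y | y, hy, hyx⟩
        · simp at hyx
        · simp only [Sum.map_inr, Sum.inr.injEq] at hyx
          exact ⟨y, hy, hyx⟩
      · rintro ⟨y, hy, rfl⟩
        exact ⟨Sum.inr y, hy, rfl⟩
  refine ⟨Sum.map id g, ⟨?_, ?_, ?_⟩, ?_⟩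
  · rintro (x | x) hx
    · exact Set.mem_univ x
    · exact hg.mapsTo hx
  · rintro (x | x) hx (y | y) hy hxy
    · simpa using hxy
    · simp at hxy
    · simp at hxy
    · simp only [Sum.map_inr, Sum.inr.injEq] at hxy
      rw [hg.injOn hx hy hxy]
  · intro z hz
    rw [himg, hg.image_eq]
    exact hz
  · ext T
    constructor
    · rintro ⟨T, ⟨A, ⟨P, hP, B, hB, rfl⟩, rfl⟩, rfl⟩
      refine ⟨pr P (g '' (B ∩ Q)), pr_mem_prodSys.2 ⟨hP, ?_⟩, ?_⟩
      · exact Set.Subsingleton.image (Set.Subsingleton.anti hB Set.inter_subset_left) g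
      · dsimp only
        rw [pr_inter, pr_inter, himg]
        congr 1
        apply Set.inter_eq_self_of_subset_left
        rintro _ ⟨x, hx, rfl⟩
        exact hg.mapsTo hx.2
    · rintro ⟨A, ⟨P, hP, B, hB, rfl⟩, rfl⟩
      have hsub : (Q ∩ g ⁻¹' B).Subsingleton := by
        intro x hx y hy
        exact hg.injOn hx.1 hy.1 (hB hx.2 hy.2)
      refine ⟨_, ⟨pr P (Q ∩ g ⁻¹' B), pr_mem_prodSys.2 ⟨hP, hsub⟩, rfl⟩, ?_⟩
      dsimp only
      rw [pr_inter, pr_inter, himg]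
      congr 1
      ext x
      constructor
      · rintro ⟨y, ⟨⟨hy1, hy2⟩, -⟩, rfl⟩
        exact ⟨hy2, hg.mapsTo hy1⟩
      · rintro ⟨hxB, hxQ⟩
        obtain ⟨y, hy, rfl⟩ := hg.surjOn hxQ
        exact ⟨y, ⟨⟨hy, hxB⟩, hy⟩, rfl⟩

theorem shatterSeq_lt : shatterSeq sys 3 < shatterSeq sys 2 := by
  have h1 : shatterSeq sys 3 ≤ 1 := by
    apply Set.encard_le_one_iff.2
    rintro C C' ⟨Y, hY, rfl⟩ ⟨Y', hY', rfl⟩
    ext Z
    constructor
    · rintro ⟨hZ, -⟩
      exact ⟨hZ, iso_three hY' hZ⟩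
    · rintro ⟨hZ, -⟩
      exact ⟨hZ, iso_three hY hZ⟩
  have h2 : 1 < shatterSeq sys 2 := by
    apply Set.one_lt_encard_iff.2
    have hm1 : big2 {0, 1, 2} ∈ maxShattered sys 2 := big2_mem _ (by decide) (by decide)
    have hm2 : big2 {0, 1, 3} ∈ maxShattered sys 2 := big2_mem _ (by decide) (by decide)
    refine ⟨_, _, ⟨_, hm1, rfl⟩, ⟨_, hm2, rfl⟩, fun h => not_iso ?_⟩
    have : big2 {0, 1, 2} ∈
        {Y' | Y' ∈ maxShattered sys 2 ∧ ShatterIso sys (big2 {0, 1, 2}) Y'} :=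
      ⟨hm1, ShatterIso.refl _ _⟩
    rw [h] at this
    exact this.2
  exact h1.trans_lt h2

end Pool.Agent.X42.Shatter
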