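import Mathlib

/-!
# Completary multifuncoids: definitions, the atoms, and a completary multifuncoid without atoms
-/

set_option autoImplicit false

namespace Pool.Agent.X42.MF

variable {ι α : Type*}

/-- `f ⊆ (𝒫 α) ^ ι` is a completary multifuncoid: (1) the join `L₀ ∪ L₁` of two families belongs to
`f` iff for some `c : ι → {0, 1}` the family whose `i`-th member is `L₁ i` or `L₀ i`, according to
`c i`, belongs to `f`; (2) the members of `f` have no empty component. -/
structure IsCompletary (f : Set (ι → Set α)) : Prop where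
  join_iff : ∀ L₀ L₁ : ι → Set α, (fun i => L₀ i ∪ L₁ i) ∈ f ↔
    ∃ c : ι → Bool, (fun i => if c i then L₁ i else L₀ i) ∈ f
  notMem_of_eq_empty : ∀ (L : ι → Set α) (i : ι), L i = ∅ → L ∉ f

/-- `g` is an atom of the poset of completary multifuncoids (ordered by inclusion, with least
element `∅`): it is minimal among those different from `∅`. -/
def IsAtomMF (g : Set (ι → Set α)) : Prop :=
  IsCompletary g ∧ g ≠ ∅ ∧ ∀ h : Set (ι → Set α), IsCompletary h → h ≠ ∅ → h ⊆ g → h = g

theorem isCompletary_empty : IsCompletary (∅ : Set (ι → Set α)) :=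
  ⟨fun _ _ => by simp, fun _ _ _ => by simp⟩

theorem IsCompletary.mono {f : Set (ι → Set α)} (hf : IsCompletary f) {L M : ι → Set α}
    (hL : L ∈ f) (hLM : ∀ i, L i ⊆ M i) : M ∈ f := by
  have h : (fun i => L i ∪ M i) ∈ f := (hf.join_iff L M).2 ⟨fun _ => false, by simpa using hL⟩
  have e : (fun i => L i ∪ M i) = M := funext fun i => Set.union_eq_self_of_subset_left (hLM i)
  rwa [e] at h

/-- The restriction of a completary multifuncoid to a family. -/
theorem IsCompletary.restrict {f : Set (ι → Set α)} (hf : IsCompletary f) (L : ι → Set α) :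
    IsCompletary {M : ι → Set α | (fun i => M i ∩ L i) ∈ f} := by
  refine ⟨fun L₀ L₁ => ?_, fun M i hi hM => ?_⟩
  · have e : (fun i => (L₀ i ∪ L₁ i) ∩ L i) = fun i => (L₀ i ∩ L i) ∪ (L₁ i ∩ L i) :=
      funext fun i => Set.union_inter_distrib_right _ _ _
    change (fun i => (L₀ i ∪ L₁ i) ∩ L i) ∈ f ↔
      ∃ c : ι → Bool, (fun i => (if c i then L₁ i else L₀ i) ∩ L i) ∈ f
    rw [e, hf.join_iff]
    refine exists_congr fun c => ?_
    have e' : (fun i => if c i then L₁ i ∩ L i else L₀ i ∩ L i) =
        fun i => (if c i then L₁ i else L₀ i) ∩ L i := by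
      funext i; split_ifs <;> rfl
    rw [e']
  · exact hf.notMem_of_eq_empty _ i (by simp [hi]) hM

/-- The families all of whose components belong to the given ultrafilters. -/
def box (U : ι → Ultrafilter α) : Set (ι → Set α) := {L | ∀ i, L i ∈ U i}

theorem isCompletary_box (U : ι → Ultrafilter α) : IsCompletary (box U) := by
  classical
  refine ⟨fun L₀ L₁ => ⟨fun h => ?_, ?_⟩, fun L i hi hL => ?_⟩
  · refine ⟨fun i => decide (L₁ i ∈ U i), fun i => ?_⟩
    by_cases h1 : L₁ i ∈ U i
    · simp [h1]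
    · have h2 : L₀ i ∪ L₁ i ∈ U i := h i
      rw [Ultrafilter.union_mem_iff] at h2
      simpa [h1] using h2.resolve_right h1
  · rintro ⟨c, hc⟩ i
    have h1 := hc i
    refine Filter.mem_of_superset h1 ?_
    dsimp only
    split_ifs
    · exact Set.subset_union_right
    · exact Set.subset_union_left
  · have := hL i
    rw [hi] at this
    exact (U i).neBot.ne (Filter.empty_mem_iff_bot.1 this)

theorem univ_mem {g : Set (ι → Set α)} (hg : IsCompletary g) (h : g ≠ ∅) :
    (fun _ => Set.univ) ∈ g := by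
  obtain ⟨L, hL⟩ := Set.nonempty_iff_ne_empty.2 h
  exact hg.mono hL fun i => Set.subset_univ _

/-- Every atom consists of the families all of whose components belong to certain ultrafilters. -/
theorem IsAtomMF.exists_box {g : Set (ι → Set α)} (hg : IsAtomMF g) :
    ∃ U : ι → Ultrafilter α, g = box U := by
  classical
  obtain ⟨hc, hne, hmin⟩ := hg
  -- closed under intersections
  have hinter : ∀ L ∈ g, ∀ M ∈ g, (fun i => M i ∩ L i) ∈ g := by
    intro L hL M hM
    have h1 : {M : ι → Set α | (fun i => M i ∩ L i) ∈ g} = g := by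
      apply hmin _ (hc.restrict L)
      · apply Set.Nonempty.ne_empty
        refine ⟨L, ?_⟩
        change (fun i => L i ∩ L i) ∈ g
        simpa using hL
      · intro N hN
        exact hc.mono hN fun i => Set.inter_subset_left
    have : M ∈ {M : ι → Set α | (fun i => M i ∩ L i) ∈ g} := by rw [h1]; exact hM
    exact this
  have huniv := univ_mem hc hne
  have hsplit : ∀ A : ι → Set α, ∃ c : ι → Bool, (fun i => if c i then (A i)ᶜ else A i) ∈ g := by
    intro A
    rw [← hc.join_iff]
    have : (fun i => A i ∪ (A i)ᶜ) = fun _ : ι => (Set.univ : Set α) :=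
      funext fun i => Set.union_compl_self _
    rw [this]
    exact huniv
  -- the component filters
  let F : ι → Filter α := fun i =>
    { sets := {S | ∃ L ∈ g, L i = S}
      univ_sets := ⟨_, huniv, rfl⟩
      sets_of_superset := by
        rintro S T ⟨L, hL, rfl⟩ hST
        refine ⟨Function.update L i T, hc.mono hL fun j => ?_, by simp⟩
        by_cases hj : j = i
        · subst hj; simpa using hST
        · simp [hj]
      inter_sets := by
        rintro S T ⟨L, hL, rfl⟩ ⟨M, hM, rfl⟩
        exact ⟨_, hinter M hM L hL, rfl⟩ }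
  have hF : ∀ i S, S ∈ F i ↔ ∃ L ∈ g, L i = S := fun i S => Iff.rfl
  have hu : ∀ i (S : Set α), Sᶜ ∉ F i ↔ S ∈ F i := by
    intro i S
    constructor
    · intro h
      obtain ⟨c, hc'⟩ := hsplit fun _ => S
      by_cases hci : c i = true
      · exfalso
        apply h
        rw [hF]
        exact ⟨_, hc', by simp [hci]⟩
      · rw [hF]
        exact ⟨_, hc', by simp [hci]⟩
    · intro h h'
      have := Filter.inter_mem h h'
      rw [Set.inter_compl_self, hF] at this
      obtain ⟨L, hL, hLi⟩ := this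
      exact hc.notMem_of_eq_empty L i hLi hL
  refine ⟨fun i => Ultrafilter.ofComplNotMemIff (F i) (hu i), ?_⟩
  ext L
  constructor
  · intro hL i
    exact ⟨L, hL, rfl⟩
  · intro hL
    obtain ⟨c, hc'⟩ := hsplit L
    have : (fun i => if c i then (L i)ᶜ else L i) = L := by
      funext i
      by_cases hci : c i = true
      · exfalso
        have h1 : (L i)ᶜ ∈ F i := ⟨_, hc', by simp [hci]⟩
        have h2 : L i ∈ F i := hL i
        exact (hu i (L i)).2 h2 h1
      · simp [hci]
    rwa [this] at hc'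

/-- Conversely these families form atoms. -/
theorem isAtomMF_box (U : ι → Ultrafilter α) : IsAtomMF (box U) := by
  classical
  refine ⟨isCompletary_box U, Set.Nonempty.ne_empty ⟨fun _ => Set.univ, fun i => Filter.univ_mem⟩,
    fun h hh hne hsub => Set.Subset.antisymm hsub fun L hL => ?_⟩
  have huniv := univ_mem hh hne
  have h1 : (fun i => L i ∪ (L i)ᶜ) ∈ h := by
    have : (fun i => L i ∪ (L i)ᶜ) = fun _ : ι => (Set.univ : Set α) :=
      funext fun i => Set.union_compl_self _
    rw [this]
    exact huniv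
  obtain ⟨c, hc⟩ := (hh.join_iff _ _).1 h1
  have : (fun i => if c i then (L i)ᶜ else L i) = L := by
    funext i
    by_cases hci : c i = true
    · exfalso
      have h2 := hsub hc i
      simp only [hci, if_true] at h2
      exact (Ultrafilter.compl_mem_iff_notMem.1 h2) (hL i)
    · simp [hci]
  rwa [this] at hc

/-- A completary multifuncoid on `ℕ ^ ℕ` without atoms below it: the families `L` such that `L i`
meets `{0, ..., i}` for all `i` and the numbers `|L i ∩ {0, ..., i}|` are unbounded. -/
def big : Set (ℕ → Set ℕ) :=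
  {L | (∀ i, (L i ∩ Set.Iic i).Nonempty) ∧ ∀ m : ℕ, ∃ i, m ≤ (L i ∩ Set.Iic i).ncard}

theorem isCompletary_big : IsCompletary big := by
  classical
  have hfin : ∀ (S : Set ℕ) (i : ℕ), (S ∩ Set.Iic i).Finite := fun S i =>
    (Set.finite_Iic i).subset Set.inter_subset_right
  refine ⟨fun L₀ L₁ => ⟨fun h => ?_, ?_⟩, fun L i hi hL => ?_⟩
  · obtain ⟨h1, h2⟩ := h
    refine ⟨fun i => decide ((L₀ i ∩ Set.Iic i).ncard ≤ (L₁ i ∩ Set.Iic i).ncard), ?_⟩
    have key : ∀ i, (((L₀ i ∪ L₁ i) ∩ Set.Iic i).ncard : ℕ) ≤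
        2 * ((if decide ((L₀ i ∩ Set.Iic i).ncard ≤ (L₁ i ∩ Set.Iic i).ncard) = true then L₁ i
          else L₀ i) ∩ Set.Iic i).ncard := by
      intro i
      have h3 : ((L₀ i ∪ L₁ i) ∩ Set.Iic i).ncard ≤
          (L₀ i ∩ Set.Iic i).ncard + (L₁ i ∩ Set.Iic i).ncard := by
        rw [Set.union_inter_distrib_right]
        exact Set.ncard_union_le _ _
      by_cases hle : (L₀ i ∩ Set.Iic i).ncard ≤ (L₁ i ∩ Set.Iic i).ncard
      · simp only [hle, decide_true, if_true]
        omega
      · simp only [hle, decide_false, Bool.false_eq_true, if_false]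
        omega
    refine ⟨fun i => ?_, fun m => ?_⟩
    · have h3 : 0 < ((L₀ i ∪ L₁ i) ∩ Set.Iic i).ncard :=
        (Set.ncard_pos (hfin _ i)).2 (h1 i)
      have h4 := key i
      have h5 : ((if decide ((L₀ i ∩ Set.Iic i).ncard ≤ (L₁ i ∩ Set.Iic i).ncard) = true then L₁ i
          else L₀ i) ∩ Set.Iic i).ncard ≠ 0 := by omega
      exact Set.nonempty_of_ncard_ne_zero h5
    · obtain ⟨i, hi⟩ := h2 (2 * m)
      refine ⟨i, ?_⟩
      have h4 := key i
      have h5 : 2 * m ≤ ((L₀ i ∪ L₁ i) ∩ Set.Iic i).ncard := hi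
      change m ≤ ((if decide ((L₀ i ∩ Set.Iic i).ncard ≤ (L₁ i ∩ Set.Iic i).ncard) = true then L₁ i
          else L₀ i) ∩ Set.Iic i).ncard
      omega
  · rintro ⟨c, h1, h2⟩
    have hsub : ∀ i, (if c i then L₁ i else L₀ i) ∩ Set.Iic i ⊆ (L₀ i ∪ L₁ i) ∩ Set.Iic i := by
      intro i
      apply Set.inter_subset_inter_left
      split_ifs
      · exact Set.subset_union_right
      · exact Set.subset_union_left
    refine ⟨fun i => (h1 i).mono (hsub i), fun m => ?_⟩
    obtain ⟨i, hi⟩ := h2 m
    exact ⟨i, hi.trans (Set.ncard_le_ncard (hsub i) (hfin _ i))⟩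
  · have := hL.1 i
    rw [hi] at this
    simp at this

theorem big_ne_empty : big ≠ ∅ := by
  apply Set.Nonempty.ne_empty
  refine ⟨fun _ => Set.univ, fun i => ?_, fun m => ⟨m, ?_⟩⟩
  · simp
  · rw [Set.univ_inter, Set.ncard_eq_toFinset_card']
    simp

theorem no_atom_below_big (g : Set (ℕ → Set ℕ)) (hg : IsAtomMF g) : ¬ g ⊆ big := by
  classical
  intro hsub
  obtain ⟨U, rfl⟩ := hg.exists_box
  by_cases h : ∀ i, Set.Iic i ∈ U i
  · have h1 : ∀ i, ∃ x, ({x} : Set ℕ) ∈ U i := by
      intro i
      obtain ⟨x, -, hx⟩ := Ultrafilter.eq_pure_of_finite_mem (Set.finite_Iic i) (h i)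
      refine ⟨x, ?_⟩
      rw [hx]
      simp
    choose x hx using h1
    have h2 : (fun i => ({x i} : Set ℕ)) ∈ box U := hx
    obtain ⟨-, h3⟩ := hsub h2
    obtain ⟨i, hi⟩ := h3 2
    have hi' : 2 ≤ (({x i} : Set ℕ) ∩ Set.Iic i).ncard := hi
    have h4 : (({x i} : Set ℕ) ∩ Set.Iic i).ncard ≤ 1 := by
      calc _ ≤ ({x i} : Set ℕ).ncard := Set.ncard_le_ncard Set.inter_subset_left
        _ = 1 := Set.ncard_singleton _
    omega
  · push Not at h
    obtain ⟨i, hi⟩ := h
    have h2 : (Function.update (fun _ => Set.univ) i (Set.Iic i)ᶜ : ℕ → Set ℕ) ∈ box U := by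
      intro j
      by_cases hj : j = i
      · subst hj
        simpa using Ultrafilter.compl_mem_iff_notMem.2 hi
      · rw [Function.update_of_ne hj]
        exact Filter.univ_mem
    obtain ⟨y, hy1, hy2⟩ := (hsub h2).1 i
    rw [Function.update_self] at hy1
    exact hy1 hy2

end Pool.Agent.X42.MF
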