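import Mathlib

/-!
# Short words containing many permutations
-/

set_option autoImplicit false

namespace Pool.Agent.X42.PermWords

open Finset

/-- The permutations of `Fin n` (as words `σ 0, σ 1, ..., σ (n-1)`) that the word `w` contains as
subsequences. -/
def permsIn {n : ℕ} (w : List (Fin n)) : Set (Equiv.Perm (Fin n)) :=
  {σ | List.Sublist (List.ofFn σ) w}

/-- `h(n, m)`: the minimum length of a word that contains at least `m` distinct permutations. -/
noncomputable def h (n m : ℕ) : ℕ :=
  sInf {L | ∃ w : List (Fin n), w.length = L ∧ m ≤ (permsIn w).ncard}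

/-- `ℓ(m, n)`: the least integer `ℓ` with `C(ℓ, n) ≥ m`. -/
noncomputable def ell (m n : ℕ) : ℕ := sInf {l | m ≤ l.choose n}

/-- The word `(0 1 ... n-1)^t`, obtained from the increasing list of all pairs `(s, i)`. -/
def word (n t : ℕ) : List (Fin n) :=
  ((univ : Finset (Fin t ×ₗ Fin n)).sort (· ≤ ·)).map fun p => (ofLex p).2

theorem length_word (n t : ℕ) : (word n t).length = t * n := by
  rw [word, List.length_map, Finset.length_sort, Finset.card_univ]
  change Fintype.card (Fin t × Fin n) = t * n
  simp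

theorem sublist_word {n t : ℕ} (f : Fin n → Fin t) (σ : Equiv.Perm (Fin n))
    (hf : StrictMono fun i => (toLex (f (σ i), σ i) : Fin t ×ₗ Fin n)) :
    σ ∈ permsIn (word n t) := by
  classical
  have h1 : List.ofFn σ = (List.ofFn fun i => (toLex (f (σ i), σ i) : Fin t ×ₗ Fin n)).map
      (fun p => (ofLex p).2) := by
    rw [List.map_ofFn]
    rfl
  change List.Sublist (List.ofFn σ) (word n t)
  rw [h1, word]
  apply List.Sublist.map
  apply List.sublist_of_subperm_of_sortedLE
  · apply List.Nodup.subperm
    · exact List.nodup_ofFn.2 hf.injective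
    · intro x _
      simp
  · exact List.sortedLE_ofFn_iff.2 hf.monotone
  · exact Finset.pairwise_sort _ _ |>.sortedLE

/-- The number of monotone maps `Fin n → Fin t` is at most `4 ^ n` for `t ≤ n`. -/
theorem card_monotone_le {n t : ℕ} (ht : t ≤ n) :
    Nat.card {g : Fin n → Fin t // Monotone g} ≤ 4 ^ n := by
  classical
  let F : {g : Fin n → Fin t // Monotone g} → Set (Fin (2 * n)) := fun g =>
    Set.range fun i : Fin n => (⟨(g.1 i : ℕ) + i, by omega⟩ : Fin (2 * n))
  have hF : Function.Injective F := by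
    intro g g' hgg
    have hm : ∀ g : {g : Fin n → Fin t // Monotone g},
        StrictMono fun i : Fin n => (⟨(g.1 i : ℕ) + i, by omega⟩ : Fin (2 * n)) := by
      intro g i j hij
      have h1 : (g.1 i : ℕ) ≤ g.1 j := g.2 hij.le
      have h2 : (i : ℕ) < j := hij
      change (g.1 i : ℕ) + i < (g.1 j : ℕ) + j
      omega
    have h1 := ((hm g).range_inj (hm g')).1 hgg
    apply Subtype.ext
    funext i
    have h2 := congrFun h1 i
    simp only [Fin.mk.injEq] at h2
    apply Fin.ext
    omega
  calc Nat.card {g : Fin n → Fin t // Monotone g} ≤ Nat.card (Set (Fin (2 * n))) :=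
        Nat.card_le_card_of_injective F hF
    _ = 4 ^ n := by
        rw [Nat.card_eq_fintype_card, Fintype.card_set, Fintype.card_fin, pow_mul]
        norm_num

theorem pow_le_card {n t : ℕ} (ht : t ≤ n) : t ^ n ≤ 4 ^ n * (permsIn (word n t)).ncard := by
  classical
  have h1 : ∀ f : Fin n → Fin t, Tuple.sort f ∈ permsIn (word n t) := by
    intro f
    obtain ⟨hm, hlt⟩ := (Tuple.eq_sort_iff (σ := Tuple.sort f) (f := f)).1 rfl
    apply sublist_word f
    intro i j hij
    rw [Prod.Lex.toLex_lt_toLex]
    rcases (hm hij.le).lt_or_eq with h | h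
    · exact Or.inl h
    · exact Or.inr ⟨h, hlt i j hij h⟩
  have h2 := Finset.card_le_mul_card_image_of_maps_to (f := fun f : Fin n → Fin t => Tuple.sort f)
    (s := univ) (t := (permsIn (word n t)).toFinset) (fun f _ => by simpa using h1 f) (4 ^ n) ?_
  · rw [Finset.card_univ, Fintype.card_fun, Fintype.card_fin, Fintype.card_fin] at h2
    rwa [Set.ncard_eq_toFinset_card']
  · intro σ _
    refine le_trans ?_ (card_monotone_le ht)
    rw [← Fintype.card_subtype, ← Nat.card_eq_fintype_card]
    refine Nat.card_le_card_of_injective (fun f => ⟨f.1 ∘ σ, ?_⟩) ?_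
    · have h3 := Tuple.monotone_sort f.1
      rwa [f.2] at h3
    · intro f g hfg
      apply Subtype.ext
      have h3 : f.1 ∘ σ = g.1 ∘ σ := congrArg Subtype.val hfg
      exact σ.surjective.injective_comp_right h3

/-- All permutations are in `word n n`. -/
theorem card_word_self (n : ℕ) : (permsIn (word n n)).ncard = n.factorial := by
  have : permsIn (word n n) = Set.univ := by
    ext σ
    simp only [Set.mem_univ, iff_true]
    apply sublist_word σ.symm
    intro i j hij
    rw [Prod.Lex.toLex_lt_toLex]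
    left
    simpa using hij
  rw [this, Set.ncard_univ, Nat.card_eq_fintype_card, Fintype.card_perm, Fintype.card_fin]

theorem pow_self_le (n : ℕ) : n ^ n ≤ n.factorial * 3 ^ n := by
  have h1 := Real.pow_div_factorial_le_exp (n : ℝ) (Nat.cast_nonneg n) n
  have h2 : Real.exp n ≤ 3 ^ n := by
    have : Real.exp n = Real.exp 1 ^ n := by rw [← Real.exp_nat_mul]; simp
    rw [this]
    gcongr
    exact Real.exp_one_lt_d9.le.trans (by norm_num)
  have h3 : (0 : ℝ) < n.factorial := by exact_mod_cast n.factorial_pos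
  rw [div_le_iff₀ h3] at h1
  have h4 : (n : ℝ) ^ n ≤ (n.factorial : ℝ) * 3 ^ n := by
    calc (n : ℝ) ^ n ≤ Real.exp n * n.factorial := h1
      _ ≤ 3 ^ n * n.factorial := by gcongr
      _ = _ := mul_comm _ _
  exact_mod_cast h4

theorem le_choose_add (n m : ℕ) (hn : 1 ≤ n) : m ≤ (n + m).choose n := by
  induction m with
  | zero => exact Nat.zero_le _
  | succ m ih =>
    obtain ⟨k, rfl⟩ : ∃ k, n = k + 1 := ⟨n - 1, by omega⟩
    have h1 : (k + 1 + (m + 1)).choose (k + 1) =
        (k + 1 + m).choose k + (k + 1 + m).choose (k + 1) := by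
      rw [show k + 1 + (m + 1) = (k + 1 + m) + 1 by ring, Nat.choose_succ_succ]
    rw [h1]
    have h2 : 0 < (k + 1 + m).choose k := Nat.choose_pos (by omega)
    omega

theorem main {n m : ℕ} (hn : 1 ≤ n) (hm : 1 ≤ m) (hmn : m ≤ n.factorial) :
    h n m ≤ 13 * ell m n := by
  have hmem : m ≤ (ell m n).choose n :=
    Nat.sInf_mem (s := {l | m ≤ l.choose n}) ⟨n + m, le_choose_add n m hn⟩
  set l := ell m n with hl
  have hln : n ≤ l := by
    by_contra hc
    rw [Nat.choose_eq_zero_of_lt (by omega)] at hmem
    omega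
  -- it suffices to find `t` with `t * n ≤ 13 * l` and enough permutations in `word n t`
  have hsuff : ∀ t, m ≤ (permsIn (word n t)).ncard → t * n ≤ 13 * l → h n m ≤ 13 * l := by
    intro t h1 h2
    refine le_trans (Nat.sInf_le ?_) h2
    exact ⟨word n t, length_word n t, h1⟩
  -- `t = ⌈12 l / n⌉`
  obtain ⟨t, ht1, ht2⟩ : ∃ t, 12 * l ≤ t * n ∧ t * n ≤ 13 * l := by
    refine ⟨12 * l / n + 1, ?_, ?_⟩
    · have := Nat.lt_div_mul_add (a := 12 * l) (b := n) (by omega)
      nlinarith
    · have := Nat.div_mul_le_self (12 * l) n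
      nlinarith
  by_cases htn : t ≤ n
  · apply hsuff t _ ht2
    have h1 := pow_le_card htn
    -- `m * n ^ n ≤ (3 * l) ^ n`
    have h2 : m * n ^ n ≤ (3 * l) ^ n := by
      have h3 : m * n.factorial ≤ l ^ n := by
        calc m * n.factorial ≤ l.choose n * n.factorial := by gcongr
          _ = l.descFactorial n := by rw [Nat.descFactorial_eq_factorial_mul_choose, mul_comm]
          _ ≤ l ^ n := Nat.descFactorial_le_pow _ _
      calc m * n ^ n ≤ m * (n.factorial * 3 ^ n) := by gcongr; exact pow_self_le n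
        _ = (m * n.factorial) * 3 ^ n := by ring
        _ ≤ l ^ n * 3 ^ n := by gcongr
        _ = (3 * l) ^ n := by ring
    have h4 : (4 ^ n * m) * n ^ n ≤ (4 ^ n * (permsIn (word n t)).ncard) * n ^ n := by
      calc (4 ^ n * m) * n ^ n = 4 ^ n * (m * n ^ n) := by ring
        _ ≤ 4 ^ n * (3 * l) ^ n := by gcongr
        _ = (12 * l) ^ n := by rw [← mul_pow]; ring
        _ ≤ (t * n) ^ n := by gcongr
        _ = t ^ n * n ^ n := by rw [mul_pow]
        _ ≤ _ := by gcongr
    have h5 : 4 ^ n * m ≤ 4 ^ n * (permsIn (word n t)).ncard :=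
      Nat.le_of_mul_le_mul_right h4 (by positivity)
    exact Nat.le_of_mul_le_mul_left h5 (by positivity)
  · apply hsuff n
    · rw [card_word_self]
      exact hmn
    · push Not at htn
      nlinarith

end Pool.Agent.X42.PermWords
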