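import Pool.Agent.X42.AnalyticSpread

/-!
# The Jacobian rank and the analytic spread of binomial ideals of pairs of graphs
-/

set_option autoImplicit false

namespace Pool.Agent.X42.QForms

open MvPolynomial Pool.Agent.X42.Spread

section Defs

variable (F : Type*) [Field F] {V W : Type*} [LinearOrder V] [LinearOrder W]

/-- The pairs (edge of `G`, edge of `H`), the edges written with increasing ends. -/
abbrev EdgePairs (G : SimpleGraph V) (H : SimpleGraph W) : Type _ :=
  {e : (V × V) × (W × W) // (e.1.1 < e.1.2 ∧ G.Adj e.1.1 e.1.2) ∧ (e.2.1 < e.2.2 ∧ H.Adj e.2.1 e.2.2)}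

/-- The binomial `x_{i,k} x_{j,l} - x_{i,l} x_{j,k}`. -/
noncomputable def binom (e : (V × V) × (W × W)) : MvPolynomial (V × W) F :=
  X (e.1.1, e.2.1) * X (e.1.2, e.2.2) - X (e.1.1, e.2.2) * X (e.1.2, e.2.1)

/-- The ideal `J_{G,H}`. -/
noncomputable def J (G : SimpleGraph V) (H : SimpleGraph W) : Ideal (MvPolynomial (V × W) F) :=
  Ideal.span (Set.range fun e : EdgePairs G H => binom F e.1)

/-- The Jacobian matrix of the generators of `J_{G,H}`, over the field of rational functions. -/
noncomputable def jac (G : SimpleGraph V) (H : SimpleGraph W) :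
    Matrix (EdgePairs G H) (V × W) (FractionRing (MvPolynomial (V × W) F)) :=
  fun e v => algebraMap (MvPolynomial (V × W) F) _ (pderiv v (binom F e.1))

end Defs

/-! ### An injective substitution -/

section Subst

variable {F : Type*} [Field F] {σ : Type*}

theorem aeval_scale (c : MvPolynomial σ F) {n : ℕ} {p : MvPolynomial σ F} (hp : p.IsHomogeneous n) :
    aeval (fun i => c * X i) p = c ^ n * p := by
  conv_lhs => rw [as_sum p]
  conv_rhs => rw [as_sum p]
  rw [map_sum, Finset.mul_sum]
  apply Finset.sum_congr rfl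
  intro m hm
  have hdeg : m.degree = n := by
    rw [Finsupp.degree_eq_weight_one]
    exact hp (mem_support_iff.1 hm)
  rw [aeval_monomial]
  have h1 : (m.prod fun i e => (c * X i : MvPolynomial σ F) ^ e) =
      c ^ m.degree * m.prod fun i e => (X i : MvPolynomial σ F) ^ e := by
    rw [Finsupp.prod, Finsupp.prod, Finsupp.degree_apply, ← Finset.prod_pow_eq_pow_sum,
      ← Finset.prod_mul_distrib]
    exact Finset.prod_congr rfl fun i _ => mul_pow _ _ _
  rw [h1, hdeg, monomial_eq]
  simp only [algebraMap_eq]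
  ring

theorem scale_injective {c : MvPolynomial σ F} {e : ℕ} (hc : c.IsHomogeneous e) (hc0 : c ≠ 0) :
    Function.Injective (aeval fun i => c * X i : MvPolynomial σ F →ₐ[F] MvPolynomial σ F) := by
  rw [injective_iff_map_eq_zero]
  intro p hp
  have hcomp : ∀ m, homogeneousComponent m p = 0 := by
    intro m
    have h1 : aeval (fun i => c * X i) p =
        ∑ i ∈ Finset.range (p.totalDegree + 1), c ^ i * homogeneousComponent i p := by
      conv_lhs => rw [← sum_homogeneousComponent p]
      rw [map_sum]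
      exact Finset.sum_congr rfl fun i _ => aeval_scale c (homogeneousComponent_isHomogeneous i p)
    by_cases hm : m ∈ Finset.range (p.totalDegree + 1)
    · have h2 : homogeneousComponent (m * (e + 1))
          (∑ i ∈ Finset.range (p.totalDegree + 1), c ^ i * homogeneousComponent i p) =
          c ^ m * homogeneousComponent m p := by
        rw [map_sum, Finset.sum_eq_single m]
        · have h3 : (c ^ m * homogeneousComponent m p).IsHomogeneous (m * (e + 1)) := by
            have := (hc.pow m).mul (homogeneousComponent_isHomogeneous m p)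
            rwa [show e * m + m = m * (e + 1) by ring] at this
          rw [homogeneousComponent_eq_self h3]
        · intro i _ hi
          have h3 : (c ^ i * homogeneousComponent i p).IsHomogeneous (i * (e + 1)) := by
            have := (hc.pow i).mul (homogeneousComponent_isHomogeneous i p)
            rwa [show e * i + i = i * (e + 1) by ring] at this
          rw [homogeneousComponent_of_mem h3, if_neg]
          intro h
          exact hi (Nat.eq_of_mul_eq_mul_right (Nat.succ_pos e) h).symm
        · intro h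
          exact absurd hm h
      rw [← h1, hp, map_zero] at h2
      rcases mul_eq_zero.1 h2.symm with h | h
      · exact absurd h (pow_ne_zero m hc0)
      · exact h
    · apply homogeneousComponent_eq_zero
      rw [Finset.mem_range] at hm
      omega
  rw [← sum_homogeneousComponent p]
  exact Finset.sum_eq_zero fun i _ => hcomp i

end Subst

/-! ### The case `G = H = K₃` in characteristic two -/

section K3

variable (F : Type*) [Field F]

/-- The generic `3 × 3` matrix. -/
noncomputable abbrev M : Matrix (Fin 3) (Fin 3) (MvPolynomial (Fin 3 × Fin 3) F) :=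
  Matrix.mvPolynomialX (Fin 3) (Fin 3) F

/-- The third index. -/
def third (i j : Fin 3) : Fin 3 := -(i + j)

theorem binom_eq [CharP F 2] (e : EdgePairs (⊤ : SimpleGraph (Fin 3)) (⊤ : SimpleGraph (Fin 3))) :
    binom F e.1 = (M F).adjugate (third e.1.2.1 e.1.2.2) (third e.1.1.1 e.1.1.2) := by
  obtain ⟨⟨⟨i, j⟩, ⟨k, l⟩⟩, ⟨hij, -⟩, ⟨hkl, -⟩⟩ := e
  have hs : ∀ a b : MvPolynomial (Fin 3 × Fin 3) F, a - b = a + b := fun a b =>
    CharTwo.sub_eq_add a b
  have hn : ∀ a : MvPolynomial (Fin 3 × Fin 3) F, -a = a := fun a => CharTwo.neg_eq a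
  rw [Matrix.adjugate_fin_three]
  dsimp only at hij hkl
  fin_cases i <;> fin_cases j <;> first
    | exact absurd hij (by decide)
    | (fin_cases k <;> fin_cases l <;> first
        | exact absurd hkl (by decide)
        | (simp [third, binom, hs, hn]; try ring))

theorem third_injective : ∀ i j i' j' : Fin 3, i < j → i' < j' → third i j = third i' j' →
    i = i' ∧ j = j' := by decide

/-- The position of the complementary entry. -/
def tau (e : EdgePairs (⊤ : SimpleGraph (Fin 3)) (⊤ : SimpleGraph (Fin 3))) : Fin 3 × Fin 3 :=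
  (third e.1.2.1 e.1.2.2, third e.1.1.1 e.1.1.2)

theorem tau_injective : Function.Injective tau := by
  rintro ⟨⟨⟨i, j⟩, ⟨k, l⟩⟩, ⟨hij, _⟩, ⟨hkl, _⟩⟩ ⟨⟨⟨i', j'⟩, ⟨k', l'⟩⟩, ⟨hij', _⟩, ⟨hkl', _⟩⟩ h
  simp only [tau, Prod.mk.injEq] at h
  obtain ⟨rfl, rfl⟩ := third_injective _ _ _ _ hkl hkl' h.1
  obtain ⟨rfl, rfl⟩ := third_injective _ _ _ _ hij hij' h.2
  rfl

theorem det_homogeneous : (M F).det.IsHomogeneous 3 := by
  rw [Matrix.det_fin_three]
  have h : ∀ a b c : Fin 3 × Fin 3,
      (X a * X b * X c : MvPolynomial (Fin 3 × Fin 3) F).IsHomogeneous 3 := fun a b c =>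
    ((isHomogeneous_X F a).mul (isHomogeneous_X F b)).mul (isHomogeneous_X F c)
  simp only [Matrix.mvPolynomialX_apply]
  exact (((((h _ _ _).sub (h _ _ _)).sub (h _ _ _)).add (h _ _ _)).add (h _ _ _)).sub (h _ _ _)

theorem binom_homogeneous {V W : Type*} [LinearOrder V] [LinearOrder W]
    (e : (V × V) × (W × W)) : (binom F e).IsHomogeneous 2 :=
  ((isHomogeneous_X F _).mul (isHomogeneous_X F _)).sub
    ((isHomogeneous_X F _).mul (isHomogeneous_X F _))

theorem algInd [CharP F 2] : AlgebraicIndependent F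
    fun e : EdgePairs (⊤ : SimpleGraph (Fin 3)) (⊤ : SimpleGraph (Fin 3)) => binom F e.1 := by
  -- the substitution `M ↦ adj M`
  let η : MvPolynomial (Fin 3 × Fin 3) F →ₐ[F] MvPolynomial (Fin 3 × Fin 3) F :=
    aeval fun v => (M F).adjugate v.1 v.2
  have hη : η.mapMatrix (M F) = (M F).adjugate := by
    ext i j
    simp [η, Matrix.mvPolynomialX_apply]
  have hη2 : ∀ i j, η ((M F).adjugate i j) = (M F).det * X (i, j) := by
    intro i j
    have h1 : η.mapMatrix (M F).adjugate = (M F).det • (M F) := by
      rw [AlgHom.map_adjugate, hη, Matrix.adjugate_adjugate _ (by decide)]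
      simp
    have h2 := congrFun (congrFun h1 i) j
    simpa [Matrix.mvPolynomialX_apply] using h2
  have hcomp : (η.comp (aeval fun e : EdgePairs (⊤ : SimpleGraph (Fin 3))
      (⊤ : SimpleGraph (Fin 3)) => binom F e.1)) =
      (aeval fun v => (M F).det * X v : MvPolynomial (Fin 3 × Fin 3) F →ₐ[F] _).comp
        (rename tau) := by
    apply MvPolynomial.algHom_ext
    intro e
    rw [AlgHom.comp_apply, AlgHom.comp_apply, aeval_X, rename_X, aeval_X, binom_eq, hη2]
    rfl
  have hinj : Function.Injective ((aeval fun v => (M F).det * X v :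
      MvPolynomial (Fin 3 × Fin 3) F →ₐ[F] MvPolynomial (Fin 3 × Fin 3) F).comp
        (rename tau)) := by
    rw [AlgHom.coe_comp]
    exact (scale_injective (det_homogeneous F) (Matrix.det_mvPolynomialX_ne_zero _ F)).comp
      (rename_injective _ tau_injective)
  rw [← hcomp, AlgHom.coe_comp] at hinj
  exact hinj.of_comp

theorem exists_third : ∀ a : Fin 3, ∃ i j : Fin 3, i < j ∧ third i j = a := by decide

theorem tau_surjective : Function.Surjective tau := by
  rintro ⟨a, b⟩
  obtain ⟨k, l, hkl, hkl'⟩ := exists_third a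
  obtain ⟨i, j, hij, hij'⟩ := exists_third b
  refine ⟨⟨⟨(i, j), (k, l)⟩, ⟨hij, ?_⟩, ⟨hkl, ?_⟩⟩, ?_⟩
  · exact hij.ne
  · exact hkl.ne
  · change (third k l, third i j) = (a, b)
    rw [hkl', hij']

theorem card_edgePairs : Nat.card (EdgePairs (⊤ : SimpleGraph (Fin 3)) (⊤ : SimpleGraph (Fin 3))) =
    9 := by
  rw [Nat.card_eq_of_bijective tau ⟨tau_injective, tau_surjective⟩]
  simp

theorem spread_eq [CharP F 2] :
    analyticSpread (J F (⊤ : SimpleGraph (Fin 3)) (⊤ : SimpleGraph (Fin 3))) = 9 := by
  have h := analyticSpread_eq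
    (fun e : EdgePairs (⊤ : SimpleGraph (Fin 3)) (⊤ : SimpleGraph (Fin 3)) => binom F e.1) 2
    (fun e => binom_homogeneous F e.1) (algInd F)
  rw [J, h, card_edgePairs]
  rfl

/-- Euler's relation for the binomials. -/
theorem euler (e : (Fin 3 × Fin 3) × (Fin 3 × Fin 3)) :
    ∑ v, X v * pderiv v (binom F e) = 2 * binom F e := by
  let D : Derivation F (MvPolynomial (Fin 3 × Fin 3) F) (MvPolynomial (Fin 3 × Fin 3) F) :=
    ∑ v, (X v : MvPolynomial (Fin 3 × Fin 3) F) • pderiv v
  have hD : ∀ p, D p = ∑ v, X v * pderiv v p := by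
    intro p
    simp only [D]
    rw [← Derivation.coeFnAddMonoidHom_apply, map_sum, Finset.sum_apply]
    rfl
  have hX : ∀ a, D (X a) = X a := by
    intro a
    rw [hD]
    simp [pderiv_X, Pi.single_apply]
  rw [← hD, binom, map_sub, Derivation.leibniz, Derivation.leibniz, hX, hX, hX, hX]
  simp only [smul_eq_mul]
  ring

theorem rank_lt [CharP F 2] :
    (jac F (⊤ : SimpleGraph (Fin 3)) (⊤ : SimpleGraph (Fin 3))).rank < 9 := by
  set A := jac F (⊤ : SimpleGraph (Fin 3)) (⊤ : SimpleGraph (Fin 3)) with hA
  let x : Fin 3 × Fin 3 → FractionRing (MvPolynomial (Fin 3 × Fin 3) F) := fun v =>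
    algebraMap (MvPolynomial (Fin 3 × Fin 3) F) _ (X v)
  have hx : A.mulVec x = 0 := by
    funext e
    change ∑ v, A e v * x v = 0
    have h1 : ∀ v, A e v * x v = algebraMap (MvPolynomial (Fin 3 × Fin 3) F)
        (FractionRing (MvPolynomial (Fin 3 × Fin 3) F)) (X v * pderiv v (binom F e.1)) := by
      intro v
      rw [map_mul, mul_comm]
      rfl
    rw [Finset.sum_congr rfl fun v _ => h1 v, ← map_sum, euler, CharTwo.two_eq_zero, zero_mul,
      map_zero]
  have hx0 : x ≠ 0 := by
    intro h
    have h1 := congrFun h (0, 0)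
    have h2 : (X (0, 0) : MvPolynomial (Fin 3 × Fin 3) F) = 0 := by
      apply IsFractionRing.injective (MvPolynomial (Fin 3 × Fin 3) F)
        (FractionRing (MvPolynomial (Fin 3 × Fin 3) F))
      rw [map_zero]
      exact h1
    exact X_ne_zero (0, 0) h2
  have hker : LinearMap.ker A.mulVecLin ≠ ⊥ := by
    intro h
    have : x ∈ LinearMap.ker A.mulVecLin := by
      rw [LinearMap.mem_ker, Matrix.mulVecLin_apply]; exact hx
    rw [h, Submodule.mem_bot] at this
    exact hx0 this
  have h1 := LinearMap.finrank_range_add_finrank_ker A.mulVecLin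
  have h2 : 1 ≤ Module.finrank (FractionRing (MvPolynomial (Fin 3 × Fin 3) F))
      (LinearMap.ker A.mulVecLin) := Submodule.one_le_finrank_iff.2 hker
  have h3 : Module.finrank (FractionRing (MvPolynomial (Fin 3 × Fin 3) F))
      (Fin 3 × Fin 3 → FractionRing (MvPolynomial (Fin 3 × Fin 3) F)) = 9 := by
    rw [Module.finrank_fintype_fun_eq_card]
    rfl
  rw [h3] at h1
  rw [Matrix.rank]
  omega

end K3

end Pool.Agent.X42.QForms
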