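import Mathlib

/-!
# Growth of finitely presented semigroups: no oscillation between given functions
-/

set_option autoImplicit false

namespace Pool.Agent.X42.Growth

open Filter

section Semigroup

variable {S T : Type*} [Semigroup S] [Semigroup T]

/-- The elements of `S` that are products `x₁ x₂ ... x_m` of at most `n` (and at least one)
elements of `X`. -/
def ball (X : Set S) (n : ℕ) : Set S :=
  {s | ∃ x ∈ X, ∃ l : List S, (∀ y ∈ l, y ∈ X) ∧ l.length + 1 ≤ n ∧ l.foldl (· * ·) x = s}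

/-- The growth function of the semigroup `S` with respect to the generating set `X`. -/
noncomputable def growth (X : Set S) (n : ℕ) : ℕ := (ball X n).ncard

theorem foldl_mul (a : S) (l : List S) : ∀ b : S,
    l.foldl (· * ·) (a * b) = a * l.foldl (· * ·) b := by
  induction l with
  | nil => intro b; rfl
  | cons y l ih =>
    intro b
    rw [List.foldl_cons, List.foldl_cons, mul_assoc, ih]

theorem ball_zero (X : Set S) : ball X 0 = ∅ := by
  ext s
  simp [ball]

theorem ball_one_subset (X : Set S) : ball X 1 ⊆ X := by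
  rintro s ⟨x, hx, l, -, hl, rfl⟩
  have : l = [] := List.length_eq_zero_iff.1 (by omega)
  rw [this]
  exact hx

theorem ball_mono (X : Set S) : Monotone (ball X) := by
  rintro n m hnm s ⟨x, hx, l, hl, hn, rfl⟩
  exact ⟨x, hx, l, hl, hn.trans hnm, rfl⟩

theorem ball_add (X : Set S) {n : ℕ} (hn0 : 1 ≤ n) (m : ℕ) :
    ball X (n + m) ⊆ ball X n ∪ Set.image2 (· * ·) (ball X n) (ball X m) := by
  rintro s ⟨x, hx, l, hl, hn, rfl⟩
  by_cases h : l.length + 1 ≤ n
  · exact Or.inl ⟨x, hx, l, hl, h, rfl⟩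
  · right
    -- split the list
    have hlen : n - 1 < l.length := by omega
    obtain ⟨l₁, y, l₂, hl12, hl1⟩ : ∃ l₁ y l₂, l = l₁ ++ y :: l₂ ∧ l₁.length = n - 1 := by
      refine ⟨l.take (n - 1), l[n - 1], l.drop n, ?_, ?_⟩
      · have h1 : l.drop (n - 1) = l[n - 1] :: l.drop n := by
          rw [List.drop_eq_getElem_cons hlen]
          congr 2
          omega
        rw [← h1, List.take_append_drop]
      · rw [List.length_take]
        omega
    subst hl12
    refine ⟨l₁.foldl (· * ·) x, ⟨x, hx, l₁, fun z hz => hl z (by simp [hz]), by omega, rfl⟩,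
      l₂.foldl (· * ·) y, ⟨y, hl y (by simp), l₂, fun z hz => hl z (by simp [hz]), ?_, rfl⟩, ?_⟩
    · rw [List.length_append, List.length_cons] at hn
      omega
    · rw [List.foldl_append, List.foldl_cons]
      exact (foldl_mul _ _ _).symm

theorem ball_finite {X : Set S} (hX : X.Finite) (n : ℕ) : (ball X n).Finite := by
  induction n with
  | zero => rw [ball_zero]; exact Set.finite_empty
  | succ n ih =>
    rcases Nat.eq_zero_or_pos n with rfl | hn
    · exact hX.subset (ball_one_subset X)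
    · refine Set.Finite.subset ?_ (ball_add X hn 1)
      exact ih.union (ih.image2 _ (hX.subset (ball_one_subset X)))

theorem growth_zero (X : Set S) : growth X 0 = 0 := by rw [growth, ball_zero, Set.ncard_empty]

theorem growth_mono {X : Set S} (hX : X.Finite) : Monotone (growth X) :=
  fun _ m hnm => Set.ncard_le_ncard (ball_mono X hnm) (ball_finite hX m)

theorem growth_add {X : Set S} (hX : X.Finite) (n m : ℕ) :
    growth X (n + m) + 1 ≤ (growth X n + 1) * (growth X m + 1) := by
  rcases Nat.eq_zero_or_pos n with rfl | hn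
  · rw [growth_zero, Nat.zero_add, Nat.zero_add, one_mul]
  · have h1 : growth X (n + m) ≤ growth X n + growth X n * growth X m := by
      refine (Set.ncard_le_ncard (ball_add X hn m)
        ((ball_finite hX n).union ((ball_finite hX n).image2 _ (ball_finite hX m)))).trans ?_
      refine (Set.ncard_union_le _ _).trans ?_
      gcongr
      · exact le_rfl
      · rw [← Set.image_prod]
        refine (Set.ncard_image_le ((ball_finite hX n).prod (ball_finite hX m))).trans ?_
        rw [Set.ncard_prod]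
        exact le_rfl
    nlinarith

theorem ball_image (e : S ≃* T) (X : Set S) (n : ℕ) : ball (e '' X) n = e '' ball X n := by
  have key : ∀ (l : List S) (x : S), (l.map e).foldl (· * ·) (e x) = e (l.foldl (· * ·) x) := by
    intro l
    induction l with
    | nil => intro x; rfl
    | cons y l ih =>
      intro x
      rw [List.map_cons, List.foldl_cons, List.foldl_cons, ← map_mul, ih]
  ext t
  constructor
  · rintro ⟨_, ⟨x, hx, rfl⟩, l, hl, hn, rfl⟩
    have h1 : l = (l.map e.symm).map e := by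
      rw [List.map_map]
      simp
    refine ⟨(l.map e.symm).foldl (· * ·) x, ⟨x, hx, l.map e.symm, ?_, ?_, rfl⟩, ?_⟩
    · intro y hy
      obtain ⟨z, hz, rfl⟩ := List.mem_map.1 hy
      obtain ⟨w, hw, rfl⟩ := hl z hz
      simpa using hw
    · simpa using hn
    · rw [← key, ← h1]
  · rintro ⟨_, ⟨x, hx, l, hl, hn, rfl⟩, rfl⟩
    refine ⟨e x, ⟨x, hx, rfl⟩, l.map e, ?_, ?_, key l x⟩
    · intro y hy
      obtain ⟨z, hz, rfl⟩ := List.mem_map.1 hy
      exact ⟨z, hl z hz, rfl⟩
    · simpa using hn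

theorem growth_image (e : S ≃* T) (X : Set S) : growth (e '' X) = growth X := by
  funext n
  rw [growth, growth, ball_image, Set.ncard_image_of_injective _ e.injective]

end Semigroup

/-- A semigroup is finitely presented if it is isomorphic to a semigroup given by finitely many
generators and finitely many defining relations `u = v` between words. -/
def IsFinitelyPresented (S : Type*) [Semigroup S] : Prop :=
  ∃ (k : ℕ) (R : Finset (FreeSemigroup (Fin k) × FreeSemigroup (Fin k))),
    Nonempty (S ≃* (conGen fun u v => (u, v) ∈ R).Quotient)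

/-- `f ⪯ g`: there is a constant `C ≥ 1` with `f(n) ≤ C g(C n)` for all `n`. -/
def Dom (f g : ℕ → ℕ) : Prop := ∃ C : ℕ, 1 ≤ C ∧ ∀ n, f n ≤ C * g (C * n)

/-- `f ∼ g`. -/
def Equi (f g : ℕ → ℕ) : Prop := Dom f g ∧ Dom g f

/-- Subexponential growth. -/
def Sub (g : ℕ → ℕ) : Prop := ∀ c : ℝ, 1 < c → ∀ᶠ n in atTop, (g n : ℝ) ≤ c ^ n

theorem dichotomy (g : ℕ → ℕ) (hsub : ∀ n m, g (n + m) + 1 ≤ (g n + 1) * (g m + 1))
    (hmono : Monotone g) (h0 : g 0 = 0) : (∃ c : ℝ, 1 < c ∧ ∀ n, c ^ n ≤ g n + 1) ∨ Sub g := by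
  by_cases hex : ∃ c : ℝ, 1 < c ∧ ∀ n, c ^ n ≤ g n + 1
  · exact Or.inl hex
  · right
    push Not at hex
    intro c hc
    set c' : ℝ := (1 + c) / 2 with hc'
    have h1 : 1 < c' := by rw [hc']; linarith
    have h2 : c' < c := by rw [hc']; linarith
    obtain ⟨n₀, hn₀⟩ := hex c' h1
    have hn₀pos : 0 < n₀ := by
      rcases Nat.eq_zero_or_pos n₀ with rfl | h
      · rw [h0] at hn₀; norm_num at hn₀
      · exact h
    have hq : ∀ q, g (n₀ * q) + 1 ≤ (g n₀ + 1) ^ q := by
      intro q
      induction q with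
      | zero => simp [h0]
      | succ q ih =>
        calc g (n₀ * (q + 1)) + 1 = g (n₀ * q + n₀) + 1 := by rw [Nat.mul_succ]
          _ ≤ (g (n₀ * q) + 1) * (g n₀ + 1) := hsub _ _
          _ ≤ (g n₀ + 1) ^ q * (g n₀ + 1) := by gcongr
          _ = (g n₀ + 1) ^ (q + 1) := (pow_succ _ _).symm
    have hbound : ∀ n, (g n : ℝ) + 1 ≤ (g n₀ + 1) * c' ^ n := by
      intro n
      have h3 : g n + 1 ≤ (g n₀ + 1) ^ (n / n₀) * (g n₀ + 1) := by
        calc g n + 1 = g (n₀ * (n / n₀) + n % n₀) + 1 := by rw [Nat.div_add_mod]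
          _ ≤ (g (n₀ * (n / n₀)) + 1) * (g (n % n₀) + 1) := hsub _ _
          _ ≤ (g n₀ + 1) ^ (n / n₀) * (g n₀ + 1) := by
            gcongr
            · exact hq _
            · exact hmono (Nat.mod_lt n hn₀pos).le
      have h3' : (g n : ℝ) + 1 ≤ (g n₀ + 1) ^ (n / n₀) * (g n₀ + 1) := by exact_mod_cast h3
      have h4 : ((g n₀ : ℝ) + 1) ^ (n / n₀) ≤ c' ^ n := by
        calc ((g n₀ : ℝ) + 1) ^ (n / n₀) ≤ (c' ^ n₀) ^ (n / n₀) := by gcongr
          _ = c' ^ (n₀ * (n / n₀)) := (pow_mul _ _ _).symm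
          _ ≤ c' ^ n := pow_le_pow_right₀ h1.le (Nat.mul_div_le n n₀)
      calc (g n : ℝ) + 1 ≤ (g n₀ + 1) ^ (n / n₀) * (g n₀ + 1) := h3'
        _ ≤ c' ^ n * (g n₀ + 1) := by gcongr
        _ = _ := mul_comm _ _
    have hlim : Tendsto (fun n : ℕ => (c' / c) ^ n) atTop (nhds 0) := by
      apply tendsto_pow_atTop_nhds_zero_of_lt_one
      · positivity
      · rw [div_lt_one (by linarith)]; exact h2
    have hK : (0 : ℝ) < 1 / (g n₀ + 1) := by positivity
    filter_upwards [hlim.eventually (gt_mem_nhds hK)] with n hn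
    have hcn : (0 : ℝ) < c ^ n := by positivity
    rw [div_pow, div_lt_div_iff₀ hcn (by positivity)] at hn
    have := hbound n
    nlinarith

theorem diagonal (g : ℕ → ℕ → ℕ) (hg : ∀ i, Sub (g i)) :
    ∃ f : ℕ → ℕ, StrictMono f ∧ Sub f ∧ ∀ i, ∀ᶠ n in atTop, g i n ≤ f n := by
  classical
  let c : ℕ → ℝ := fun k => 1 + 1 / (k + 1)
  have hc1 : ∀ k, 1 < c k := by
    intro k
    have : (0 : ℝ) < 1 / (k + 1) := by positivity
    change 1 < 1 + 1 / ((k : ℝ) + 1)
    linarith
  have hcanti : ∀ k l, k ≤ l → c l ≤ c k := by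
    intro k l hkl
    change 1 + 1 / ((l : ℝ) + 1) ≤ 1 + 1 / ((k : ℝ) + 1)
    have : (k : ℝ) ≤ l := by exact_mod_cast hkl
    gcongr
  have hN : ∀ k, ∃ N, ∀ n, N ≤ n → ∀ i ≤ k, (g i n : ℝ) ≤ c k ^ n := by
    intro k
    have h1 : ∀ᶠ n in atTop, ∀ i ∈ Finset.range (k + 1), (g i n : ℝ) ≤ c k ^ n := by
      rw [Filter.eventually_all_finset]
      intro i _
      exact hg i (c k) (hc1 k)
    obtain ⟨N, hN⟩ := Filter.eventually_atTop.1 h1
    exact ⟨N, fun n hn i hi => hN n hn i (Finset.mem_range.2 (by omega))⟩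
  choose N hN using hN
  -- a monotone version
  let M : ℕ → ℕ := fun k => k + ∑ j ∈ Finset.range (k + 1), N j
  have hNM : ∀ k, N k ≤ M k := by
    intro k
    have : N k ≤ ∑ j ∈ Finset.range (k + 1), N j :=
      Finset.single_le_sum (f := N) (fun _ _ => Nat.zero_le _) (Finset.self_mem_range_succ k)
    change N k ≤ k + ∑ j ∈ Finset.range (k + 1), N j
    omega
  have hkM : ∀ k, k ≤ M k := fun k => Nat.le_add_right _ _
  let κ : ℕ → ℕ := fun n => Nat.findGreatest (fun k => M k ≤ n) n
  have hκ1 : ∀ i n, M i ≤ n → i ≤ κ n := fun i n h =>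
    Nat.le_findGreatest ((hkM i).trans h) h
  have hκ2 : ∀ i n, M i ≤ n → M (κ n) ≤ n := fun i n h =>
    Nat.findGreatest_spec (P := fun k => M k ≤ n) ((hkM i).trans h) h
  let h : ℕ → ℕ := fun n => ⌈c (κ n) ^ n⌉₊
  let f : ℕ → ℕ := fun n => ∑ m ∈ Finset.range (n + 1), (h m + 1)
  have hf : StrictMono f := by
    apply strictMono_nat_of_lt_succ
    intro n
    change ∑ m ∈ Finset.range (n + 1), (h m + 1) < ∑ m ∈ Finset.range (n + 1 + 1), (h m + 1)
    rw [Finset.sum_range_succ _ (n + 1)]
    omega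
  refine ⟨f, hf, ?_, ?_⟩
  · intro b hb
    obtain ⟨k, hk⟩ : ∃ k, c k < b := by
      obtain ⟨k, hk⟩ := exists_nat_one_div_lt (sub_pos.2 hb)
      exact ⟨k, by change 1 + 1 / ((k : ℝ) + 1) < b; linarith⟩
    set K : ℝ := ∑ m ∈ Finset.range (M k), ((h m : ℝ) + 1) with hK
    have hK0 : 0 ≤ K := Finset.sum_nonneg fun m _ => by positivity
    have hck : 1 ≤ c k := (hc1 k).le
    have hbound : ∀ n, (f n : ℝ) ≤ (K + 3) * ((n + 1) * c k ^ n) := by
      intro n
      have h1 : ∀ m ∈ Finset.range (n + 1), ((h m : ℝ) + 1) ≤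
          (if m < M k then (h m : ℝ) + 1 else 0) + 3 * c k ^ n := by
        intro m hm
        have hmn : m ≤ n := by have := Finset.mem_range.1 hm; omega
        split_ifs with hlt
        · have : 0 ≤ 3 * c k ^ n := by positivity
          linarith
        · have h2 : c (κ m) ≤ c k := hcanti _ _ (hκ1 k m (not_lt.1 hlt))
          have h3 : c (κ m) ^ m ≤ c k ^ n := by
            calc c (κ m) ^ m ≤ c k ^ m := by
                  apply pow_le_pow_left₀ _ h2
                  linarith [hc1 (κ m)]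
              _ ≤ c k ^ n := pow_le_pow_right₀ hck hmn
          have h4 : (h m : ℝ) < c (κ m) ^ m + 1 := by
            apply Nat.ceil_lt_add_one
            have := hc1 (κ m)
            positivity
          have h5 : 1 ≤ c k ^ n := one_le_pow₀ hck
          linarith
      have h6 : (f n : ℝ) = ∑ m ∈ Finset.range (n + 1), ((h m : ℝ) + 1) := by
        change ((∑ m ∈ Finset.range (n + 1), (h m + 1) : ℕ) : ℝ) = _
        push_cast
        rfl
      rw [h6]
      refine (Finset.sum_le_sum h1).trans ?_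
      rw [Finset.sum_add_distrib, Finset.sum_const, Finset.card_range, nsmul_eq_mul]
      have h7 : ∑ m ∈ Finset.range (n + 1), (if m < M k then (h m : ℝ) + 1 else 0) ≤ K := by
        rw [← Finset.sum_filter, hK]
        apply Finset.sum_le_sum_of_subset_of_nonneg
        · intro m hm
          exact Finset.mem_range.2 (Finset.mem_filter.1 hm).2
        · intro m _ _
          positivity
      have h8 : 1 ≤ ((n : ℝ) + 1) * c k ^ n := by
        have h9 : 1 ≤ c k ^ n := one_le_pow₀ hck
        have h10 : (0 : ℝ) ≤ n := Nat.cast_nonneg n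
        nlinarith
      push_cast
      nlinarith
    -- limit
    have hr1 : c k / b < 1 := by rw [div_lt_one (by linarith)]; exact hk
    have hr0 : 0 ≤ c k / b := by positivity
    have hlim1 := tendsto_self_mul_const_pow_of_lt_one hr0 hr1
    have hlim2 := tendsto_pow_atTop_nhds_zero_of_lt_one hr0 hr1
    have hlim : Tendsto (fun n : ℕ => (K + 3) * ((n : ℝ) * (c k / b) ^ n + (c k / b) ^ n)) atTop
        (nhds 0) := by
      have := (hlim1.add hlim2).const_mul (K + 3)
      simpa using this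
    filter_upwards [hlim.eventually (gt_mem_nhds one_pos)] with n hn
    have hbn : (0 : ℝ) < b ^ n := by positivity
    have h1 : (K + 3) * ((n + 1) * c k ^ n) =
        ((K + 3) * ((n : ℝ) * (c k / b) ^ n + (c k / b) ^ n)) * b ^ n := by
      rw [div_pow]
      field_simp
    calc (f n : ℝ) ≤ (K + 3) * ((n + 1) * c k ^ n) := hbound n
      _ = ((K + 3) * ((n : ℝ) * (c k / b) ^ n + (c k / b) ^ n)) * b ^ n := h1
      _ ≤ 1 * b ^ n := by gcongr
      _ = b ^ n := one_mul _
  · intro i
    filter_upwards [Filter.eventually_ge_atTop (M i)] with n hn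
    have h1 : i ≤ κ n := hκ1 i n hn
    have h2 : M (κ n) ≤ n := hκ2 i n hn
    have h3 : (g i n : ℝ) ≤ c (κ n) ^ n := hN (κ n) n ((hNM _).trans h2) i h1
    have h4 : g i n ≤ h n := by
      have : (g i n : ℝ) ≤ (h n : ℝ) := h3.trans (Nat.le_ceil _)
      exact_mod_cast this
    have h5 : h n + 1 ≤ f n :=
      Finset.single_le_sum (f := fun m => h m + 1) (fun _ _ => Nat.zero_le _)
        (Finset.self_mem_range_succ n)
    omega

/-! ### Countability -/

theorem countable_freeSemigroup (α : Type*) [Countable α] : Countable (FreeSemigroup α) := by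
  apply Function.Injective.countable (f := fun w : FreeSemigroup α => (w.head, w.tail))
  rintro ⟨a, l⟩ ⟨b, m⟩ h
  simp only [Prod.mk.injEq] at h
  obtain ⟨rfl, rfl⟩ := h
  rfl

/-- A finite presentation together with a finite set of words. -/
abbrev Pres : Type := Σ k : ℕ, Finset (FreeSemigroup (Fin k) × FreeSemigroup (Fin k)) ×
  Finset (FreeSemigroup (Fin k))

/-- The growth function of a finite presentation with a finite set of words. -/
noncomputable def gr (p : Pres) : ℕ → ℕ :=
  growth ((fun w : FreeSemigroup (Fin p.1) =>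
      ((w : (conGen fun u v => (u, v) ∈ p.2.1).Quotient))) ''
    (p.2.2 : Set (FreeSemigroup (Fin p.1))))

theorem exists_gr {S : Type*} [Semigroup S] (hS : IsFinitelyPresented S) (X : Set S)
    (hX : X.Finite) : ∃ p : Pres, growth X = gr p := by
  classical
  obtain ⟨k, R, ⟨e⟩⟩ := hS
  have hsurj : ∀ q : (conGen fun u v => (u, v) ∈ R).Quotient, ∃ w : FreeSemigroup (Fin k),
      ((w : (conGen fun u v => (u, v) ∈ R).Quotient)) = q := fun q => Quotient.exists_rep q
  choose r hr using hsurj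
  refine ⟨⟨k, R, hX.toFinset.image fun x => r (e x)⟩, ?_⟩
  rw [gr, ← growth_image e X]
  congr 1
  ext q
  constructor
  · rintro ⟨x, hx, rfl⟩
    refine ⟨r (e x), ?_, hr _⟩
    simp only [Finset.coe_image, Set.Finite.coe_toFinset]
    exact ⟨x, hx, rfl⟩
  · rintro ⟨w, hw, rfl⟩
    simp only [Finset.coe_image, Set.Finite.coe_toFinset] at hw
    obtain ⟨x, hx, rfl⟩ := hw
    exact ⟨x, hx, (hr _).symm⟩

theorem main : ∃ f₁ f₂ : ℕ → ℕ, StrictMono f₁ ∧ StrictMono f₂ ∧
    Dom (fun n => n ^ 2) f₁ ∧ Dom f₂ (fun n => 2 ^ n) ∧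
    ¬ Equi f₁ (fun n => n ^ 2) ∧ ¬ Equi f₂ (fun n => 2 ^ n) ∧
    ∀ (S : Type) [Semigroup S], IsFinitelyPresented S → ∀ X : Set S, X.Finite →
      Subsemigroup.closure X = ⊤ →
      (∀ᶠ n in atTop, f₁ n ≤ growth X n) ∨ (∀ᶠ n in atTop, growth X n ≤ f₂ n) := by
  classical
  have hc : ∀ k : ℕ, Countable (FreeSemigroup (Fin k)) := fun k => countable_freeSemigroup _
  have hne : Nonempty Pres := ⟨⟨0, ∅, ∅⟩⟩
  obtain ⟨enum, henum⟩ := exists_surjective_nat Pres
  obtain ⟨f, hf, hfsub, hfdom⟩ := diagonal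
    (fun i => if Sub (gr (enum i)) then gr (enum i) else fun _ => 0) (by
      intro i
      split_ifs with h
      · exact h
      · intro c hc
        filter_upwards with n
        simp only [Nat.cast_zero]
        positivity)
  refine ⟨fun n => n ^ 3, f, ?_, hf, ?_, ?_, ?_, ?_, ?_⟩
  · intro a b hab
    exact Nat.pow_lt_pow_left hab (by norm_num)
  · refine ⟨1, le_rfl, fun n => ?_⟩
    simp only [one_mul]
    rcases Nat.eq_zero_or_pos n with rfl | hn
    · norm_num
    · exact Nat.pow_le_pow_right hn (by norm_num)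
  · -- `f ⪯ 2 ^ n`
    obtain ⟨N, hN⟩ := Filter.eventually_atTop.1 (hfsub 2 (by norm_num))
    refine ⟨f N + 1, by omega, fun n => ?_⟩
    rcases le_or_gt N n with h | h
    · have h1 : f n ≤ 2 ^ n := by exact_mod_cast hN n h
      calc f n ≤ 2 ^ n := h1
        _ ≤ 2 ^ ((f N + 1) * n) := Nat.pow_le_pow_right (by norm_num) (by nlinarith)
        _ ≤ (f N + 1) * 2 ^ ((f N + 1) * n) := Nat.le_mul_of_pos_left _ (by omega)
    · calc f n ≤ f N := hf.monotone h.le
        _ ≤ f N + 1 := by omega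
        _ ≤ (f N + 1) * 2 ^ ((f N + 1) * n) := Nat.le_mul_of_pos_right _ (by positivity)
  · -- `n ^ 3` is not equivalent to `n ^ 2`
    rintro ⟨⟨C, hC, h⟩, -⟩
    have h1 := h (C ^ 3 + 1)
    simp only at h1
    have h2 : C * (C * (C ^ 3 + 1)) ^ 2 = C ^ 3 * (C ^ 3 + 1) ^ 2 := by ring
    rw [h2] at h1
    have h3 : (C ^ 3 + 1) ^ 3 = C ^ 3 * (C ^ 3 + 1) ^ 2 + (C ^ 3 + 1) ^ 2 := by ring
    have h4 : 0 < (C ^ 3 + 1) ^ 2 := by positivity
    omega
  · -- `f` is not equivalent to `2 ^ n`
    rintro ⟨-, ⟨C, hC, h⟩⟩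
    have hCR : (1 : ℝ) ≤ C := by exact_mod_cast hC
    set c : ℝ := 2 ^ (1 / (2 * (C : ℝ))) with hc
    have hc1 : 1 < c := Real.one_lt_rpow (by norm_num) (by positivity)
    have hcC : c ^ (2 * C) = 2 := by
      rw [hc, ← Real.rpow_natCast, ← Real.rpow_mul (by norm_num)]
      push_cast
      rw [one_div_mul_cancel (by positivity), Real.rpow_one]
    obtain ⟨N, hN⟩ := Filter.eventually_atTop.1 (hfsub c hc1)
    have h2 : ∀ n, N ≤ n → (2 : ℝ) ^ n ≤ C := by
      intro n hn
      have h3 : ((2 ^ (2 * n) : ℕ) : ℝ) ≤ ((C * f (C * (2 * n)) : ℕ) : ℝ) := by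
        exact_mod_cast h (2 * n)
      push_cast at h3
      have h4 : (f (C * (2 * n)) : ℝ) ≤ 2 ^ n := by
        have h5 := hN (C * (2 * n)) (by nlinarith)
        rw [show C * (2 * n) = (2 * C) * n by ring, pow_mul, hcC] at h5
        rwa [show C * (2 * n) = (2 * C) * n by ring]
      have h6 : (2 : ℝ) ^ (2 * n) = 2 ^ n * 2 ^ n := by rw [← pow_add]; congr 1; ring
      rw [h6] at h3
      have h7 : (0 : ℝ) < 2 ^ n := by positivity
      have h8 : (2 : ℝ) ^ n * 2 ^ n ≤ C * 2 ^ n := h3.trans (by gcongr)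
      exact le_of_mul_le_mul_right h8 h7
    have h9 : Tendsto (fun n : ℕ => (2 : ℝ) ^ n) atTop atTop :=
      tendsto_pow_atTop_atTop_of_one_lt (by norm_num)
    obtain ⟨n, hn1, hn2⟩ := ((h9.eventually_gt_atTop (C : ℝ)).and
      (Filter.eventually_ge_atTop N)).exists
    exact absurd (h2 n hn2) (not_le.2 hn1)
  · intro S _ hS X hX _
    obtain ⟨p, hp⟩ := exists_gr hS X hX
    obtain ⟨i, rfl⟩ := henum p
    rcases dichotomy (growth X) (growth_add hX) (growth_mono hX) (growth_zero X) with h | h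
    · left
      obtain ⟨c, hc, hcn⟩ := h
      have h1 := tendsto_pow_const_div_const_pow_of_one_lt 3 hc
      have h2 : Tendsto (fun n : ℕ => c ^ n) atTop atTop := tendsto_pow_atTop_atTop_of_one_lt hc
      filter_upwards [h1.eventually (gt_mem_nhds (show (0 : ℝ) < 1 / 2 by norm_num)),
        h2.eventually_ge_atTop 2] with n hn1 hn2
      have hcpos : 0 < c ^ n := by positivity
      rw [div_lt_iff₀ hcpos] at hn1
      have h3 := hcn n
      have h4 : ((n ^ 3 : ℕ) : ℝ) ≤ growth X n := by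
        push_cast
        linarith
      exact_mod_cast h4
    · right
      have h1 := hfdom i
      rw [hp] at h ⊢
      rw [if_pos h] at h1
      exact h1

end Pool.Agent.X42.Growth
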