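import Mathlib

/-!
# The star number of forests is unbounded
-/

set_option autoImplicit false

namespace Pool.Agent.X42.StarPCG

/-- `G` is a star-`k`-PCG: there are positive weights and `k` pairwise disjoint closed intervals
such that two distinct vertices are adjacent iff the sum of their weights is in one of the
intervals. -/
def IsStarPCG {V : Type*} (k : ℕ) (G : SimpleGraph V) : Prop :=
  ∃ w : V → ℝ, (∀ v, 0 < w v) ∧ ∃ p q : Fin k → ℝ, (∀ i, p i ≤ q i) ∧
    (∀ i j, i ≠ j → Disjoint (Set.Icc (p i) (q i)) (Set.Icc (p j) (q j))) ∧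
    ∀ u v, u ≠ v → (G.Adj u v ↔ ∃ i, w u + w v ∈ Set.Icc (p i) (q i))

/-- The vertices of the `d`-ary tree of depth `h`: the words of length at most `h`. -/
abbrev TV (d h : ℕ) : Type := {l : List (Fin d) // l.length ≤ h}

/-- The `d`-ary tree of depth `h`: a word `l` is joined to the words `a :: l`. -/
def tree (d h : ℕ) : SimpleGraph (TV d h) where
  Adj x y := (∃ a, y.1 = a :: x.1) ∨ (∃ a, x.1 = a :: y.1)
  symm := ⟨fun x y h => h.symm⟩
  loopless := ⟨fun x h => by
    rcases h with ⟨a, h⟩ | ⟨a, h⟩ <;>
    · have := congrArg List.length h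
      simp at this⟩

theorem finite_TV (d h : ℕ) : Finite (TV d h) := (List.finite_length_le (Fin d) h).to_subtype

theorem tree_acyclic (d h : ℕ) : (tree d h).IsAcyclic := by
  rw [SimpleGraph.isAcyclic_iff_forall_adj_isBridge]
  have key : ∀ x y : TV d h, (∃ a, y.1 = a :: x.1) → (tree d h).IsBridge s(x, y) := by
    rintro x y ⟨a, hy⟩
    rw [SimpleGraph.isBridge_iff]
    intro hreach
    -- the descendants of `y` are closed under adjacency after deleting the edge
    have hinv : ∀ u v : TV d h, ∀ p : ((tree d h).deleteEdges {s(x, y)}).Walk u v,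
        y.1 <:+ u.1 → y.1 <:+ v.1 := by
      intro u v p
      induction p with
      | nil => exact id
      | cons hadj _ ih =>
        rename_i u₁ u₂ u₃ _
        intro hu
        apply ih
        rw [SimpleGraph.deleteEdges_adj] at hadj
        obtain ⟨⟨b, hb⟩ | ⟨b, hb⟩, hne⟩ := hadj
        · rw [hb]
          exact hu.trans (List.suffix_cons _ _)
        · rw [hb, List.suffix_cons_iff] at hu
          rcases hu with hu | hu
          · exfalso
            apply hne
            rw [hy] at hu
            obtain ⟨rfl, h2⟩ := List.cons.inj hu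
            have h3 : x = u₂ := Subtype.ext h2
            have h4 : y = u₁ := Subtype.ext (by rw [hy, hb, h2])
            rw [h3, h4, Sym2.eq_swap]
            rfl
          · exact hu
    obtain ⟨p⟩ := hreach.symm
    have h1 := hinv y x p (List.suffix_refl _)
    have h2 := h1.length_le
    rw [hy] at h2
    simp at h2
  intro x y hxy
  rcases hxy with h1 | h1
  · exact key x y h1
  · rw [Sym2.eq_swap]; exact key y x h1

theorem not_isStarPCG {c k : ℕ} (hk : k ≤ c) : ¬ IsStarPCG k (tree (2 * c + 1) (c + 1)) := by
  classical
  rintro ⟨w, -, p, q, -, -, hadj⟩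
  have key : ∀ n : ℕ, n ≤ k + 1 → ∃ x : TV (2 * c + 1) (c + 1), x.1.length = n ∧
      ∃ T : Finset ℝ, T ⊆ (Finset.univ : Finset (Fin k)).image (fun i => q i - p i) ∧
      T.card = n ∧ ∀ y : TV (2 * c + 1) (c + 1), (∃ a, y.1 = a :: x.1) → ∀ i,
        w x + w y ∈ Set.Icc (p i) (q i) → ∀ t ∈ T, q i - p i < t := by
    intro n
    induction n with
    | zero =>
      intro _
      exact ⟨⟨[], by simp⟩, rfl, ∅, Finset.empty_subset _, rfl, fun _ _ _ _ t ht => by simp at ht⟩
    | succ n ih =>
      intro hn
      obtain ⟨x, hx, T, hT, hTc, hprop⟩ := ih (by omega)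
      -- the children of `x`
      let ch : Fin (2 * c + 1) → TV (2 * c + 1) (c + 1) := fun a =>
        ⟨a :: x.1, by rw [List.length_cons, hx]; omega⟩
      have hch : ∀ a, (tree (2 * c + 1) (c + 1)).Adj x (ch a) := fun a => Or.inl ⟨a, rfl⟩
      have hcol : ∀ a, ∃ i, w x + w (ch a) ∈ Set.Icc (p i) (q i) := fun a =>
        (hadj x (ch a) (hch a).ne).1 (hch a)
      choose col hcol using hcol
      obtain ⟨i, -, hi⟩ := Finset.exists_lt_card_fiber_of_mul_lt_card_of_maps_to
        (s := (Finset.univ : Finset (Fin (2 * c + 1)))) (t := (Finset.univ : Finset (Fin k)))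
        (f := col) (n := 2) (fun a _ => Finset.mem_univ _) (by
          rw [Finset.card_univ, Finset.card_univ, Fintype.card_fin, Fintype.card_fin]; omega)
      set s := Finset.univ.filter (fun a => col a = i) with hs
      have hsne : s.Nonempty := Finset.card_pos.1 (by omega)
      obtain ⟨a₁, ha₁, hmin⟩ := s.exists_min_image (fun a => w (ch a)) hsne
      obtain ⟨a₃, ha₃, hmax⟩ := s.exists_max_image (fun a => w (ch a)) hsne
      obtain ⟨a₂, ha₂⟩ : ∃ a₂, a₂ ∈ (s.erase a₁).erase a₃ := by
        apply Finset.card_pos.1
        have h1 := Finset.pred_card_le_card_erase (s := s) (a := a₁)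
        have h2 := Finset.pred_card_le_card_erase (s := s.erase a₁) (a := a₃)
        omega
      rw [Finset.mem_erase, Finset.mem_erase] at ha₂
      obtain ⟨h23, h21, ha₂⟩ := ha₂
      have hc : ∀ a ∈ s, w x + w (ch a) ∈ Set.Icc (p i) (q i) := by
        intro a ha
        have h1 := hcol a
        rwa [(Finset.mem_filter.1 ha).2] at h1
      have hLi : ∀ t ∈ T, q i - p i < t := hprop (ch a₂) ⟨a₂, rfl⟩ i (hc a₂ ha₂)
      refine ⟨ch a₂, ?_, insert (q i - p i) T, ?_, ?_, ?_⟩
      · change (a₂ :: x.1).length = n + 1
        rw [List.length_cons, hx]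
      · rw [Finset.insert_subset_iff]
        exact ⟨Finset.mem_image_of_mem _ (Finset.mem_univ i), hT⟩
      · rw [Finset.card_insert_of_notMem, hTc]
        intro h
        exact lt_irrefl _ (hLi _ h)
      · rintro y ⟨b, hy⟩ j hj
        -- `y` is adjacent to `ch a₂` but not to `ch a₁`, `ch a₃`
        have hyl : y.1.length = n + 2 := by
          rw [hy, List.length_cons]
          change (a₂ :: x.1).length + 1 = n + 2
          rw [List.length_cons, hx]
        have hnot : ∀ a, a₂ ≠ a → w (ch a) + w y ∉ Set.Icc (p j) (q j) := by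
          intro a ha hmem
          have hne : ch a ≠ y := by
            intro h
            have := congrArg (fun z : TV (2 * c + 1) (c + 1) => z.1.length) h
            simp only [hyl] at this
            change (a :: x.1).length = n + 2 at this
            rw [List.length_cons, hx] at this
            omega
          have h1 := (hadj (ch a) y hne).2 ⟨j, hmem⟩
          rcases h1 with ⟨b', hb'⟩ | ⟨b', hb'⟩
          · rw [hy] at hb'
            have h2 := (List.cons.inj hb').2
            change a₂ :: x.1 = a :: x.1 at h2
            exact ha (List.cons.inj h2).1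
          · have h2 := congrArg List.length hb'
            change (a :: x.1).length = (b' :: y.1).length at h2
            rw [List.length_cons, List.length_cons, hyl, hx] at h2
            omega
        have hm1 := hmin a₂ ha₂
        have hm3 := hmax a₂ ha₂
        have e1 : w (ch a₁) + w y < p j := by
          by_contra hcon
          exact hnot a₁ h21 ⟨not_lt.1 hcon, by linarith [hj.2]⟩
        have e3 : q j < w (ch a₃) + w y := by
          by_contra hcon
          exact hnot a₃ h23 ⟨by linarith [hj.1], not_lt.1 hcon⟩
        have f1 := hc a₁ ha₁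
        have f3 := hc a₃ ha₃
        have hlt : q j - p j < q i - p i := by
          have := f1.1
          have := f3.2
          linarith
        intro t ht
        rcases Finset.mem_insert.1 ht with rfl | ht
        · exact hlt
        · exact hlt.trans (hLi t ht)
  obtain ⟨x, -, T, hT, hTc, -⟩ := key (k + 1) le_rfl
  have h1 := Finset.card_le_card hT
  have h2 := Finset.card_image_le (s := (Finset.univ : Finset (Fin k))) (f := fun i => q i - p i)
  rw [Finset.card_univ, Fintype.card_fin] at h2
  omega

end Pool.Agent.X42.StarPCG
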