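import Pool.Agent.X42.SubLat

/-! Subgroups containing an element of prime power order. -/

set_option autoImplicit false
set_option linter.unusedSectionVars false

namespace Pool.Agent.X42.SubGrp

open Pool.Agent.TH903.Semi

/-- the order of `x` is a power of a prime (possibly `1`) -/
def PP {G : Type*} [Group G] (x : G) : Prop := ∃ p k : ℕ, p.Prime ∧ orderOf x = p ^ k

/-- `M` is maximal among the proper normal subgroups -/
def MaxNormal {G : Type*} [Group G] (M : Subgroup G) : Prop :=
  M.Normal ∧ M ≠ ⊤ ∧ ∀ N : Subgroup G, N.Normal → M ≤ N → N = M ∨ N = ⊤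

/-- every nonabelian simple quotient is generated by two elements of prime power order -/
def TwoGen (G : Type*) [Group G] : Prop :=
  ∀ M : Subgroup G, MaxNormal M → ¬ commutator G ≤ M →
    ∃ a b : G, PP a ∧ PP b ∧ Subgroup.closure {a, b} ⊔ M = ⊤

variable {G : Type*} [Group G]

theorem exists_pp [Finite G] (M : Subgroup G) :
    ∀ (n : ℕ) (g : G), orderOf g = n → g ∉ M → ∃ x, x ∉ M ∧ PP x := by
  intro n
  induction n using Nat.strong_induction_on with
  | _ n ih =>
    intro g hg hgM
    have hpos : 0 < n := hg ▸ orderOf_pos g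
    by_cases h1 : n = 1
    · exact ⟨g, hgM, 2, 0, Nat.prime_two, by rw [hg, h1, pow_zero]⟩
    obtain ⟨p, hp, hpn⟩ := Nat.exists_prime_and_dvd h1
    obtain ⟨k, m, hpm, hnm⟩ := Nat.exists_eq_pow_mul_and_not_dvd hpos.ne' p hp.ne_one
    by_cases hm : m = 1
    · exact ⟨g, hgM, p, k, hp, by rw [hg, hnm, hm, mul_one]⟩
    have hk : k ≠ 0 := by
      rintro rfl
      rw [pow_zero, one_mul] at hnm
      exact hpm (hnm ▸ hpn)
    have hm0 : m ≠ 0 := by
      rintro rfl
      exact hpm (dvd_zero p)
    have hpk : 1 < p ^ k := Nat.one_lt_pow hk hp.one_lt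
    have hcop : Nat.Coprime (p ^ k) m :=
      Nat.Coprime.pow_left k ((Nat.Prime.coprime_iff_not_dvd hp).2 hpm)
    have o1 : orderOf (g ^ (p ^ k)) = m := by
      rw [orderOf_pow_of_dvd (by omega) (by rw [hg, hnm]; exact dvd_mul_right _ _), hg, hnm,
        Nat.mul_div_cancel_left _ (by omega)]
    have o2 : orderOf (g ^ m) = p ^ k := by
      rw [orderOf_pow_of_dvd hm0 (by rw [hg, hnm]; exact dvd_mul_left _ _), hg, hnm,
        Nat.mul_div_cancel _ (by omega)]
    by_cases ha : g ^ (p ^ k) ∈ M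
    · have hb : g ^ m ∉ M := by
        intro hb
        apply hgM
        have h2 := Nat.gcd_eq_gcd_ab (p ^ k) m
        rw [Nat.Coprime.gcd_eq_one hcop] at h2
        have h3 : g = (g ^ (p ^ k)) ^ (Nat.gcdA (p ^ k) m) * (g ^ m) ^ (Nat.gcdB (p ^ k) m) := by
          rw [← zpow_natCast g (p ^ k), ← zpow_natCast g m, ← zpow_mul, ← zpow_mul, ← zpow_add, ← h2]
          simp
        rw [h3]
        exact M.mul_mem (M.zpow_mem ha _) (M.zpow_mem hb _)
      exact ⟨g ^ m, hb, p, k, hp, o2⟩
    · refine ih m ?_ _ o1 ha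
      rw [hnm]
      exact lt_mul_of_one_lt_left (Nat.pos_of_ne_zero hm0) hpk

/-- Dedekind -/
theorem key_gen {M X H : Subgroup G} (hM : M.Normal) (hXM : X ⊔ M = ⊤) (hXH : X ≤ H) :
    (H ⊓ M) ⊔ X = H := by
  refine le_antisymm (sup_le inf_le_left hXH) fun h hh => ?_
  have h1 : h ∈ ((X ⊔ M : Subgroup G) : Set G) := by
    rw [hXM]
    trivial
  rw [Subgroup.mul_normal] at h1
  obtain ⟨y, hy, m, hm, rfl⟩ := Set.mem_mul.1 h1
  have h2 : m ∈ H := by
    have := H.mul_mem (H.inv_mem (hXH hy)) hh
    simpa using this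
  exact Subgroup.mul_mem _ (Subgroup.mem_sup_right hy) (Subgroup.mem_sup_left ⟨h2, hm⟩)

theorem comm_le {M : Subgroup G} (hM : M.Normal) {y : G} (h : Subgroup.zpowers y ⊔ M = ⊤) :
    commutator G ≤ M := by
  refine Subgroup.Normal.commutator_le_of_self_sup_commutative_eq_top (H := Subgroup.zpowers y) ?_
    inferInstance
  rw [sup_comm]
  exact h

theorem exists_max [Finite G] [Nontrivial G] : ∃ M : Subgroup G, MaxNormal M := by
  obtain ⟨M, hM, hmax⟩ := Set.Finite.exists_maximal (s := {M : Subgroup G | M.Normal ∧ M ≠ ⊤})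
    (Set.toFinite _) ⟨⊥, inferInstance, bot_ne_top⟩
  refine ⟨M, hM.1, hM.2, fun N hN hMN => ?_⟩
  by_cases h : N = ⊤
  · exact Or.inr h
  · exact Or.inl (le_antisymm (hmax ⟨hN, h⟩ hMN) hMN)

/-- above the commutator subgroup -/
theorem sup_top {M : Subgroup G} (hM : MaxNormal M) (hc : commutator G ≤ M) {x : G} (hx : x ∉ M) :
    Subgroup.zpowers x ⊔ M = ⊤ := by
  have hn : (Subgroup.zpowers x ⊔ M).Normal :=
    Subgroup.Normal.of_commutator_le G (hc.trans le_sup_right)
  rcases hM.2.2 _ hn le_sup_right with h | h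
  · exfalso
    apply hx
    rw [← h]
    exact Subgroup.mem_sup_left (Subgroup.mem_zpowers x)
  · exact h

theorem sup_pair (a b : G) :
    Subgroup.closure {a, b} = Subgroup.zpowers a ⊔ Subgroup.zpowers b := by
  rw [Subgroup.zpowers_eq_closure, Subgroup.zpowers_eq_closure, ← Subgroup.closure_union,
    Set.singleton_union]

/-- a third subgroup -/
theorem exists_third [Finite G] {M : Subgroup G} (hM : MaxNormal M) (hc : ¬ commutator G ≤ M)
    {a b : G} (ha : a ∉ M) (hab : orderOf a ≤ orderOf b) :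
    ∃ C : Subgroup G, ¬ C ≤ M ∧ a ∉ C ∧ b ∉ C := by
  by_contra hcon
  push Not at hcon
  have hMn := hM.1
  -- conjugates of `⟨a⟩`
  have hord : ∀ g : G, orderOf (g * a * g⁻¹) = orderOf a := fun g => by
    have : g * a * g⁻¹ = MulAut.conj g a := rfl
    rw [this]
    exact MulEquiv.orderOf_eq _ _
  have heq : ∀ g y : G, y ∈ Subgroup.zpowers (g * a * g⁻¹) → orderOf a ≤ orderOf y →
      Subgroup.zpowers y = Subgroup.zpowers (g * a * g⁻¹) := by
    intro g y hy hle
    have h1 : Subgroup.zpowers y ≤ Subgroup.zpowers (g * a * g⁻¹) := by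
      rw [Subgroup.zpowers_le]; exact hy
    refine Subgroup.eq_of_le_of_card_ge h1 ?_
    rw [Nat.card_zpowers, Nat.card_zpowers, hord]
    exact hle
  have hcl : ∀ g : G, Subgroup.zpowers (g * a * g⁻¹) = Subgroup.zpowers a ∨
      Subgroup.zpowers (g * a * g⁻¹) = Subgroup.zpowers b := by
    intro g
    have h1 : ¬ Subgroup.zpowers (g * a * g⁻¹) ≤ M := by
      intro h
      apply ha
      have h2 : g * a * g⁻¹ ∈ M := h (Subgroup.mem_zpowers _)
      have h3 := hMn.conj_mem _ h2 g⁻¹
      simpa [mul_assoc] using h3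
    by_cases h2 : a ∈ Subgroup.zpowers (g * a * g⁻¹)
    · exact Or.inl (heq g a h2 le_rfl).symm
    · exact Or.inr (heq g b (hcon _ h1 h2) hab).symm
  -- the stabilizer of `⟨a⟩`
  have hzc : ∀ g y : G, y ∈ Subgroup.zpowers a ↔ g * y * g⁻¹ ∈ Subgroup.zpowers (g * a * g⁻¹) := by
    intro g y
    rw [Subgroup.mem_zpowers_iff, Subgroup.mem_zpowers_iff]
    refine exists_congr fun k => ?_
    rw [conj_zpow]
    constructor
    · rintro rfl
      rfl
    · intro h
      have h2 := congrArg (fun z => g⁻¹ * z * g) h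
      simpa [mul_assoc] using h2
  obtain ⟨N, hN⟩ : ∃ N : Subgroup G, ∀ g, g ∈ N ↔
      Subgroup.zpowers (g * a * g⁻¹) = Subgroup.zpowers a := by
    refine ⟨Subgroup.normalizer (Subgroup.zpowers a : Set G), fun g => ?_⟩
    rw [Subgroup.mem_normalizer_iff]
    constructor
    · intro h
      have h1 : g * a * g⁻¹ ∈ Subgroup.zpowers a := (h a).1 (Subgroup.mem_zpowers a)
      have h2 : Subgroup.zpowers (g * a * g⁻¹) ≤ Subgroup.zpowers a := by
        rw [Subgroup.zpowers_le]; exact h1
      refine Subgroup.eq_of_le_of_card_ge h2 ?_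
      rw [Nat.card_zpowers, Nat.card_zpowers, hord]
    · intro h y
      show y ∈ Subgroup.zpowers a ↔ g * y * g⁻¹ ∈ Subgroup.zpowers a
      rw [hzc g y, h]
  have hconj : ∀ g h : G, Subgroup.zpowers (g * a * g⁻¹) = Subgroup.zpowers (h * a * h⁻¹) →
      h⁻¹ * g ∈ N := by
    intro g h hgh
    rw [hN]
    have h1 : g * a * g⁻¹ ∈ Subgroup.zpowers (h * a * h⁻¹) := by
      rw [← hgh]; exact Subgroup.mem_zpowers _
    have h2 : h⁻¹ * g * a * (h⁻¹ * g)⁻¹ ∈ Subgroup.zpowers a := by
      rw [hzc h]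
      convert h1 using 1
      group
    refine Subgroup.eq_of_le_of_card_ge (by rw [Subgroup.zpowers_le]; exact h2) ?_
    rw [Nat.card_zpowers, Nat.card_zpowers, hord]
  have hNn : N.Normal := by
    refine ⟨fun n hn g => ?_⟩
    by_contra hcon2
    by_cases hg : g ∈ N
    · exact hcon2 (N.mul_mem (N.mul_mem hg hn) (N.inv_mem hg))
    · have h1 := (hcl g).resolve_left (fun h => hg ((hN g).2 h))
      have h2 := (hcl (g * n * g⁻¹)).resolve_left (fun h => hcon2 ((hN _).2 h))
      have h3 := hconj g (g * n * g⁻¹) (h1.trans h2.symm)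
      have h4 : (g * n * g⁻¹)⁻¹ * g = g * n⁻¹ := by group
      rw [h4] at h3
      apply hg
      have := N.mul_mem h3 hn
      simpa [mul_assoc] using this
  have haN : a ∈ N := by
    rw [hN]
    have : a * a * a⁻¹ = a := by group
    rw [this]
  have hNM : N ⊔ M = ⊤ := by
    have : (N ⊔ M).Normal := inferInstance
    rcases hM.2.2 _ this le_sup_right with h | h
    · exfalso
      apply ha
      rw [← h]
      exact Subgroup.mem_sup_left haN
    · exact h
  have hK : (Subgroup.zpowers a ⊔ M).Normal := by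
    rw [← Subgroup.normalizer_eq_top_iff, ← top_le_iff, ← hNM]
    refine sup_le (fun n hn => ?_) ((le_sup_right : M ≤ Subgroup.zpowers a ⊔ M).trans
      Subgroup.le_normalizer)
    have h5 : ∀ n ∈ N, ∀ y, y ∈ Subgroup.zpowers a ⊔ M → n * y * n⁻¹ ∈ Subgroup.zpowers a ⊔ M := by
      intro n hn y hy
      have h1 : y ∈ ((Subgroup.zpowers a ⊔ M : Subgroup G) : Set G) := hy
      rw [Subgroup.mul_normal] at h1
      obtain ⟨z, hz, m, hm, rfl⟩ := Set.mem_mul.1 h1
      have h2 : n * (z * m) * n⁻¹ = (n * z * n⁻¹) * (n * m * n⁻¹) := by group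
      rw [h2]
      refine Subgroup.mul_mem _ (Subgroup.mem_sup_left ?_)
        (Subgroup.mem_sup_right (hMn.conj_mem _ hm n))
      have h3 := (hzc n z).1 hz
      rw [(hN n).1 hn] at h3
      exact h3
    rw [Subgroup.mem_normalizer_iff]
    intro y
    constructor
    · exact h5 n hn y
    · intro hy
      have h6 := h5 n⁻¹ (N.inv_mem hn) _ hy
      simpa [mul_assoc] using h6
  rcases hM.2.2 _ hK le_sup_right with h | h
  · apply ha
    rw [← h]
    exact Subgroup.mem_sup_left (Subgroup.mem_zpowers a)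
  · exact hc (comm_le hMn h)

theorem third [Finite G] {M : Subgroup G} (hM : MaxNormal M) (hc : ¬ commutator G ≤ M)
    {a b : G} (ha : a ∉ M) (hb : b ∉ M) :
    ∃ C : Subgroup G, ¬ C ≤ M ∧ a ∉ C ∧ b ∉ C := by
  rcases le_total (orderOf a) (orderOf b) with h | h
  · exact exists_third hM hc ha h
  · obtain ⟨C, h1, h2, h3⟩ := exists_third hM hc hb h
    exact ⟨C, h1, h3, h2⟩

/-- the case of a nonabelian simple quotient -/
theorem caseB [Finite G] {M : Subgroup G} (hM : MaxNormal M) (hc : ¬ commutator G ≤ M)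
    {a b : G} (hab : Subgroup.closure {a, b} ⊔ M = ⊤) :
    (a ∉ M ∧ 2 * Nat.card {H : Subgroup G // a ∈ H} < Nat.card (Subgroup G)) ∨
    (b ∉ M ∧ 2 * Nat.card {H : Subgroup G // b ∈ H} < Nat.card (Subgroup G)) := by
  rw [sup_pair] at hab
  have ha : a ∉ M := by
    intro h
    apply hc
    refine comm_le hM.1 (y := b) ?_
    rw [sup_assoc, sup_eq_right.2 ((Subgroup.zpowers_le.2 h).trans le_sup_right)] at hab
    exact hab
  have hb : b ∉ M := by
    intro h
    apply hc
    refine comm_le hM.1 (y := a) ?_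
    rw [sup_assoc, sup_eq_right.2 (Subgroup.zpowers_le.2 h)] at hab
    exact hab
  obtain ⟨C, h1, h2, h3⟩ := third hM hc ha hb
  have h4 := Pool.Agent.X42.SubLat.two (m := M) (a := Subgroup.zpowers a) (b := Subgroup.zpowers b)
    (c := C) (by rwa [Subgroup.zpowers_le]) (by rwa [Subgroup.zpowers_le]) h1
    (by rwa [Subgroup.zpowers_le]) (by rwa [Subgroup.zpowers_le])
    (fun H hH1 hH2 => key_gen hM.1 hab (sup_le hH1 hH2))
  simp only [Subgroup.zpowers_le] at h4
  rcases h4 with h4 | h4
  · exact Or.inl ⟨ha, h4⟩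
  · exact Or.inr ⟨hb, h4⟩

/-! ### The case of abelian simple quotients -/

section Split

variable [Finite G] {M : Subgroup G} {x : G}

theorem split_normal (hM : MaxNormal M) (hD : Decomp M (Subgroup.zpowers x)) :
    (Subgroup.zpowers x).Normal := by
  have hxM : x ∉ M := fun h => hD.nle (Subgroup.zpowers_le.2 h)
  have h1 : ∀ g : G, Subgroup.zpowers x = Subgroup.zpowers (g * x * g⁻¹) := by
    intro g
    have h2 : ¬ Subgroup.zpowers (g * x * g⁻¹) ≤ M := by
      intro h
      apply hxM
      have h3 := hM.1.conj_mem _ (Subgroup.zpowers_le.1 h) g⁻¹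
      simpa [mul_assoc] using h3
    have h3 : Subgroup.zpowers x ≤ Subgroup.zpowers (g * x * g⁻¹) := by
      by_contra h
      exact h2 (hD.cover _ h)
    refine Subgroup.eq_of_le_of_card_ge h3 ?_
    have h4 : g * x * g⁻¹ = MulAut.conj g x := rfl
    rw [Nat.card_zpowers, Nat.card_zpowers, h4]
    exact (MulEquiv.orderOf_eq _ _).le
  refine ⟨fun y hy g => ?_⟩
  rw [h1 g]
  obtain ⟨k, rfl⟩ := Subgroup.mem_zpowers_iff.1 hy
  rw [← conj_zpow]
  exact Subgroup.zpow_mem_zpowers _ _

theorem split_commute (hM : MaxNormal M) (hD : Decomp M (Subgroup.zpowers x)) (m z : G)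
    (hm : m ∈ M) (hz : z ∈ Subgroup.zpowers x) : Commute m z := by
  refine Subgroup.commute_of_normal_of_disjoint M (Subgroup.zpowers x) hM.1 (split_normal hM hD) ?_
    m z hm hz
  rw [disjoint_comm, disjoint_iff]
  exact hD.inf_bot

theorem split_sup (hD : Decomp M (Subgroup.zpowers x)) : Subgroup.zpowers x ⊔ M = ⊤ := by
  have h := hD.up ⊤ le_top
  rw [top_inf_eq] at h
  rw [sup_comm]
  exact h

theorem split_prime (hD : Decomp M (Subgroup.zpowers x)) : (orderOf x).Prime := by
  have hat := hD.isAtom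
  have h1 : orderOf x ≠ 1 := by
    intro h
    rw [orderOf_eq_one_iff] at h
    exact hat.1 (Subgroup.zpowers_eq_bot.2 h)
  obtain ⟨q, hq, hqx⟩ := Nat.exists_prime_and_dvd h1
  have h2 : x ^ q = 1 := by
    by_contra h3
    have h4 : Subgroup.zpowers (x ^ q) = Subgroup.zpowers x := by
      refine (hat.le_iff.1 (Subgroup.zpowers_le.2 (Subgroup.pow_mem _ (Subgroup.mem_zpowers x) q))
        ).resolve_left fun h => h3 (Subgroup.zpowers_eq_bot.1 h)
    have h5 : orderOf (x ^ q) = orderOf x := by
      rw [← Nat.card_zpowers, h4, Nat.card_zpowers]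
    rw [orderOf_pow_of_dvd hq.ne_zero hqx] at h5
    exact absurd h5 (Nat.div_lt_self (orderOf_pos x) hq.one_lt).ne
  have h3 : orderOf x ∣ q := orderOf_dvd_of_pow_eq_one h2
  rcases (Nat.dvd_prime hq).1 h3 with h | h
  · exact absurd h h1
  · rw [h]; exact hq

theorem split_card (hM : MaxNormal M) (hD : Decomp M (Subgroup.zpowers x)) :
    Nat.card G = Nat.card M * orderOf x := by
  have hn := hM.1
  have h1 : Subgroup.IsComplement' M (Subgroup.zpowers x) := by
    refine Subgroup.isComplement'_of_disjoint_and_mul_eq_univ ?_ ?_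
    · rw [disjoint_comm, disjoint_iff]
      exact hD.inf_bot
    · rw [← Subgroup.normal_mul, sup_comm, split_sup hD]
      rfl
  rw [← h1.card_mul_card, Nat.card_zpowers]

theorem split_coprime (hM : MaxNormal M) (hD : Decomp M (Subgroup.zpowers x)) :
    ¬ orderOf x ∣ Nat.card M := by
  intro hdvd
  have hp := split_prime hD
  have : Fact (orderOf x).Prime := ⟨hp⟩
  have := Fintype.ofFinite M
  obtain ⟨z, hz⟩ := exists_prime_orderOf_dvd_card' (G := M) (orderOf x) hdvd
  have hxM : x ∉ M := fun h => hD.nle (Subgroup.zpowers_le.2 h)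
  have hz' : orderOf (z : G) = orderOf x := by rw [Subgroup.orderOf_coe, hz]
  have hcz : Commute (z : G) x := split_commute hM hD _ _ z.2 (Subgroup.mem_zpowers x)
  have h1 : (z * x : G) ^ (orderOf x) = 1 := by
    rw [hcz.mul_pow, pow_orderOf_eq_one, mul_one, ← hz', pow_orderOf_eq_one]
  have hzx : (z * x : G) ∉ M := by
    intro h
    apply hxM
    have := M.mul_mem (M.inv_mem z.2) h
    simpa using this
  have h2 : orderOf (z * x : G) = orderOf x := by
    refine ((Nat.dvd_prime hp).1 (orderOf_dvd_of_pow_eq_one h1)).resolve_left fun h => ?_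
    rw [orderOf_eq_one_iff] at h
    exact hzx (h ▸ M.one_mem)
  have h3 : Subgroup.zpowers x ≤ Subgroup.zpowers (z * x : G) := by
    by_contra h
    exact hzx (Subgroup.zpowers_le.1 (hD.cover _ h))
  have h4 : Subgroup.zpowers x = Subgroup.zpowers (z * x : G) := by
    refine Subgroup.eq_of_le_of_card_ge h3 ?_
    rw [Nat.card_zpowers, Nat.card_zpowers, h2]
  have h5 : (z : G) ∈ Subgroup.zpowers x := by
    have h6 : (z * x : G) ∈ Subgroup.zpowers x := by
      rw [h4]; exact Subgroup.mem_zpowers _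
    have := Subgroup.mul_mem _ h6 (Subgroup.inv_mem _ (Subgroup.mem_zpowers x))
    simpa [mul_assoc] using this
  have h6 : (z : G) ∈ Subgroup.zpowers x ⊓ M := ⟨h5, z.2⟩
  rw [hD.inf_bot, Subgroup.mem_bot] at h6
  have h7 : orderOf (z : G) = 1 := by rw [h6, orderOf_one]
  rw [hz'] at h7
  exact hp.ne_one h7

/-- simple quotients of the factor are simple quotients of the group -/
theorem split_quot (hM : MaxNormal M) (hD : Decomp M (Subgroup.zpowers x))
    (hall : ∀ N : Subgroup G, MaxNormal N → commutator G ≤ N) (N : Subgroup M)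
    (hN : MaxNormal N) : commutator M ≤ N := by
  have hsup := split_sup hD
  have hMn := hM.1
  have hle : N.map M.subtype ≤ M := Subgroup.map_subtype_le N
  have hdown := hD.down _ hle
  have hN1 : (N.map M.subtype).Normal := by
    refine ⟨fun n hn g => ?_⟩
    have hg : g ∈ ((Subgroup.zpowers x ⊔ M : Subgroup G) : Set G) := by
      rw [hsup]; trivial
    rw [Subgroup.mul_normal] at hg
    obtain ⟨z, hz, m, hm, rfl⟩ := Set.mem_mul.1 hg
    obtain ⟨n', hn', rfl⟩ := Subgroup.mem_map.1 hn
    have h1 : (⟨m, hm⟩ : M) * n' * (⟨m, hm⟩ : M)⁻¹ ∈ N := hN.1.conj_mem _ hn' _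
    have h2 : m * n' * m⁻¹ ∈ N.map M.subtype := ⟨_, h1, by simp⟩
    have h3 := split_commute hM hD _ z (hle h2) hz
    have h4 : z * m * (M.subtype n') * (z * m)⁻¹ = z * (m * n' * m⁻¹) * z⁻¹ := by
      simp only [Subgroup.coe_subtype]
      group
    rw [h4, ← h3.eq, mul_assoc, mul_inv_cancel, mul_one]
    exact h2
  have hxn := split_normal hM hD
  have hN2 : MaxNormal (N.map M.subtype ⊔ Subgroup.zpowers x) := by
    refine ⟨inferInstance, ?_, fun K hK hNK => ?_⟩
    · intro h
      rw [h, top_inf_eq] at hdown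
      apply hN.2.1
      rw [eq_top_iff]
      intro y _
      have h1 : (y : G) ∈ N.map M.subtype := by
        rw [← hdown]; exact y.2
      obtain ⟨y', hy', h2⟩ := Subgroup.mem_map.1 h1
      have h3 : y' = y := Subtype.ext h2
      exact h3 ▸ hy'
    · have h1 : (K.subgroupOf M).Normal := hK.subgroupOf M
      have h2 : N ≤ K.subgroupOf M := by
        intro y hy
        rw [Subgroup.mem_subgroupOf]
        exact hNK (Subgroup.mem_sup_left ⟨y, hy, rfl⟩)
      have hKx : Subgroup.zpowers x ≤ K := le_sup_right.trans hNK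
      have h3 := hD.up K hKx
      rcases hN.2.2 _ h1 h2 with h | h
      · left
        rw [← h3]
        congr 1
        rw [← h, Subgroup.subgroupOf_map_subtype]
      · right
        rw [Subgroup.subgroupOf_eq_top] at h
        rw [eq_top_iff, ← hsup]
        exact sup_le hKx h
  have h1 := hall _ hN2
  have h2 : (commutator M).map M.subtype ≤ N.map M.subtype := by
    rw [← hdown]
    refine le_inf (le_trans ?_ h1) (Subgroup.map_subtype_le _)
    rw [commutator_def, Subgroup.map_commutator, commutator_def]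
    exact Subgroup.commutator_mono le_top le_top
  exact Subgroup.map_subtype_le_map_subtype.1 h2

theorem split_count (hD : Decomp M (Subgroup.zpowers x)) (y : M)
    (h : 2 * Nat.card {H : Subgroup M // y ∈ H} < Nat.card (Subgroup M)) :
    2 * Nat.card {H : Subgroup G // (y : G) ∈ H} < Nat.card (Subgroup G) := by
  have hy : Subgroup.zpowers (y : G) ≤ M := Subgroup.zpowers_le.2 y.2
  have h1 := hD.card_up hy
  have h2 := hD.card
  have e1 : Nat.card (Set.Iic M) = Nat.card (Subgroup M) :=
    (Nat.card_congr (Subgroup.MapSubtype.orderIso M).toEquiv).symm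
  have e2 : Nat.card {z : Set.Iic M // (⟨Subgroup.zpowers (y : G), hy⟩ : Set.Iic M) ≤ z} =
      Nat.card {H : Subgroup M // y ∈ H} := by
    refine (Nat.card_congr ((Subgroup.MapSubtype.orderIso M).toEquiv.subtypeEquiv fun H => ?_)).symm
    show y ∈ H ↔ Subgroup.zpowers (y : G) ≤ H.map M.subtype
    rw [Subgroup.zpowers_le, Subgroup.mem_map]
    constructor
    · intro hy
      exact ⟨y, hy, rfl⟩
    · rintro ⟨y', hy', h⟩
      have h3 : y' = y := Subtype.ext h
      exact h3 ▸ hy'
  have e3 : Nat.card {H : Subgroup G // (y : G) ∈ H} =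
      Nat.card {H : Subgroup G // Subgroup.zpowers (y : G) ≤ H} := by
    simp only [Subgroup.zpowers_le]
  rw [e3, h1, h2, e1, e2]
  omega

end Split

universe u

theorem main (n : ℕ) : ∀ (G : Type u) [Group G] [Finite G], Nat.card G = n → TwoGen G →
    (∃ x : G, PP x ∧ 2 * Nat.card {H : Subgroup G // x ∈ H} < Nat.card (Subgroup G)) ∨
      (IsCyclic G ∧ Squarefree (Nat.card G)) := by
  induction n using Nat.strong_induction_on with
  | _ n ih =>
    intro G _ _ hn hT
    rcases subsingleton_or_nontrivial G with hs | hs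
    · right
      refine ⟨inferInstance, ?_⟩
      rw [Nat.card_of_subsingleton (1 : G)]
      exact squarefree_one
    by_cases hB : ∃ M : Subgroup G, MaxNormal M ∧ ¬ commutator G ≤ M
    · left
      obtain ⟨M, hM, hc⟩ := hB
      obtain ⟨a, b, ha, hb, hab⟩ := hT M hM hc
      rcases caseB hM hc hab with h | h
      · exact ⟨a, ha, h.2⟩
      · exact ⟨b, hb, h.2⟩
    push Not at hB
    obtain ⟨M, hM⟩ := exists_max (G := G)
    have hc := hB M hM
    obtain ⟨g, hg⟩ : ∃ g : G, g ∉ M := by
      by_contra h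
      push Not at h
      exact hM.2.1 ((Subgroup.eq_top_iff' M).2 h)
    obtain ⟨x, hxM, hx⟩ := exists_pp M _ g rfl hg
    by_cases hst : 2 * Nat.card {H : Subgroup G // x ∈ H} < Nat.card (Subgroup G)
    · exact Or.inl ⟨x, hx, hst⟩
    have hD : Decomp M (Subgroup.zpowers x) := by
      refine Pool.Agent.X42.SubLat.decomp_one (fun h => hxM (Subgroup.zpowers_le.1 h))
        (fun H hH => key_gen hM.1 (sup_top hM hc hxM) hH) ?_
      simp only [Subgroup.zpowers_le]
      omega
    have hlt : Nat.card M < n := by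
      rw [← hn, split_card hM hD]
      exact lt_mul_of_one_lt_right Nat.card_pos (split_prime hD).one_lt
    rcases ih _ hlt M rfl (fun N hN hcN => absurd (split_quot hM hD hB N hN) hcN) with h | h
    · left
      obtain ⟨y, ⟨p, k, hp, hy⟩, h1⟩ := h
      exact ⟨y, ⟨p, k, hp, by rw [Subgroup.orderOf_coe]; exact hy⟩, split_count hD y h1⟩
    · right
      obtain ⟨h1, h2⟩ := h
      have hcop : Nat.Coprime (Nat.card M) (orderOf x) :=
        ((Nat.Prime.coprime_iff_not_dvd (split_prime hD)).2 (split_coprime hM hD)).symm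
      obtain ⟨m, hm⟩ := IsCyclic.exists_ofOrder_eq_natCard (α := M)
      constructor
      · refine isCyclic_of_orderOf_eq_card ((m : G) * x) ?_
        have hcm : Commute (m : G) x := split_commute hM hD _ _ m.2 (Subgroup.mem_zpowers x)
        rw [hcm.orderOf_mul_eq_mul_orderOf_of_coprime (by rw [Subgroup.orderOf_coe, hm]; exact hcop),
          Subgroup.orderOf_coe, hm, split_card hM hD]
      · rw [split_card hM hD, Nat.squarefree_mul hcop]
        exact ⟨h2, (split_prime hD).squarefree⟩

end Pool.Agent.X42.SubGrp
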