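import Pool.Agent.X42.SubGrp

/-! Consequences for union-closed families. -/

set_option autoImplicit false

namespace Pool.Agent.X42.SubGrp

open Pool.Agent.TH903.Semi

theorem twoGen_of_solvable {G : Type*} [Group G] (hG : Group.IsSolvable G) : TwoGen G := by
  intro M hM hc
  exfalso
  apply hc
  have hMn := hM.1
  have hnt : Nontrivial (G ⧸ M) := by
    rw [← not_subsingleton_iff_nontrivial]
    intro h
    exact hM.2.1 (QuotientGroup.subsingleton_iff.1 h)
  have hs : Group.IsSolvable (G ⧸ M) := inferInstance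
  have hlt := Group.IsSolvable.commutator_lt_top_of_nontrivial (G ⧸ M)
  have h1 : ((commutator (G ⧸ M)).comap (QuotientGroup.mk' M)).Normal := inferInstance
  have h2 : M ≤ (commutator (G ⧸ M)).comap (QuotientGroup.mk' M) := by
    intro m hm
    rw [Subgroup.mem_comap, QuotientGroup.mk'_apply, (QuotientGroup.eq_one_iff m).2 hm]
    exact Subgroup.one_mem _
  have h3 : commutator G ≤ (commutator (G ⧸ M)).comap (QuotientGroup.mk' M) := by
    rw [← Subgroup.map_le_iff_le_comap, commutator_def, Subgroup.map_commutator, commutator_def]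
    exact Subgroup.commutator_mono le_top le_top
  rcases hM.2.2 _ h1 h2 with h | h
  · rw [h] at h3
    exact h3
  · exfalso
    refine hlt.ne ?_
    rw [eq_top_iff]
    intro y _
    obtain ⟨g, rfl⟩ := QuotientGroup.mk'_surjective M y
    rw [← Subgroup.mem_comap, h]
    trivial

theorem supIrred_zpowers {G : Type*} [Group G] [Finite G] {x : G} (hx : PP x) (h1 : x ≠ 1) :
    SupIrred (Subgroup.zpowers x) := by
  obtain ⟨p, k, hp, hk⟩ := hx
  have hk0 : k ≠ 0 := by
    rintro rfl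
    rw [pow_zero, orderOf_eq_one_iff] at hk
    exact h1 hk
  have hmax : ∀ H : Subgroup G, H ≤ Subgroup.zpowers x → H ≠ Subgroup.zpowers x →
      H ≤ Subgroup.zpowers (x ^ p) := by
    intro H hH hne h hh
    have h2 : h ∈ Subgroup.zpowers x := hH hh
    rw [← mem_powers_iff_mem_zpowers] at h2
    obtain ⟨n, rfl⟩ := Submonoid.mem_powers_iff _ _ |>.1 h2
    by_cases hpn : p ∣ n
    · obtain ⟨c, rfl⟩ := hpn
      rw [pow_mul]
      exact Subgroup.pow_mem _ (Subgroup.mem_zpowers _) _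
    · exfalso
      apply hne
      refine le_antisymm hH (Subgroup.zpowers_le.2 ?_)
      have hc : n.Coprime (orderOf x) := by
        rw [hk]
        exact Nat.Coprime.pow_right k ((Nat.Prime.coprime_iff_not_dvd hp).2 hpn).symm
      obtain ⟨m, hm⟩ := exists_pow_eq_self_of_coprime hc
      rw [← hm]
      exact H.pow_mem hh m
  refine ⟨?_, fun b c hbc => ?_⟩
  · rw [isMin_iff_eq_bot, Subgroup.zpowers_eq_bot]
    exact h1
  · by_contra hcon
    push Not at hcon
    have hb : b ≤ Subgroup.zpowers x := hbc ▸ le_sup_left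
    have hc : c ≤ Subgroup.zpowers x := hbc ▸ le_sup_right
    have h2 : Subgroup.zpowers x ≤ Subgroup.zpowers (x ^ p) := by
      conv_lhs => rw [← hbc]
      exact sup_le (hmax b hb hcon.1) (hmax c hc hcon.2)
    have h3 := Subgroup.card_le_of_le h2
    rw [Nat.card_zpowers, Nat.card_zpowers,
      orderOf_pow_of_dvd hp.ne_zero (hk ▸ dvd_pow_self p hk0)] at h3
    exact absurd h3 (not_le.2 (Nat.div_lt_self (orderOf_pos x) hp.one_lt))

theorem ne_one_of_strict {G : Type*} [Group G] [Finite G] {x : G}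
    (h : 2 * Nat.card {H : Subgroup G // x ∈ H} < Nat.card (Subgroup G)) : x ≠ 1 := by
  rintro rfl
  have h1 : Nat.card {H : Subgroup G // (1 : G) ∈ H} = Nat.card (Subgroup G) :=
    Nat.card_congr (Equiv.subtypeUnivEquiv fun H => H.one_mem)
  omega

theorem strictJ (G : Type) [Group G] [Finite G] (hT : TwoGen G) : StrictJ (Subgroup G) := by
  rcases main _ G rfl hT with ⟨x, hx, h⟩ | ⟨hc, -⟩
  · left
    refine ⟨Subgroup.zpowers x, supIrred_zpowers hx (ne_one_of_strict h), ?_⟩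
    simp only [Subgroup.zpowers_le]
    exact h
  · let _ := IsCyclic.commGroup (α := G)
    exact strict_lower (Subgroup G)

theorem three (G : Type*) [Group G] [Finite G] (hT : TwoGen G) (h3 : 3 ≤ Nat.card (Subgroup G)) :
    ∃ x : G, 2 * Nat.card {H : Subgroup G // x ∈ H} < Nat.card (Subgroup G) := by
  rcases main _ G rfl hT with ⟨x, -, h⟩ | ⟨hc, -⟩
  · exact ⟨x, h⟩
  · obtain ⟨g, hg⟩ := IsCyclic.exists_generator (α := G)
    refine ⟨g, ?_⟩
    have h1 : Nat.card {H : Subgroup G // g ∈ H} = 1 := by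
      rw [Nat.card_eq_one_iff_unique]
      refine ⟨⟨fun a b => Subtype.ext ?_⟩, ⟨⟨⊤, trivial⟩⟩⟩
      have h2 : ∀ H : Subgroup G, g ∈ H → H = ⊤ := by
        intro H hH
        rw [eq_top_iff]
        intro y _
        exact (Subgroup.zpowers_le.2 hH) (hg y)
      rw [h2 _ a.2, h2 _ b.2]
    omega

theorem fam (G : Type) [Group G] [Finite G] (hT : TwoGen G) {α : Type} [DecidableEq α]
    (A : Finset (Finset α)) (hne : A.Nonempty) (hU : ∀ X ∈ A, ∀ Y ∈ A, X ∪ Y ∈ A)
    (hsep : ∀ x ∈ A.sup id, ∀ y ∈ A.sup id, x ≠ y →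
      ∃ S ∈ A, (x ∈ S ∧ y ∉ S) ∨ (y ∈ S ∧ x ∉ S))
    (hpow : A ≠ (A.sup id).powerset)
    (e : {X : Finset α // X ∈ insert ∅ A} ≃o (Subgroup G)ᵒᵈ) :
    ∃ x ∈ A.sup id, A.card < 2 * (A.filter (fun S => x ∈ S)).card :=
  family A hne hU hsep hpow (Subgroup G) e (strictJ G hT)

/-- lattices with a left modular element and two join-irreducible elements -/
theorem fam_two {L : Type} [Lattice L] [BoundedOrder L] [Finite L] {α : Type} [DecidableEq α]
    (A : Finset (Finset α)) (hne : A.Nonempty) (hU : ∀ X ∈ A, ∀ Y ∈ A, X ∪ Y ∈ A)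
    (hsep : ∀ x ∈ A.sup id, ∀ y ∈ A.sup id, x ≠ y →
      ∃ S ∈ A, (x ∈ S ∧ y ∉ S) ∨ (y ∈ S ∧ x ∉ S))
    (hpow : A ≠ (A.sup id).powerset)
    (e : {X : Finset α // X ∈ insert ∅ A} ≃o Lᵒᵈ) (m a b c : L) (hai : SupIrred a)
    (hbi : SupIrred b) (hm : ∀ x y : L, x ≤ y → (x ⊔ m) ⊓ y = x ⊔ (m ⊓ y))
    (htop : a ⊔ b ⊔ m = ⊤) (ha : ¬ a ≤ m) (hb : ¬ b ≤ m) (hc : ¬ c ≤ m) (hac : ¬ a ≤ c)
    (hbc : ¬ b ≤ c) : ∃ x ∈ A.sup id, A.card < 2 * (A.filter (fun S => x ∈ S)).card := by
  refine family A hne hU hsep hpow L e (Or.inl ?_)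
  rcases Pool.Agent.X42.SubLat.two ha hb hc hac hbc (fun x hax hbx => by
    have h1 := hm (a ⊔ b) x (sup_le hax hbx)
    rw [htop, top_inf_eq] at h1
    rw [sup_comm, inf_comm]
    exact h1.symm) with h | h
  · exact ⟨a, hai, h⟩
  · exact ⟨b, hbi, h⟩

end Pool.Agent.X42.SubGrp
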