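import Pool.Agent.TH903.Semi.Family
import Pool.Agent.TH903.Semi.Lower

/-! Counting elements above given elements in finite lattices. -/

set_option autoImplicit false

namespace Pool.Agent.X42.SubLat

open Finset Pool.Agent.TH903.Semi

variable {L : Type*} [Lattice L] [BoundedOrder L] [Finite L]

/-- equality in the counting argument with one element -/
theorem decomp_one {m j : L} (hjm : ¬ j ≤ m) (key : ∀ x, j ≤ x → (x ⊓ m) ⊔ j = x)
    (heavy : Nat.card L ≤ 2 * Nat.card {x : L // j ≤ x}) : Decomp m j := by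
  classical
  have := Fintype.ofFinite L
  have hmaps : ∀ x ∈ univ.filter (fun x : L => j ≤ x), x ⊓ m ∈ univ.filter (fun x : L => ¬ j ≤ x) := by
    intro x _
    simp only [mem_filter, mem_univ, true_and]
    exact fun h => hjm (h.trans inf_le_right)
  have hinj : Set.InjOn (fun x : L => x ⊓ m) (univ.filter (fun x : L => j ≤ x) : Finset L) := by
    intro x hx y hy hxy
    simp only [coe_filter, mem_univ, true_and, Set.mem_ofPred_eq] at hx hy
    have hxy' : x ⊓ m = y ⊓ m := hxy
    rw [← key x hx, ← key y hy, hxy']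
  have hcard : (univ.filter (fun x : L => ¬ j ≤ x)).card ≤ (univ.filter (fun x : L => j ≤ x)).card := by
    have h2 : Nat.card {x : L // j ≤ x} = (univ.filter (fun x => j ≤ x)).card := by
      rw [Nat.card_eq_fintype_card, Fintype.card_subtype]
    have h3 : Nat.card L = (univ.filter (fun x : L => j ≤ x)).card +
        (univ.filter (fun x => ¬ j ≤ x)).card := by
      rw [Nat.card_eq_fintype_card, ← Finset.card_univ, Finset.card_filter_add_card_filter_not]
    omega
  have hsurj := surj_on_of_inj_on_of_card_le (fun x (_ : x ∈ univ.filter (fun x : L => j ≤ x)) => x ⊓ m)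
    hmaps (fun x y hx hy hxy => hinj hx hy hxy) hcard
  have hcov : ∀ x, ¬ j ≤ x → ∃ y, j ≤ y ∧ x = y ⊓ m := by
    intro x hx
    obtain ⟨y, hy, hxy⟩ := hsurj x (by simp [hx])
    simp only [mem_filter, mem_univ, true_and] at hy
    exact ⟨y, hy, hxy⟩
  refine ⟨hjm, ?_, ?_, key⟩
  · intro x hx
    obtain ⟨y, -, rfl⟩ := hcov x hx
    exact inf_le_right
  · intro y hy
    obtain ⟨z, hz, rfl⟩ := hcov y (fun h => hjm (h.trans hy))
    rw [key z hz]

/-- the counting argument with two elements -/
theorem two {m a b c : L} (ha : ¬ a ≤ m) (hb : ¬ b ≤ m) (hc : ¬ c ≤ m) (hac : ¬ a ≤ c)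
    (hbc : ¬ b ≤ c) (key : ∀ x, a ≤ x → b ≤ x → (x ⊓ m) ⊔ (a ⊔ b) = x) :
    2 * Nat.card {x : L // a ≤ x} < Nat.card L ∨ 2 * Nat.card {x : L // b ≤ x} < Nat.card L := by
  classical
  have := Fintype.ofFinite L
  have e1 : Nat.card {x : L // a ≤ x} = (univ.filter (fun x => a ≤ x)).card := by
    rw [Nat.card_eq_fintype_card, Fintype.card_subtype]
  have e2 : Nat.card {x : L // b ≤ x} = (univ.filter (fun x => b ≤ x)).card := by
    rw [Nat.card_eq_fintype_card, Fintype.card_subtype]
  set A := univ.filter (fun x : L => a ≤ x) with hA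
  set B := univ.filter (fun x : L => b ≤ x) with hB
  have hI : ((A ∩ B).image (fun x => x ⊓ m)).card = (A ∩ B).card := by
    refine card_image_of_injOn ?_
    intro x hx y hy hxy
    rw [Finset.mem_coe, mem_inter, hA, hB, mem_filter, mem_filter] at hx hy
    have hxy' : x ⊓ m = y ⊓ m := hxy
    rw [← key x hx.1.2 hx.2.2, ← key y hy.1.2 hy.2.2, hxy']
  have hd : Disjoint (A ∪ B) (insert c ((A ∩ B).image (fun x => x ⊓ m))) := by
    rw [disjoint_right]
    intro x hx hx2
    rw [mem_union, hA, hB, mem_filter, mem_filter] at hx2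
    rcases mem_insert.1 hx with rfl | hx
    · rcases hx2 with h | h
      · exact hac h.2
      · exact hbc h.2
    · obtain ⟨y, -, rfl⟩ := mem_image.1 hx
      rcases hx2 with h | h
      · exact ha (h.2.trans inf_le_right)
      · exact hb (h.2.trans inf_le_right)
  have hcn : c ∉ (A ∩ B).image (fun x => x ⊓ m) := by
    intro h
    obtain ⟨y, -, hy⟩ := mem_image.1 h
    exact hc (hy ▸ inf_le_right)
  have h1 : ((A ∪ B) ∪ (insert c ((A ∩ B).image (fun x => x ⊓ m)))).card ≤ Nat.card L := by
    rw [Nat.card_eq_fintype_card]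
    exact card_le_univ _
  rw [card_union_of_disjoint hd, card_insert_of_notMem hcn, hI] at h1
  have h2 := card_union_add_card_inter A B
  rw [e1, e2]
  omega

end Pool.Agent.X42.SubLat
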